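import Pool.Agent.Work.MP_b0497c_an.Damp.Stmts

set_option autoImplicit false

/-!
L4, L5: amplitudes of a symmetric field and sizes of the modes of the chain.
-/

namespace Pool.Agent.Work.MP_b0497c_an.Damp

open Set MeasureTheory RealInnerProductSpace Pool.Agent.Work.MP_b0497c_an
open Pool.Agent.Work.MP_b0497c_an.Dec

theorem Amp_vec_apply (k : Fin 3 → ℤ) (i : Fin 3) : vec k i = (k i : ℝ) := by
  fin_cases i <;> simp [vec]

theorem Amp_inner_vec (k : Fin 3 → ℤ) (s : E3) :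
    ⟪vec k, s⟫ = k 0 * s 0 + k 1 * s 1 + k 2 * s 2 := by
  rw [PiLp.inner_apply, Fin.sum_univ_three]
  simp only [Amp_vec_apply, RCLike.inner_apply, conj_trivial]
  ring

theorem Amp_norm_sq (k : Fin 3 → ℤ) :
    ‖vec k‖ ^ 2 = (k 0 : ℝ) ^ 2 + (k 1 : ℝ) ^ 2 + (k 2 : ℝ) ^ 2 := by
  rw [EuclideanSpace.norm_sq_eq, Fin.sum_univ_three]
  simp only [Amp_vec_apply, Real.norm_eq_abs, sq_abs]

theorem Amp_actR_vec (g : Sgn) (c : ℝ) (v : Fin 3 → ℤ) :
    actR g (c • vec v) = c • vec (act g v) := by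
  ext i
  simp only [actR, PiLp.smul_apply, smul_eq_mul, Amp_vec_apply, act]
  push_cast
  ring

theorem Amp_mult_pos (n : ℕ) : (0 : ℤ) < mult n := by
  have h : n % 6 = 0 ∨ n % 6 = 1 ∨ n % 6 = 2 ∨ n % 6 = 3 ∨ n % 6 = 4 ∨ n % 6 = 5 := by omega
  rcases h with h | h | h | h | h | h <;> simp [mult, h]

theorem Amp_kk_apply (n : ℕ) (i : Fin 3) : kk n i = 16 ^ (n / 6) * mult n * dir n i := by
  simp [kk]

theorem Amp_act_smul (g : Sgn) (r : ℤ) (v : Fin 3 → ℤ) : act g (r • v) = r • act g v := by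
  funext i
  simp only [act, Pi.smul_apply, smul_eq_mul]
  ring

/-- the reflection that changes the sign of the first coordinate -/
def Amp_g0 : Sgn := (1, ![-1, 1, 1])

def Amp_g1 : Sgn := (Equiv.swap 0 1, 1)

def Amp_g2 : Sgn := (Equiv.swap 1 2, 1)

theorem Amp_base (S : (Fin 3 → ℤ) → E3) (hS : ∀ g k, S (act g k) = actR g (S k))
    (hd : ∀ k, ⟪vec k, S k⟫ = 0) (n : ℕ) :
    S (kk n) = (⟪S (kk n), vec (ev n)⟫ / eps n) • vec (ev n) := by
  set s := S (kk n) with hs
  have hM : ((16 : ℝ) ^ (n / 6) * (mult n : ℝ)) ≠ 0 := by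
    have h1 : (0 : ℝ) < (mult n : ℝ) := by exact_mod_cast Amp_mult_pos n
    positivity
  have horth : (dir n 0 : ℝ) * s 0 + (dir n 1 : ℝ) * s 1 + (dir n 2 : ℝ) * s 2 = 0 := by
    have h1 := hd (kk n)
    rw [← hs, Amp_inner_vec, Amp_kk_apply, Amp_kk_apply, Amp_kk_apply] at h1
    push_cast at h1
    have h2 : ((16 : ℝ) ^ (n / 6) * (mult n : ℝ)) *
        ((dir n 0 : ℝ) * s 0 + (dir n 1 : ℝ) * s 1 + (dir n 2 : ℝ) * s 2) = 0 := by
      rw [← h1]; ring
    exact (mul_eq_zero.1 h2).resolve_left hM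
  -- reflections that fix the wave vector
  have h0 : dir n 0 = 0 → s 0 = 0 := by
    intro h
    have e1 : act Amp_g0 (kk n) = kk n := by
      funext i
      fin_cases i
      · simp [act, Amp_g0, Amp_kk_apply, h]
      · simp [act, Amp_g0]
      · simp [act, Amp_g0]
    have e2 := hS Amp_g0 (kk n)
    rw [e1, ← hs] at e2
    have e3 := congrArg (fun x : E3 => x 0) e2
    simp [actR, Amp_g0] at e3
    linarith
  have h1 : dir n 0 = dir n 1 → s 0 = s 1 := by
    intro h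
    have e1 : act Amp_g1 (kk n) = kk n := by
      funext i
      fin_cases i
      · simp [act, Amp_g1, Amp_kk_apply, h]
      · simp [act, Amp_g1, Amp_kk_apply, h]
      · simp [act, Amp_g1, Equiv.swap_apply_of_ne_of_ne]
    have e2 := hS Amp_g1 (kk n)
    rw [e1, ← hs] at e2
    have e3 := congrArg (fun x : E3 => x 0) e2
    simp [actR, Amp_g1] at e3
    exact e3
  have h2 : dir n 1 = dir n 2 → s 1 = s 2 := by
    intro h
    have e1 : act Amp_g2 (kk n) = kk n := by
      funext i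
      fin_cases i
      · simp [act, Amp_g2, Equiv.swap_apply_of_ne_of_ne]
      · simp [act, Amp_g2, Amp_kk_apply, h]
      · simp [act, Amp_g2, Amp_kk_apply, h]
    have e2 := hS Amp_g2 (kk n)
    rw [e1, ← hs] at e2
    have e3 := congrArg (fun x : E3 => x 1) e2
    simp [actR, Amp_g2] at e3
    exact e3
  have hin : ⟪s, vec (ev n)⟫ = ev n 0 * s 0 + ev n 1 * s 1 + ev n 2 * s 2 := by
    rw [real_inner_comm, Amp_inner_vec]
  have key : ∀ i, s i = ((ev n 0 * s 0 + ev n 1 * s 1 + ev n 2 * s 2) / eps n) * (ev n i : ℝ) := by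
    have h : n % 6 = 0 ∨ n % 6 = 1 ∨ n % 6 = 2 ∨ n % 6 = 3 ∨ n % 6 = 4 ∨ n % 6 = 5 := by omega
    rcases h with h | h | h | h | h | h
    · have a := h0 (by simp [dir, h])
      simp [dir, h] at horth
      intro i
      fin_cases i <;> simp [ev, eps, h, a] <;> linarith
    · have a := h1 (by simp [dir, h])
      simp [dir, h] at horth
      intro i
      fin_cases i <;> simp [ev, eps, h] <;> linarith
    · have a := h2 (by simp [dir, h])
      simp [dir, h] at horth
      intro i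
      fin_cases i <;> simp [ev, eps, h] <;> linarith
    · have a := h0 (by simp [dir, h])
      simp [dir, h] at horth
      intro i
      fin_cases i <;> simp [ev, eps, h, a] <;> linarith
    · have a := h1 (by simp [dir, h])
      simp [dir, h] at horth
      intro i
      fin_cases i <;> simp [ev, eps, h] <;> linarith
    · have a := h2 (by simp [dir, h])
      simp [dir, h] at horth
      intro i
      fin_cases i <;> simp [ev, eps, h] <;> linarith
  ext i
  rw [hin, PiLp.smul_apply, Amp_vec_apply, smul_eq_mul]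
  exact key i

/-- L4. A symmetric field has one amplitude per shell. -/
theorem claimAmp : ClaimAmp := by
  intro S hS hd n g
  have h1 := Amp_base S hS hd n
  rw [hS g (kk n)]
  conv_lhs => rw [h1]
  rw [Amp_actR_vec]

/-- squared norms, up to the scale -/
def Amp_b (n : ℕ) : ℝ :=
  match n % 6 with
  | 0 => 61
  | 1 => 194
  | 2 => 678
  | 3 => 1556
  | 4 => 5424
  | _ => 6208

theorem Amp_kk_norm_sq (n : ℕ) : ‖vec (kk n)‖ ^ 2 = ((16 : ℝ) ^ (n / 6)) ^ 2 * Amp_b n := by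
  rw [Amp_norm_sq, Amp_kk_apply, Amp_kk_apply, Amp_kk_apply]
  have h : n % 6 = 0 ∨ n % 6 = 1 ∨ n % 6 = 2 ∨ n % 6 = 3 ∨ n % 6 = 4 ∨ n % 6 = 5 := by omega
  rcases h with h | h | h | h | h | h <;> simp [mult, dir, Amp_b, h] <;> ring

theorem Amp_norm_act (g : Sgn) (k : Fin 3 → ℤ) : ‖vec (act g k)‖ = ‖vec k‖ := by
  have h : ‖vec (act g k)‖ ^ 2 = ‖vec k‖ ^ 2 := by
    rw [EuclideanSpace.norm_sq_eq, EuclideanSpace.norm_sq_eq,
      ← Equiv.sum_comp g.1 (fun i => ‖vec k i‖ ^ 2)]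
    refine Finset.sum_congr rfl fun i _ => ?_
    rw [Amp_vec_apply, Amp_vec_apply, Real.norm_eq_abs, Real.norm_eq_abs, sq_abs, sq_abs]
    simp only [act]
    rcases Int.units_eq_one_or (g.2 i) with h | h <;> simp [h]
  exact (sq_eq_sq₀ (norm_nonneg _) (norm_nonneg _)).1 h

/-- L5. Sizes. -/
theorem claimSize : ClaimSize := by
  intro n
  have hP : (0 : ℝ) < 16 ^ (n / 6) := by positivity
  have hb : (49 : ℝ) ≤ Amp_b n ∧ Amp_b n ≤ 6400 := by
    have h : n % 6 = 0 ∨ n % 6 = 1 ∨ n % 6 = 2 ∨ n % 6 = 3 ∨ n % 6 = 4 ∨ n % 6 = 5 := by omega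
    rcases h with h | h | h | h | h | h <;> simp only [Amp_b, h] <;> norm_num
  have hmono : ((16 : ℝ) ^ (n / 6)) ^ 2 * Amp_b n ≤
      ((16 : ℝ) ^ ((n + 1) / 6)) ^ 2 * Amp_b (n + 1) := by
    have h : n % 6 = 0 ∨ n % 6 = 1 ∨ n % 6 = 2 ∨ n % 6 = 3 ∨ n % 6 = 4 ∨ n % 6 = 5 := by omega
    rcases h with h | h | h | h | h | h
    · have h1 : (n + 1) / 6 = n / 6 := by omega
      have h2 : (n + 1) % 6 = 1 := by omega
      simp only [Amp_b, h, h1, h2]
      exact mul_le_mul_of_nonneg_left (by norm_num) (by positivity)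
    · have h1 : (n + 1) / 6 = n / 6 := by omega
      have h2 : (n + 1) % 6 = 2 := by omega
      simp only [Amp_b, h, h1, h2]
      exact mul_le_mul_of_nonneg_left (by norm_num) (by positivity)
    · have h1 : (n + 1) / 6 = n / 6 := by omega
      have h2 : (n + 1) % 6 = 3 := by omega
      simp only [Amp_b, h, h1, h2]
      exact mul_le_mul_of_nonneg_left (by norm_num) (by positivity)
    · have h1 : (n + 1) / 6 = n / 6 := by omega
      have h2 : (n + 1) % 6 = 4 := by omega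
      simp only [Amp_b, h, h1, h2]
      exact mul_le_mul_of_nonneg_left (by norm_num) (by positivity)
    · have h1 : (n + 1) / 6 = n / 6 := by omega
      have h2 : (n + 1) % 6 = 5 := by omega
      simp only [Amp_b, h, h1, h2]
      exact mul_le_mul_of_nonneg_left (by norm_num) (by positivity)
    · have h1 : (n + 1) / 6 = n / 6 + 1 := by omega
      have h2 : (n + 1) % 6 = 0 := by omega
      simp only [Amp_b, h, h1, h2, pow_succ (16 : ℝ) (n / 6)]
      nlinarith [mul_pos hP hP]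
  refine ⟨?_, ?_, ?_, ?_, ?_, ⟨n, 1, ?_⟩, fun g => Amp_norm_act g _, ?_⟩
  · refine le_of_sq_le_sq ?_ (norm_nonneg _)
    rw [Amp_kk_norm_sq]
    nlinarith [mul_pos hP hP]
  · refine le_of_sq_le_sq ?_ (by positivity)
    rw [Amp_kk_norm_sq]
    nlinarith [mul_pos hP hP]
  · refine le_of_sq_le_sq ?_ (norm_nonneg _)
    rw [Amp_kk_norm_sq, Amp_kk_norm_sq]
    exact hmono
  · rw [Amp_norm_sq]
    have h : n % 6 = 0 ∨ n % 6 = 1 ∨ n % 6 = 2 ∨ n % 6 = 3 ∨ n % 6 = 4 ∨ n % 6 = 5 := by omega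
    rcases h with h | h | h | h | h | h <;> simp [ev, eps, h] <;> norm_num
  · rw [Amp_inner_vec, Amp_kk_apply, Amp_kk_apply, Amp_kk_apply]
    simp only [Amp_vec_apply]
    have h : n % 6 = 0 ∨ n % 6 = 1 ∨ n % 6 = 2 ∨ n % 6 = 3 ∨ n % 6 = 4 ∨ n % 6 = 5 := by omega
    rcases h with h | h | h | h | h | h <;> simp [ev, mult, dir, h] <;> ring
  · funext i
    simp [act]
  · rintro k ⟨m, g, rfl⟩
    refine ⟨m, g, 16 ^ (m / 6) * mult m, ?_⟩
    unfold kk
    rw [Amp_act_smul]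

end Pool.Agent.Work.MP_b0497c_an.Damp
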