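import Mathlib
import Pool.Agent.Work.MP_b0497c_an.Dec.Defs

set_option autoImplicit false

/-!
The Euler equations on the torus with a nonnegative linear damping acting frequency by frequency.
-/

namespace Pool.Agent.Work.MP_b0497c_an.Damp

open Set MeasureTheory RealInnerProductSpace Pool.Agent.Work.MP_b0497c_an
open Pool.Agent.Work.MP_b0497c_an.Dec

/-- `u` is a classical solution on `[0, T)` of the damped Euler equations
`∂ₜ u + P ((u · ∇) u) + D u = 0`, where `P` is the Leray projection and `D` multiplies the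
Fourier mode `k` by `D k`: `u` is `C¹` in `(t, x)`, `u t` is periodic and divergence free, and the
equation holds in `L²` against all divergence free modes `cos (k · x) c` and `sin (k · x) c`,
`k · c = 0`. (If `D = 0` this is the Euler equation, if `D k = ν |k|²` the Navier-Stokes
equation.) -/
structure IsDampedSolution (D : (Fin 3 → ℤ) → ℝ) (T : ℝ)
    (u : ℝ → EuclideanSpace ℝ (Fin 3) → EuclideanSpace ℝ (Fin 3)) : Prop where
  contDiff_u : ContDiffOn ℝ 1 (fun z : ℝ × EuclideanSpace ℝ (Fin 3) => u z.1 z.2)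
    (Ico 0 T ×ˢ univ)
  periodic : ∀ t ∈ Ico 0 T, Periodic3 (u t)
  div_free : ∀ t ∈ Ico 0 T, ∀ x,
    LinearMap.trace ℝ (EuclideanSpace ℝ (Fin 3)) (fderiv ℝ (u t) x) = 0
  cos_eq : ∀ t ∈ Ico 0 T, ∀ (k : Fin 3 → ℤ) (c : EuclideanSpace ℝ (Fin 3)), ⟪vec k, c⟫ = 0 →
    (∫ x in cube, Real.cos (phase k x) *
      ⟪derivWithin (fun s => u s x) (Ico 0 T) t + fderiv ℝ (u t) x (u t x), c⟫)
      + D k * ∫ x in cube, Real.cos (phase k x) * ⟪u t x, c⟫ = 0
  sin_eq : ∀ t ∈ Ico 0 T, ∀ (k : Fin 3 → ℤ) (c : EuclideanSpace ℝ (Fin 3)), ⟪vec k, c⟫ = 0 →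
    (∫ x in cube, Real.sin (phase k x) *
      ⟪derivWithin (fun s => u s x) (Ico 0 T) t + fderiv ℝ (u t) x (u t x), c⟫)
      + D k * ∫ x in cube, Real.sin (phase k x) * ⟪u t x, c⟫ = 0

/-- The action of a signed permutation on `ℝ³`. -/
noncomputable def actR (g : Sgn) (x : EuclideanSpace ℝ (Fin 3)) : EuclideanSpace ℝ (Fin 3) :=
  WithLp.toLp 2 fun i => ((g.2 i : ℤ) : ℝ) * x (g.1 i)

/-- `v` is a divergence free trigonometric polynomial which commutes with the signed
permutations of the coordinates. -/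
structure IsDatum (v : EuclideanSpace ℝ (Fin 3) → EuclideanSpace ℝ (Fin 3)) : Prop where
  trig : ∃ (F : Finset (Fin 3 → ℤ)) (b c : (Fin 3 → ℤ) → EuclideanSpace ℝ (Fin 3)), ∀ x,
    v x = ∑ k ∈ F, (Real.cos (phase k x) • b k + Real.sin (phase k x) • c k)
  symm : ∀ (g : Sgn) (x : EuclideanSpace ℝ (Fin 3)), v (actR g x) = actR g (v x)
  div_free : ∀ x, LinearMap.trace ℝ (EuclideanSpace ℝ (Fin 3)) (fderiv ℝ v x) = 0

/-- Six directions. -/
def dir (n : ℕ) : Fin 3 → ℤ :=
  match n % 6 with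
  | 0 => ![0, 5, 6]
  | 1 => ![5, 5, 12]
  | 2 => ![10, 17, 17]
  | 3 => ![0, 10, 17]
  | 4 => ![5, 5, 17]
  | _ => ![5, 6, 6]

/-- Multiplicities. -/
def mult (n : ℕ) : ℤ :=
  match n % 6 with
  | 0 => 1
  | 1 => 1
  | 2 => 1
  | 3 => 2
  | 4 => 4
  | _ => 8

/-- The integer points on the lines spanned by the six directions and their images under the
signed permutations. -/
def Lam : Set (Fin 3 → ℤ) := {k | ∃ (n : ℕ) (g : Sgn) (r : ℤ), k = r • act g (dir n)}

/-- The wave vectors of the chain. -/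
def kk (n : ℕ) : Fin 3 → ℤ := (16 ^ (n / 6) * mult n) • dir n

/-- The modes of the chain. -/
def X : Set (Fin 3 → ℤ) := {k | ∃ (n : ℕ) (g : Sgn), k = act g (kk n)}

end Pool.Agent.Work.MP_b0497c_an.Damp
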