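import Mathlib
import Pool.Agent.Work.MP_b0497c_an.Dec.CubeInt
import Pool.Agent.Work.MP_b0497c_an.Damp.Defs

set_option autoImplicit false

/-!
Damped Euler equations: auxiliary definitions and the list of claims.
-/

namespace Pool.Agent.Work.MP_b0497c_an.Damp

open Set MeasureTheory RealInnerProductSpace Pool.Agent.Work.MP_b0497c_an
open Pool.Agent.Work.MP_b0497c_an.Dec

/-! ### Auxiliary definitions -/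

/-- Cosine coefficient. -/
noncomputable def cc (f : E3 → E3) (k : Fin 3 → ℤ) : E3 := ∫ x in cube, Real.cos (phase k x) • f x

/-- Sine coefficient. -/
noncomputable def sc (f : E3 → E3) (k : Fin 3 → ℤ) : E3 := ∫ x in cube, Real.sin (phase k x) • f x

/-- Sine amplitude: for odd `f` one has `f x = ∑ sin (k · x) • sa f k`. -/
noncomputable def sa (f : E3 → E3) (k : Fin 3 → ℤ) : E3 := ((2 * Real.pi) ^ 3)⁻¹ • sc f k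

/-- `∂ₜ u + (u · ∇) u`. -/
noncomputable def acc (T : ℝ) (u : ℝ → E3 → E3) (t : ℝ) (x : E3) : E3 :=
  derivWithin (fun s => u s x) (Ico 0 T) t + fderiv ℝ (u t) x (u t x)

/-- The inverse of `actR g`. -/
noncomputable def actRi (g : Sgn) (x : E3) : E3 :=
  WithLp.toLp 2 fun i => ((g.2 (g.1.symm i) : ℤ) : ℝ) * x (g.1.symm i)

/-- Polarisations. -/
def ev (n : ℕ) : Fin 3 → ℤ :=
  match n % 6 with
  | 0 => ![0, -6, 5]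
  | 1 => ![6, 6, -5]
  | 2 => ![-17, 5, 5]
  | 3 => ![0, -17, 10]
  | 4 => ![17, 17, -10]
  | _ => ![12, -5, -5]

/-- Squared lengths of the polarisations. -/
def eps (n : ℕ) : ℝ :=
  match n % 6 with
  | 0 => 61
  | 1 => 97
  | 2 => 339
  | 3 => 389
  | 4 => 678
  | _ => 194

/-- Base coupling constants. -/
def qb (n : ℕ) : ℝ :=
  match n % 6 with
  | 0 => 3660
  | 1 => 14938
  | 2 => 115260
  | 3 => 264520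
  | 4 => 417648
  | _ => 93120

/-- Coupling constants. -/
noncomputable def Q (n : ℕ) : ℝ := 16 ^ (n / 6) * qb n

/-- Base weights. -/
def wb (n : ℕ) : ℝ :=
  match n % 6 with
  | 0 => 27
  | 1 => 22
  | 2 => 9
  | 3 => 8
  | 4 => 5
  | _ => 9

/-- Weights. -/
noncomputable def ww (n : ℕ) : ℝ := (49 / 100) ^ (n / 6) * wb n

/-- The modes `p` of the chain with `kk n - p` in the chain, up to the factor `16 ^ (n / 6)`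
(without those one period down). -/
def cpb (n : ℕ) : List (Fin 3 → ℤ) :=
  match n % 6 with
  | 0 => [![-5, 0, -6], ![-5, 5, 12], ![5, 0, -6], ![5, 5, 12]]
  | 1 => [![-12, -5, -5], ![-5, -12, -5], ![0, 5, 6], ![5, 0, 6], ![10, 17, 17], ![17, 10, 17]]
  | 2 => [![-10, -17, 17], ![-10, 17, -17], ![5, 5, 12], ![5, 12, 5], ![20, 0, 34], ![20, 34, 0]]
  | 3 => [![-20, 0, -34], ![-20, 20, 68], ![-17, 10, 17], ![17, 10, 17], ![20, 0, -34],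
      ![20, 20, 68]]
  | 4 => [![-48, 40, 48], ![-20, 68, 20], ![0, 20, 34], ![20, 0, 34], ![40, -48, 48],
      ![68, -20, 20]]
  | _ => [![-40, -48, 48], ![-40, 48, -48], ![20, -20, 68], ![20, 68, -20], ![80, 0, 96],
      ![80, 96, 0]]

/-- The modes `p` of the chain with `kk n - p` in the chain. -/
def cp (n : ℕ) : Finset (Fin 3 → ℤ) :=
  ((cpb n).map (fun p => (16 : ℤ) ^ (n / 6) • p) ++
    (if n % 6 = 0 ∧ n ≠ 0 then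
      [(16 : ℤ) ^ (n / 6 - 1) • ![-48, 40, 48], (16 : ℤ) ^ (n / 6 - 1) • ![48, 40, 48]]
    else [])).toFinset

/-- Parallel vectors. -/
def par (a b : Fin 3 → ℤ) : Prop := a 0 * b 1 = a 1 * b 0 ∧ a 1 * b 2 = a 2 * b 1 ∧
  a 0 * b 2 = a 2 * b 0

/-! ### Fourier series -/

/-- P1. Parseval. -/
def ClaimParseval : Prop := ∀ f g : E3 → E3, Continuous f → Continuous g → Periodic3 f →
  Periodic3 g → HasSum (fun k : Fin 3 → ℤ => ⟪cc f k, cc g k⟫ + ⟪sc f k, sc g k⟫)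
    ((2 * Real.pi) ^ 3 * ∫ x in cube, ⟪f x, g x⟫)

/-- P2. Basic properties of the coefficients of a `C¹` divergence free field. -/
def ClaimBasic : Prop := ∀ f : E3 → E3, ContDiff ℝ 1 f → Periodic3 f →
  (∀ x, LinearMap.trace ℝ E3 (fderiv ℝ f x) = 0) → ∀ k : Fin 3 → ℤ,
    ⟪vec k, cc f k⟫ = 0 ∧ ⟪vec k, sc f k⟫ = 0 ∧ ⟪vec k, sa f k⟫ = 0 ∧ sa f (-k) = -sa f k ∧
    sa f 0 = 0 ∧ (Summable fun k => ‖sa f k‖ ^ 2) ∧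
    ∑' k, ‖sa f k‖ ^ 2 ≤ ((2 * Real.pi) ^ 3)⁻¹ * ∫ x in cube, ‖f x‖ ^ 2 ∧
    ∀ K : ℝ, (∀ x, ‖fderiv ℝ f x‖ ≤ K) → ‖vec k‖ * ‖sa f k‖ ≤ 3 * K

/-- P3. The sine coefficients of `(u · ∇) u` for an odd field. -/
def ClaimConv : Prop := ∀ u : E3 → E3, ContDiff ℝ 1 u → Periodic3 u →
  (∀ x, LinearMap.trace ℝ E3 (fderiv ℝ u x) = 0) → (∀ x, u (-x) = -u x) →
  ∀ (k : Fin 3 → ℤ) (c : E3), ⟪vec k, c⟫ = 0 →
    HasSum (fun p => ⟪sa u p, vec k⟫ * ⟪sa u (k - p), c⟫)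
      (((2 * Real.pi) ^ 3)⁻¹ * ∫ x in cube, Real.sin (phase k x) * ⟪fderiv ℝ u x (u x), c⟫)

/-- P4. Data are finite sine sums. -/
def ClaimDatum : Prop := ∀ v : E3 → E3, IsDatum v → ContDiff ℝ 1 v ∧ Periodic3 v ∧
  (∀ x, v (-x) = -v x) ∧ ∃ F : Finset (Fin 3 → ℤ), (∀ k ∉ F, sa v k = 0) ∧
    ∀ x, v x = ∑ k ∈ F, Real.sin (phase k x) • sa v k

/-! ### Time dependence -/

/-- T1. Continuity of integrals over the cube. -/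
def ClaimIntCont : Prop := ∀ (T : ℝ) (G : ℝ → E3 → ℝ),
  ContinuousOn (fun z : ℝ × E3 => G z.1 z.2) (Ico 0 T ×ˢ univ) →
  ContinuousOn (fun t => ∫ x in cube, G t x) (Ico 0 T)

/-- T2. Derivatives of integrals over the cube. -/
def ClaimIntDeriv : Prop := ∀ (T : ℝ) (G : ℝ → E3 → ℝ),
  ContDiffOn ℝ 1 (fun z : ℝ × E3 => G z.1 z.2) (Ico 0 T ×ˢ univ) →
  ∀ t ∈ Ico 0 T, HasDerivWithinAt (fun s => ∫ x in cube, G s x)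
    (∫ x in cube, derivWithin (fun s => G s x) (Ico 0 T) t) (Ico 0 T) t

/-- E1. The energy identity. -/
def ClaimEnergy : Prop := ∀ (D : (Fin 3 → ℤ) → ℝ) (T : ℝ) (u : ℝ → E3 → E3),
  IsDampedSolution D T u →
  ContinuousOn (fun t => ∫ x in cube, ⟪acc T u t x, u t x⟫) (Ico 0 T) ∧
  (∀ t ∈ Ico 0 T, HasSum (fun k => D k * (‖cc (u t) k‖ ^ 2 + ‖sc (u t) k‖ ^ 2))
    (-((2 * Real.pi) ^ 3 * ∫ x in cube, ⟪acc T u t x, u t x⟫))) ∧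
  ∀ t ∈ Ico 0 T, (∫ x in cube, ‖u t x‖ ^ 2) - (∫ x in cube, ‖u 0 x‖ ^ 2) =
    ∫ s in (0 : ℝ)..t, 2 * ∫ x in cube, ⟪acc T u s x, u s x⟫

/-- U1. Uniqueness. -/
def ClaimUnique : Prop := ∀ (D : (Fin 3 → ℤ) → ℝ) (T₁ T₂ : ℝ) (u v : ℝ → E3 → E3),
  (∀ k, 0 ≤ D k) → IsDampedSolution D T₁ u → IsDampedSolution D T₂ v →
  (∀ x, u 0 x = v 0 x) → ∀ t ∈ Ico 0 (min T₁ T₂), ∀ x, u t x = v t x

/-- S0. Signed permutations preserve integrals over the torus. -/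
def ClaimCubeInv : Prop := ∀ f : E3 → ℝ, Continuous f → Periodic3 f → ∀ g : Sgn,
  ∫ x in cube, f (actR g x) = ∫ x in cube, f x

/-- S1. The coefficients of a symmetric field. -/
def ClaimSaSym : Prop := ∀ f : E3 → E3, Continuous f → Periodic3 f →
  (∀ g x, f (actR g x) = actR g (f x)) → ∀ (g : Sgn) (k : Fin 3 → ℤ),
    sa f (act g k) = actR g (sa f k)

/-- S2. Symmetry propagates. -/
def ClaimSymm : Prop := ∀ (D : (Fin 3 → ℤ) → ℝ) (T : ℝ) (u : ℝ → E3 → E3),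
  (∀ k, 0 ≤ D k) → (∀ g k, D (act g k) = D k) → IsDampedSolution D T u → 0 < T →
  (∀ g x, u 0 (actR g x) = actR g (u 0 x)) →
  ∀ t ∈ Ico 0 T, ∀ g x, u t (actR g x) = actR g (u t x)

/-- O1. The equations for the sine amplitudes. -/
def ClaimOde : Prop := ∀ (D : (Fin 3 → ℤ) → ℝ) (T : ℝ) (u : ℝ → E3 → E3),
  IsDampedSolution D T u → (∀ t ∈ Ico 0 T, ∀ x, u t (-x) = -u t x) →
  ∀ (k : Fin 3 → ℤ) (c : E3), ⟪vec k, c⟫ = 0 →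
    ContinuousOn (fun t => ∑' p, ⟪sa (u t) p, vec k⟫ * ⟪sa (u t) (k - p), c⟫) (Ico 0 T) ∧
    ∀ t ∈ Ico 0 T, (Summable fun p => ⟪sa (u t) p, vec k⟫ * ⟪sa (u t) (k - p), c⟫) ∧
      HasDerivWithinAt (fun s => ⟪sa (u s) k, c⟫)
        (-(∑' p, ⟪sa (u t) p, vec k⟫ * ⟪sa (u t) (k - p), c⟫) - D k * ⟪sa (u t) k, c⟫)
        (Ico 0 T) t

/-! ### The lines and the chain -/

/-- L1. The only triads on the lines through a mode of the chain are those of the chain. -/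
def ClaimClosed : Prop := ∀ (n : ℕ) (p : Fin 3 → ℤ), p ∈ Lam → kk n - p ∈ Lam →
  p ∈ cp n ∨ par p (kk n)

/-- L2. Otherwise one mode is large and off the lines. -/
def ClaimFar : Prop := ∀ (n : ℕ) (p : Fin 3 → ℤ), ¬ (p ∈ Lam ∧ kk n - p ∈ Lam) →
  (p ∉ Lam ∧ ‖vec (kk n)‖ ≤ 2200 * ‖vec p‖) ∨
  (kk n - p ∉ Lam ∧ ‖vec (kk n)‖ ≤ 2200 * ‖vec (kk n - p)‖)

/-- L3. The interactions of the chain. -/
def ClaimChain : Prop := ∀ (S : (Fin 3 → ℤ) → E3) (a : ℕ → ℝ),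
  (∀ n g, S (act g (kk n)) = a n • vec (act g (ev n))) → ∀ n : ℕ,
    ∑ p ∈ cp n, ⟪S p, vec (kk n)⟫ * ⟪S (kk n - p), vec (ev n)⟫ =
      Q n * (a n * a (n + 1)) - (if n = 0 then 0 else Q (n - 1) * a (n - 1) ^ 2)

/-- L4. A symmetric field has one amplitude per shell. -/
def ClaimAmp : Prop := ∀ S : (Fin 3 → ℤ) → E3, (∀ g k, S (act g k) = actR g (S k)) →
  (∀ k, ⟪vec k, S k⟫ = 0) → ∀ (n : ℕ) (g : Sgn),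
    S (act g (kk n)) = (⟪S (kk n), vec (ev n)⟫ / eps n) • vec (act g (ev n))

/-- L5. Sizes. -/
def ClaimSize : Prop := ∀ n : ℕ, 7 * 16 ^ (n / 6) ≤ ‖vec (kk n)‖ ∧
  ‖vec (kk n)‖ ≤ 80 * 16 ^ (n / 6) ∧ ‖vec (kk n)‖ ≤ ‖vec (kk (n + 1))‖ ∧
  ‖vec (ev n)‖ ^ 2 = eps n ∧ ⟪vec (kk n), vec (ev n)⟫ = 0 ∧ kk n ∈ X ∧
  (∀ g, ‖vec (act g (kk n))‖ = ‖vec (kk n)‖) ∧ X ⊆ Lam

/-- R1. The remainder. -/
def ClaimRem : Prop := ∀ (S : (Fin 3 → ℤ) → E3) (K E G : ℝ) (n : ℕ) (c : E3), 0 ≤ E → 0 ≤ G →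
  S 0 = 0 → (∀ k, ⟪vec k, S k⟫ = 0) → (Summable fun k => ‖S k‖ ^ 2) →
  ∑' k, ‖S k‖ ^ 2 ≤ E ^ 2 →
  (∀ F : Finset (Fin 3 → ℤ), (∀ q ∈ F, q ∉ Lam ∧ K ≤ ‖vec q‖) →
    ∑ q ∈ F, ‖vec q‖ ^ (3 / 2 : ℝ) * ‖S q‖ ^ 2 ≤ G ^ 2) →
  2200 * K ≤ ‖vec (kk n)‖ →
  |∑' p, ⟪S p, vec (kk n)⟫ * ⟪S (kk n - p), c⟫ -
    ∑ p ∈ cp n, ⟪S p, vec (kk n)⟫ * ⟪S (kk n - p), c⟫| ≤
    1000 * ‖vec (kk n)‖ ^ (1 / 4 : ℝ) * E * G * ‖c‖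

/-! ### The dyadic inequality -/

/-- W1. The weights. -/
def ClaimW : Prop := ∀ (n : ℕ) (x y : ℝ), ww n * Q n * |x * y| ≤
  39 / 80 * (Q n * ww (n + 1) * x ^ 2 + Q (n + 1) * ww (n + 2) * y ^ 2)

/-- B1. The quadratic form. -/
def ClaimQuad : Prop := ∀ (N M : ℕ) (x : ℕ → ℝ), N < M →
  ww (N + 1) * Q N * x N ^ 2 + 1 / 40 * ∑ n ∈ Finset.Ioc N M, Q n * ww (n + 1) * x n ^ 2
    - Q M * ww (M + 1) * x M ^ 2 - Q (M + 1) * ww (M + 2) * x (M + 1) ^ 2 ≤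
  ∑ n ∈ Finset.Ioc N M, ww n * (Q (n - 1) * x (n - 1) ^ 2 - Q n * (x n * x (n + 1)))

/-- B2. Riccati. -/
def ClaimRic : Prop := ∀ (t₁ T α β : ℝ) (J : ℝ → ℝ), 0 < α → 0 < β → t₁ < T →
  ContinuousOn J (Ico t₁ T) → (∀ t ∈ Ico t₁ T, α + β * ∫ s in t₁..t, J s ^ 2 ≤ J t) →
  T ≤ t₁ + 1 / (α * β)

/-- B3. Blow-up for the perturbed dyadic system. -/
def ClaimBlow : Prop := ∀ (N : ℕ) (α C : ℝ), α ≠ 0 → 0 < C → ∃ c : ℝ, 0 < c ∧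
  ∀ (A ν μ T : ℝ) (a a' r : ℕ → ℝ → ℝ) (d : ℕ → ℝ) (g : ℝ → ℝ), 0 < A → 0 < ν → 0 < T →
  μ ≤ c * A → A ≤ c * ν →
  (∀ n, ∀ t ∈ Ico 0 T, HasDerivWithinAt (a n) (a' n t) (Ico 0 T) t) →
  (∀ n, ContinuousOn (a' n) (Ico 0 T)) →
  (∀ n, ∀ t ∈ Ico 0 T, eps n * a' n t = (if n = 0 then 0 else Q (n - 1) * a (n - 1) t ^ 2) -
    Q n * (a n t * a (n + 1) t) - d n * (eps n * a n t) + r n t) →
  (∀ n, 0 ≤ d n ∧ d n ≤ μ * ‖vec (kk n)‖ ^ (1 / 2 : ℝ)) →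
  (∀ n, N < n → ∀ t ∈ Ico 0 T, |r n t| ≤ C * ‖vec (kk n)‖ ^ (1 / 4 : ℝ) * A * g t) →
  ContinuousOn g (Ico 0 T) → (∀ t ∈ Ico 0 T, 0 ≤ g t) →
  (∀ t ∈ Ico 0 T, ∫ s in (0 : ℝ)..t, g s ^ 2 ≤ C * A ^ 2 / ν) →
  (∀ n, ∀ t ∈ Ico 0 T, |a n t| ≤ C * A) →
  (∀ t ∈ Ico 0 T, ∃ B : ℝ, ∀ n, ∀ s ∈ Icc 0 t, ‖vec (kk n)‖ * |a n s| ≤ B) →
  (∀ t ∈ Ico 0 T, |a' N t| ≤ C * A ^ 2) →
  a N 0 = A * α → (∀ n, N < n → a n 0 = 0) → c * A * T ≤ 1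

/-! ### Existence -/

/-- The properties of the coefficients of a local solution. -/
structure IsCoeff (D : (Fin 3 → ℤ) → ℝ) (T K : ℝ) (S S' : (Fin 3 → ℤ) → ℝ → E3) : Prop where
  deriv : ∀ k, ∀ t ∈ Icc 0 T, HasDerivWithinAt (S k) (S' k t) (Icc 0 T) t
  cont : ∀ k, ContinuousOn (S' k) (Icc 0 T)
  odd : ∀ k, ∀ t ∈ Icc 0 T, S (-k) t = -S k t
  div : ∀ k, ∀ t ∈ Icc 0 T, ⟪vec k, S k t⟫ = 0
  bd : ∀ k, ∀ t ∈ Icc 0 T, ‖S k t‖ ≤ K * Real.exp (-‖vec k‖)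
  bd' : ∀ k, ∀ t ∈ Icc 0 T, ‖S' k t‖ ≤ K * Real.exp (-‖vec k‖)
  eqn : ∀ k, ∀ t ∈ Icc 0 T, ∀ c : E3, ⟪vec k, c⟫ = 0 →
    ⟪S' k t, c⟫ = -(∑' p, ⟪S p t, vec k⟫ * ⟪S (k - p) t, c⟫) - D k * ⟪S k t, c⟫

/-- X1. Local existence for the coefficients. -/
def ClaimCoeff : Prop := ∀ (D : (Fin 3 → ℤ) → ℝ) (F : Finset (Fin 3 → ℤ))
  (b : (Fin 3 → ℤ) → E3), (∀ k, 0 ≤ D k) → (∀ k, D (-k) = D k) → (∀ k ∉ F, b k = 0) →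
  (∀ k, b (-k) = -b k) → (∀ k, ⟪vec k, b k⟫ = 0) →
  ∃ (T K : ℝ) (S S' : (Fin 3 → ℤ) → ℝ → E3), 0 < T ∧ (∀ k, S k 0 = b k) ∧ IsCoeff D T K S S'

/-- X2. From coefficients to a classical solution. -/
def ClaimBuild : Prop := ∀ (D : (Fin 3 → ℤ) → ℝ) (T K : ℝ) (S S' : (Fin 3 → ℤ) → ℝ → E3),
  0 < T → IsCoeff D T K S S' →
  IsDampedSolution D T (fun t x => ∑' k, Real.sin (phase k x) • S k t)

/-- G1. The maximal time. -/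
def ClaimMax : Prop := ∀ (D : (Fin 3 → ℤ) → ℝ) (v : E3 → E3) (B : ℝ), (∀ k, 0 ≤ D k) →
  (∃ T, 0 < T ∧ ∃ u, IsDampedSolution D T u ∧ ∀ x, u 0 x = v x) →
  (∀ T, 0 < T → ∀ u, IsDampedSolution D T u → (∀ x, u 0 x = v x) → T ≤ B) →
  ∃ Ts, 0 < Ts ∧ Ts ≤ B ∧
    ∀ T, 0 < T → ((∃ u, IsDampedSolution D T u ∧ ∀ x, u 0 x = v x) ↔ T ≤ Ts)

/-- Y1. The polynomial. -/
def ClaimPoly : Prop := ∃ (m : ℕ) (P : MvPolynomial (Fin 3) ℝ), P.IsHomogeneous m ∧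
  (∀ y : Fin 3 → ℝ, 0 ≤ MvPolynomial.eval y P) ∧
  (∀ (g : Sgn) (y : Fin 3 → ℝ), MvPolynomial.eval (fun i => ((g.2 i : ℤ) : ℝ) * y (g.1 i)) P =
    MvPolynomial.eval y P) ∧
  (∀ k ∈ Lam, MvPolynomial.eval (fun i => (k i : ℝ)) P = 0) ∧
  (∀ k ∉ Lam, ‖vec k‖ ^ (3 / 2 : ℝ) ≤ MvPolynomial.eval (fun i => (k i : ℝ)) P)

/-! ### Main theorem -/

/-- The main theorem. -/
def ClaimMain : Prop := ∀ (K : ℝ) (v : E3 → E3), IsDatum v →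
  (∃ k ∈ X, 2200 * K ≤ ‖vec k‖ ∧ ∫ x in cube, Real.sin (phase k x) • v x ≠ 0) →
  ∃ c : ℝ, 0 < c ∧ ∀ (ν μ A : ℝ) (D : (Fin 3 → ℤ) → ℝ), 0 < ν → 0 < A → μ ≤ c * A →
    A ≤ c * ν → (∀ k, 0 ≤ D k) → (∀ g k, D (act g k) = D k) →
    (∀ k, k ∉ Lam → K ≤ ‖vec k‖ → ν * ‖vec k‖ ^ (3 / 2 : ℝ) ≤ D k) →
    (∀ k ∈ X, D k ≤ μ * ‖vec k‖ ^ (1 / 2 : ℝ)) →
    (∀ (T : ℝ) (u u' : ℝ → E3 → E3), IsDampedSolution D T u → IsDampedSolution D T u' →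
      (∀ x, u 0 x = A • v x) → (∀ x, u' 0 x = A • v x) → ∀ t ∈ Ico 0 T, u t = u' t) ∧
    ∃ Ts : ℝ, 0 < Ts ∧ c * A * Ts ≤ 1 ∧ ∀ T, 0 < T →
      ((∃ u, IsDampedSolution D T u ∧ ∀ x, u 0 x = A • v x) ↔ T ≤ Ts)

end Pool.Agent.Work.MP_b0497c_an.Damp
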