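import Mathlib
import Pool.Agent.Work.MP_b0497c_an.Tri.Bessel
import Pool.Agent.Work.MP_b0497c_an.Damp.Stmts

set_option autoImplicit false

/-!
Basic properties of the Fourier coefficients of a divergence free field.
-/

namespace Pool.Agent.Work.MP_b0497c_an.Damp

open Set MeasureTheory RealInnerProductSpace Pool.Agent.Work.MP_b0497c_an Filter
open Pool.Agent.Work.MP_b0497c_an.Dec
open scoped ContDiff

theorem Basic_cos_orth {φ : E3 → E3}
    (h1 : ContDiff ℝ 1 φ) (h2 : Periodic3 φ)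
    (h3 : ∀ x, LinearMap.trace ℝ E3 (fderiv ℝ φ x) = 0)
    (k : Fin 3 → ℤ) : ⟪vec k, cc φ k⟫ = 0 := by
  unfold cc
  have hint : IntegrableOn (fun x => Real.cos (phase k x) • φ x) cube :=
    (((Real.continuous_cos.comp (continuous_phase k)).smul h1.continuous).continuousOn).integrableOn_compact
      cube_compact
  rw [← integral_inner hint]
  have hd : ∀ x, HasFDerivAt (fun x => (Real.sin (phase k x)) • φ x)
      (Real.sin (phase k x) • fderiv ℝ φ x +
        ((Real.cos (phase k x)) • innerSL ℝ (vec k)).smulRight (φ x)) x := fun x =>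
    ((hasFDerivAt_phase k x).sin).smul (h1.differentiable (by norm_num) x).hasFDerivAt
  have h4 := per_div_cube (G := fun x => (Real.sin (phase k x)) • φ x)
    ((Real.contDiff_sin.comp ((contDiff_phase k).of_le (by exact_mod_cast le_top))).smul h1)
    (fun j x => by
      have := sin_phase_periodic k j x
      simp only at this
      simp only [this, h2 j x])
  have h5 : ∀ x, ⟪vec k, Real.cos (phase k x) • φ x⟫ = LinearMap.trace ℝ
      E3 (fderiv ℝ (fun x => (Real.sin (phase k x)) • φ x) x) := by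
    intro x
    rw [(hd x).fderiv]
    have e1 : LinearMap.trace ℝ E3
        (Real.sin (phase k x) • fderiv ℝ φ x +
          ((Real.cos (phase k x)) • innerSL ℝ (vec k)).smulRight (φ x) :
          E3 →L[ℝ] E3)
        = Real.sin (phase k x) * LinearMap.trace ℝ E3 (fderiv ℝ φ x)
          + LinearMap.trace ℝ E3
            (((Real.cos (phase k x)) • innerSL ℝ (vec k)).smulRight (φ x) :
              E3 →L[ℝ] E3) := by
      rw [ContinuousLinearMap.coe_add, ContinuousLinearMap.coe_smul, map_add, map_smul,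
        smul_eq_mul]
    rw [e1, h3, trace_smulRight, inner_smul_right]
    ring
  simp only [h5]
  exact h4

theorem Basic_int {E : Type*} [NormedAddCommGroup E] {f : E3 → E}
    (hf : Continuous f) : IntegrableOn f cube :=
  hf.continuousOn.integrableOn_compact cube_compact

/-- Integration by parts, vector valued. -/
theorem Basic_parts {f : E3 → E3} (h1 : ContDiff ℝ 1 f) (h2 : Periodic3 f) (k : Fin 3 → ℤ)
    (j : Fin 3) : (k j : ℝ) • sc f k = ∫ x in cube, Real.cos (phase k x) • fderiv ℝ f x (e j) := by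
  have hcd : Continuous fun x => fderiv ℝ f x (e j) :=
    (h1.continuous_fderiv (by norm_num)).clm_apply continuous_const
  refine ext_inner_left ℝ fun c => ?_
  rw [inner_smul_right]
  unfold sc
  have i1 : IntegrableOn (fun x => Real.sin (phase k x) • f x) cube :=
    Basic_int ((Real.continuous_sin.comp (continuous_phase k)).smul h1.continuous)
  have i2 : IntegrableOn (fun x => Real.cos (phase k x) • fderiv ℝ f x (e j)) cube :=
    Basic_int ((Real.continuous_cos.comp (continuous_phase k)).smul hcd)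
  rw [← integral_inner i1, ← integral_inner i2]
  have hg : ContDiff ℝ 1 fun x => ⟪c, f x⟫ := contDiff_const.inner ℝ h1
  have hp : Periodic3 fun x => ⟪c, f x⟫ := by
    intro i x
    have := h2 i x
    simp only [this]
  have h3 := Tri.Bes.int_cos_deriv hg hp k j
  have h4 : ∀ x, fderiv ℝ (fun x => ⟪c, f x⟫) x (e j) = ⟪c, fderiv ℝ f x (e j)⟫ := by
    intro x
    have h5 : HasFDerivAt (fun x => ⟪c, f x⟫) ((innerSL ℝ c).comp (fderiv ℝ f x)) x :=
      (innerSL ℝ c).hasFDerivAt.comp x (h1.differentiable (by norm_num) x).hasFDerivAt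
    rw [h5.fderiv]
    rfl
  simp only [h4] at h3
  simp only [inner_smul_right]
  exact h3.symm

theorem Basic_grad {f : E3 → E3} (h1 : ContDiff ℝ 1 f) (h2 : Periodic3 f) (k : Fin 3 → ℤ)
    (K : ℝ) (hK : ∀ x, ‖fderiv ℝ f x‖ ≤ K) : ‖vec k‖ * ‖sa f k‖ ≤ 3 * K := by
  have hpos : 0 < (2 * Real.pi) ^ 3 := by positivity
  have hj : ∀ j : Fin 3, |(k j : ℝ)| * ‖sa f k‖ ≤ K := by
    intro j
    have a1 : ‖(k j : ℝ) • sc f k‖ ≤ K * (2 * Real.pi) ^ 3 := by
      rw [Basic_parts h1 h2 k j, ← volume_cube]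
      refine norm_setIntegral_le_of_norm_le_const cube_compact.measure_lt_top fun x _ => ?_
      have a2 : ‖fderiv ℝ f x (e j)‖ ≤ K := by
        have a3 := (fderiv ℝ f x).le_opNorm (e j)
        have a4 : ‖(e j : E3)‖ = 1 := by
          simp [e]
        rw [a4, mul_one] at a3
        exact a3.trans (hK x)
      rw [norm_smul, Real.norm_eq_abs]
      calc |Real.cos (phase k x)| * ‖fderiv ℝ f x (e j)‖ ≤ 1 * K :=
            mul_le_mul (Real.abs_cos_le_one _) a2 (norm_nonneg _) zero_le_one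
        _ = K := one_mul K
    rw [norm_smul, Real.norm_eq_abs] at a1
    unfold sa
    rw [norm_smul, norm_inv, Real.norm_eq_abs, abs_of_pos hpos]
    rw [show |(k j : ℝ)| * (((2 * Real.pi) ^ 3)⁻¹ * ‖sc f k‖) =
      (|(k j : ℝ)| * ‖sc f k‖) / (2 * Real.pi) ^ 3 by field_simp]
    rw [div_le_iff₀ hpos]
    exact a1
  have hv : ‖vec k‖ ≤ |(k 0 : ℝ)| + |(k 1 : ℝ)| + |(k 2 : ℝ)| := by
    have h3 : ‖vec k‖ ^ 2 = (k 0 : ℝ) ^ 2 + (k 1 : ℝ) ^ 2 + (k 2 : ℝ) ^ 2 := by
      rw [norm_sq_eq]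
      simp [vec]
    refine abs_le_of_sq_le_sq' ?_ (by positivity) |>.2
    rw [h3]
    have b0 := abs_nonneg (k 0 : ℝ)
    have b1 := abs_nonneg (k 1 : ℝ)
    have b2 := abs_nonneg (k 2 : ℝ)
    rw [← sq_abs (k 0 : ℝ), ← sq_abs (k 1 : ℝ), ← sq_abs (k 2 : ℝ)]
    nlinarith [mul_nonneg b0 b1, mul_nonneg b0 b2, mul_nonneg b1 b2]
  calc ‖vec k‖ * ‖sa f k‖ ≤ (|(k 0 : ℝ)| + |(k 1 : ℝ)| + |(k 2 : ℝ)|) * ‖sa f k‖ :=
        mul_le_mul_of_nonneg_right hv (norm_nonneg _)
    _ = |(k 0 : ℝ)| * ‖sa f k‖ + |(k 1 : ℝ)| * ‖sa f k‖ + |(k 2 : ℝ)| * ‖sa f k‖ := by ring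
    _ ≤ 3 * K := by
        have := hj 0
        have := hj 1
        have := hj 2
        linarith

theorem claimBasic (hP : ClaimParseval) : ClaimBasic := by
  intro f h1 h2 h3 k
  have hpos : 0 < (2 * Real.pi) ^ 3 := by positivity
  have hs : ⟪vec k, sc f k⟫ = 0 := sin_coeff_orth h1 h2 h3 k
  have hsum := hP f f h1.continuous h1.continuous h2 h2
  have hsum' : Summable fun k => ‖sc f k‖ ^ 2 := by
    refine Summable.of_nonneg_of_le (fun k => by positivity) (fun k => ?_) hsum.summable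
    rw [real_inner_self_eq_norm_sq, real_inner_self_eq_norm_sq]
    have : 0 ≤ ‖cc f k‖ ^ 2 := by positivity
    linarith
  have hle : ∑' k, ‖sc f k‖ ^ 2 ≤ (2 * Real.pi) ^ 3 * ∫ x in cube, ‖f x‖ ^ 2 := by
    have h4 : ∑' k, ‖sc f k‖ ^ 2 ≤ ∑' k, (⟪cc f k, cc f k⟫ + ⟪sc f k, sc f k⟫) := by
      refine Summable.tsum_le_tsum (fun k => ?_) hsum' hsum.summable
      rw [real_inner_self_eq_norm_sq, real_inner_self_eq_norm_sq]
      have : 0 ≤ ‖cc f k‖ ^ 2 := by positivity
      linarith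
    rw [hsum.tsum_eq] at h4
    simpa only [real_inner_self_eq_norm_sq] using h4
  have hsa : ∀ k, ‖sa f k‖ ^ 2 = (((2 * Real.pi) ^ 3)⁻¹) ^ 2 * ‖sc f k‖ ^ 2 := by
    intro k
    unfold sa
    rw [norm_smul, mul_pow, norm_inv, Real.norm_eq_abs, abs_of_pos hpos]
  refine ⟨Basic_cos_orth h1 h2 h3 k, hs, ?_, ?_, ?_, ?_, ?_, Basic_grad h1 h2 k⟩
  · unfold sa
    rw [inner_smul_right, hs, mul_zero]
  · unfold sa sc
    simp only [phase_neg_left, Real.sin_neg, neg_smul]
    rw [integral_neg, smul_neg]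
  · unfold sa sc
    simp [phase_zero]
  · simp only [hsa]
    exact hsum'.mul_left _
  · simp only [hsa]
    rw [tsum_mul_left]
    calc (((2 * Real.pi) ^ 3)⁻¹) ^ 2 * ∑' k, ‖sc f k‖ ^ 2
        ≤ (((2 * Real.pi) ^ 3)⁻¹) ^ 2 * ((2 * Real.pi) ^ 3 * ∫ x in cube, ‖f x‖ ^ 2) :=
          mul_le_mul_of_nonneg_left hle (by positivity)
      _ = ((2 * Real.pi) ^ 3)⁻¹ * ∫ x in cube, ‖f x‖ ^ 2 := by
          field_simp

end Pool.Agent.Work.MP_b0497c_an.Damp
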