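import Mathlib
import Pool.Agent.Work.MP_b0497c_an.Damp.Stmts

set_option autoImplicit false

/-!
Damped Euler equations: blow-up for the perturbed dyadic system (item B3).
-/

namespace Pool.Agent.Work.MP_b0497c_an.Damp

open Set MeasureTheory RealInnerProductSpace Pool.Agent.Work.MP_b0497c_an
open Pool.Agent.Work.MP_b0497c_an.Dec

/-! ### Elementary bounds -/

theorem Blow_eps (n : ℕ) : 61 ≤ eps n ∧ eps n ≤ 678 := by
  unfold eps
  split <;> norm_num

theorem Blow_wb (n : ℕ) : 5 ≤ wb n ∧ wb n ≤ 27 := by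
  unfold wb
  split <;> norm_num

theorem Blow_qb (n : ℕ) : 3660 ≤ qb n ∧ qb n ≤ 417648 := by
  unfold qb
  split <;> norm_num

theorem Blow_ww_pos (n : ℕ) : 0 < ww n := by
  unfold ww
  have := (Blow_wb n).1
  positivity

theorem Blow_ww_le (n : ℕ) : ww n ≤ 27 * (49 / 100) ^ (n / 6) := by
  unfold ww
  rw [mul_comm]
  exact mul_le_mul_of_nonneg_right (Blow_wb n).2 (by positivity)

theorem Blow_ww_succ (n : ℕ) : 49 / 20 * (49 / 100) ^ (n / 6) ≤ ww (n + 1) := by
  unfold ww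
  have h1 : (49 / 100 : ℝ) ^ (n / 6 + 1) ≤ (49 / 100) ^ ((n + 1) / 6) :=
    pow_le_pow_of_le_one (by norm_num) (by norm_num) (by omega)
  have h2 := (Blow_wb (n + 1)).1
  have h3 : (0 : ℝ) < (49 / 100) ^ ((n + 1) / 6) := by positivity
  rw [pow_succ] at h1
  nlinarith

theorem Blow_Q_pos (n : ℕ) : 0 < Q n := by
  unfold Q
  have := (Blow_qb n).1
  positivity

theorem Blow_Q_ge (n : ℕ) : 3660 * 16 ^ (n / 6) ≤ Q n := by
  unfold Q
  rw [mul_comm]
  exact mul_le_mul_of_nonneg_left (Blow_qb n).1 (by positivity)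

theorem Blow_Q_le (n : ℕ) : Q n ≤ 417648 * 16 ^ (n / 6) := by
  unfold Q
  rw [mul_comm]
  exact mul_le_mul_of_nonneg_right (Blow_qb n).2 (by positivity)

/-- powers of the period index are summable -/
theorem Blow_summable (ρ σ : ℝ) (hρ : 0 ≤ ρ) (hσ : 0 < σ) (hσ1 : σ < 1) (h : ρ ≤ σ ^ 6) :
    Summable fun n : ℕ => ρ ^ (n / 6) := by
  have h1 : Summable fun n : ℕ => (σ ^ 5)⁻¹ * σ ^ n :=
    (summable_geometric_of_lt_one hσ.le hσ1).mul_left _
  refine Summable.of_nonneg_of_le (fun n => by positivity) (fun n => ?_) h1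
  have h2 : ρ ^ (n / 6) ≤ σ ^ (6 * (n / 6)) := by
    rw [pow_mul]
    exact pow_le_pow_left₀ hρ h _
  have h3 : σ ^ (6 * (n / 6) + 5) ≤ σ ^ n := pow_le_pow_of_le_one hσ.le hσ1.le (by omega)
  rw [pow_add] at h3
  rw [← div_eq_inv_mul, le_div_iff₀ (by positivity)]
  exact (mul_le_mul_of_nonneg_right h2 (by positivity)).trans h3

theorem Blow_sum49 : Summable fun n : ℕ => (49 / 100 : ℝ) ^ (n / 6) :=
  Blow_summable _ (9 / 10) (by norm_num) (by norm_num) (by norm_num) (by norm_num)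

theorem Blow_sum98 : Summable fun n : ℕ => (98 / 100 : ℝ) ^ (n / 6) :=
  Blow_summable _ (997 / 1000) (by norm_num) (by norm_num) (by norm_num) (by norm_num)

theorem Blow_sum16 : Summable fun n : ℕ => (1 / 16 : ℝ) ^ (n / 6) :=
  Blow_summable _ (9 / 10) (by norm_num) (by norm_num) (by norm_num) (by norm_num)

/-- the coefficient in the Cauchy-Schwarz inequality -/
noncomputable def Blow_f (n : ℕ) : ℝ := (ww n * eps n) ^ 2 / (Q n * ww (n + 1))

theorem Blow_f_pos (n : ℕ) : 0 < Blow_f n := by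
  have h1 := Blow_ww_pos n
  have h2 := (Blow_eps n).1
  have h3 := Blow_Q_pos n
  have h4 := Blow_ww_pos (n + 1)
  have h5 : 0 < eps n := by linarith
  unfold Blow_f
  positivity

theorem Blow_f_le (n : ℕ) : Blow_f n * 16 ^ (n / 6) ≤ 40000 * (49 / 100) ^ (n / 6) := by
  have h1 := Blow_ww_pos n
  have h1' := Blow_ww_le n
  have h2 := Blow_eps n
  have h3 := Blow_Q_ge n
  have h4 := Blow_ww_succ n
  have hp : (0 : ℝ) < (49 / 100) ^ (n / 6) := by positivity
  have hs : (0 : ℝ) < 16 ^ (n / 6) := by positivity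
  set p : ℝ := (49 / 100) ^ (n / 6) with hpd
  set s : ℝ := 16 ^ (n / 6) with hsd
  have h5 : ww n * eps n ≤ 27 * p * 678 := by
    apply mul_le_mul h1' h2.2 (by linarith) (by positivity)
  have h6 : (ww n * eps n) ^ 2 ≤ (27 * p * 678) ^ 2 :=
    pow_le_pow_left₀ (mul_nonneg h1.le (by linarith)) h5 2
  have h7 : 3660 * s * (49 / 20 * p) ≤ Q n * ww (n + 1) :=
    mul_le_mul h3 h4 (by positivity) (Blow_Q_pos n).le
  have h8 : 0 < Q n * ww (n + 1) := mul_pos (Blow_Q_pos n) (Blow_ww_pos (n + 1))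
  unfold Blow_f
  rw [div_mul_eq_mul_div, div_le_iff₀ h8]
  calc (ww n * eps n) ^ 2 * s ≤ (27 * p * 678) ^ 2 * s := mul_le_mul_of_nonneg_right h6 hs.le
    _ ≤ 40000 * p * (3660 * s * (49 / 20 * p)) := by
        have : 0 < p * p * s := by positivity
        nlinarith
    _ ≤ 40000 * p * (Q n * ww (n + 1)) := mul_le_mul_of_nonneg_left h7 (by positivity)

theorem Blow_f_summable : Summable Blow_f := by
  refine Summable.of_nonneg_of_le (fun n => (Blow_f_pos n).le) (fun n => ?_)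
    (Blow_sum49.mul_left 40000)
  have h1 := Blow_f_le n
  have h2 : (1 : ℝ) ≤ 16 ^ (n / 6) := one_le_pow₀ (by norm_num)
  have h3 := Blow_f_pos n
  nlinarith

theorem Blow_fk_summable (hS : ClaimSize) : Summable fun n => ‖vec (kk n)‖ * Blow_f n := by
  refine Summable.of_nonneg_of_le (fun n => mul_nonneg (norm_nonneg _) (Blow_f_pos n).le)
    (fun n => ?_) (Blow_sum49.mul_left (80 * 40000))
  have h1 := Blow_f_le n
  have h2 := (hS n).2.1
  have h3 := Blow_f_pos n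
  calc ‖vec (kk n)‖ * Blow_f n ≤ (80 * 16 ^ (n / 6)) * Blow_f n :=
        mul_le_mul_of_nonneg_right h2 h3.le
    _ = 80 * (Blow_f n * 16 ^ (n / 6)) := by ring
    _ ≤ 80 * (40000 * (49 / 100) ^ (n / 6)) := mul_le_mul_of_nonneg_left h1 (by norm_num)
    _ = 80 * 40000 * (49 / 100) ^ (n / 6) := by ring

theorem Blow_quarter (hS : ClaimSize) (n : ℕ) : ‖vec (kk n)‖ ^ (1 / 4 : ℝ) ≤ 3 * 2 ^ (n / 6) := by
  have h1 := (hS n).2.1
  have h2 : ‖vec (kk n)‖ ≤ (3 * 2 ^ (n / 6)) ^ (4 : ℕ) := by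
    have h3 : ((3 : ℝ) * 2 ^ (n / 6)) ^ (4 : ℕ) = 81 * 16 ^ (n / 6) := by
      rw [mul_pow, ← pow_mul, mul_comm (n / 6) 4, pow_mul]
      norm_num
    rw [h3]
    have : (0 : ℝ) < 16 ^ (n / 6) := by positivity
    linarith
  calc ‖vec (kk n)‖ ^ (1 / 4 : ℝ) ≤ ((3 * 2 ^ (n / 6)) ^ (4 : ℕ)) ^ (1 / 4 : ℝ) :=
        Real.rpow_le_rpow (norm_nonneg _) h2 (by norm_num)
    _ = 3 * 2 ^ (n / 6) := by
        rw [← Real.rpow_natCast, ← Real.rpow_mul (by positivity)]
        norm_num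

theorem Blow_wk_summable (hS : ClaimSize) :
    Summable fun n => ww n * ‖vec (kk n)‖ ^ (1 / 4 : ℝ) := by
  refine Summable.of_nonneg_of_le (fun n => mul_nonneg (Blow_ww_pos n).le (by positivity))
    (fun n => ?_) (Blow_sum98.mul_left 81)
  calc ww n * ‖vec (kk n)‖ ^ (1 / 4 : ℝ) ≤ (27 * (49 / 100) ^ (n / 6)) * (3 * 2 ^ (n / 6)) :=
        mul_le_mul (Blow_ww_le n) (Blow_quarter hS n) (by positivity) (by positivity)
    _ = 81 * ((49 / 100) ^ (n / 6) * 2 ^ (n / 6)) := by ring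
    _ = 81 * (98 / 100) ^ (n / 6) := by
        rw [← mul_pow]
        norm_num

/-- the boundary terms are small -/
theorem Blow_bnd (hS : ClaimSize) (n : ℕ) (x B : ℝ) (h : ‖vec (kk n)‖ * |x| ≤ B) :
    Q n * ww (n + 1) * x ^ 2 ≤ 300000 * B ^ 2 * (1 / 16) ^ (n / 6) := by
  have h1 := (hS n).1
  have hs : (0 : ℝ) < 16 ^ (n / 6) := by positivity
  have hB : 0 ≤ B := le_trans (mul_nonneg (norm_nonneg _) (abs_nonneg _)) h
  have h2 : 7 * 16 ^ (n / 6) * |x| ≤ B :=
    (mul_le_mul_of_nonneg_right h1 (abs_nonneg _)).trans h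
  have h3 : (7 * 16 ^ (n / 6) * |x|) ^ 2 ≤ B ^ 2 :=
    pow_le_pow_left₀ (by positivity) h2 2
  rw [mul_pow, mul_pow, sq_abs] at h3
  have h4 := Blow_Q_le n
  have h5 : ww (n + 1) ≤ 27 := by
    have h6 := Blow_ww_le (n + 1)
    have h7 : (49 / 100 : ℝ) ^ ((n + 1) / 6) ≤ 1 := pow_le_one₀ (by norm_num) (by norm_num)
    linarith
  have h6 : Q n * ww (n + 1) ≤ 417648 * 16 ^ (n / 6) * 27 :=
    mul_le_mul h4 h5 (Blow_ww_pos _).le (by positivity)
  have h7 : (1 / 16 : ℝ) ^ (n / 6) = 1 / 16 ^ (n / 6) := by rw [div_pow, one_pow]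
  rw [h7, mul_one_div, le_div_iff₀ hs]
  have hx : 0 ≤ x ^ 2 := sq_nonneg x
  calc Q n * ww (n + 1) * x ^ 2 * 16 ^ (n / 6)
      ≤ 417648 * 16 ^ (n / 6) * 27 * x ^ 2 * 16 ^ (n / 6) := by gcongr
    _ = (417648 * 27 / 49) * (7 ^ 2 * (16 ^ (n / 6)) ^ 2 * x ^ 2) := by ring
    _ ≤ (417648 * 27 / 49) * B ^ 2 := mul_le_mul_of_nonneg_left h3 (by norm_num)
    _ ≤ 300000 * B ^ 2 := by nlinarith [sq_nonneg B]

/-! ### The main inequality -/

/-- The truncated functional. -/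
noncomputable def Blow_J (N M : ℕ) (x : ℕ → ℝ) : ℝ :=
  ∑ n ∈ Finset.Ioc N M, ww n * eps n * x n

theorem Blow_J_sq (N M : ℕ) (x : ℕ → ℝ) : Blow_J N M x ^ 2 ≤
    (∑' n, Blow_f n) * ∑ n ∈ Finset.Ioc N M, Q n * ww (n + 1) * x n ^ 2 := by
  have hq : ∀ n, 0 < Q n * ww (n + 1) := fun n => mul_pos (Blow_Q_pos n) (Blow_ww_pos (n + 1))
  have h1 : Blow_J N M x ^ 2 ≤ (∑ n ∈ Finset.Ioc N M, Blow_f n) *
      ∑ n ∈ Finset.Ioc N M, Q n * ww (n + 1) * x n ^ 2 := by
    unfold Blow_J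
    apply Finset.sum_sq_le_sum_mul_sum_of_sq_le_mul
    · intro n _
      exact (Blow_f_pos n).le
    · intro n _
      exact mul_nonneg (hq n).le (sq_nonneg _)
    · intro n _
      unfold Blow_f
      rw [div_mul_eq_mul_div, le_div_iff₀ (hq n)]
      apply le_of_eq
      ring
  refine h1.trans (mul_le_mul_of_nonneg_right ?_ ?_)
  · exact Blow_f_summable.sum_le_tsum _ (fun n _ => (Blow_f_pos n).le)
  · exact Finset.sum_nonneg fun n _ => mul_nonneg (hq n).le (sq_nonneg _)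

/-- The differential inequality at one time. -/
theorem Blow_point (hS : ClaimSize) (hQ : ClaimQuad) (N M : ℕ) (hNM : N < M) (x x' d r : ℕ → ℝ)
    (μ A G η R : ℝ)
    (heq : ∀ n, N < n → eps n * x' n = Q (n - 1) * x (n - 1) ^ 2 - Q n * (x n * x (n + 1)) -
      d n * (eps n * x n) + r n)
    (hd : ∀ n, 0 ≤ d n ∧ d n ≤ μ * ‖vec (kk n)‖ ^ (1 / 2 : ℝ))
    (hr : ∀ n, N < n → |r n| ≤ R * ‖vec (kk n)‖ ^ (1 / 4 : ℝ) * A * G)
    (hR : 0 ≤ R) (hA : 0 ≤ A) (hG : 0 ≤ G)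
    (hb : Q M * ww (M + 1) * x M ^ 2 + Q (M + 1) * ww (M + 2) * x (M + 1) ^ 2 ≤ η) :
    ww (N + 1) * Q N * x N ^ 2 + 1 / (80 * ∑' n, Blow_f n) * Blow_J N M x ^ 2 - η -
      μ ^ 2 * (20 * ∑' n, ‖vec (kk n)‖ * Blow_f n) -
      R * (∑' n, ww n * ‖vec (kk n)‖ ^ (1 / 4 : ℝ)) * A * G ≤ Blow_J N M x' := by
  have hq : ∀ n, 0 < Q n * ww (n + 1) := fun n => mul_pos (Blow_Q_pos n) (Blow_ww_pos (n + 1))
  have h0 : Blow_J N M x' = (∑ n ∈ Finset.Ioc N M, ww n * (Q (n - 1) * x (n - 1) ^ 2 -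
      Q n * (x n * x (n + 1)))) - (∑ n ∈ Finset.Ioc N M, ww n * (d n * (eps n * x n))) +
      ∑ n ∈ Finset.Ioc N M, ww n * r n := by
    unfold Blow_J
    rw [← Finset.sum_sub_distrib, ← Finset.sum_add_distrib]
    apply Finset.sum_congr rfl
    intro n hn
    rw [mul_assoc, heq n (Finset.mem_Ioc.1 hn).1]
    ring
  have h1 := hQ N M x hNM
  -- damping
  have h2 : ∑ n ∈ Finset.Ioc N M, ww n * (d n * (eps n * x n)) ≤
      1 / 80 * (∑ n ∈ Finset.Ioc N M, Q n * ww (n + 1) * x n ^ 2) +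
      μ ^ 2 * (20 * ∑' n, ‖vec (kk n)‖ * Blow_f n) := by
    have h3 : ∀ n ∈ Finset.Ioc N M, ww n * (d n * (eps n * x n)) ≤
        1 / 80 * (Q n * ww (n + 1) * x n ^ 2) + μ ^ 2 * (20 * (‖vec (kk n)‖ * Blow_f n)) := by
      intro n _
      have h4 : d n ^ 2 ≤ μ ^ 2 * ‖vec (kk n)‖ := by
        have h5 : d n ^ 2 ≤ (μ * ‖vec (kk n)‖ ^ (1 / 2 : ℝ)) ^ 2 :=
          pow_le_pow_left₀ (hd n).1 (hd n).2 2
        rw [mul_pow, ← Real.rpow_natCast (‖vec (kk n)‖ ^ (1 / 2 : ℝ)) 2,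
          ← Real.rpow_mul (norm_nonneg _)] at h5
        norm_num at h5
        exact h5
      have h5 : ww n * (d n * (eps n * x n)) ≤ 1 / 80 * (Q n * ww (n + 1) * x n ^ 2) +
          20 * (d n ^ 2 * Blow_f n) := by
        have h6 : d n ^ 2 * Blow_f n = (d n * (ww n * eps n)) ^ 2 / (Q n * ww (n + 1)) := by
          unfold Blow_f
          ring
        rw [h6]
        have hqn := hq n
        set q := Q n * ww (n + 1) with hqd
        set y := d n * (ww n * eps n) with hyd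
        have h7 : ww n * (d n * (eps n * x n)) = y * x n := by rw [hyd]; ring
        rw [h7]
        have h8 : 0 ≤ (q * x n - 40 * y) ^ 2 / (80 * q) := by positivity
        have h9 : (q * x n - 40 * y) ^ 2 / (80 * q) =
            1 / 80 * (q * x n ^ 2) + 20 * (y ^ 2 / q) - y * x n := by
          field_simp
          ring
        linarith
      have h6 : d n ^ 2 * Blow_f n ≤ μ ^ 2 * ‖vec (kk n)‖ * Blow_f n :=
        mul_le_mul_of_nonneg_right h4 (Blow_f_pos n).le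
      linarith
    have h4 := Finset.sum_le_sum h3
    rw [Finset.sum_add_distrib, ← Finset.mul_sum, ← Finset.mul_sum, ← Finset.mul_sum] at h4
    have h5 : ∑ n ∈ Finset.Ioc N M, ‖vec (kk n)‖ * Blow_f n ≤ ∑' n, ‖vec (kk n)‖ * Blow_f n :=
      (Blow_fk_summable hS).sum_le_tsum _ (fun n _ => mul_nonneg (norm_nonneg _) (Blow_f_pos n).le)
    have h6 : μ ^ 2 * (20 * ∑ n ∈ Finset.Ioc N M, ‖vec (kk n)‖ * Blow_f n) ≤
        μ ^ 2 * (20 * ∑' n, ‖vec (kk n)‖ * Blow_f n) := by gcongr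
    linarith
  -- remainder
  have h3 : -(R * (∑' n, ww n * ‖vec (kk n)‖ ^ (1 / 4 : ℝ)) * A * G) ≤
      ∑ n ∈ Finset.Ioc N M, ww n * r n := by
    have h4 : ∀ n ∈ Finset.Ioc N M, -(R * A * G * (ww n * ‖vec (kk n)‖ ^ (1 / 4 : ℝ))) ≤
        ww n * r n := by
      intro n hn
      have h5 := hr n (Finset.mem_Ioc.1 hn).1
      have h6 := neg_abs_le (r n)
      have h7 := Blow_ww_pos n
      calc -(R * A * G * (ww n * ‖vec (kk n)‖ ^ (1 / 4 : ℝ)))
          = ww n * -(R * ‖vec (kk n)‖ ^ (1 / 4 : ℝ) * A * G) := by ring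
        _ ≤ ww n * r n := mul_le_mul_of_nonneg_left (by linarith) h7.le
    have h5 := Finset.sum_le_sum h4
    rw [Finset.sum_neg_distrib, ← Finset.mul_sum] at h5
    have h6 : ∑ n ∈ Finset.Ioc N M, ww n * ‖vec (kk n)‖ ^ (1 / 4 : ℝ) ≤
        ∑' n, ww n * ‖vec (kk n)‖ ^ (1 / 4 : ℝ) :=
      (Blow_wk_summable hS).sum_le_tsum _ (fun n _ => mul_nonneg (Blow_ww_pos n).le (by positivity))
    have h7 : R * A * G * ∑ n ∈ Finset.Ioc N M, ww n * ‖vec (kk n)‖ ^ (1 / 4 : ℝ) ≤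
        R * A * G * ∑' n, ww n * ‖vec (kk n)‖ ^ (1 / 4 : ℝ) :=
      mul_le_mul_of_nonneg_left h6 (by positivity)
    linarith
  -- Cauchy-Schwarz
  have h4 : 1 / (80 * ∑' n, Blow_f n) * Blow_J N M x ^ 2 ≤
      1 / 80 * ∑ n ∈ Finset.Ioc N M, Q n * ww (n + 1) * x n ^ 2 := by
    have h5 := Blow_J_sq N M x
    have h6 : 0 < ∑' n, Blow_f n := Blow_f_summable.tsum_pos (fun n => (Blow_f_pos n).le) 0
      (Blow_f_pos 0)
    rw [div_mul_eq_mul_div, one_mul, div_le_iff₀ (by positivity)]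
    linarith
  rw [h0]
  linarith

/-- Lower bound for the first amplitude. -/
theorem Blow_first {T α C A : ℝ} {f f' : ℝ → ℝ} (hC : 0 < C) (hA : 0 < A)
    (hder : ∀ t ∈ Ico 0 T, HasDerivWithinAt f (f' t) (Ico 0 T) t)
    (hb : ∀ t ∈ Ico 0 T, |f' t| ≤ C * A ^ 2) (h0 : f 0 = A * α) {s : ℝ} (hs : s ∈ Ico 0 T)
    (hs1 : s ≤ |α| / (2 * C * A)) : (|α| * A / 2) ^ 2 ≤ f s ^ 2 := by
  have hT : (0 : ℝ) ∈ Ico 0 T := ⟨le_rfl, hs.1.trans_lt hs.2⟩
  have h1 := Convex.norm_image_sub_le_of_norm_hasDerivWithin_le (f := f) (f' := f')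
    (C := C * A ^ 2) hder (fun x hx => by rw [Real.norm_eq_abs]; exact hb x hx)
    (convex_Ico 0 T) hT hs
  rw [Real.norm_eq_abs, Real.norm_eq_abs, sub_zero, abs_of_nonneg hs.1, h0] at h1
  have h2 : C * A ^ 2 * s ≤ |α| * A / 2 := by
    rw [le_div_iff₀ (by positivity)] at hs1
    nlinarith
  have h3 : |A * α| = |α| * A := by rw [abs_mul, abs_of_pos hA, mul_comm]
  have h4 : |A * α| - |f s - A * α| ≤ |f s| := by
    have h5 := abs_sub_abs_le_abs_sub (A * α) (A * α - f s)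
    have h6 : A * α - (A * α - f s) = f s := by ring
    rw [h6, abs_sub_comm (A * α) (f s)] at h5
    exact h5
  have h5 : |α| * A / 2 ≤ |f s| := by
    rw [h3] at h4
    linarith
  rw [← sq_abs (f s)]
  exact pow_le_pow_left₀ (by positivity) h5 2

theorem Blow_first_int {T α C A W t : ℝ} {f f' : ℝ → ℝ} (hC : 0 < C) (hA : 0 < A) (hW : 0 ≤ W)
    (hder : ∀ t ∈ Ico 0 T, HasDerivWithinAt f (f' t) (Ico 0 T) t)
    (hb : ∀ t ∈ Ico 0 T, |f' t| ≤ C * A ^ 2) (h0 : f 0 = A * α)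
    (ht1 : |α| / (2 * C * A) ≤ t) (ht : t < T) :
    W * |α| ^ 3 / (8 * C) * A ≤ ∫ s in (0 : ℝ)..t, W * f s ^ 2 := by
  set t₁ := |α| / (2 * C * A) with ht₁
  have ht1' : 0 ≤ t₁ := by positivity
  have hcont : ContinuousOn (fun s => W * f s ^ 2) (Icc 0 t) := by
    have h1 : ContinuousOn f (Ico 0 T) := fun x hx => (hder x hx).continuousWithinAt
    exact continuousOn_const.mul ((h1.mono fun x hx => ⟨hx.1, hx.2.trans_lt ht⟩).pow 2)
  have hi1 : IntervalIntegrable (fun s => W * f s ^ 2) volume 0 t₁ :=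
    (hcont.mono (Icc_subset_Icc_right ht1)).intervalIntegrable_of_Icc ht1'
  have hi2 : IntervalIntegrable (fun s => W * f s ^ 2) volume t₁ t :=
    (hcont.mono (Icc_subset_Icc_left ht1')).intervalIntegrable_of_Icc ht1
  rw [← intervalIntegral.integral_add_adjacent_intervals hi1 hi2]
  have h1 : 0 ≤ ∫ s in t₁..t, W * f s ^ 2 :=
    intervalIntegral.integral_nonneg ht1 fun s _ => mul_nonneg hW (sq_nonneg _)
  have h2 : ∫ _ in (0 : ℝ)..t₁, W * (|α| * A / 2) ^ 2 ≤ ∫ s in (0 : ℝ)..t₁, W * f s ^ 2 := by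
    apply intervalIntegral.integral_mono_on ht1' (by simp) hi1
    intro s hs
    exact mul_le_mul_of_nonneg_left
      (Blow_first hC hA hder hb h0 ⟨hs.1, (hs.2.trans ht1).trans_lt ht⟩ hs.2) hW
  rw [intervalIntegral.integral_const, sub_zero, smul_eq_mul] at h2
  have h3 : t₁ * (W * (|α| * A / 2) ^ 2) = W * |α| ^ 3 / (8 * C) * A := by
    rw [ht₁]
    field_simp
    ring
  linarith

theorem claimBlow (hQ : ClaimQuad) (hRic : ClaimRic) (hS : ClaimSize) : ClaimBlow := by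
  intro N α C hα hC
  have hαp : 0 < |α| := abs_pos.2 hα
  set F : ℝ := ∑' n, Blow_f n with hF
  have hFp : 0 < F := Blow_f_summable.tsum_pos (fun n => (Blow_f_pos n).le) 0 (Blow_f_pos 0)
  set K1 : ℝ := 20 * ∑' n, ‖vec (kk n)‖ * Blow_f n with hK1
  have hK1p : 0 ≤ K1 := mul_nonneg (by norm_num)
    (tsum_nonneg fun n => mul_nonneg (norm_nonneg _) (Blow_f_pos n).le)
  set Z : ℝ := ∑' n, ww n * ‖vec (kk n)‖ ^ (1 / 4 : ℝ) with hZ
  have hZp : 0 ≤ Z := tsum_nonneg fun n => mul_nonneg (Blow_ww_pos n).le (by positivity)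
  set K2 : ℝ := C * Z + 1 with hK2
  have hK2p : 0 < K2 := by positivity
  set W : ℝ := ww (N + 1) * Q N with hW
  have hWp : 0 < W := mul_pos (Blow_ww_pos _) (Blow_Q_pos _)
  set c2 : ℝ := W * |α| ^ 3 / (8 * C) with hc2
  have hc2p : 0 < c2 := by positivity
  set K : ℝ := |α| / (2 * C) + 160 * F / c2 + 1 with hK
  have hKp : 0 < K := by positivity
  set P1 : ℝ := 8 * K1 * K / c2 with hP1
  have hP1p : 0 ≤ P1 := by positivity
  set P2 : ℝ := 16 * K2 ^ 2 * C * K / c2 ^ 2 with hP2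
  have hP2p : 0 ≤ P2 := by positivity
  set c : ℝ := 1 / (K + P1 + P2 + 1) with hc
  have hcp : 0 < c := by positivity
  have hcK : c * K ≤ 1 := by
    rw [hc, div_mul_eq_mul_div, one_mul, div_le_one (by positivity)]
    linarith
  have hc1 : c ≤ 1 := by
    rw [hc, div_le_one (by positivity)]
    linarith
  have hcP1 : c * P1 ≤ 1 := by
    rw [hc, div_mul_eq_mul_div, one_mul, div_le_one (by positivity)]
    linarith
  have hcP2 : c * P2 ≤ 1 := by
    rw [hc, div_mul_eq_mul_div, one_mul, div_le_one (by positivity)]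
    linarith
  refine ⟨c, hcp, ?_⟩
  intro A ν μ T a a' r d g hA hν hT hμ hAν hder hcont' heq hd hr hg hg0 hgint ha hB ha'N haN0 han0
  by_contra hcon
  push Not at hcon
  have hμ0 : 0 ≤ μ := by
    have h1 := (hd 0).1.trans (hd 0).2
    have h2 : 0 < ‖vec (kk 0)‖ ^ (1 / 2 : ℝ) := by
      apply Real.rpow_pos_of_pos
      have := (hS 0).1
      have h3 : (0 : ℝ) < 7 * 16 ^ (0 / 6) := by positivity
      linarith
    by_contra hneg
    push Not at hneg
    nlinarith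
  set T' : ℝ := K / A with hT'
  have hT'p : 0 < T' := by positivity
  have hT'T : T' < T := by
    rw [hT', div_lt_iff₀ hA]
    have h1 : K * (c * A * T) = (c * K) * (T * A) := by ring
    have h2 : K < K * (c * A * T) := by nlinarith
    have h3 : (c * K) * (T * A) ≤ 1 * (T * A) := mul_le_mul_of_nonneg_right hcK (by positivity)
    linarith
  set t₁ : ℝ := |α| / (2 * C * A) with ht₁
  have ht₁p : 0 < t₁ := by positivity
  have ht₁T : t₁ < T' := by
    rw [ht₁, hT', div_lt_div_iff₀ (by positivity) hA]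
    have h1 : |α| / (2 * C) < K := by
      have : 0 < 160 * F / c2 := by positivity
      rw [hK]
      linarith
    rw [div_lt_iff₀ (by positivity)] at h1
    nlinarith
  set η : ℝ := c2 * A / (8 * T') with hη
  have hηp : 0 < η := by positivity
  -- the cut-off
  obtain ⟨B, hBd⟩ := hB T' ⟨hT'p.le, hT'T⟩
  obtain ⟨M, hNM, hM⟩ : ∃ M, N < M ∧ ∀ s ∈ Icc 0 T', Q M * ww (M + 1) * a M s ^ 2 +
      Q (M + 1) * ww (M + 2) * a (M + 1) s ^ 2 ≤ η := by
    have h1 := Blow_sum16.tendsto_atTop_zero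
    have h2 : Filter.Tendsto (fun n : ℕ => 300000 * B ^ 2 * (1 / 16 : ℝ) ^ (n / 6) +
        300000 * B ^ 2 * (1 / 16 : ℝ) ^ ((n + 1) / 6)) Filter.atTop (nhds 0) := by
      have h3 := (h1.const_mul (300000 * B ^ 2)).add
        (((Filter.tendsto_add_atTop_iff_nat 1).2 h1).const_mul (300000 * B ^ 2))
      simpa using h3
    obtain ⟨M, hM1, hM2⟩ := ((h2.eventually (gt_mem_nhds hηp)).and
      (Filter.eventually_gt_atTop N)).exists
    refine ⟨M, hM2, fun s hs => ?_⟩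
    have h4 := Blow_bnd hS M (a M s) B (hBd M s hs)
    have h5 := Blow_bnd hS (M + 1) (a (M + 1) s) B (hBd (M + 1) s hs)
    linarith
  set J : ℝ → ℝ := fun s => Blow_J N M (fun n => a n s) with hJ
  set J' : ℝ → ℝ := fun s => Blow_J N M (fun n => a' n s) with hJ'
  have hJder : ∀ s ∈ Ico 0 T, HasDerivWithinAt J (J' s) (Ico 0 T) s := by
    intro s hs
    simp only [hJ, hJ']
    unfold Blow_J
    exact HasDerivWithinAt.fun_sum fun n _ => (hder n s hs).const_mul _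
  have hJc : ContinuousOn J (Ico 0 T) := fun s hs => (hJder s hs).continuousWithinAt
  have hJ'c : ContinuousOn J' (Ico 0 T) := by
    simp only [hJ']
    unfold Blow_J
    exact continuousOn_finsetSum _ fun n _ => continuousOn_const.mul (hcont' n)
  have haNc : ContinuousOn (a N) (Ico 0 T) := fun s hs => (hder N s hs).continuousWithinAt
  have hJ0 : J 0 = 0 := by
    simp only [hJ]
    unfold Blow_J
    apply Finset.sum_eq_zero
    intro n hn
    change ww n * eps n * a n 0 = 0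
    rw [han0 n (Finset.mem_Ioc.1 hn).1, mul_zero]
  set lam : ℝ := 4 * K2 * K / (c2 * A) with hlam
  have hlamp : 0 < lam := by positivity
  set β : ℝ := 1 / (80 * F) with hβ
  have hβp : 0 < β := by positivity
  set E : ℝ := η + μ ^ 2 * K1 + K2 * A / (2 * lam) with hE
  have hsub : ∀ {t}, t ≤ T' → Icc 0 t ⊆ Ico 0 T := fun ht s hs =>
    ⟨hs.1, (hs.2.trans ht).trans_lt hT'T⟩
  -- the pointwise inequality
  have hpt : ∀ s ∈ Icc 0 T', W * a N s ^ 2 + β * J s ^ 2 - E - K2 * A * lam / 2 * g s ^ 2 ≤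
      J' s := by
    intro s hs
    have hsT : s ∈ Ico 0 T := hsub le_rfl hs
    have h1 := Blow_point hS hQ N M hNM (fun n => a n s) (fun n => a' n s) d (fun n => r n s)
      μ A (g s) η C
      (fun n hn => by
        have h2 := heq n s hsT
        rw [if_neg (by omega)] at h2
        exact h2)
      hd (fun n hn => hr n hn s hsT) hC.le hA.le (hg0 s hsT) (hM s hs)
    have h2 : C * Z * A * g s ≤ K2 * A / (2 * lam) + K2 * A * lam / 2 * g s ^ 2 := by
      have h3 : C * Z * A * g s ≤ K2 * A * g s := by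
        have h4 := hg0 s hsT
        have h5 : C * Z ≤ K2 := by rw [hK2]; linarith
        gcongr
      have h4 : 0 ≤ K2 * A * ((1 - lam * g s) ^ 2 / (2 * lam)) := by positivity
      have h5 : K2 * A * ((1 - lam * g s) ^ 2 / (2 * lam)) =
          K2 * A / (2 * lam) + K2 * A * lam / 2 * g s ^ 2 - K2 * A * g s := by
        field_simp
        ring
      linarith
    have h3 : W * a N s ^ 2 + β * J s ^ 2 - η - μ ^ 2 * K1 - C * Z * A * g s ≤ J' s := h1
    rw [hE]
    linarith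
  -- integration
  have hint : ∀ t ∈ Icc t₁ T', c2 * A / 2 + β * ∫ s in t₁..t, J s ^ 2 ≤ J t := by
    intro t ht
    have ht0 : 0 ≤ t := ht₁p.le.trans ht.1
    have hss : Icc 0 t ⊆ Ico 0 T := hsub ht.2
    have htT : t < T := ht.2.trans_lt hT'T
    have hFTC : ∫ s in (0 : ℝ)..t, J' s = J t - J 0 := by
      apply intervalIntegral.integral_eq_sub_of_hasDeriv_right_of_le ht0 (hJc.mono hss)
      · intro s hs
        have h1 : Ico 0 T ∈ nhds s := Ico_mem_nhds hs.1 (hs.2.trans htT)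
        exact ((hJder s ⟨hs.1.le, hs.2.trans htT⟩).hasDerivAt h1).hasDerivWithinAt
      · exact (hJ'c.mono hss).intervalIntegrable_of_Icc ht0
    have hcW : ContinuousOn (fun s => W * a N s ^ 2) (Icc 0 t) :=
      continuousOn_const.mul ((haNc.mono hss).pow 2)
    have hcJ : ContinuousOn (fun s => β * J s ^ 2) (Icc 0 t) :=
      continuousOn_const.mul ((hJc.mono hss).pow 2)
    have hcg : ContinuousOn (fun s => K2 * A * lam / 2 * g s ^ 2) (Icc 0 t) :=
      continuousOn_const.mul ((hg.mono hss).pow 2)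
    have hiW := hcW.intervalIntegrable_of_Icc (μ := volume) ht0
    have hiJ := hcJ.intervalIntegrable_of_Icc (μ := volume) ht0
    have hig := hcg.intervalIntegrable_of_Icc (μ := volume) ht0
    have hiE : IntervalIntegrable (fun _ : ℝ => E) volume 0 t := by simp
    have h1 : ∫ s in (0 : ℝ)..t, (W * a N s ^ 2 + β * J s ^ 2 - E -
        K2 * A * lam / 2 * g s ^ 2) ≤ ∫ s in (0 : ℝ)..t, J' s := by
      apply intervalIntegral.integral_mono_on ht0 (((hiW.add hiJ).sub hiE).sub hig)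
        ((hJ'c.mono hss).intervalIntegrable_of_Icc ht0)
      intro s hs
      exact hpt s ⟨hs.1, hs.2.trans ht.2⟩
    rw [intervalIntegral.integral_sub ((hiW.add hiJ).sub hiE) hig,
      intervalIntegral.integral_sub (hiW.add hiJ) hiE, intervalIntegral.integral_add hiW hiJ,
      hFTC, hJ0, sub_zero, intervalIntegral.integral_const, sub_zero, smul_eq_mul] at h1
    have h2 : c2 * A ≤ ∫ s in (0 : ℝ)..t, W * a N s ^ 2 :=
      Blow_first_int hC hA hWp.le (hder N) ha'N haN0 ht.1 htT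
    have h3 : β * ∫ s in t₁..t, J s ^ 2 ≤ ∫ s in (0 : ℝ)..t, β * J s ^ 2 := by
      have hi1 : IntervalIntegrable (fun s => β * J s ^ 2) volume 0 t₁ :=
        (hcJ.mono (Icc_subset_Icc_right ht.1)).intervalIntegrable_of_Icc ht₁p.le
      have hi2 : IntervalIntegrable (fun s => β * J s ^ 2) volume t₁ t :=
        (hcJ.mono (Icc_subset_Icc_left ht₁p.le)).intervalIntegrable_of_Icc ht.1
      have h5 : ∫ s in t₁..t, β * J s ^ 2 = β * ∫ s in t₁..t, J s ^ 2 :=
        intervalIntegral.integral_const_mul _ _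
      rw [← intervalIntegral.integral_add_adjacent_intervals hi1 hi2, h5]
      have h4 : 0 ≤ ∫ s in (0 : ℝ)..t₁, β * J s ^ 2 :=
        intervalIntegral.integral_nonneg ht₁p.le fun s _ => mul_nonneg hβp.le (sq_nonneg _)
      linarith
    have h4 : t * E ≤ 3 * (c2 * A / 8) := by
      have hE0 : 0 ≤ E := by positivity
      have h5 : t * E ≤ T' * E := mul_le_mul_of_nonneg_right ht.2 hE0
      have h6 : T' * η = c2 * A / 8 := by
        rw [hη]
        field_simp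
      have h7 : T' * (K2 * A / (2 * lam)) = c2 * A / 8 := by
        rw [hlam, hT']
        field_simp
        ring
      have h8 : T' * (μ ^ 2 * K1) ≤ c2 * A / 8 := by
        have h9 : μ ^ 2 ≤ (c * A) ^ 2 := pow_le_pow_left₀ hμ0 hμ 2
        have h10 : T' * (μ ^ 2 * K1) ≤ T' * ((c * A) ^ 2 * K1) := by gcongr
        have h11 : T' * ((c * A) ^ 2 * K1) = c * (c * P1) * (c2 * A / 8) := by
          rw [hT', hP1]
          field_simp
        have h12 : c * (c * P1) ≤ 1 := by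
          have : 0 ≤ c * P1 := by positivity
          nlinarith
        have h13 : c * (c * P1) * (c2 * A / 8) ≤ 1 * (c2 * A / 8) :=
          mul_le_mul_of_nonneg_right h12 (by positivity)
        linarith
      have h9 : T' * E = T' * η + T' * (μ ^ 2 * K1) + T' * (K2 * A / (2 * lam)) := by
        rw [hE]
        ring
      linarith
    have h5 : ∫ s in (0 : ℝ)..t, K2 * A * lam / 2 * g s ^ 2 ≤ c2 * A / 8 := by
      rw [intervalIntegral.integral_const_mul]
      have h6 := hgint t ⟨ht0, htT⟩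
      have h7 : K2 * A * lam / 2 * ∫ s in (0 : ℝ)..t, g s ^ 2 ≤
          K2 * A * lam / 2 * (C * A ^ 2 / ν) := mul_le_mul_of_nonneg_left h6 (by positivity)
      have h8 : K2 * A * lam / 2 * (C * A ^ 2 / ν) = (P2 * A / ν) * (c2 * A / 8) := by
        rw [hlam, hP2]
        field_simp
        ring
      have h9 : P2 * A / ν ≤ 1 := by
        rw [div_le_one hν]
        calc P2 * A ≤ P2 * (c * ν) := mul_le_mul_of_nonneg_left hAν hP2p
          _ = (c * P2) * ν := by ring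
          _ ≤ 1 * ν := mul_le_mul_of_nonneg_right hcP2 hν.le
          _ = ν := one_mul ν
      have h10 : (P2 * A / ν) * (c2 * A / 8) ≤ 1 * (c2 * A / 8) :=
        mul_le_mul_of_nonneg_right h9 (by positivity)
      linarith
    linarith
  -- Riccati
  have hfin := hRic t₁ T' (c2 * A / 2) β J (by positivity) hβp ht₁T
    (hJc.mono fun s hs => ⟨ht₁p.le.trans hs.1, hs.2.trans hT'T⟩)
    (fun t ht => hint t ⟨ht.1, ht.2.le⟩)
  have h1 : t₁ + 1 / (c2 * A / 2 * β) = (|α| / (2 * C) + 160 * F / c2) / A := by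
    rw [ht₁, hβ]
    field_simp
    ring
  rw [h1, hT', div_le_div_iff_of_pos_right hA, hK] at hfin
  linarith

end Pool.Agent.Work.MP_b0497c_an.Damp
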