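import Mathlib
import Pool.Agent.Work.MP_b0497c_an.Dec.Fields
import Pool.Agent.Work.MP_b0497c_an.Damp.Stmts

set_option autoImplicit false

/-!
X2. From coefficients to a classical solution.
-/

namespace Pool.Agent.Work.MP_b0497c_an.Damp

open Set MeasureTheory RealInnerProductSpace Pool.Agent.Work.MP_b0497c_an Filter Topology
open Pool.Agent.Work.MP_b0497c_an.Dec
open scoped ContDiff

/-! ### Summability over the lattice -/

theorem build_vec_apply (k : Fin 3 → ℤ) (i : Fin 3) : vec k i = k i := by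
  fin_cases i <;> simp [vec]

theorem build_abs_le (k : Fin 3 → ℤ) (i : Fin 3) : |(k i : ℝ)| ≤ ‖vec k‖ := by
  have h := PiLp.norm_apply_le (vec k) i
  rwa [build_vec_apply, Real.norm_eq_abs] at h

theorem build_summable_int {c : ℝ} (hc : 0 < c) :
    Summable fun j : ℤ => Real.exp (-(c * |(j : ℝ)|)) := by
  have h : Summable fun n : ℕ => Real.exp (n * (-c)) :=
    Real.summable_exp_nat_mul_iff.mpr (by linarith)
  refine Summable.of_nat_of_neg ?_ ?_
  · refine h.congr fun n => ?_
    congr 1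
    rw [Int.cast_natCast, abs_of_nonneg (Nat.cast_nonneg n)]
    ring
  · refine h.congr fun n => ?_
    congr 1
    rw [Int.cast_neg, abs_neg, Int.cast_natCast, abs_of_nonneg (Nat.cast_nonneg n)]
    ring

theorem build_summable_exp {c : ℝ} (hc : 0 < c) :
    Summable fun k : Fin 3 → ℤ => Real.exp (-(c * ‖vec k‖)) := by
  have h1 := build_summable_int (c := c / 3) (by positivity)
  have h3 : Summable fun q : ℤ × ℤ =>
      Real.exp (-(c / 3 * |(q.1 : ℝ)|)) * Real.exp (-(c / 3 * |(q.2 : ℝ)|)) :=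
    h1.mul_of_nonneg h1 (fun _ => (Real.exp_pos _).le) (fun _ => (Real.exp_pos _).le)
  have h2 : Summable fun q : ℤ × ℤ × ℤ => Real.exp (-(c / 3 * |(q.1 : ℝ)|)) *
      (Real.exp (-(c / 3 * |(q.2.1 : ℝ)|)) * Real.exp (-(c / 3 * |(q.2.2 : ℝ)|))) :=
    h1.mul_of_nonneg h3 (fun _ => (Real.exp_pos _).le)
      (fun _ => mul_nonneg (Real.exp_pos _).le (Real.exp_pos _).le)
  have hinj : Function.Injective fun k : Fin 3 → ℤ => (k 0, k 1, k 2) := by
    intro k l h
    simp only [Prod.mk.injEq] at h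
    funext i
    fin_cases i
    · exact h.1
    · exact h.2.1
    · exact h.2.2
  refine Summable.of_nonneg_of_le (fun _ => (Real.exp_pos _).le) (fun k => ?_)
    (h2.comp_injective hinj)
  simp only [Function.comp]
  rw [← Real.exp_add, ← Real.exp_add, Real.exp_le_exp]
  have e0 := build_abs_le k 0
  have e1 := build_abs_le k 1
  have e2 := build_abs_le k 2
  nlinarith

theorem build_summable_wt :
    Summable fun k : Fin 3 → ℤ => (1 + ‖vec k‖) * Real.exp (-‖vec k‖) := by
  have h := (build_summable_exp (c := 1 / 2) (by norm_num)).mul_left 2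
  refine Summable.of_nonneg_of_le (fun k => by positivity) (fun k => ?_) h
  have h1 : Real.exp (-‖vec k‖) = Real.exp (-(1 / 2 * ‖vec k‖)) * Real.exp (-(1 / 2 * ‖vec k‖)) := by
    rw [← Real.exp_add]
    congr 1
    ring
  have h2 : (1 + ‖vec k‖) * Real.exp (-(1 / 2 * ‖vec k‖)) ≤ 2 := by
    rw [Real.exp_neg, ← div_eq_mul_inv, div_le_iff₀ (Real.exp_pos _)]
    have := Real.add_one_le_exp (1 / 2 * ‖vec k‖)
    have := norm_nonneg (vec k)
    linarith
  rw [h1, ← mul_assoc]
  exact mul_le_mul_of_nonneg_right h2 (Real.exp_pos _).le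

/-! ### Sine series -/

/-- The coefficients are summable with the weight `1 + |k|`. -/
def BuildSum (b : (Fin 3 → ℤ) → E3) : Prop := Summable fun k => (1 + ‖vec k‖) * ‖b k‖

/-- A sine series. -/
noncomputable def sinS (b : (Fin 3 → ℤ) → E3) (x : E3) : E3 := ∑' k, Real.sin (phase k x) • b k

/-- The derivative of a sine series. -/
noncomputable def cosS (b : (Fin 3 → ℤ) → E3) (x : E3) : E3 →L[ℝ] E3 :=
  ∑' k, Real.cos (phase k x) • (phaseL k).smulRight (b k)

variable {b : (Fin 3 → ℤ) → E3}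

theorem build_norm_sin (k : Fin 3 → ℤ) (s : ℝ) (v : E3) :
    ‖Real.sin s • v‖ ≤ (1 + ‖vec k‖) * ‖v‖ := by
  rw [norm_smul]
  refine mul_le_mul_of_nonneg_right ?_ (norm_nonneg _)
  have h1 := Real.abs_sin_le_one s
  have h2 := norm_nonneg (vec k)
  rw [Real.norm_eq_abs]
  linarith

theorem build_norm_phaseL (k : Fin 3 → ℤ) : ‖phaseL k‖ = ‖vec k‖ := innerSL_apply_norm ..

theorem build_norm_cos (k : Fin 3 → ℤ) (s : ℝ) (v : E3) :
    ‖Real.cos s • (phaseL k).smulRight v‖ ≤ (1 + ‖vec k‖) * ‖v‖ := by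
  rw [norm_smul, ContinuousLinearMap.norm_smulRight_apply, build_norm_phaseL, ← mul_assoc]
  refine mul_le_mul_of_nonneg_right ?_ (norm_nonneg _)
  have h1 := Real.abs_cos_le_one s
  have h2 := norm_nonneg (vec k)
  rw [Real.norm_eq_abs]
  nlinarith

theorem build_summable_sin (hb : BuildSum b) (x : E3) :
    Summable fun k => Real.sin (phase k x) • b k :=
  Summable.of_norm_bounded hb fun k => build_norm_sin k _ _

theorem build_summable_cos (hb : BuildSum b) (x : E3) :
    Summable fun k => Real.cos (phase k x) • (phaseL k).smulRight (b k) :=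
  Summable.of_norm_bounded hb fun k => build_norm_cos k _ _

theorem build_summable_norm (hb : BuildSum b) : Summable fun k => ‖b k‖ :=
  Summable.of_nonneg_of_le (fun _ => norm_nonneg _) (fun k => by
    have h1 := norm_nonneg (vec k)
    have h2 := norm_nonneg (b k)
    nlinarith) hb

theorem continuous_sinS (hb : BuildSum b) : Continuous (sinS b) :=
  continuous_tsum (fun k => (Real.continuous_sin.comp (continuous_phase k)).smul continuous_const)
    hb fun k _ => build_norm_sin k _ _

theorem continuous_cosS (hb : BuildSum b) : Continuous (cosS b) :=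
  continuous_tsum (fun k => (Real.continuous_cos.comp (continuous_phase k)).smul continuous_const)
    hb fun k _ => build_norm_cos k _ _

theorem hasFDerivAt_sinS (hb : BuildSum b) (x : E3) : HasFDerivAt (sinS b) (cosS b x) x := by
  refine hasFDerivAt_tsum (f := fun k x => Real.sin (phase k x) • b k)
    (f' := fun k x => Real.cos (phase k x) • (phaseL k).smulRight (b k)) hb (fun k y => ?_)
    (fun k y => build_norm_cos k _ _) (build_summable_sin hb x) x
  have h := ((hasFDerivAt_phaseL k y).sin).smul_const (b k)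
  convert h using 1
  ext v
  simp [mul_smul]

theorem sinS_periodic (b : (Fin 3 → ℤ) → E3) : Periodic3 (sinS b) := by
  intro i x
  unfold sinS
  refine tsum_congr fun k => ?_
  rw [phase_add, phase_e, Real.sin_add_int_mul_two_pi]

theorem cosS_periodic (b : (Fin 3 → ℤ) → E3) (i : Fin 3) (x : E3) :
    cosS b (x + (2 * Real.pi) • e i) = cosS b x := by
  unfold cosS
  refine tsum_congr fun k => ?_
  rw [phase_add, phase_e, Real.cos_add_int_mul_two_pi]

theorem build_phase_neg (k : Fin 3 → ℤ) (x : E3) : phase k (-x) = -phase k x := by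
  simp only [phase, PiLp.neg_apply]
  ring

theorem sinS_neg (b : (Fin 3 → ℤ) → E3) (x : E3) : sinS b (-x) = -sinS b x := by
  unfold sinS
  rw [← tsum_neg]
  refine tsum_congr fun k => ?_
  rw [build_phase_neg, Real.sin_neg, neg_smul]

theorem cosS_neg (b : (Fin 3 → ℤ) → E3) (x : E3) : cosS b (-x) = cosS b x := by
  unfold cosS
  refine tsum_congr fun k => ?_
  rw [build_phase_neg, Real.cos_neg]

theorem trace_cosS (hb : BuildSum b) (hdiv : ∀ k, ⟪vec k, b k⟫ = 0) (x : E3) :
    LinearMap.trace ℝ E3 (cosS b x) = 0 := by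
  set Lt : (E3 →L[ℝ] E3) →L[ℝ] ℝ := ∑ i : Fin 3,
    (EuclideanSpace.proj i : E3 →L[ℝ] ℝ).comp (ContinuousLinearMap.apply ℝ E3 (e i)) with hLt
  have htr : ∀ A : E3 →L[ℝ] E3, LinearMap.trace ℝ E3 A = Lt A := by
    intro A
    rw [trace_eq, hLt, _root_.sum_apply, Fin.sum_univ_three]
    rfl
  rw [htr, cosS, ContinuousLinearMap.map_tsum _ (build_summable_cos hb x)]
  have h0 : ∀ k, Lt (Real.cos (phase k x) • (phaseL k).smulRight (b k)) = 0 := by
    intro k
    have e1 : Real.cos (phase k x) • (phaseL k).smulRight (b k) =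
        ((Real.cos (phase k x) • innerSL ℝ (vec k)).smulRight (b k) : E3 →L[ℝ] E3) := by
      ext v
      simp [phaseL, mul_smul]
    rw [e1, ← htr, trace_smulRight, hdiv, mul_zero]
  simp only [h0, tsum_zero]

/-! ### Fourier coefficients of a sine series -/

theorem coeff_sinS (hb : BuildSum b) (hodd : ∀ k, b (-k) = -b k) (k : Fin 3 → ℤ) (c : E3) :
    ∫ x in cube, Real.sin (phase k x) * ⟪sinS b x, c⟫ = (2 * Real.pi) ^ 3 * ⟪b k, c⟫ := by
  have h1 : ∀ x, Real.sin (phase k x) * ⟪sinS b x, c⟫ =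
      ∑' p, (Real.sin (phase k x) * Real.sin (phase p x)) * ⟪b p, c⟫ := by
    intro x
    have h2 : ⟪sinS b x, c⟫ = ∑' p, Real.sin (phase p x) * ⟪b p, c⟫ := by
      rw [real_inner_comm, sinS, ← innerSL_apply_apply ℝ c,
        ContinuousLinearMap.map_tsum _ (build_summable_sin hb x)]
      refine tsum_congr fun p => ?_
      rw [innerSL_apply_apply, inner_smul_right, real_inner_comm]
    rw [h2, ← tsum_mul_left]
    exact tsum_congr fun p => by ring
  simp_rw [h1]
  have hcont : ∀ p, Continuous fun x => (Real.sin (phase k x) * Real.sin (phase p x)) * ⟪b p, c⟫ :=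
    fun p => ((Real.continuous_sin.comp (continuous_phase k)).mul
      (Real.continuous_sin.comp (continuous_phase p))).mul continuous_const
  have hnorm : ∀ p x, ‖(Real.sin (phase k x) * Real.sin (phase p x)) * ⟪b p, c⟫‖ ≤
      ‖b p‖ * ‖c‖ := by
    intro p x
    rw [norm_mul, norm_mul, Real.norm_eq_abs, Real.norm_eq_abs, Real.norm_eq_abs]
    have s1 := Real.abs_sin_le_one (phase k x)
    have s2 := Real.abs_sin_le_one (phase p x)
    have s3 := abs_real_inner_le_norm (b p) c
    have s4 : |Real.sin (phase k x)| * |Real.sin (phase p x)| ≤ 1 := by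
      have := abs_nonneg (Real.sin (phase k x))
      have := abs_nonneg (Real.sin (phase p x))
      nlinarith
    calc |Real.sin (phase k x)| * |Real.sin (phase p x)| * |⟪b p, c⟫|
        ≤ 1 * (‖b p‖ * ‖c‖) := mul_le_mul s4 s3 (abs_nonneg _) (by norm_num)
      _ = ‖b p‖ * ‖c‖ := one_mul _
  rw [← integral_tsum_of_summable_integral_norm (fun p => integrable_cube (hcont p))]
  · have h3 : ∀ p, ∫ x in cube, (Real.sin (phase k x) * Real.sin (phase p x)) * ⟪b p, c⟫ =
        (1 / 2) * ((if k - p = 0 then (2 * Real.pi) ^ 3 else 0) * ⟪b p, c⟫) -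
          (1 / 2) * ((if k + p = 0 then (2 * Real.pi) ^ 3 else 0) * ⟪b p, c⟫) := by
      intro p
      rw [integral_mul_const, integral_sin_sin]
      ring
    simp_rw [h3]
    have g1 : HasSum (fun p => (if k - p = 0 then (2 * Real.pi) ^ 3 else 0) * ⟪b p, c⟫)
        ((2 * Real.pi) ^ 3 * ⟪b k, c⟫) := by
      have := hasSum_single (f := fun p : Fin 3 → ℤ =>
        (if k - p = 0 then (2 * Real.pi) ^ 3 else 0) * ⟪b p, c⟫) k (fun p hp => by
          have h4 : k - p ≠ 0 := fun h => hp (sub_eq_zero.mp h).symm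
          simp only [if_neg h4, zero_mul])
      simpa using this
    have g2 : HasSum (fun p => (if k + p = 0 then (2 * Real.pi) ^ 3 else 0) * ⟪b p, c⟫)
        ((2 * Real.pi) ^ 3 * ⟪b (-k), c⟫) := by
      have := hasSum_single (f := fun p : Fin 3 → ℤ =>
        (if k + p = 0 then (2 * Real.pi) ^ 3 else 0) * ⟪b p, c⟫) (-k) (fun p hp => by
          have h4 : k + p ≠ 0 := fun h => hp (neg_eq_of_add_eq_zero_right h).symm
          simp only [if_neg h4, zero_mul])
      simpa using this
    rw [((g1.mul_left (1 / 2)).sub (g2.mul_left (1 / 2))).tsum_eq, hodd, inner_neg_left]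
    ring
  · refine Summable.of_nonneg_of_le (fun p => integral_nonneg fun x => norm_nonneg _) (fun p => ?_)
      (((build_summable_norm hb).mul_right ‖c‖).mul_left ((2 * Real.pi) ^ 3))
    calc ∫ x in cube, ‖(Real.sin (phase k x) * Real.sin (phase p x)) * ⟪b p, c⟫‖
        ≤ ∫ x in cube, ‖b p‖ * ‖c‖ := by
          refine setIntegral_mono_on (integrable_cube (hcont p).norm)
            (integrable_cube continuous_const) cube_compact.measurableSet fun x _ => hnorm p x
      _ = (2 * Real.pi) ^ 3 * (‖b p‖ * ‖c‖) := by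
          rw [setIntegral_const, volume_cube, smul_eq_mul]

theorem sa_sinS (hb : BuildSum b) (hodd : ∀ k, b (-k) = -b k) (k : Fin 3 → ℤ) :
    sa (sinS b) k = b k := by
  refine ext_inner_right ℝ fun c => ?_
  have hint : IntegrableOn (fun x => Real.sin (phase k x) • sinS b x) cube :=
    integrable_cube ((Real.continuous_sin.comp (continuous_phase k)).smul (continuous_sinS hb))
  unfold sa sc
  rw [real_inner_smul_left, real_inner_comm, ← integral_inner hint]
  have h1 : ∀ x, ⟪c, Real.sin (phase k x) • sinS b x⟫ = Real.sin (phase k x) * ⟪sinS b x, c⟫ := by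
    intro x
    rw [real_inner_smul_right, real_inner_comm]
  simp_rw [h1]
  rw [coeff_sinS hb hodd, ← mul_assoc, inv_mul_cancel₀ (by positivity), one_mul]

/-! ### Time dependence -/

/-- The derivative of a term. -/
noncomputable def buildD (A A' : (Fin 3 → ℤ) → ℝ → E3) (k : Fin 3 → ℤ) (z : ℝ × E3) :
    ℝ × E3 →L[ℝ] E3 :=
  Real.sin (phase k z.2) • (ContinuousLinearMap.fst ℝ ℝ E3).smulRight (A' k z.1) +
    Real.cos (phase k z.2) •
      ((phaseL k).comp (ContinuousLinearMap.snd ℝ ℝ E3)).smulRight (A k z.1)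

variable {A A' : (Fin 3 → ℤ) → ℝ → E3}

theorem build_hasFDerivAt (hA : ∀ k t, HasDerivAt (A k) (A' k t) t) (k : Fin 3 → ℤ) (z : ℝ × E3) :
    HasFDerivAt (fun z : ℝ × E3 => Real.sin (phase k z.2) • A k z.1) (buildD A A' k z) z := by
  have h1 : HasFDerivAt (fun z : ℝ × E3 => Real.sin (phase k z.2))
      (Real.cos (phase k z.2) • (phaseL k).comp (ContinuousLinearMap.snd ℝ ℝ E3)) z :=
    ((hasFDerivAt_phaseL k z.2).comp z hasFDerivAt_snd).sin
  have h2 : HasFDerivAt (fun z : ℝ × E3 => A k z.1)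
      ((ContinuousLinearMap.fst ℝ ℝ E3).smulRight (A' k z.1)) z := by
    have h4 := (hA k z.1).hasFDerivAt.comp z (hasFDerivAt_fst (𝕜 := ℝ) (E := ℝ) (F := E3))
    have e1 : (ContinuousLinearMap.fst ℝ ℝ E3).smulRight (A' k z.1) =
        (ContinuousLinearMap.toSpanSingleton ℝ (A' k z.1)).comp
          (ContinuousLinearMap.fst ℝ ℝ E3) := by
      ext v <;> simp
    rw [e1]
    exact h4
  have h3 := h1.smul h2
  have e2 : buildD A A' k z = Real.sin (phase k z.2) •
      (ContinuousLinearMap.fst ℝ ℝ E3).smulRight (A' k z.1) +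
      (Real.cos (phase k z.2) •
        (phaseL k).comp (ContinuousLinearMap.snd ℝ ℝ E3)).smulRight (A k z.1) := by
    unfold buildD
    congr 1
    refine ContinuousLinearMap.ext fun v => ?_
    simp [mul_smul]
  rw [e2]
  exact h3

theorem build_norm_D {C : ℝ} {k : Fin 3 → ℤ} {z : ℝ × E3}
    (h1 : ‖A k z.1‖ ≤ C * Real.exp (-‖vec k‖)) (h2 : ‖A' k z.1‖ ≤ C * Real.exp (-‖vec k‖)) :
    ‖buildD A A' k z‖ ≤ C * ((1 + ‖vec k‖) * Real.exp (-‖vec k‖)) := by
  have h3 : ‖Real.sin (phase k z.2) • (ContinuousLinearMap.fst ℝ ℝ E3).smulRight (A' k z.1)‖ ≤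
      C * Real.exp (-‖vec k‖) := by
    rw [norm_smul, ContinuousLinearMap.norm_smulRight_apply, Real.norm_eq_abs]
    have s1 := Real.abs_sin_le_one (phase k z.2)
    have s2 := ContinuousLinearMap.norm_fst_le ℝ ℝ E3
    calc |Real.sin (phase k z.2)| * (‖ContinuousLinearMap.fst ℝ ℝ E3‖ * ‖A' k z.1‖)
        ≤ 1 * (1 * ‖A' k z.1‖) := by gcongr
      _ = ‖A' k z.1‖ := by ring
      _ ≤ _ := h2
  have h4 : ‖Real.cos (phase k z.2) •
      ((phaseL k).comp (ContinuousLinearMap.snd ℝ ℝ E3)).smulRight (A k z.1)‖ ≤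
      ‖vec k‖ * (C * Real.exp (-‖vec k‖)) := by
    rw [norm_smul, ContinuousLinearMap.norm_smulRight_apply, Real.norm_eq_abs]
    have s1 := Real.abs_cos_le_one (phase k z.2)
    have s2 : ‖(phaseL k).comp (ContinuousLinearMap.snd ℝ ℝ E3)‖ ≤ ‖vec k‖ := by
      refine (ContinuousLinearMap.opNorm_comp_le _ _).trans ?_
      rw [build_norm_phaseL]
      exact (mul_le_mul_of_nonneg_left (ContinuousLinearMap.norm_snd_le ℝ ℝ E3)
        (norm_nonneg _)).trans_eq (mul_one _)
    calc |Real.cos (phase k z.2)| *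
          (‖(phaseL k).comp (ContinuousLinearMap.snd ℝ ℝ E3)‖ * ‖A k z.1‖)
        ≤ 1 * (‖vec k‖ * (C * Real.exp (-‖vec k‖))) := by gcongr
      _ = _ := one_mul _
  refine (norm_add_le _ _).trans ?_
  calc _ ≤ C * Real.exp (-‖vec k‖) + ‖vec k‖ * (C * Real.exp (-‖vec k‖)) := add_le_add h3 h4
    _ = _ := by ring

theorem build_time (hA : ∀ k t, HasDerivAt (A k) (A' k t) t) (hc : ∀ k, Continuous (A' k))
    {C R : ℝ} (hbd : ∀ k, ∀ t ∈ Ioo (-1) R, ‖A k t‖ ≤ C * Real.exp (-‖vec k‖) ∧
      ‖A' k t‖ ≤ C * Real.exp (-‖vec k‖)) {z : ℝ × E3} (hz : z.1 ∈ Ioo (-1) R) :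
    ContDiffAt ℝ 1 (fun z : ℝ × E3 => ∑' k, Real.sin (phase k z.2) • A k z.1) z ∧
    HasDerivAt (fun s => ∑' k, Real.sin (phase k z.2) • A k s)
      (∑' k, Real.sin (phase k z.2) • A' k z.1) z.1 := by
  have hC : 0 ≤ C := by
    have h1 := (norm_nonneg _).trans (hbd 0 z.1 hz).1
    exact nonneg_of_mul_nonneg_left h1 (Real.exp_pos _)
  have hopen : IsOpen (Ioo (-1) R ×ˢ (univ : Set E3)) := isOpen_Ioo.prod isOpen_univ
  have hconv : Convex ℝ (Ioo (-1) R ×ˢ (univ : Set E3)) := (convex_Ioo _ _).prod convex_univ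
  have hsum : Summable fun k : Fin 3 → ℤ => C * ((1 + ‖vec k‖) * Real.exp (-‖vec k‖)) :=
    build_summable_wt.mul_left C
  have hzmem : z ∈ Ioo (-1) R ×ˢ (univ : Set E3) := ⟨hz, mem_univ _⟩
  have hle : ∀ (k : Fin 3 → ℤ) (s : ℝ) (v : E3), ‖v‖ ≤ C * Real.exp (-‖vec k‖) →
      ‖Real.sin s • v‖ ≤ C * ((1 + ‖vec k‖) * Real.exp (-‖vec k‖)) := by
    intro k s v hv
    refine (build_norm_sin k s v).trans ?_
    calc (1 + ‖vec k‖) * ‖v‖ ≤ (1 + ‖vec k‖) * (C * Real.exp (-‖vec k‖)) := by gcongr
      _ = _ := by ring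
  constructor
  · rw [contDiffAt_one_iff]
    refine ⟨fun z => ∑' k, buildD A A' k z, Ioo (-1) R ×ˢ univ, hopen.mem_nhds hzmem, ?_, ?_⟩
    · refine continuousOn_tsum (fun k => ?_) hsum
        (fun k y hy => build_norm_D (hbd k y.1 hy.1).1 (hbd k y.1 hy.1).2)
      have hAc : Continuous fun z : ℝ × E3 => A k z.1 :=
        (continuous_iff_continuousAt.mpr fun t => (hA k t).continuousAt).comp continuous_fst
      have hAc' : Continuous fun z : ℝ × E3 => A' k z.1 := (hc k).comp continuous_fst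
      have hp : Continuous fun z : ℝ × E3 => phase k z.2 := (continuous_phase k).comp continuous_snd
      have h1 : Continuous fun z : ℝ × E3 =>
          (ContinuousLinearMap.fst ℝ ℝ E3).smulRight (A' k z.1) :=
        (ContinuousLinearMap.smulRightL ℝ (ℝ × E3) E3
          (ContinuousLinearMap.fst ℝ ℝ E3)).continuous.comp hAc'
      have h2 : Continuous fun z : ℝ × E3 =>
          ((phaseL k).comp (ContinuousLinearMap.snd ℝ ℝ E3)).smulRight (A k z.1) :=
        (ContinuousLinearMap.smulRightL ℝ (ℝ × E3) E3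
          ((phaseL k).comp (ContinuousLinearMap.snd ℝ ℝ E3))).continuous.comp hAc
      exact (((Real.continuous_sin.comp hp).smul h1).add
        ((Real.continuous_cos.comp hp).smul h2)).continuousOn
    · intro z' hz'
      refine hasFDerivAt_tsum_of_isPreconnected hsum hopen hconv.isPreconnected
        (fun k y _ => build_hasFDerivAt hA k y)
        (fun k y hy => build_norm_D (hbd k y.1 hy.1).1 (hbd k y.1 hy.1).2) hzmem ?_ hz'
      exact Summable.of_norm_bounded hsum fun k => hle k _ _ (hbd k z.1 hz).1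
  · refine hasDerivAt_tsum_of_isPreconnected (g := fun k s => Real.sin (phase k z.2) • A k s)
      (g' := fun k s => Real.sin (phase k z.2) • A' k s) (t := Ioo (-1) R) hsum isOpen_Ioo
      isPreconnected_Ioo (fun k y _ => (hA k y).const_smul (Real.sin (phase k z.2)))
      (fun k y hy => hle k _ _ (hbd k y hy).2) hz
      (Summable.of_norm_bounded hsum fun k => hle k _ _ (hbd k z.1 hz).1) hz

theorem build_ext {T : ℝ} (hT : 0 < T) {S S' : ℝ → E3}
    (hd : ∀ t ∈ Icc 0 T, HasDerivWithinAt S (S' t) (Icc 0 T) t)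
    (hc : ContinuousOn S' (Icc 0 T)) {M : ℝ} (hb : ∀ t ∈ Icc 0 T, ‖S t‖ ≤ M)
    (hb' : ∀ t ∈ Icc 0 T, ‖S' t‖ ≤ M) :
    ∃ A A' : ℝ → E3, (∀ t, HasDerivAt A (A' t) t) ∧ Continuous A' ∧
      (∀ t ∈ Icc 0 T, A t = S t ∧ A' t = S' t) ∧
      ∀ t ∈ Ioo (-1) (T + 1), ‖A t‖ ≤ M * (2 + T) ∧ ‖A' t‖ ≤ M * (2 + T) := by
  have h0 : (0 : ℝ) ∈ Icc 0 T := ⟨le_rfl, hT.le⟩
  have hM : 0 ≤ M := (norm_nonneg _).trans (hb 0 h0)
  obtain ⟨A', hA'⟩ : ∃ A' : ℝ → E3, A' = fun t => S' (projIcc 0 T hT.le t) := ⟨_, rfl⟩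
  have hA'c : Continuous A' := by
    rw [hA']
    exact hc.comp_continuous (continuous_subtype_val.comp continuous_projIcc)
      fun t => (projIcc 0 T hT.le t).2
  have hA'e : ∀ t ∈ Icc 0 T, A' t = S' t := fun t ht => by
    rw [hA']
    simp only
    rw [projIcc_of_mem hT.le ht]
  have hA'b : ∀ t, ‖A' t‖ ≤ M := fun t => by
    rw [hA']
    exact hb' _ (projIcc 0 T hT.le t).2
  refine ⟨fun t => S 0 + ∫ s in (0 : ℝ)..t, A' s, A', fun t => ?_, hA'c, fun t ht => ⟨?_, hA'e t ht⟩,
    fun t ht => ⟨?_, ?_⟩⟩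
  · exact ((hA'c.integral_hasStrictDerivAt 0 t).hasDerivAt).const_add _
  · have h1 : ∫ s in (0 : ℝ)..t, A' s = S t - S 0 := by
      refine intervalIntegral.integral_eq_sub_of_hasDerivAt_of_le ht.1 ?_ (fun s hs => ?_)
        (hA'c.intervalIntegrable _ _)
      · exact fun s hs => ((hd s ⟨hs.1, hs.2.trans ht.2⟩).continuousWithinAt).mono
          (Icc_subset_Icc_right ht.2)
      · have hs' : s ∈ Icc 0 T := ⟨hs.1.le, hs.2.le.trans ht.2⟩
        rw [hA'e s hs']
        exact (hd s hs').hasDerivAt (Icc_mem_nhds hs.1 (hs.2.trans_le ht.2))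
    simp only
    rw [h1, add_sub_cancel]
  · have h2 : ‖∫ s in (0 : ℝ)..t, A' s‖ ≤ M * |t - 0| :=
      intervalIntegral.norm_integral_le_of_norm_le_const fun s _ => hA'b s
    have h3 : |t - 0| ≤ T + 1 := by
      rw [sub_zero, abs_le]
      constructor
      · linarith [ht.1]
      · exact ht.2.le
    calc ‖S 0 + ∫ s in (0 : ℝ)..t, A' s‖ ≤ M + M * |t - 0| :=
          (norm_add_le _ _).trans (add_le_add (hb 0 h0) h2)
      _ ≤ M + M * (T + 1) := by gcongr
      _ = M * (2 + T) := by ring
  · calc ‖A' t‖ ≤ M * 1 := by rw [mul_one]; exact hA'b t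
      _ ≤ M * (2 + T) := by
        gcongr
        linarith

/-! ### Odd integrands -/

theorem build_odd_zero (hInv : ClaimCubeInv) {F : E3 → ℝ} (hF : Continuous F)
    (hper : Periodic3 F) (hodd : ∀ x, F (-x) = -F x) : ∫ x in cube, F x = 0 := by
  have h := hInv F hF hper (1, fun _ => -1)
  have h1 : ∀ x, actR (1, fun _ => -1) x = -x := by
    intro x
    ext i
    simp [actR]
  simp_rw [h1, hodd] at h
  rw [integral_neg] at h
  linarith

theorem claimBuild (hConv : ClaimConv) (hInv : ClaimCubeInv) : ClaimBuild := by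
  intro D T K S S' hT h
  have h0 : (0 : ℝ) ∈ Icc 0 T := ⟨le_rfl, hT.le⟩
  choose A A' hA1 hA2 hA3 hA4 using fun k => build_ext hT (h.deriv k) (h.cont k)
    (M := K * Real.exp (-‖vec k‖)) (h.bd k) (h.bd' k)
  have hsub : ∀ t ∈ Ico 0 T, t ∈ Icc 0 T := fun t ht => Ico_subset_Icc_self ht
  have hsub' : ∀ t ∈ Ico 0 T, t ∈ Ioo (-1) (T + 1) := fun t ht =>
    ⟨by linarith [ht.1], by linarith [ht.2]⟩
  have hbS : ∀ t ∈ Icc 0 T, BuildSum fun k => S k t := by
    intro t ht
    refine Summable.of_nonneg_of_le (fun k => by positivity) (fun k => ?_)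
      (build_summable_wt.mul_left K)
    calc (1 + ‖vec k‖) * ‖S k t‖ ≤ (1 + ‖vec k‖) * (K * Real.exp (-‖vec k‖)) := by
          gcongr
          exact h.bd k t ht
      _ = _ := by ring
  have hbS' : ∀ t ∈ Icc 0 T, BuildSum fun k => S' k t := by
    intro t ht
    refine Summable.of_nonneg_of_le (fun k => by positivity) (fun k => ?_)
      (build_summable_wt.mul_left K)
    calc (1 + ‖vec k‖) * ‖S' k t‖ ≤ (1 + ‖vec k‖) * (K * Real.exp (-‖vec k‖)) := by
          gcongr
          exact h.bd' k t ht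
      _ = _ := by ring
  have hodd' : ∀ k, ∀ t ∈ Icc 0 T, S' (-k) t = -S' k t := by
    intro k t ht
    exact (uniqueDiffOn_Icc hT t ht).eq_deriv _ (h.deriv (-k) t ht)
      (((h.deriv k t ht).neg).congr (fun s hs => h.odd k s hs) (h.odd k t ht))
  have htime := fun (z : ℝ × E3) (hz : z.1 ∈ Ico 0 T) => build_time hA1 hA2
    (C := K * (2 + T)) (R := T + 1) (fun k t ht => by
      have := hA4 k t ht
      rw [show K * (2 + T) * Real.exp (-‖vec k‖) = K * Real.exp (-‖vec k‖) * (2 + T) by ring]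
      exact this) (hsub' z.1 hz)
  have hGu : ∀ t ∈ Ico 0 T, ∀ x : E3, ∑' k, Real.sin (phase k x) • S k t =
      ∑' k, Real.sin (phase k x) • A k t := fun t ht x =>
    tsum_congr fun k => by rw [(hA3 k t (hsub t ht)).1]
  -- time derivative
  have hdt : ∀ t ∈ Ico 0 T, ∀ x : E3,
      derivWithin (fun s => ∑' k, Real.sin (phase k x) • S k s) (Ico 0 T) t =
        sinS (fun k => S' k t) x := by
    intro t ht x
    have h1 := (htime (t, x) ht).2
    have h2 : ∑' k, Real.sin (phase k x) • A' k t = sinS (fun k => S' k t) x :=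
      tsum_congr fun k => by rw [(hA3 k t (hsub t ht)).2]
    simp only at h1
    rw [h2] at h1
    exact (h1.hasDerivWithinAt.congr (fun s hs => hGu s hs x) (hGu t ht x)).derivWithin
      (uniqueDiffOn_Ico 0 T t ht)
  -- space derivative
  have hdx : ∀ t ∈ Ico 0 T, ∀ x : E3,
      fderiv ℝ (fun x => ∑' k, Real.sin (phase k x) • S k t) x = cosS (fun k => S k t) x :=
    fun t ht x => (hasFDerivAt_sinS (hbS t (hsub t ht)) x).fderiv
  have hC1 : ContDiffOn ℝ 1 (fun z : ℝ × E3 => ∑' k, Real.sin (phase k z.2) • S k z.1)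
      (Ico 0 T ×ˢ univ) := by
    refine ContDiffOn.congr (f := fun z : ℝ × E3 => ∑' k, Real.sin (phase k z.2) • A k z.1)
      (fun z hz => ((htime z hz.1).1).contDiffWithinAt) fun z hz => hGu z.1 hz.1 z.2
  refine ⟨hC1, fun t ht => sinS_periodic _, fun t ht x => ?_, fun t ht k c hc => ?_,
    fun t ht k c hc => ?_⟩
  · rw [hdx t ht x]
    exact trace_cosS (hbS t (hsub t ht)) (fun k => h.div k t (hsub t ht)) x
  · have hb := hbS t (hsub t ht)
    have hb' := hbS' t (hsub t ht)
    have e1 : ∫ x in cube, Real.cos (phase k x) *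
        ⟪derivWithin (fun s => ∑' k, Real.sin (phase k x) • S k s) (Ico 0 T) t +
          fderiv ℝ (fun x => ∑' k, Real.sin (phase k x) • S k t) x
            (∑' k, Real.sin (phase k x) • S k t), c⟫ =
        ∫ x in cube, Real.cos (phase k x) * ⟪sinS (fun k => S' k t) x +
          cosS (fun k => S k t) x (sinS (fun k => S k t) x), c⟫ := by
      congr 1
      funext x
      rw [hdt t ht x, hdx t ht x]
      rfl
    have hcos : Continuous fun x => Real.cos (phase k x) :=
      Real.continuous_cos.comp (continuous_phase k)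
    have e2 : ∫ x in cube, Real.cos (phase k x) * ⟪sinS (fun k => S' k t) x +
          cosS (fun k => S k t) x (sinS (fun k => S k t) x), c⟫ = 0 := by
      refine build_odd_zero hInv ?_ ?_ ?_
      · exact hcos.mul (((continuous_sinS hb').add
          ((continuous_cosS hb).clm_apply (continuous_sinS hb))).inner continuous_const)
      · intro i x
        have a1 := cos_phase_periodic k i x
        simp only at a1
        simp only
        rw [a1, sinS_periodic _ i x, cosS_periodic _ i x, sinS_periodic _ i x]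
      · intro x
        rw [build_phase_neg, Real.cos_neg, sinS_neg, sinS_neg, cosS_neg, map_neg, ← neg_add,
          inner_neg_left, mul_neg]
    have e3 : ∫ x in cube, Real.cos (phase k x) *
        ⟪∑' k, Real.sin (phase k x) • S k t, c⟫ = 0 := by
      refine build_odd_zero hInv (F := fun x => Real.cos (phase k x) *
        ⟪sinS (fun k => S k t) x, c⟫) ?_ ?_ ?_
      · exact hcos.mul ((continuous_sinS hb).inner continuous_const)
      · intro i x
        have a1 := cos_phase_periodic k i x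
        simp only at a1
        simp only
        rw [a1, sinS_periodic _ i x]
      · intro x
        rw [build_phase_neg, Real.cos_neg, sinS_neg, inner_neg_left, mul_neg]
    rw [e1, e2, e3]
    ring
  · have hb := hbS t (hsub t ht)
    have hb' := hbS' t (hsub t ht)
    have hsin : Continuous fun x => Real.sin (phase k x) :=
      Real.continuous_sin.comp (continuous_phase k)
    have e1 : ∫ x in cube, Real.sin (phase k x) *
        ⟪derivWithin (fun s => ∑' k, Real.sin (phase k x) • S k s) (Ico 0 T) t +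
          fderiv ℝ (fun x => ∑' k, Real.sin (phase k x) • S k t) x
            (∑' k, Real.sin (phase k x) • S k t), c⟫ =
        (∫ x in cube, Real.sin (phase k x) * ⟪sinS (fun k => S' k t) x, c⟫) +
        ∫ x in cube, Real.sin (phase k x) *
          ⟪fderiv ℝ (sinS (fun k => S k t)) x (sinS (fun k => S k t) x), c⟫ := by
      rw [← integral_add]
      · congr 1
        funext x
        rw [hdt t ht x, hdx t ht x, (hasFDerivAt_sinS hb x).fderiv, inner_add_left, mul_add]
        rfl
      · exact integrable_cube (hsin.mul ((continuous_sinS hb').inner continuous_const))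
      · refine integrable_cube (hsin.mul (Continuous.inner ?_ continuous_const))
        have : (fun x => fderiv ℝ (sinS (fun k => S k t)) x (sinS (fun k => S k t) x)) =
            fun x => cosS (fun k => S k t) x (sinS (fun k => S k t) x) := by
          funext x
          rw [(hasFDerivAt_sinS hb x).fderiv]
        rw [this]
        exact (continuous_cosS hb).clm_apply (continuous_sinS hb)
    have hC : ContDiff ℝ 1 (sinS fun k => S k t) := by
      rw [contDiff_one_iff_fderiv]
      refine ⟨fun x => (hasFDerivAt_sinS hb x).differentiableAt, ?_⟩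
      have : fderiv ℝ (sinS fun k => S k t) = cosS fun k => S k t := by
        funext x
        exact (hasFDerivAt_sinS hb x).fderiv
      rw [this]
      exact continuous_cosS hb
    have e2 := (hConv (sinS fun k => S k t) hC (sinS_periodic _) (fun x => by
      rw [(hasFDerivAt_sinS hb x).fderiv]
      exact trace_cosS hb (fun k => h.div k t (hsub t ht)) x) (sinS_neg _) k c hc).tsum_eq
    simp_rw [sa_sinS hb (fun k => h.odd k t (hsub t ht))] at e2
    have e3 := coeff_sinS hb' (fun k => hodd' k t (hsub t ht)) k c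
    have e4 : ∫ x in cube, Real.sin (phase k x) * ⟪∑' k, Real.sin (phase k x) • S k t, c⟫ =
        (2 * Real.pi) ^ 3 * ⟪S k t, c⟫ := coeff_sinS hb (fun k => h.odd k t (hsub t ht)) k c
    have e5 := h.eqn k t (hsub t ht) c hc
    rw [e1, e3, e4, e5, e2]
    have hpi : (2 * Real.pi) ^ 3 ≠ 0 := by positivity
    field_simp
    ring

end Pool.Agent.Work.MP_b0497c_an.Damp
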