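import Pool.Agent.Work.MP_b0497c_an.Damp.Stmts

set_option autoImplicit false

/-!
Damped Euler equations: the interactions of the chain (item L3).
-/

namespace Pool.Agent.Work.MP_b0497c_an.Damp

open Set MeasureTheory RealInnerProductSpace Pool.Agent.Work.MP_b0497c_an
open Pool.Agent.Work.MP_b0497c_an.Dec

theorem Chain_inner (x y : Fin 3 → ℤ) : ⟪vec x, vec y⟫ = ((dot x y : ℤ) : ℝ) := by
  simp only [vec, dot, PiLp.inner_apply, Fin.sum_univ_three, RCLike.inner_apply, conj_trivial]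
  simp
  ring

theorem Chain_vec_smul (c : ℤ) (x : Fin 3 → ℤ) : vec (c • x) = (c : ℝ) • vec x := by
  ext i
  fin_cases i <;> simp [vec]

theorem Chain_act_smul (g : Sgn) (c : ℤ) (x : Fin 3 → ℤ) : act g (c • x) = c • act g x := by
  ext i
  simp only [act, Pi.smul_apply, smul_eq_mul]
  ring

theorem Chain_mod (j i : ℕ) : (6 * j + i) % 6 = i % 6 := by omega

theorem Chain_ev (j i : ℕ) : ev (6 * j + i) = ev i := by
  unfold ev
  rw [Chain_mod]

theorem Chain_kk (j i : ℕ) (hi : i < 6) :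
    kk (6 * j + i) = (16 : ℤ) ^ j • (mult i • dir i) := by
  have h2 : (6 * j + i) / 6 = j := by omega
  have hm : mult (6 * j + i) = mult i := by
    unfold mult
    rw [Chain_mod]
  have hd : dir (6 * j + i) = dir i := by
    unfold dir
    rw [Chain_mod]
  rw [kk, h2, hm, hd, mul_smul]

theorem Chain_S {S : (Fin 3 → ℤ) → E3} {a : ℕ → ℝ}
    (h : ∀ n g, S (act g (kk n)) = a n • vec (act g (ev n))) (j i : ℕ) (hi : i < 6) (g : Sgn)
    (v e : Fin 3 → ℤ) (hv : mult i • act g (dir i) = v) (he : act g (ev i) = e) :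
    S ((16 : ℤ) ^ j • v) = a (6 * j + i) • vec e := by
  have h1 := h (6 * j + i) g
  rw [Chain_kk j i hi, Chain_ev, Chain_act_smul, Chain_act_smul, hv, he] at h1
  exact h1

theorem Chain_term {S : (Fin 3 → ℤ) → E3} (j : ℕ) (K0 E0 p0 q0 ep eq : Fin 3 → ℤ) (am am' : ℝ)
    (c : ℤ) (h1 : S ((16 : ℤ) ^ j • p0) = am • vec ep) (h2 : S ((16 : ℤ) ^ j • q0) = am' • vec eq)
    (hq : K0 - p0 = q0) (hc : dot ep K0 * dot eq E0 = c) :
    ⟪S ((16 : ℤ) ^ j • p0), vec ((16 : ℤ) ^ j • K0)⟫ *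
      ⟪S ((16 : ℤ) ^ j • K0 - (16 : ℤ) ^ j • p0), vec E0⟫ = 16 ^ j * (c : ℝ) * (am * am') := by
  rw [← smul_sub, hq, h1, h2, Chain_vec_smul, inner_smul_left, inner_smul_left, inner_smul_right,
    Chain_inner, Chain_inner, ← hc]
  push_cast
  simp only [conj_trivial]
  ring

theorem Chain_nodup (j : ℕ) (l : List (Fin 3 → ℤ)) (hl : l.Nodup) :
    (l.map (fun p => (16 : ℤ) ^ j • p)).Nodup := by
  refine hl.map fun x y hxy => ?_
  have : (16 : ℤ) ^ j ≠ 0 := by positivity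
  exact smul_right_injective _ this hxy

theorem Chain_case1 {S : (Fin 3 → ℤ) → E3} {a : ℕ → ℝ}
    (h : ∀ n g, S (act g (kk n)) = a n • vec (act g (ev n))) (j : ℕ) :
    ∑ p ∈ cp (6 * j + 1), ⟪S p, vec (kk (6 * j + 1))⟫ * ⟪S (kk (6 * j + 1) - p), vec (ev (6 * j + 1))⟫ =
      16 ^ j * 14938 * (a (6 * j + 1) * a (6 * j + 2)) - 16 ^ j * 3660 * a (6 * j + 0) ^ 2 := by
  have s0 : S ((16 : ℤ) ^ j • ![-12, -5, -5]) = a (6 * j + 1) • vec ![5, -6, -6] :=
    Chain_S h j 1 (by norm_num) (Equiv.swap 0 2 * Equiv.swap 1 2, ![-1, -1, -1]) _ _ (by decide) (by decide)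
  have s1 : S ((16 : ℤ) ^ j • ![17, 10, 17]) = a (6 * j + 2) • vec ![5, -17, 5] :=
    Chain_S h j 2 (by norm_num) (Equiv.swap 0 1, ![1, 1, 1]) _ _ (by decide) (by decide)
  have s2 : S ((16 : ℤ) ^ j • ![-5, -12, -5]) = a (6 * j + 1) • vec ![-6, 5, -6] :=
    Chain_S h j 1 (by norm_num) (Equiv.swap 1 2, ![-1, -1, -1]) _ _ (by decide) (by decide)
  have s3 : S ((16 : ℤ) ^ j • ![10, 17, 17]) = a (6 * j + 2) • vec ![-17, 5, 5] :=
    Chain_S h j 2 (by norm_num) (1, ![1, 1, 1]) _ _ (by decide) (by decide)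
  have s4 : S ((16 : ℤ) ^ j • ![0, 5, 6]) = a (6 * j + 0) • vec ![0, -6, 5] :=
    Chain_S h j 0 (by norm_num) (1, ![1, 1, 1]) _ _ (by decide) (by decide)
  have s5 : S ((16 : ℤ) ^ j • ![5, 0, 6]) = a (6 * j + 0) • vec ![-6, 0, 5] :=
    Chain_S h j 0 (by norm_num) (Equiv.swap 0 1, ![1, 1, 1]) _ _ (by decide) (by decide)
  have t0 := Chain_term (S := S) j ![5, 5, 12] ![6, 6, -5] ![-12, -5, -5] ![17, 10, 17] ![5, -6, -6] ![5, -17, 5] (a (6 * j + 1)) (a (6 * j + 2)) (7469) s0 s1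
    (by decide) (by decide)
  have t1 := Chain_term (S := S) j ![5, 5, 12] ![6, 6, -5] ![-5, -12, -5] ![10, 17, 17] ![-6, 5, -6] ![-17, 5, 5] (a (6 * j + 1)) (a (6 * j + 2)) (7469) s2 s3
    (by decide) (by decide)
  have t2 := Chain_term (S := S) j ![5, 5, 12] ![6, 6, -5] ![0, 5, 6] ![5, 0, 6] ![0, -6, 5] ![-6, 0, 5] (a (6 * j + 0)) (a (6 * j + 0)) (-1830) s4 s5
    (by decide) (by decide)
  have t3 := Chain_term (S := S) j ![5, 5, 12] ![6, 6, -5] ![5, 0, 6] ![0, 5, 6] ![-6, 0, 5] ![0, -6, 5] (a (6 * j + 0)) (a (6 * j + 0)) (-1830) s5 s4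
    (by decide) (by decide)
  have t4 := Chain_term (S := S) j ![5, 5, 12] ![6, 6, -5] ![10, 17, 17] ![-5, -12, -5] ![-17, 5, 5] ![-6, 5, -6] (a (6 * j + 2)) (a (6 * j + 1)) (0) s3 s2
    (by decide) (by decide)
  have t5 := Chain_term (S := S) j ![5, 5, 12] ![6, 6, -5] ![17, 10, 17] ![-12, -5, -5] ![5, -17, 5] ![5, -6, -6] (a (6 * j + 2)) (a (6 * j + 1)) (0) s1 s0
    (by decide) (by decide)
  have hcp : cp (6 * j + 1) = (([![-12, -5, -5], ![-5, -12, -5], ![0, 5, 6], ![5, 0, 6], ![10, 17, 17], ![17, 10, 17]] : List (Fin 3 → ℤ)).map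
      (fun p => (16 : ℤ) ^ j • p)).toFinset := by
    have h1 : (6 * j + 1) % 6 = 1 := by omega
    have h2 : (6 * j + 1) / 6 = j := by omega
    simp [cp, cpb, h1, h2]
  have hkk : kk (6 * j + 1) = (16 : ℤ) ^ j • ![5, 5, 12] := by
    rw [Chain_kk j 1 (by norm_num)]; congr 1; decide
  have hev : ev (6 * j + 1) = ![6, 6, -5] := by
    rw [Chain_ev j 1]; decide
  rw [hcp, List.sum_toFinset _ (Chain_nodup j _ (by decide)), List.map_map]
  simp only [List.map_cons, List.map_nil, List.sum_cons, List.sum_nil, Function.comp_apply, hkk, hev]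
  rw [t0, t1, t2, t3, t4, t5]
  push_cast
  ring

theorem Chain_case2 {S : (Fin 3 → ℤ) → E3} {a : ℕ → ℝ}
    (h : ∀ n g, S (act g (kk n)) = a n • vec (act g (ev n))) (j : ℕ) :
    ∑ p ∈ cp (6 * j + 2), ⟪S p, vec (kk (6 * j + 2))⟫ * ⟪S (kk (6 * j + 2) - p), vec (ev (6 * j + 2))⟫ =
      16 ^ j * 115260 * (a (6 * j + 2) * a (6 * j + 3)) - 16 ^ j * 14938 * a (6 * j + 1) ^ 2 := by
  have s0 : S ((16 : ℤ) ^ j • ![-10, -17, 17]) = a (6 * j + 2) • vec ![17, -5, 5] :=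
    Chain_S h j 2 (by norm_num) (1, ![-1, -1, 1]) _ _ (by decide) (by decide)
  have s1 : S ((16 : ℤ) ^ j • ![20, 34, 0]) = a (6 * j + 3) • vec ![-17, 10, 0] :=
    Chain_S h j 3 (by norm_num) (Equiv.swap 0 1 * Equiv.swap 1 2, ![1, 1, 1]) _ _ (by decide) (by decide)
  have s2 : S ((16 : ℤ) ^ j • ![-10, 17, -17]) = a (6 * j + 2) • vec ![17, 5, -5] :=
    Chain_S h j 2 (by norm_num) (1, ![-1, 1, -1]) _ _ (by decide) (by decide)
  have s3 : S ((16 : ℤ) ^ j • ![20, 0, 34]) = a (6 * j + 3) • vec ![-17, 0, 10] :=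
    Chain_S h j 3 (by norm_num) (Equiv.swap 0 1, ![1, 1, 1]) _ _ (by decide) (by decide)
  have s4 : S ((16 : ℤ) ^ j • ![5, 5, 12]) = a (6 * j + 1) • vec ![6, 6, -5] :=
    Chain_S h j 1 (by norm_num) (1, ![1, 1, 1]) _ _ (by decide) (by decide)
  have s5 : S ((16 : ℤ) ^ j • ![5, 12, 5]) = a (6 * j + 1) • vec ![6, -5, 6] :=
    Chain_S h j 1 (by norm_num) (Equiv.swap 1 2, ![1, 1, 1]) _ _ (by decide) (by decide)
  have t0 := Chain_term (S := S) j ![10, 17, 17] ![-17, 5, 5] ![-10, -17, 17] ![20, 34, 0] ![17, -5, 5] ![-17, 10, 0] (a (6 * j + 2)) (a (6 * j + 3)) (57630) s0 s1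
    (by decide) (by decide)
  have t1 := Chain_term (S := S) j ![10, 17, 17] ![-17, 5, 5] ![-10, 17, -17] ![20, 0, 34] ![17, 5, -5] ![-17, 0, 10] (a (6 * j + 2)) (a (6 * j + 3)) (57630) s2 s3
    (by decide) (by decide)
  have t2 := Chain_term (S := S) j ![10, 17, 17] ![-17, 5, 5] ![5, 5, 12] ![5, 12, 5] ![6, 6, -5] ![6, -5, 6] (a (6 * j + 1)) (a (6 * j + 1)) (-7469) s4 s5
    (by decide) (by decide)
  have t3 := Chain_term (S := S) j ![10, 17, 17] ![-17, 5, 5] ![5, 12, 5] ![5, 5, 12] ![6, -5, 6] ![6, 6, -5] (a (6 * j + 1)) (a (6 * j + 1)) (-7469) s5 s4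
    (by decide) (by decide)
  have t4 := Chain_term (S := S) j ![10, 17, 17] ![-17, 5, 5] ![20, 0, 34] ![-10, 17, -17] ![-17, 0, 10] ![17, 5, -5] (a (6 * j + 3)) (a (6 * j + 2)) (0) s3 s2
    (by decide) (by decide)
  have t5 := Chain_term (S := S) j ![10, 17, 17] ![-17, 5, 5] ![20, 34, 0] ![-10, -17, 17] ![-17, 10, 0] ![17, -5, 5] (a (6 * j + 3)) (a (6 * j + 2)) (0) s1 s0
    (by decide) (by decide)
  have hcp : cp (6 * j + 2) = (([![-10, -17, 17], ![-10, 17, -17], ![5, 5, 12], ![5, 12, 5], ![20, 0, 34], ![20, 34, 0]] : List (Fin 3 → ℤ)).map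
      (fun p => (16 : ℤ) ^ j • p)).toFinset := by
    have h1 : (6 * j + 2) % 6 = 2 := by omega
    have h2 : (6 * j + 2) / 6 = j := by omega
    simp [cp, cpb, h1, h2]
  have hkk : kk (6 * j + 2) = (16 : ℤ) ^ j • ![10, 17, 17] := by
    rw [Chain_kk j 2 (by norm_num)]; congr 1; decide
  have hev : ev (6 * j + 2) = ![-17, 5, 5] := by
    rw [Chain_ev j 2]; decide
  rw [hcp, List.sum_toFinset _ (Chain_nodup j _ (by decide)), List.map_map]
  simp only [List.map_cons, List.map_nil, List.sum_cons, List.sum_nil, Function.comp_apply, hkk, hev]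
  rw [t0, t1, t2, t3, t4, t5]
  push_cast
  ring

theorem Chain_case3 {S : (Fin 3 → ℤ) → E3} {a : ℕ → ℝ}
    (h : ∀ n g, S (act g (kk n)) = a n • vec (act g (ev n))) (j : ℕ) :
    ∑ p ∈ cp (6 * j + 3), ⟪S p, vec (kk (6 * j + 3))⟫ * ⟪S (kk (6 * j + 3) - p), vec (ev (6 * j + 3))⟫ =
      16 ^ j * 264520 * (a (6 * j + 3) * a (6 * j + 4)) - 16 ^ j * 115260 * a (6 * j + 2) ^ 2 := by
  have s0 : S ((16 : ℤ) ^ j • ![-20, 0, -34]) = a (6 * j + 3) • vec ![17, 0, -10] :=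
    Chain_S h j 3 (by norm_num) (Equiv.swap 0 1, ![-1, 1, -1]) _ _ (by decide) (by decide)
  have s1 : S ((16 : ℤ) ^ j • ![20, 20, 68]) = a (6 * j + 4) • vec ![17, 17, -10] :=
    Chain_S h j 4 (by norm_num) (1, ![1, 1, 1]) _ _ (by decide) (by decide)
  have s2 : S ((16 : ℤ) ^ j • ![-20, 20, 68]) = a (6 * j + 4) • vec ![-17, 17, -10] :=
    Chain_S h j 4 (by norm_num) (1, ![-1, 1, 1]) _ _ (by decide) (by decide)
  have s3 : S ((16 : ℤ) ^ j • ![20, 0, -34]) = a (6 * j + 3) • vec ![-17, 0, -10] :=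
    Chain_S h j 3 (by norm_num) (Equiv.swap 0 1, ![1, 1, -1]) _ _ (by decide) (by decide)
  have s4 : S ((16 : ℤ) ^ j • ![-17, 10, 17]) = a (6 * j + 2) • vec ![-5, -17, 5] :=
    Chain_S h j 2 (by norm_num) (Equiv.swap 0 1, ![-1, 1, 1]) _ _ (by decide) (by decide)
  have s5 : S ((16 : ℤ) ^ j • ![17, 10, 17]) = a (6 * j + 2) • vec ![5, -17, 5] :=
    Chain_S h j 2 (by norm_num) (Equiv.swap 0 1, ![1, 1, 1]) _ _ (by decide) (by decide)
  have t0 := Chain_term (S := S) j ![0, 20, 34] ![0, -17, 10] ![-20, 0, -34] ![20, 20, 68] ![17, 0, -10] ![17, 17, -10] (a (6 * j + 3)) (a (6 * j + 4)) (132260) s0 s1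
    (by decide) (by decide)
  have t1 := Chain_term (S := S) j ![0, 20, 34] ![0, -17, 10] ![-20, 20, 68] ![20, 0, -34] ![-17, 17, -10] ![-17, 0, -10] (a (6 * j + 4)) (a (6 * j + 3)) (0) s2 s3
    (by decide) (by decide)
  have t2 := Chain_term (S := S) j ![0, 20, 34] ![0, -17, 10] ![-17, 10, 17] ![17, 10, 17] ![-5, -17, 5] ![5, -17, 5] (a (6 * j + 2)) (a (6 * j + 2)) (-57630) s4 s5
    (by decide) (by decide)
  have t3 := Chain_term (S := S) j ![0, 20, 34] ![0, -17, 10] ![17, 10, 17] ![-17, 10, 17] ![5, -17, 5] ![-5, -17, 5] (a (6 * j + 2)) (a (6 * j + 2)) (-57630) s5 s4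
    (by decide) (by decide)
  have t4 := Chain_term (S := S) j ![0, 20, 34] ![0, -17, 10] ![20, 0, -34] ![-20, 20, 68] ![-17, 0, -10] ![-17, 17, -10] (a (6 * j + 3)) (a (6 * j + 4)) (132260) s3 s2
    (by decide) (by decide)
  have t5 := Chain_term (S := S) j ![0, 20, 34] ![0, -17, 10] ![20, 20, 68] ![-20, 0, -34] ![17, 17, -10] ![17, 0, -10] (a (6 * j + 4)) (a (6 * j + 3)) (0) s1 s0
    (by decide) (by decide)
  have hcp : cp (6 * j + 3) = (([![-20, 0, -34], ![-20, 20, 68], ![-17, 10, 17], ![17, 10, 17], ![20, 0, -34], ![20, 20, 68]] : List (Fin 3 → ℤ)).map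
      (fun p => (16 : ℤ) ^ j • p)).toFinset := by
    have h1 : (6 * j + 3) % 6 = 3 := by omega
    have h2 : (6 * j + 3) / 6 = j := by omega
    simp [cp, cpb, h1, h2]
  have hkk : kk (6 * j + 3) = (16 : ℤ) ^ j • ![0, 20, 34] := by
    rw [Chain_kk j 3 (by norm_num)]; congr 1; decide
  have hev : ev (6 * j + 3) = ![0, -17, 10] := by
    rw [Chain_ev j 3]; decide
  rw [hcp, List.sum_toFinset _ (Chain_nodup j _ (by decide)), List.map_map]
  simp only [List.map_cons, List.map_nil, List.sum_cons, List.sum_nil, Function.comp_apply, hkk, hev]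
  rw [t0, t1, t2, t3, t4, t5]
  push_cast
  ring

theorem Chain_case4 {S : (Fin 3 → ℤ) → E3} {a : ℕ → ℝ}
    (h : ∀ n g, S (act g (kk n)) = a n • vec (act g (ev n))) (j : ℕ) :
    ∑ p ∈ cp (6 * j + 4), ⟪S p, vec (kk (6 * j + 4))⟫ * ⟪S (kk (6 * j + 4) - p), vec (ev (6 * j + 4))⟫ =
      16 ^ j * 417648 * (a (6 * j + 4) * a (6 * j + 5)) - 16 ^ j * 264520 * a (6 * j + 3) ^ 2 := by
  have s0 : S ((16 : ℤ) ^ j • ![-48, 40, 48]) = a (6 * j + 5) • vec ![5, 12, -5] :=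
    Chain_S h j 5 (by norm_num) (Equiv.swap 0 1, ![-1, 1, 1]) _ _ (by decide) (by decide)
  have s1 : S ((16 : ℤ) ^ j • ![68, -20, 20]) = a (6 * j + 4) • vec ![-10, -17, 17] :=
    Chain_S h j 4 (by norm_num) (Equiv.swap 0 2 * Equiv.swap 1 2, ![1, -1, 1]) _ _ (by decide) (by decide)
  have s2 : S ((16 : ℤ) ^ j • ![-20, 68, 20]) = a (6 * j + 4) • vec ![-17, -10, 17] :=
    Chain_S h j 4 (by norm_num) (Equiv.swap 1 2, ![-1, 1, 1]) _ _ (by decide) (by decide)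
  have s3 : S ((16 : ℤ) ^ j • ![40, -48, 48]) = a (6 * j + 5) • vec ![12, 5, -5] :=
    Chain_S h j 5 (by norm_num) (1, ![1, -1, 1]) _ _ (by decide) (by decide)
  have s4 : S ((16 : ℤ) ^ j • ![0, 20, 34]) = a (6 * j + 3) • vec ![0, -17, 10] :=
    Chain_S h j 3 (by norm_num) (1, ![1, 1, 1]) _ _ (by decide) (by decide)
  have s5 : S ((16 : ℤ) ^ j • ![20, 0, 34]) = a (6 * j + 3) • vec ![-17, 0, 10] :=
    Chain_S h j 3 (by norm_num) (Equiv.swap 0 1, ![1, 1, 1]) _ _ (by decide) (by decide)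
  have t0 := Chain_term (S := S) j ![20, 20, 68] ![17, 17, -10] ![-48, 40, 48] ![68, -20, 20] ![5, 12, -5] ![-10, -17, 17] (a (6 * j + 5)) (a (6 * j + 4)) (0) s0 s1
    (by decide) (by decide)
  have t1 := Chain_term (S := S) j ![20, 20, 68] ![17, 17, -10] ![-20, 68, 20] ![40, -48, 48] ![-17, -10, 17] ![12, 5, -5] (a (6 * j + 4)) (a (6 * j + 5)) (208824) s2 s3
    (by decide) (by decide)
  have t2 := Chain_term (S := S) j ![20, 20, 68] ![17, 17, -10] ![0, 20, 34] ![20, 0, 34] ![0, -17, 10] ![-17, 0, 10] (a (6 * j + 3)) (a (6 * j + 3)) (-132260) s4 s5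
    (by decide) (by decide)
  have t3 := Chain_term (S := S) j ![20, 20, 68] ![17, 17, -10] ![20, 0, 34] ![0, 20, 34] ![-17, 0, 10] ![0, -17, 10] (a (6 * j + 3)) (a (6 * j + 3)) (-132260) s5 s4
    (by decide) (by decide)
  have t4 := Chain_term (S := S) j ![20, 20, 68] ![17, 17, -10] ![40, -48, 48] ![-20, 68, 20] ![12, 5, -5] ![-17, -10, 17] (a (6 * j + 5)) (a (6 * j + 4)) (0) s3 s2
    (by decide) (by decide)
  have t5 := Chain_term (S := S) j ![20, 20, 68] ![17, 17, -10] ![68, -20, 20] ![-48, 40, 48] ![-10, -17, 17] ![5, 12, -5] (a (6 * j + 4)) (a (6 * j + 5)) (208824) s1 s0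
    (by decide) (by decide)
  have hcp : cp (6 * j + 4) = (([![-48, 40, 48], ![-20, 68, 20], ![0, 20, 34], ![20, 0, 34], ![40, -48, 48], ![68, -20, 20]] : List (Fin 3 → ℤ)).map
      (fun p => (16 : ℤ) ^ j • p)).toFinset := by
    have h1 : (6 * j + 4) % 6 = 4 := by omega
    have h2 : (6 * j + 4) / 6 = j := by omega
    simp [cp, cpb, h1, h2]
  have hkk : kk (6 * j + 4) = (16 : ℤ) ^ j • ![20, 20, 68] := by
    rw [Chain_kk j 4 (by norm_num)]; congr 1; decide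
  have hev : ev (6 * j + 4) = ![17, 17, -10] := by
    rw [Chain_ev j 4]; decide
  rw [hcp, List.sum_toFinset _ (Chain_nodup j _ (by decide)), List.map_map]
  simp only [List.map_cons, List.map_nil, List.sum_cons, List.sum_nil, Function.comp_apply, hkk, hev]
  rw [t0, t1, t2, t3, t4, t5]
  push_cast
  ring

theorem Chain_case5 {S : (Fin 3 → ℤ) → E3} {a : ℕ → ℝ}
    (h : ∀ n g, S (act g (kk n)) = a n • vec (act g (ev n))) (j : ℕ) :
    ∑ p ∈ cp (6 * j + 5), ⟪S p, vec (kk (6 * j + 5))⟫ * ⟪S (kk (6 * j + 5) - p), vec (ev (6 * j + 5))⟫ =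
      16 ^ j * 93120 * (a (6 * j + 5) * a (6 * (j + 1) + 0)) - 16 ^ j * 417648 * a (6 * j + 4) ^ 2 := by
  have s0 : S ((16 : ℤ) ^ j • ![-40, -48, 48]) = a (6 * j + 5) • vec ![-12, 5, -5] :=
    Chain_S h j 5 (by norm_num) (1, ![-1, -1, 1]) _ _ (by decide) (by decide)
  have s1 : S ((16 : ℤ) ^ j • ![80, 96, 0]) = a (6 * (j + 1) + 0) • vec ![-6, 5, 0] := by
    have h16 : (16 : ℤ) ^ j • (![80, 96, 0] : Fin 3 → ℤ) = (16 : ℤ) ^ (j + 1) • ![5, 6, 0] := by
      rw [pow_succ, mul_smul]; congr 1; decide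
    rw [h16]
    exact Chain_S h (j + 1) 0 (by norm_num) (Equiv.swap 0 1 * Equiv.swap 1 2, ![1, 1, 1]) _ _ (by decide) (by decide)
  have s2 : S ((16 : ℤ) ^ j • ![-40, 48, -48]) = a (6 * j + 5) • vec ![-12, -5, 5] :=
    Chain_S h j 5 (by norm_num) (1, ![-1, 1, -1]) _ _ (by decide) (by decide)
  have s3 : S ((16 : ℤ) ^ j • ![80, 0, 96]) = a (6 * (j + 1) + 0) • vec ![-6, 0, 5] := by
    have h16 : (16 : ℤ) ^ j • (![80, 0, 96] : Fin 3 → ℤ) = (16 : ℤ) ^ (j + 1) • ![5, 0, 6] := by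
      rw [pow_succ, mul_smul]; congr 1; decide
    rw [h16]
    exact Chain_S h (j + 1) 0 (by norm_num) (Equiv.swap 0 1, ![1, 1, 1]) _ _ (by decide) (by decide)
  have s4 : S ((16 : ℤ) ^ j • ![20, -20, 68]) = a (6 * j + 4) • vec ![17, -17, -10] :=
    Chain_S h j 4 (by norm_num) (1, ![1, -1, 1]) _ _ (by decide) (by decide)
  have s5 : S ((16 : ℤ) ^ j • ![20, 68, -20]) = a (6 * j + 4) • vec ![17, -10, -17] :=
    Chain_S h j 4 (by norm_num) (Equiv.swap 1 2, ![1, 1, -1]) _ _ (by decide) (by decide)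
  have t0 := Chain_term (S := S) j ![40, 48, 48] ![12, -5, -5] ![-40, -48, 48] ![80, 96, 0] ![-12, 5, -5] ![-6, 5, 0] (a (6 * j + 5)) (a (6 * (j + 1) + 0)) (46560) s0 s1
    (by decide) (by decide)
  have t1 := Chain_term (S := S) j ![40, 48, 48] ![12, -5, -5] ![-40, 48, -48] ![80, 0, 96] ![-12, -5, 5] ![-6, 0, 5] (a (6 * j + 5)) (a (6 * (j + 1) + 0)) (46560) s2 s3
    (by decide) (by decide)
  have t2 := Chain_term (S := S) j ![40, 48, 48] ![12, -5, -5] ![20, -20, 68] ![20, 68, -20] ![17, -17, -10] ![17, -10, -17] (a (6 * j + 4)) (a (6 * j + 4)) (-208824) s4 s5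
    (by decide) (by decide)
  have t3 := Chain_term (S := S) j ![40, 48, 48] ![12, -5, -5] ![20, 68, -20] ![20, -20, 68] ![17, -10, -17] ![17, -17, -10] (a (6 * j + 4)) (a (6 * j + 4)) (-208824) s5 s4
    (by decide) (by decide)
  have t4 := Chain_term (S := S) j ![40, 48, 48] ![12, -5, -5] ![80, 0, 96] ![-40, 48, -48] ![-6, 0, 5] ![-12, -5, 5] (a (6 * (j + 1) + 0)) (a (6 * j + 5)) (0) s3 s2
    (by decide) (by decide)
  have t5 := Chain_term (S := S) j ![40, 48, 48] ![12, -5, -5] ![80, 96, 0] ![-40, -48, 48] ![-6, 5, 0] ![-12, 5, -5] (a (6 * (j + 1) + 0)) (a (6 * j + 5)) (0) s1 s0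
    (by decide) (by decide)
  have hcp : cp (6 * j + 5) = (([![-40, -48, 48], ![-40, 48, -48], ![20, -20, 68], ![20, 68, -20], ![80, 0, 96], ![80, 96, 0]] : List (Fin 3 → ℤ)).map
      (fun p => (16 : ℤ) ^ j • p)).toFinset := by
    have h1 : (6 * j + 5) % 6 = 5 := by omega
    have h2 : (6 * j + 5) / 6 = j := by omega
    simp [cp, cpb, h1, h2]
  have hkk : kk (6 * j + 5) = (16 : ℤ) ^ j • ![40, 48, 48] := by
    rw [Chain_kk j 5 (by norm_num)]; congr 1; decide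
  have hev : ev (6 * j + 5) = ![12, -5, -5] := by
    rw [Chain_ev j 5]; decide
  rw [hcp, List.sum_toFinset _ (Chain_nodup j _ (by decide)), List.map_map]
  simp only [List.map_cons, List.map_nil, List.sum_cons, List.sum_nil, Function.comp_apply, hkk, hev]
  rw [t0, t1, t2, t3, t4, t5]
  push_cast
  ring

theorem Chain_case0 {S : (Fin 3 → ℤ) → E3} {a : ℕ → ℝ}
    (h : ∀ n g, S (act g (kk n)) = a n • vec (act g (ev n))) :
    ∑ p ∈ cp 0, ⟪S p, vec (kk 0)⟫ * ⟪S (kk 0 - p), vec (ev 0)⟫ =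
      3660 * (a 0 * a 1) := by
  let j : ℕ := 0
  have s0 : S ((16 : ℤ) ^ j • ![-5, 0, -6]) = a (6 * j + 0) • vec ![6, 0, -5] :=
    Chain_S h j 0 (by norm_num) (Equiv.swap 0 1, ![-1, 1, -1]) _ _ (by decide) (by decide)
  have s1 : S ((16 : ℤ) ^ j • ![5, 5, 12]) = a (6 * j + 1) • vec ![6, 6, -5] :=
    Chain_S h j 1 (by norm_num) (1, ![1, 1, 1]) _ _ (by decide) (by decide)
  have s2 : S ((16 : ℤ) ^ j • ![-5, 5, 12]) = a (6 * j + 1) • vec ![-6, 6, -5] :=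
    Chain_S h j 1 (by norm_num) (1, ![-1, 1, 1]) _ _ (by decide) (by decide)
  have s3 : S ((16 : ℤ) ^ j • ![5, 0, -6]) = a (6 * j + 0) • vec ![-6, 0, -5] :=
    Chain_S h j 0 (by norm_num) (Equiv.swap 0 1, ![1, 1, -1]) _ _ (by decide) (by decide)
  have t0 := Chain_term (S := S) j ![0, 5, 6] ![0, -6, 5] ![-5, 0, -6] ![5, 5, 12] ![6, 0, -5] ![6, 6, -5] (a (6 * j + 0)) (a (6 * j + 1)) (1830) s0 s1
    (by decide) (by decide)
  have t1 := Chain_term (S := S) j ![0, 5, 6] ![0, -6, 5] ![-5, 5, 12] ![5, 0, -6] ![-6, 6, -5] ![-6, 0, -5] (a (6 * j + 1)) (a (6 * j + 0)) (0) s2 s3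
    (by decide) (by decide)
  have t2 := Chain_term (S := S) j ![0, 5, 6] ![0, -6, 5] ![5, 0, -6] ![-5, 5, 12] ![-6, 0, -5] ![-6, 6, -5] (a (6 * j + 0)) (a (6 * j + 1)) (1830) s3 s2
    (by decide) (by decide)
  have t3 := Chain_term (S := S) j ![0, 5, 6] ![0, -6, 5] ![5, 5, 12] ![-5, 0, -6] ![6, 6, -5] ![6, 0, -5] (a (6 * j + 1)) (a (6 * j + 0)) (0) s1 s0
    (by decide) (by decide)
  have hcp : cp 0 = (([![-5, 0, -6], ![-5, 5, 12], ![5, 0, -6], ![5, 5, 12]] : List (Fin 3 → ℤ)).map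
      (fun p => (16 : ℤ) ^ j • p)).toFinset := by
    simp [cp, cpb, j]
  have hkk : kk 0 = (16 : ℤ) ^ j • ![0, 5, 6] := by
    change kk (6 * 0 + 0) = (16 : ℤ) ^ 0 • ![0, 5, 6]
    rw [Chain_kk 0 0 (by norm_num)]; congr 1; decide
  have hev : ev 0 = ![0, -6, 5] := by decide
  rw [hcp, List.sum_toFinset _ (Chain_nodup j _ (by decide)), List.map_map]
  simp only [List.map_cons, List.map_nil, List.sum_cons, List.sum_nil, Function.comp_apply, hkk, hev]
  rw [t0, t1, t2, t3]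
  simp only [j]
  push_cast
  ring

theorem Chain_case0s {S : (Fin 3 → ℤ) → E3} {a : ℕ → ℝ}
    (h : ∀ n g, S (act g (kk n)) = a n • vec (act g (ev n))) (j : ℕ) :
    ∑ p ∈ cp (6 * (j + 1) + 0), ⟪S p, vec (kk (6 * (j + 1) + 0))⟫ *
      ⟪S (kk (6 * (j + 1) + 0) - p), vec (ev (6 * (j + 1) + 0))⟫ =
      16 ^ (j + 1) * 3660 * (a (6 * (j + 1) + 0) * a (6 * (j + 1) + 1)) - 16 ^ j * 93120 * a (6 * j + 5) ^ 2 := by
  have s0 : S ((16 : ℤ) ^ j • ![-80, 0, -96]) = a (6 * (j + 1) + 0) • vec ![6, 0, -5] := by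
    have h16 : (16 : ℤ) ^ j • (![-80, 0, -96] : Fin 3 → ℤ) = (16 : ℤ) ^ (j + 1) • ![-5, 0, -6] := by
      rw [pow_succ, mul_smul]; congr 1; decide
    rw [h16]
    exact Chain_S h (j + 1) 0 (by norm_num) (Equiv.swap 0 1, ![-1, 1, -1]) _ _ (by decide) (by decide)
  have s1 : S ((16 : ℤ) ^ j • ![80, 80, 192]) = a (6 * (j + 1) + 1) • vec ![6, 6, -5] := by
    have h16 : (16 : ℤ) ^ j • (![80, 80, 192] : Fin 3 → ℤ) = (16 : ℤ) ^ (j + 1) • ![5, 5, 12] := by
      rw [pow_succ, mul_smul]; congr 1; decide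
    rw [h16]
    exact Chain_S h (j + 1) 1 (by norm_num) (1, ![1, 1, 1]) _ _ (by decide) (by decide)
  have s2 : S ((16 : ℤ) ^ j • ![-80, 80, 192]) = a (6 * (j + 1) + 1) • vec ![-6, 6, -5] := by
    have h16 : (16 : ℤ) ^ j • (![-80, 80, 192] : Fin 3 → ℤ) = (16 : ℤ) ^ (j + 1) • ![-5, 5, 12] := by
      rw [pow_succ, mul_smul]; congr 1; decide
    rw [h16]
    exact Chain_S h (j + 1) 1 (by norm_num) (1, ![-1, 1, 1]) _ _ (by decide) (by decide)
  have s3 : S ((16 : ℤ) ^ j • ![80, 0, -96]) = a (6 * (j + 1) + 0) • vec ![-6, 0, -5] := by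
    have h16 : (16 : ℤ) ^ j • (![80, 0, -96] : Fin 3 → ℤ) = (16 : ℤ) ^ (j + 1) • ![5, 0, -6] := by
      rw [pow_succ, mul_smul]; congr 1; decide
    rw [h16]
    exact Chain_S h (j + 1) 0 (by norm_num) (Equiv.swap 0 1, ![1, 1, -1]) _ _ (by decide) (by decide)
  have s4 : S ((16 : ℤ) ^ j • ![-48, 40, 48]) = a (6 * j + 5) • vec ![5, 12, -5] :=
    Chain_S h j 5 (by norm_num) (Equiv.swap 0 1, ![-1, 1, 1]) _ _ (by decide) (by decide)
  have s5 : S ((16 : ℤ) ^ j • ![48, 40, 48]) = a (6 * j + 5) • vec ![-5, 12, -5] :=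
    Chain_S h j 5 (by norm_num) (Equiv.swap 0 1, ![1, 1, 1]) _ _ (by decide) (by decide)
  have t0 := Chain_term (S := S) j ![0, 80, 96] ![0, -6, 5] ![-80, 0, -96] ![80, 80, 192] ![6, 0, -5] ![6, 6, -5] (a (6 * (j + 1) + 0)) (a (6 * (j + 1) + 1)) (29280) s0 s1
    (by decide) (by decide)
  have t1 := Chain_term (S := S) j ![0, 80, 96] ![0, -6, 5] ![-80, 80, 192] ![80, 0, -96] ![-6, 6, -5] ![-6, 0, -5] (a (6 * (j + 1) + 1)) (a (6 * (j + 1) + 0)) (0) s2 s3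
    (by decide) (by decide)
  have t2 := Chain_term (S := S) j ![0, 80, 96] ![0, -6, 5] ![80, 0, -96] ![-80, 80, 192] ![-6, 0, -5] ![-6, 6, -5] (a (6 * (j + 1) + 0)) (a (6 * (j + 1) + 1)) (29280) s3 s2
    (by decide) (by decide)
  have t3 := Chain_term (S := S) j ![0, 80, 96] ![0, -6, 5] ![80, 80, 192] ![-80, 0, -96] ![6, 6, -5] ![6, 0, -5] (a (6 * (j + 1) + 1)) (a (6 * (j + 1) + 0)) (0) s1 s0
    (by decide) (by decide)
  have t4 := Chain_term (S := S) j ![0, 80, 96] ![0, -6, 5] ![-48, 40, 48] ![48, 40, 48] ![5, 12, -5] ![-5, 12, -5] (a (6 * j + 5)) (a (6 * j + 5)) (-46560) s4 s5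
    (by decide) (by decide)
  have t5 := Chain_term (S := S) j ![0, 80, 96] ![0, -6, 5] ![48, 40, 48] ![-48, 40, 48] ![-5, 12, -5] ![5, 12, -5] (a (6 * j + 5)) (a (6 * j + 5)) (-46560) s5 s4
    (by decide) (by decide)
  have hcp : cp (6 * (j + 1) + 0) = (([![-80, 0, -96], ![-80, 80, 192], ![80, 0, -96], ![80, 80, 192], ![-48, 40, 48], ![48, 40, 48]] : List (Fin 3 → ℤ)).map
      (fun p => (16 : ℤ) ^ j • p)).toFinset := by
    have h1 : (6 * (j + 1)) % 6 = 0 := by omega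
    have h2 : (6 * (j + 1)) / 6 = j + 1 := by omega
    have e0 : ∀ x y z : ℤ, (16 : ℤ) ^ (j + 1) • (![x, y, z] : Fin 3 → ℤ) =
        (16 : ℤ) ^ j • ![16 * x, 16 * y, 16 * z] := by
      intro x y z
      rw [pow_succ, mul_smul]
      congr 1
      ext i
      fin_cases i <;> rfl
    simp only [cp, cpb, add_zero, h1, h2, List.map_cons, List.map_nil, e0]
    norm_num
  have hkk : kk (6 * (j + 1) + 0) = (16 : ℤ) ^ j • ![0, 80, 96] := by
    rw [Chain_kk (j + 1) 0 (by norm_num), pow_succ, mul_smul]; congr 1; decide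
  have hev : ev (6 * (j + 1) + 0) = ![0, -6, 5] := by
    rw [Chain_ev (j + 1) 0]; decide
  rw [hcp, List.sum_toFinset _ (Chain_nodup j _ (by decide)), List.map_map]
  simp only [List.map_cons, List.map_nil, List.sum_cons, List.sum_nil, Function.comp_apply, hkk, hev]
  rw [t0, t1, t2, t3, t4, t5]
  push_cast
  ring

theorem claimChain : ClaimChain := by
  intro S a h n
  obtain ⟨j, i, hi, rfl⟩ : ∃ j i : ℕ, i < 6 ∧ n = 6 * j + i := ⟨n / 6, n % 6, by omega, by omega⟩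
  interval_cases i
  · rcases j with _ | j
    · have := Chain_case0 h
      simp only [mul_zero, add_zero, zero_add] at this ⊢
      rw [this]
      simp [Q, qb]
    · have := Chain_case0s h j
      rw [this]
      have e1 : (6 * (j + 1) + 0) / 6 = j + 1 := by omega
      have e2 : (6 * (j + 1) + 0) % 6 = 0 := by omega
      have e3 : 6 * (j + 1) + 0 - 1 = 6 * j + 5 := by omega
      have e4 : (6 * j + 5) / 6 = j := by omega
      have e5 : (6 * j + 5) % 6 = 5 := by omega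
      rw [if_neg (by omega), e3]
      unfold Q qb
      rw [e1, e2, e4, e5]
      rfl
  · have := Chain_case1 h j
    rw [this]
    have e1 : (6 * j + 1) / 6 = j := by omega
    have e2 : (6 * j + 1) % 6 = 1 := by omega
    have e3 : 6 * j + 1 - 1 = 6 * j + 0 := by omega
    have e4 : (6 * j + 0) / 6 = j := by omega
    have e5 : (6 * j + 0) % 6 = 0 := by omega
    rw [if_neg (by omega), e3]
    unfold Q qb
    rw [e1, e2, e4, e5]
    rfl
  · have := Chain_case2 h j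
    rw [this]
    have e1 : (6 * j + 2) / 6 = j := by omega
    have e2 : (6 * j + 2) % 6 = 2 := by omega
    have e3 : 6 * j + 2 - 1 = 6 * j + 1 := by omega
    have e4 : (6 * j + 1) / 6 = j := by omega
    have e5 : (6 * j + 1) % 6 = 1 := by omega
    rw [if_neg (by omega), e3]
    unfold Q qb
    rw [e1, e2, e4, e5]
    rfl
  · have := Chain_case3 h j
    rw [this]
    have e1 : (6 * j + 3) / 6 = j := by omega
    have e2 : (6 * j + 3) % 6 = 3 := by omega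
    have e3 : 6 * j + 3 - 1 = 6 * j + 2 := by omega
    have e4 : (6 * j + 2) / 6 = j := by omega
    have e5 : (6 * j + 2) % 6 = 2 := by omega
    rw [if_neg (by omega), e3]
    unfold Q qb
    rw [e1, e2, e4, e5]
    rfl
  · have := Chain_case4 h j
    rw [this]
    have e1 : (6 * j + 4) / 6 = j := by omega
    have e2 : (6 * j + 4) % 6 = 4 := by omega
    have e3 : 6 * j + 4 - 1 = 6 * j + 3 := by omega
    have e4 : (6 * j + 3) / 6 = j := by omega
    have e5 : (6 * j + 3) % 6 = 3 := by omega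
    rw [if_neg (by omega), e3]
    unfold Q qb
    rw [e1, e2, e4, e5]
    rfl
  · have := Chain_case5 h j
    rw [this]
    have e1 : (6 * j + 5) / 6 = j := by omega
    have e2 : (6 * j + 5) % 6 = 5 := by omega
    have e3 : 6 * j + 5 - 1 = 6 * j + 4 := by omega
    have e4 : (6 * j + 4) / 6 = j := by omega
    have e5 : (6 * j + 4) % 6 = 4 := by omega
    rw [if_neg (by omega), e3]
    unfold Q qb
    rw [e1, e2, e4, e5]
    rfl

end Pool.Agent.Work.MP_b0497c_an.Damp
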