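import Mathlib
import Pool.Agent.Work.MP_b0497c_an.Damp.Stmts

set_option autoImplicit false

/-!
Item L1: the only triads on the lines through a mode of the chain are those of the chain.
-/

namespace Pool.Agent.Work.MP_b0497c_an.Damp

open Pool.Agent.Work.MP_b0497c_an.Dec

/-- The `72` lines. -/
def Closed_lines : List (ℤ × ℤ × ℤ) :=
  [(0, 5, -6), (0, 5, 6), (0, 6, -5), (0, 6, 5), (5, -6, 0), (5, 0, -6),
   (5, 0, 6), (5, 6, 0), (6, -5, 0), (6, 0, -5), (6, 0, 5), (6, 5, 0),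
   (5, -12, -5), (5, -12, 5), (5, -5, -12), (5, -5, 12), (5, 5, -12), (5, 5, 12),
   (5, 12, -5), (5, 12, 5), (12, -5, -5), (12, -5, 5), (12, 5, -5), (12, 5, 5),
   (10, -17, -17), (10, -17, 17), (10, 17, -17), (10, 17, 17), (17, -17, -10), (17, -17, 10),
   (17, -10, -17), (17, -10, 17), (17, 10, -17), (17, 10, 17), (17, 17, -10), (17, 17, 10),
   (0, 10, -17), (0, 10, 17), (0, 17, -10), (0, 17, 10), (10, -17, 0), (10, 0, -17),
   (10, 0, 17), (10, 17, 0), (17, -10, 0), (17, 0, -10), (17, 0, 10), (17, 10, 0),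
   (5, -17, -5), (5, -17, 5), (5, -5, -17), (5, -5, 17), (5, 5, -17), (5, 5, 17),
   (5, 17, -5), (5, 17, 5), (17, -5, -5), (17, -5, 5), (17, 5, -5), (17, 5, 5),
   (5, -6, -6), (5, -6, 6), (5, 6, -6), (5, 6, 6), (6, -6, -5), (6, -6, 5),
   (6, -5, -6), (6, -5, 6), (6, 5, -6), (6, 5, 6), (6, 6, -5), (6, 6, 5)]

/-- The crossproduct. -/
def Closed_cross (a b : ℤ × ℤ × ℤ) : ℤ × ℤ × ℤ :=
  (a.2.1 * b.2.2 - a.2.2 * b.2.1, a.2.2 * b.1 - a.1 * b.2.2, a.1 * b.2.1 - a.2.1 * b.1)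

/-- The dot product. -/
def Closed_dot (a b : ℤ × ℤ × ℤ) : ℤ := a.1 * b.1 + a.2.1 * b.2.1 + a.2.2 * b.2.2

/-- Multiples. -/
def Closed_smul (r : ℤ) (a : ℤ × ℤ × ℤ) : ℤ × ℤ × ℤ := (r * a.1, r * a.2.1, r * a.2.2)

/-- The base vectors of the chain. -/
def Closed_kap (i : ℕ) : ℤ × ℤ × ℤ :=
  match i with
  | 0 => (0, 5, 6)
  | 1 => (5, 5, 12)
  | 2 => (10, 17, 17)
  | 3 => (0, 20, 34)
  | 4 => (20, 20, 68)
  | _ => (40, 48, 48)

/-- The allowed `p`. -/
def Closed_tgt (i : ℕ) : List (ℤ × ℤ × ℤ) :=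
  match i with
  | 0 => [(-5, 0, -6), (-5, 5, 12), (5, 0, -6), (5, 5, 12)]
  | 1 => [(-12, -5, -5), (-5, -12, -5), (0, 5, 6), (5, 0, 6), (10, 17, 17), (17, 10, 17)]
  | 2 => [(-10, -17, 17), (-10, 17, -17), (5, 5, 12), (5, 12, 5), (20, 0, 34), (20, 34, 0)]
  | 3 => [(-20, 0, -34), (-20, 20, 68), (-17, 10, 17), (17, 10, 17), (20, 0, -34), (20, 20, 68)]
  | 4 => [(-48, 40, 48), (-20, 68, 20), (0, 20, 34), (20, 0, 34), (40, -48, 48), (68, -20, 20)]
  | _ => [(-40, -48, 48), (-40, 48, -48), (20, -20, 68), (20, 68, -20), (80, 0, 96), (80, 96, 0)]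

/-- The allowed `16 p`. -/
def Closed_tgt2 (i : ℕ) : List (ℤ × ℤ × ℤ) :=
  if i = 0 then [(-48, 40, 48), (48, 40, 48)] else []

/-- The check of one component. -/
def Closed_okc (i : ℕ) (d : ℤ × ℤ × ℤ) (c x : ℤ) : Bool :=
  decide (x = 0) || (decide (c.natAbs < 4096) && (decide (4096 * x % c ≠ 0) ||
    (decide (x % c = 0) && decide (Closed_smul (x / c) d ∈ Closed_tgt i)) ||
    (decide (x % c ≠ 0) && decide (2 * x % c = 0) &&
      decide (Closed_smul (16 * x / c) d ∈ Closed_tgt2 i))))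

/-- The check of a pair of lines. -/
def Closed_ok (i : ℕ) (d1 d2 : ℤ × ℤ × ℤ) : Bool :=
  decide (Closed_dot (Closed_cross (Closed_kap i) d1) d2 ≠ 0) ||
  decide (Closed_cross (Closed_kap i) d1 = (0, 0, 0)) ||
  (if (Closed_cross d1 d2).1 ≠ 0 then
    Closed_okc i d1 (Closed_cross d1 d2).1 (Closed_cross (Closed_kap i) d2).1
  else if (Closed_cross d1 d2).2.1 ≠ 0 then
    Closed_okc i d1 (Closed_cross d1 d2).2.1 (Closed_cross (Closed_kap i) d2).2.1
  else if (Closed_cross d1 d2).2.2 ≠ 0 then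
    Closed_okc i d1 (Closed_cross d1 d2).2.2 (Closed_cross (Closed_kap i) d2).2.2
  else true)

theorem Closed_check : ∀ i ∈ List.range 6, ∀ d1 ∈ Closed_lines, ∀ d2 ∈ Closed_lines,
    Closed_ok i d1 d2 = true := by
  decide +kernel

theorem Closed_dvd_nat (a b J : ℕ) (h0 : a ≠ 0) (ha : a < 4096) (h : a ∣ 16 ^ J * b) :
    a ∣ 4096 * b := by
  obtain ⟨e, o, ho, rfl⟩ := Nat.exists_eq_two_pow_mul_odd h0
  have ho0 : 0 < o := ho.pos
  have he : e < 12 := by
    have h1 : 2 ^ e < 2 ^ 12 := by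
      calc 2 ^ e ≤ 2 ^ e * o := Nat.le_mul_of_pos_right _ ho0
        _ < 2 ^ 12 := by simpa using ha
    exact (Nat.pow_lt_pow_iff_right (by norm_num)).1 h1
  have h1 : o ∣ b := by
    have h2 : o ∣ 16 ^ J * b := (Dvd.intro_left _ rfl).trans h
    have h3 : Nat.Coprime o (16 ^ J) := by
      have h4 : Nat.Coprime o 2 := Nat.coprime_two_right.2 ho
      have h5 : (16 : ℕ) = 2 ^ 4 := by norm_num
      rw [h5]
      exact (h4.pow_right 4).pow_right J
    exact h3.dvd_of_dvd_mul_left h2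
  have h2 : 2 ^ e ∣ 4096 := by
    have h3 : (4096 : ℕ) = 2 ^ 12 := by norm_num
    rw [h3]
    exact pow_dvd_pow 2 he.le
  exact mul_dvd_mul h2 h1

theorem Closed_dvd (c x : ℤ) (J : ℕ) (h0 : c ≠ 0) (hc : c.natAbs < 4096)
    (h : c ∣ 16 ^ J * x) : c ∣ 4096 * x := by
  have h1 : c.natAbs ∣ 16 ^ J * x.natAbs := by
    have := Int.natAbs_dvd_natAbs.2 h
    rwa [Int.natAbs_mul, Int.natAbs_pow] at this
  have h2 := Closed_dvd_nat _ _ J (Int.natAbs_ne_zero.2 h0) hc h1
  rw [← Int.natAbs_dvd_natAbs, Int.natAbs_mul]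
  exact h2

/-- The three possible conclusions for `r • d`. -/
def Closed_con (i J : ℕ) (d : ℤ × ℤ × ℤ) (r : ℤ) : Prop :=
  r = 0 ∨ (∃ y : ℤ, r = 16 ^ J * y ∧ Closed_smul y d ∈ Closed_tgt i) ∨
    (∃ (J' : ℕ) (y : ℤ), J = J' + 1 ∧ r = 16 ^ J' * y ∧ Closed_smul y d ∈ Closed_tgt2 i)

theorem Closed_comp (i J : ℕ) (d : ℤ × ℤ × ℤ) (r c x : ℤ) (h0 : c ≠ 0)
    (h : r * c = 16 ^ J * x) (hok : Closed_okc i d c x = true) : Closed_con i J d r := by
  unfold Closed_okc at hok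
  simp only [Bool.or_eq_true, Bool.and_eq_true, decide_eq_true_eq] at hok
  have hdvd : c ∣ 16 ^ J * x := Dvd.intro_left r h
  rcases hok with hx | ⟨hc, hok⟩
  · left
    rw [hx, mul_zero] at h
    exact (mul_eq_zero.1 h).resolve_right h0
  · rcases hok with (h1 | ⟨h1, h2⟩) | ⟨⟨h1, h2⟩, h3⟩
    · exact absurd (Int.emod_eq_zero_of_dvd (Closed_dvd c x J h0 hc hdvd)) h1
    · right
      left
      obtain ⟨y, rfl⟩ := Int.dvd_of_emod_eq_zero h1
      rw [Int.mul_ediv_cancel_left _ h0] at h2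
      refine ⟨y, ?_, h2⟩
      have h4 : r * c = (16 ^ J * y) * c := by rw [h]; ring
      exact mul_right_cancel₀ h0 h4
    · right
      right
      have h4 : c ∣ 16 * x := by
        have := (Int.dvd_of_emod_eq_zero h2).mul_left 8
        have h5 : 8 * (2 * x) = 16 * x := by ring
        rwa [h5] at this
      obtain ⟨z, hz⟩ := h4
      rw [hz, Int.mul_ediv_cancel_left _ h0] at h3
      rcases J with _ | J
      · exfalso
        apply h1
        rw [pow_zero, one_mul] at h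
        rw [← h]
        exact Int.mul_emod_left r c
      · refine ⟨J, z, rfl, ?_, h3⟩
        have h6 : r * c = (16 ^ J * z) * c := by
          rw [h, pow_succ]
          linear_combination 16 ^ J * hz
        exact mul_right_cancel₀ h0 h6

theorem Closed_main (i J : ℕ) (hi : i < 6) (d1 d2 : ℤ × ℤ × ℤ) (h1 : d1 ∈ Closed_lines)
    (h2 : d2 ∈ Closed_lines) (r s : ℤ)
    (e0 : r * d1.1 + s * d2.1 = 16 ^ J * (Closed_kap i).1)
    (e1 : r * d1.2.1 + s * d2.2.1 = 16 ^ J * (Closed_kap i).2.1)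
    (e2 : r * d1.2.2 + s * d2.2.2 = 16 ^ J * (Closed_kap i).2.2) :
    Closed_con i J d1 r ∨ Closed_cross (Closed_kap i) d1 = (0, 0, 0) := by
  have hM : (16 : ℤ) ^ J ≠ 0 := by positivity
  have hok := Closed_check i (List.mem_range.2 hi) d1 h1 d2 h2
  unfold Closed_ok at hok
  simp only [Bool.or_eq_true, decide_eq_true_eq] at hok
  have hx0 : r * (Closed_cross d1 d2).1 = 16 ^ J * (Closed_cross (Closed_kap i) d2).1 := by
    simp only [Closed_cross]
    linear_combination d2.2.2 * e1 - d2.2.1 * e2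
  have hx1 : r * (Closed_cross d1 d2).2.1 = 16 ^ J * (Closed_cross (Closed_kap i) d2).2.1 := by
    simp only [Closed_cross]
    linear_combination d2.1 * e2 - d2.2.2 * e0
  have hx2 : r * (Closed_cross d1 d2).2.2 = 16 ^ J * (Closed_cross (Closed_kap i) d2).2.2 := by
    simp only [Closed_cross]
    linear_combination d2.2.1 * e0 - d2.1 * e1
  rcases hok with (hdet | hpar) | hcmp
  · exfalso
    apply hdet
    have h3 : (16 : ℤ) ^ J * Closed_dot (Closed_cross (Closed_kap i) d1) d2 = 0 := by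
      simp only [Closed_cross, Closed_dot]
      linear_combination (d1.2.2 * d2.2.1 - d1.2.1 * d2.2.2) * e0
        + (d1.1 * d2.2.2 - d1.2.2 * d2.1) * e1 + (d1.2.1 * d2.1 - d1.1 * d2.2.1) * e2
    exact (mul_eq_zero.1 h3).resolve_left hM
  · exact Or.inr hpar
  · split_ifs at hcmp with c0 c1 c2
    · exact Or.inl (Closed_comp i J d1 r _ _ c0 hx0 hcmp)
    · exact Or.inl (Closed_comp i J d1 r _ _ c1 hx1 hcmp)
    · exact Or.inl (Closed_comp i J d1 r _ _ c2 hx2 hcmp)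
    · right
      push Not at c0 c1 c2
      simp only [Closed_cross] at c0 c1 c2
      have k0 : (16 : ℤ) ^ J * (Closed_cross (Closed_kap i) d1).1 = 0 := by
        simp only [Closed_cross]
        linear_combination (-s) * c0 - d1.2.2 * e1 + d1.2.1 * e2
      have k1 : (16 : ℤ) ^ J * (Closed_cross (Closed_kap i) d1).2.1 = 0 := by
        simp only [Closed_cross]
        linear_combination (-s) * c1 - d1.1 * e2 + d1.2.2 * e0
      have k2 : (16 : ℤ) ^ J * (Closed_cross (Closed_kap i) d1).2.2 = 0 := by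
        simp only [Closed_cross]
        linear_combination (-s) * c2 - d1.2.1 * e0 + d1.1 * e1
      refine Prod.ext ((mul_eq_zero.1 k0).resolve_left hM)
        (Prod.ext ((mul_eq_zero.1 k1).resolve_left hM) ((mul_eq_zero.1 k2).resolve_left hM))

theorem Closed_dir_mod (a : ℕ) : dir a = dir (a % 6) := by
  unfold dir
  rw [Nat.mod_mod]

theorem Closed_rep_aux : ∀ i ∈ List.range 6, ∀ g : Sgn, ∃ d ∈ Closed_lines,
    act g (dir i) = ![d.1, d.2.1, d.2.2] ∨ act g (dir i) = ![-d.1, -d.2.1, -d.2.2] := by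
  decide +kernel

theorem Closed_rep (a : ℕ) (g : Sgn) (r : ℤ) : ∃ d ∈ Closed_lines, ∃ r' : ℤ,
    r • act g (dir a) = ![r' * d.1, r' * d.2.1, r' * d.2.2] := by
  have h6 : a % 6 ∈ List.range 6 := List.mem_range.2 (Nat.mod_lt _ (by norm_num))
  obtain ⟨d, hd, h | h⟩ := Closed_rep_aux (a % 6) h6 g
  · refine ⟨d, hd, r, ?_⟩
    rw [Closed_dir_mod, h]
    ext j
    fin_cases j <;> simp
  · refine ⟨d, hd, -r, ?_⟩
    rw [Closed_dir_mod, h]
    ext j
    fin_cases j <;> simp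

theorem Closed_kk (n : ℕ) : kk n = ![16 ^ (n / 6) * (Closed_kap (n % 6)).1,
    16 ^ (n / 6) * (Closed_kap (n % 6)).2.1, 16 ^ (n / 6) * (Closed_kap (n % 6)).2.2] := by
  have h6 : n % 6 < 6 := Nat.mod_lt _ (by norm_num)
  unfold kk mult dir Closed_kap
  generalize 16 ^ (n / 6) = M
  generalize n % 6 = i at h6
  interval_cases i <;> (ext j; fin_cases j <;> simp <;> ring)

theorem Closed_mem_aux : ∀ i ∈ List.range 6, ∀ y ∈ Closed_tgt i,
    ![y.1, y.2.1, y.2.2] ∈ cpb i := by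
  decide +kernel

theorem Closed_cpb_mod (n : ℕ) : cpb n = cpb (n % 6) := by
  unfold cpb
  rw [Nat.mod_mod]

theorem Closed_mem (n : ℕ) (y : ℤ × ℤ × ℤ) (h : y ∈ Closed_tgt (n % 6)) :
    ![16 ^ (n / 6) * y.1, 16 ^ (n / 6) * y.2.1, 16 ^ (n / 6) * y.2.2] ∈ cp n := by
  have h6 : n % 6 ∈ List.range 6 := List.mem_range.2 (Nat.mod_lt _ (by norm_num))
  have h1 : ![y.1, y.2.1, y.2.2] ∈ cpb n := by
    rw [Closed_cpb_mod]
    exact Closed_mem_aux _ h6 y h
  unfold cp
  rw [List.mem_toFinset, List.mem_append]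
  left
  rw [List.mem_map]
  refine ⟨_, h1, ?_⟩
  ext j
  fin_cases j <;> simp

theorem Closed_mem2 (n J : ℕ) (hJ : n / 6 = J + 1) (y : ℤ × ℤ × ℤ)
    (h : y ∈ Closed_tgt2 (n % 6)) :
    ![16 ^ J * y.1, 16 ^ J * y.2.1, 16 ^ J * y.2.2] ∈ cp n := by
  have h0 : n % 6 = 0 := by
    by_contra h0
    simp [Closed_tgt2, h0] at h
  have hn : n ≠ 0 := by
    rintro rfl
    simp at hJ
  rw [h0] at h
  unfold cp
  rw [List.mem_toFinset, List.mem_append]
  right
  rw [if_pos ⟨h0, hn⟩, hJ, Nat.add_sub_cancel]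
  simp only [Closed_tgt2, if_true, List.mem_cons, List.not_mem_nil, or_false] at h
  rcases h with rfl | rfl
  · apply List.mem_cons.2
    left
    ext j
    fin_cases j <;> simp
  · apply List.mem_cons.2
    right
    apply List.mem_singleton.2
    ext j
    fin_cases j <;> simp

theorem claimClosed : ClaimClosed := by
  rintro n p ⟨a, g, r, hp⟩ ⟨b, h, s, hq⟩
  obtain ⟨d1, hd1, r', hr⟩ := Closed_rep a g r
  obtain ⟨d2, hd2, s', hs⟩ := Closed_rep b h s
  rw [hr] at hp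
  rw [hs] at hq
  have hk := Closed_kk n
  have hsum : ∀ j, p j + (kk n - p) j = kk n j := fun j => by simp
  have e0 := hsum 0
  have e1 := hsum 1
  have e2 := hsum 2
  rw [hq, hp, hk] at e0 e1 e2
  simp only [Matrix.cons_val_zero, Matrix.cons_val_one, Matrix.cons_val] at e0 e1 e2
  rcases Closed_main (n % 6) (n / 6) (Nat.mod_lt _ (by norm_num)) d1 d2 hd1 hd2 r' s' e0 e1 e2
    with (h1 | ⟨y, h1, h2⟩ | ⟨J, y, hJ, h1, h2⟩) | h1
  · right
    rw [hp, h1]
    simp [par]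
  · left
    have h3 := Closed_mem n _ h2
    have h4 : p = ![16 ^ (n / 6) * (Closed_smul y d1).1, 16 ^ (n / 6) * (Closed_smul y d1).2.1,
        16 ^ (n / 6) * (Closed_smul y d1).2.2] := by
      rw [hp, h1]
      simp only [Closed_smul]
      ext j
      fin_cases j <;> simp <;> ring
    rw [h4]
    exact h3
  · left
    have h3 := Closed_mem2 n J hJ _ h2
    have h4 : p = ![16 ^ J * (Closed_smul y d1).1, 16 ^ J * (Closed_smul y d1).2.1,
        16 ^ J * (Closed_smul y d1).2.2] := by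
      rw [hp, h1]
      simp only [Closed_smul]
      ext j
      fin_cases j <;> simp <;> ring
    rw [h4]
    exact h3
  · right
    have h2 : (Closed_cross (Closed_kap (n % 6)) d1).1 = 0 := by rw [h1]
    have h3 : (Closed_cross (Closed_kap (n % 6)) d1).2.1 = 0 := by rw [h1]
    have h4 : (Closed_cross (Closed_kap (n % 6)) d1).2.2 = 0 := by rw [h1]
    simp only [Closed_cross] at h2 h3 h4
    rw [hp, hk]
    refine ⟨?_, ?_, ?_⟩
    · simp only [Matrix.cons_val_zero, Matrix.cons_val_one]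
      linear_combination (-(r' * 16 ^ (n / 6))) * h4
    · simp only [Matrix.cons_val_one, Matrix.cons_val]
      linear_combination (-(r' * 16 ^ (n / 6))) * h2
    · simp only [Matrix.cons_val_zero, Matrix.cons_val]
      linear_combination (r' * 16 ^ (n / 6)) * h3

end Pool.Agent.Work.MP_b0497c_an.Damp
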