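import Mathlib
import Pool.Agent.Work.MP_b0497c_an.Damp.Stmts

set_option autoImplicit false

/-!
Local existence for the Fourier coefficients of the damped Euler equations: expansion in powers of
the amplitude. The term of order `m + 1` has finitely many modes, of size at most `(m + 1) R`.
-/

namespace Pool.Agent.Work.MP_b0497c_an.Damp

open Set MeasureTheory RealInnerProductSpace Pool.Agent.Work.MP_b0497c_an
open Pool.Agent.Work.MP_b0497c_an.Dec

/-! ### Boxes -/

/-- The box of half side `r`. -/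
noncomputable def coeffBox (r : ℕ) : Finset (Fin 3 → ℤ) := Fintype.piFinset fun _ => Finset.Icc (-(r : ℤ)) r

lemma coeffBox_mem {r : ℕ} {k : Fin 3 → ℤ} : k ∈ coeffBox r ↔ ∀ i, -(r : ℤ) ≤ k i ∧ k i ≤ r := by
  simp [coeffBox, Fintype.mem_piFinset]

lemma coeffBox_neg {r : ℕ} {k : Fin 3 → ℤ} : -k ∈ coeffBox r ↔ k ∈ coeffBox r := by
  rw [coeffBox_mem, coeffBox_mem]
  refine forall_congr' fun i => ?_
  rw [Pi.neg_apply]
  constructor <;> intro h <;> constructor <;> omega

lemma coeffBox_add {r s u : ℕ} {k p : Fin 3 → ℤ} (hp : p ∈ coeffBox r) (hq : k - p ∈ coeffBox s)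
    (hu : r + s = u) : k ∈ coeffBox u := by
  rw [coeffBox_mem] at *
  intro i
  have h1 := hp i
  have h2 := hq i
  rw [Pi.sub_apply] at h2
  subst hu
  push_cast
  constructor <;> omega

lemma coeffBox_exists (F : Finset (Fin 3 → ℤ)) : ∃ M : ℕ, 1 ≤ M ∧ F ⊆ coeffBox M := by
  induction F using Finset.induction_on with
  | empty => exact ⟨1, le_rfl, by simp⟩
  | insert a F ha ih =>
    obtain ⟨M, hM, h⟩ := ih
    refine ⟨M + ∑ i, (a i).natAbs, by omega, fun k hk => ?_⟩
    rw [coeffBox_mem]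
    intro i
    rcases Finset.mem_insert.1 hk with rfl | hk
    · have h1 : (k i).natAbs ≤ ∑ i, (k i).natAbs :=
        Finset.single_le_sum (f := fun i => (k i).natAbs) (fun _ _ => Nat.zero_le _)
          (Finset.mem_univ i)
      constructor <;> omega
    · have h1 := coeffBox_mem.1 (h hk) i
      constructor <;> omega

lemma coeff_vec_neg (k : Fin 3 → ℤ) : vec (-k) = -vec k := by
  ext i
  fin_cases i <;> simp [vec]

lemma coeff_vec_zero : vec (0 : Fin 3 → ℤ) = 0 := by
  ext i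
  fin_cases i <;> simp [vec]

lemma coeff_norm_sq (k : Fin 3 → ℤ) : ‖vec k‖ ^ 2 = (k 0 : ℝ) ^ 2 + (k 1 : ℝ) ^ 2 + (k 2 : ℝ) ^ 2 := by
  rw [EuclideanSpace.norm_sq_eq, Fin.sum_univ_three]
  simp [vec]

lemma coeff_norm_le {r : ℕ} {k : Fin 3 → ℤ} (h : k ∈ coeffBox r) : ‖vec k‖ ≤ 2 * r := by
  have h1 : ∀ i, (k i : ℝ) ^ 2 ≤ (r : ℝ) ^ 2 := by
    intro i
    have h2 := coeffBox_mem.1 h i
    apply sq_le_sq'
    · exact_mod_cast h2.1
    · exact_mod_cast h2.2
  have h3 := coeff_norm_sq k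
  have h4 := h1 0
  have h5 := h1 1
  have h6 := h1 2
  apply le_of_sq_le_sq _ (by positivity)
  nlinarith

lemma coeff_vec_add (v w : Fin 3 → ℤ) : vec (v + w) = vec v + vec w := by
  ext i
  fin_cases i <;> simp [vec]

/-! ### The projection -/

/-- The projection onto the orthogonal complement of `k`. -/
noncomputable def coeffPj (k : Fin 3 → ℤ) : E3 →L[ℝ] E3 := ((ℝ ∙ vec k)ᗮ).starProjection

lemma coeffPj_inner (k : Fin 3 → ℤ) (x : E3) : ⟪vec k, coeffPj k x⟫ = 0 := by
  have h : coeffPj k x ∈ (ℝ ∙ vec k)ᗮ := Submodule.starProjection_apply_mem _ _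
  exact Submodule.mem_orthogonal_singleton_iff_inner_right.1 h

lemma coeffPj_test (k : Fin 3 → ℤ) (x c : E3) (hc : ⟪vec k, c⟫ = 0) :
    ⟪coeffPj k x, c⟫ = ⟪x, c⟫ := by
  have h : c ∈ (ℝ ∙ vec k)ᗮ := Submodule.mem_orthogonal_singleton_iff_inner_right.2 hc
  unfold coeffPj
  rw [Submodule.inner_starProjection_left_eq_right, Submodule.starProjection_eq_self_iff.2 h]

lemma coeffPj_norm (k : Fin 3 → ℤ) (x : E3) : ‖coeffPj k x‖ ≤ ‖x‖ :=
  Submodule.norm_starProjection_apply_le _ _

lemma coeffPj_neg (k : Fin 3 → ℤ) : coeffPj (-k) = coeffPj k := by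
  unfold coeffPj
  have : (ℝ ∙ vec (-k)) = (ℝ ∙ vec k) := by
    rw [coeff_vec_neg, ← Set.neg_singleton, Submodule.span_neg]
  simp only [this]

/-! ### The Duhamel integral -/

/-- The Duhamel integral. -/
noncomputable def coeffDu (d : ℝ) (g : ℝ → E3) (t : ℝ) : E3 :=
  ∫ s in (0 : ℝ)..t, Real.exp (-(d * (t - s))) • g s

lemma coeffDu_eq (d : ℝ) (g : ℝ → E3) (t : ℝ) :
    coeffDu d g t = Real.exp (-(d * t)) • ∫ s in (0 : ℝ)..t, Real.exp (d * s) • g s := by
  unfold coeffDu
  rw [← intervalIntegral.integral_smul]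
  congr 1
  ext s : 1
  rw [smul_smul, ← Real.exp_add]
  congr 2
  ring

lemma coeffDu_zero (d : ℝ) (g : ℝ → E3) : coeffDu d g 0 = 0 := by simp [coeffDu]

lemma coeffDu_deriv (d : ℝ) {g : ℝ → E3} (hg : Continuous g) (t : ℝ) :
    HasDerivAt (coeffDu d g) (g t - d • coeffDu d g t) t := by
  have hc : Continuous (fun s => Real.exp (d * s) • g s) := by fun_prop
  have h1 : HasDerivAt (fun t => ∫ s in (0 : ℝ)..t, Real.exp (d * s) • g s)
      (Real.exp (d * t) • g t) t :=
    intervalIntegral.integral_hasDerivAt_right (hc.intervalIntegrable _ _)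
      (hc.stronglyMeasurableAtFilter _ _) hc.continuousAt
  have h2 : HasDerivAt (fun t => Real.exp (-(d * t))) (Real.exp (-(d * t)) * (-d)) t := by
    have h3 : HasDerivAt (fun t : ℝ => -(d * t)) (-(d * 1)) t :=
      ((hasDerivAt_id t).const_mul d).neg
    rw [mul_one] at h3
    exact h3.exp
  have h3 := h2.smul h1
  have e1 : coeffDu d g = fun t => Real.exp (-(d * t)) •
      ∫ s in (0 : ℝ)..t, Real.exp (d * s) • g s := funext (coeffDu_eq d g)
  rw [e1]
  refine HasDerivAt.congr_deriv h3 ?_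
  rw [smul_smul, ← Real.exp_add, neg_add_cancel, Real.exp_zero, one_smul]
  module

lemma coeffDu_cont (d : ℝ) {g : ℝ → E3} (hg : Continuous g) : Continuous (coeffDu d g) :=
  continuous_iff_continuousAt.2 fun t => (coeffDu_deriv d hg t).continuousAt

lemma coeffDu_norm {d : ℝ} (hd : 0 ≤ d) {g : ℝ → E3} (hg : Continuous g) {t : ℝ} (ht : 0 ≤ t) :
    ‖coeffDu d g t‖ ≤ ∫ s in (0 : ℝ)..t, ‖g s‖ := by
  unfold coeffDu
  refine (intervalIntegral.norm_integral_le_integral_norm ht).trans ?_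
  apply intervalIntegral.integral_mono_on ht
  · exact Continuous.intervalIntegrable (by fun_prop) _ _
  · exact Continuous.intervalIntegrable (by fun_prop) _ _
  · intro s hs
    rw [norm_smul, Real.norm_of_nonneg (Real.exp_pos _).le]
    have h1 : Real.exp (-(d * (t - s))) ≤ 1 := by
      rw [Real.exp_le_one_iff]
      have : 0 ≤ d * (t - s) := mul_nonneg hd (by linarith [hs.2])
      linarith
    calc Real.exp (-(d * (t - s))) * ‖g s‖ ≤ 1 * ‖g s‖ :=
          mul_le_mul_of_nonneg_right h1 (norm_nonneg _)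
      _ = ‖g s‖ := one_mul _

lemma coeffDu_damp {d : ℝ} (hd : 0 ≤ d) {g : ℝ → E3} (hg : Continuous g) {t G : ℝ} (ht : 0 ≤ t)
    (hG : ∀ s ∈ Icc 0 t, ‖g s‖ ≤ G) : d * ‖coeffDu d g t‖ ≤ G := by
  have hG0 : 0 ≤ G := (norm_nonneg _).trans (hG 0 ⟨le_rfl, ht⟩)
  have h1 : ‖coeffDu d g t‖ ≤ ∫ s in (0 : ℝ)..t, Real.exp (-(d * (t - s))) * G := by
    unfold coeffDu
    refine (intervalIntegral.norm_integral_le_integral_norm ht).trans ?_
    apply intervalIntegral.integral_mono_on ht
    · exact Continuous.intervalIntegrable (by fun_prop) _ _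
    · exact Continuous.intervalIntegrable (by fun_prop) _ _
    · intro s hs
      rw [norm_smul, Real.norm_of_nonneg (Real.exp_pos _).le]
      exact mul_le_mul_of_nonneg_left (hG s hs) (Real.exp_pos _).le
  have h2 : ∫ s in (0 : ℝ)..t, d * Real.exp (-(d * (t - s))) = 1 - Real.exp (-(d * t)) := by
    have h3 : ∀ s ∈ uIcc 0 t, HasDerivAt (fun s => Real.exp (-(d * (t - s))))
        (d * Real.exp (-(d * (t - s)))) s := by
      intro s _
      have h4 : HasDerivAt (fun s : ℝ => -(d * (t - s))) d s := by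
        have h5 : HasDerivAt (fun s : ℝ => -(d * (t - s))) (-(d * (0 - 1))) s :=
          (((hasDerivAt_const s t).sub (hasDerivAt_id s)).const_mul d).neg
        convert h5 using 1
        ring
      have h5 := h4.exp
      rwa [mul_comm] at h5
    rw [intervalIntegral.integral_eq_sub_of_hasDerivAt h3
      (Continuous.intervalIntegrable (by fun_prop) _ _)]
    simp
  calc d * ‖coeffDu d g t‖ ≤ d * ∫ s in (0 : ℝ)..t, Real.exp (-(d * (t - s))) * G :=
        mul_le_mul_of_nonneg_left h1 hd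
    _ = (∫ s in (0 : ℝ)..t, d * Real.exp (-(d * (t - s)))) * G := by
        rw [intervalIntegral.integral_mul_const, intervalIntegral.integral_const_mul]
        ring
    _ ≤ 1 * G := by
        apply mul_le_mul_of_nonneg_right _ hG0
        rw [h2]
        linarith [Real.exp_pos (-(d * t))]
    _ = G := one_mul G

/-! ### The expansion -/

/-- The terms of the expansion in powers of the amplitude. -/
noncomputable def coeffT (D : (Fin 3 → ℤ) → ℝ) (b : (Fin 3 → ℤ) → E3) (M : ℕ) :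
    ℕ → (Fin 3 → ℤ) → ℝ → E3
  | 0, k, t => Real.exp (-(D k * t)) • b k
  | (m + 1), k, t => -coeffDu (D k) (fun s => coeffPj k (∑ i : Fin (m + 1),
      ∑ p ∈ coeffBox (((i : ℕ) + 1) * M),
        ⟪coeffT D b M (i : ℕ) p s, vec k⟫ • coeffT D b M (m - i) (k - p) s)) t
  termination_by m => m
  decreasing_by
    · exact i.2
    · omega

/-- The nonlinearity of order `m + 2`. -/
noncomputable def coeffN (D : (Fin 3 → ℤ) → ℝ) (b : (Fin 3 → ℤ) → E3) (M m : ℕ)
    (k : Fin 3 → ℤ) (s : ℝ) : E3 :=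
  coeffPj k (∑ i ∈ Finset.range (m + 1), ∑ p ∈ coeffBox ((i + 1) * M),
    ⟪coeffT D b M i p s, vec k⟫ • coeffT D b M (m - i) (k - p) s)

section expansion

variable {D : (Fin 3 → ℤ) → ℝ} {b : (Fin 3 → ℤ) → E3} {M : ℕ}

lemma coeffT_zero (k : Fin 3 → ℤ) (t : ℝ) : coeffT D b M 0 k t = Real.exp (-(D k * t)) • b k := by
  rw [coeffT]

lemma coeffT_succ (m : ℕ) (k : Fin 3 → ℤ) (t : ℝ) :
    coeffT D b M (m + 1) k t = -coeffDu (D k) (coeffN D b M m k) t := by
  rw [coeffT]
  congr 2
  funext s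
  unfold coeffN
  rw [Finset.sum_range]

lemma coeffT_supp (hb : ∀ k ∉ coeffBox M, b k = 0) (m : ℕ) : ∀ k ∉ coeffBox ((m + 1) * M), ∀ t,
    coeffT D b M m k t = 0 := by
  induction m using Nat.strong_induction_on with
  | _ m ih =>
    intro k hk t
    cases m with
    | zero =>
      rw [coeffT_zero, hb k (by simpa using hk), smul_zero]
    | succ m =>
      rw [coeffT_succ]
      have : coeffN D b M m k = fun _ => 0 := by
        funext s
        unfold coeffN
        rw [Finset.sum_eq_zero, map_zero]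
        intro i hi
        rw [Finset.mem_range] at hi
        apply Finset.sum_eq_zero
        intro p hp
        rw [ih (m - i) (by omega) (k - p) _ s, smul_zero]
        intro hq
        apply hk
        apply coeffBox_add hp hq
        have : i + (m - i) = m := by omega
        calc (i + 1) * M + (m - i + 1) * M = (i + (m - i) + 2) * M := by ring
          _ = (m + 1 + 1) * M := by rw [this]
      rw [this]
      simp [coeffDu]

lemma coeffN_supp (hb : ∀ k ∉ coeffBox M, b k = 0) (m : ℕ) : ∀ k ∉ coeffBox ((m + 2) * M), ∀ s,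
    coeffN D b M m k s = 0 := by
  intro k hk s
  unfold coeffN
  rw [Finset.sum_eq_zero, map_zero]
  intro i hi
  rw [Finset.mem_range] at hi
  apply Finset.sum_eq_zero
  intro p hp
  rw [coeffT_supp hb (m - i) (k - p) _ s, smul_zero]
  intro hq
  apply hk
  apply coeffBox_add hp hq
  have : i + (m - i) = m := by omega
  calc (i + 1) * M + (m - i + 1) * M = (i + (m - i) + 2) * M := by ring
    _ = (m + 2) * M := by rw [this]

lemma coeffN_cont_of (m : ℕ) (h : ∀ i ≤ m, ∀ k, Continuous (coeffT D b M i k)) (k : Fin 3 → ℤ) :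
    Continuous (coeffN D b M m k) := by
  unfold coeffN
  refine (coeffPj k).continuous.comp ?_
  refine continuous_finsetSum _ fun i hi => ?_
  rw [Finset.mem_range] at hi
  refine continuous_finsetSum _ fun p _ => ?_
  exact (Continuous.inner (𝕜 := ℝ) (h i (by omega) p) continuous_const).smul
    (h (m - i) (by omega) (k - p))

lemma coeffT_cont (m : ℕ) : ∀ k, Continuous (coeffT D b M m k) := by
  induction m using Nat.strong_induction_on with
  | _ m ih =>
    intro k
    cases m with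
    | zero =>
      have : coeffT D b M 0 k = fun t => Real.exp (-(D k * t)) • b k :=
        funext fun t => coeffT_zero k t
      rw [this]
      fun_prop
    | succ m =>
      have : coeffT D b M (m + 1) k = fun t => -coeffDu (D k) (coeffN D b M m k) t :=
        funext fun t => coeffT_succ m k t
      rw [this]
      exact (coeffDu_cont (D k) (coeffN_cont_of m (fun i hi => ih i (by omega)) k)).neg

lemma coeffN_cont (m : ℕ) (k : Fin 3 → ℤ) : Continuous (coeffN D b M m k) :=
  coeffN_cont_of m (fun i _ => coeffT_cont i) k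

lemma coeffN_odd_of (m : ℕ) (h : ∀ i ≤ m, ∀ k s, coeffT D b M i (-k) s = -coeffT D b M i k s)
    (k : Fin 3 → ℤ) (s : ℝ) : coeffN D b M m (-k) s = -coeffN D b M m k s := by
  unfold coeffN
  rw [coeffPj_neg, ← map_neg, ← Finset.sum_neg_distrib]
  congr 1
  refine Finset.sum_congr rfl fun i hi => ?_
  rw [Finset.mem_range] at hi
  rw [← Finset.sum_neg_distrib]
  refine Finset.sum_nbij' (fun p => -p) (fun p => -p) ?_ ?_ ?_ ?_ ?_
  · exact fun p hp => coeffBox_neg.2 hp
  · exact fun p hp => coeffBox_neg.2 hp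
  · exact fun p _ => neg_neg p
  · exact fun p _ => neg_neg p
  · intro p _
    have e1 : -k - p = -(k - -p) := by abel
    have e2 : coeffT D b M i p s = -coeffT D b M i (-p) s := by
      rw [← h i (by omega), neg_neg]
    rw [e1, h (m - i) (by omega), coeff_vec_neg, e2, inner_neg_neg, smul_neg]

lemma coeffT_odd (hD : ∀ k, D (-k) = D k) (hb : ∀ k, b (-k) = -b k) (m : ℕ) : ∀ k t,
    coeffT D b M m (-k) t = -coeffT D b M m k t := by
  induction m using Nat.strong_induction_on with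
  | _ m ih =>
    intro k t
    cases m with
    | zero => rw [coeffT_zero, coeffT_zero, hD, hb, smul_neg]
    | succ m =>
      rw [coeffT_succ, coeffT_succ, hD]
      have : coeffN D b M m (-k) = fun s => -coeffN D b M m k s :=
        funext fun s => coeffN_odd_of m (fun i hi => ih i (by omega)) k s
      rw [this]
      unfold coeffDu
      simp only [smul_neg]
      rw [intervalIntegral.integral_neg]

lemma coeffN_div (m : ℕ) (k : Fin 3 → ℤ) (s : ℝ) : ⟪vec k, coeffN D b M m k s⟫ = 0 :=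
  coeffPj_inner _ _

lemma coeff_shift {f : (Fin 3 → ℤ) → ℝ} {r : ℕ} (hf : ∀ q, 0 ≤ f q)
    (hs : ∀ q ∉ coeffBox r, f q = 0) (B : Finset (Fin 3 → ℤ)) (p : Fin 3 → ℤ) :
    ∑ k ∈ B, f (k - p) ≤ ∑ q ∈ coeffBox r, f q := by
  classical
  calc ∑ k ∈ B, f (k - p) = ∑ q ∈ B.image (fun k => k - p), f q := by
        rw [Finset.sum_image]
        intro x _ y _ hxy
        exact sub_left_injective hxy
    _ ≤ ∑ q ∈ B.image (fun k => k - p) ∪ coeffBox r, f q :=
        Finset.sum_le_sum_of_subset_of_nonneg Finset.subset_union_left fun q _ _ => hf q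
    _ = ∑ q ∈ coeffBox r, f q :=
        (Finset.sum_subset Finset.subset_union_right fun q _ hq => hs q hq).symm

/-- The sum of the norms of the coefficients. -/
noncomputable def coeffA (D : (Fin 3 → ℤ) → ℝ) (b : (Fin 3 → ℤ) → E3) (M m : ℕ) (t : ℝ) : ℝ :=
  ∑ k ∈ coeffBox ((m + 1) * M), ‖coeffT D b M m k t‖

lemma coeffA_nonneg (m : ℕ) (t : ℝ) : 0 ≤ coeffA D b M m t :=
  Finset.sum_nonneg fun _ _ => norm_nonneg _

lemma coeffN_sum (hb : ∀ k ∉ coeffBox M, b k = 0) (m : ℕ) (s : ℝ) :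
    ∑ k ∈ coeffBox ((m + 2) * M), ‖coeffN D b M m k s‖ ≤
      2 * (((m + 2) * M : ℕ) : ℝ) *
        ∑ i ∈ Finset.range (m + 1), coeffA D b M i s * coeffA D b M (m - i) s := by
  have h1 : ∀ k ∈ coeffBox ((m + 2) * M), ‖coeffN D b M m k s‖ ≤
      2 * (((m + 2) * M : ℕ) : ℝ) * ∑ i ∈ Finset.range (m + 1), ∑ p ∈ coeffBox ((i + 1) * M),
        ‖coeffT D b M i p s‖ * ‖coeffT D b M (m - i) (k - p) s‖ := by
    intro k hk
    refine (coeffPj_norm k _).trans ?_
    rw [Finset.mul_sum]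
    refine (norm_sum_le _ _).trans (Finset.sum_le_sum fun i _ => ?_)
    rw [Finset.mul_sum]
    refine (norm_sum_le _ _).trans (Finset.sum_le_sum fun p _ => ?_)
    rw [norm_smul]
    have h2 : ‖⟪coeffT D b M i p s, vec k⟫‖ ≤
        ‖coeffT D b M i p s‖ * (2 * (((m + 2) * M : ℕ) : ℝ)) :=
      (norm_inner_le_norm _ _).trans
        (mul_le_mul_of_nonneg_left (coeff_norm_le hk) (norm_nonneg _))
    calc _ ≤ ‖coeffT D b M i p s‖ * (2 * (((m + 2) * M : ℕ) : ℝ)) *
          ‖coeffT D b M (m - i) (k - p) s‖ := mul_le_mul_of_nonneg_right h2 (norm_nonneg _)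
      _ = _ := by ring
  refine (Finset.sum_le_sum h1).trans ?_
  rw [← Finset.mul_sum]
  refine mul_le_mul_of_nonneg_left ?_ (by positivity)
  rw [Finset.sum_comm]
  refine Finset.sum_le_sum fun i _ => ?_
  rw [Finset.sum_comm]
  unfold coeffA
  rw [Finset.sum_mul]
  refine Finset.sum_le_sum fun p _ => ?_
  rw [← Finset.mul_sum]
  refine mul_le_mul_of_nonneg_left ?_ (norm_nonneg _)
  exact coeff_shift (f := fun q => ‖coeffT D b M (m - i) q s‖) (fun q => norm_nonneg _)
    (fun q hq => by rw [coeffT_supp hb (m - i) q hq s, norm_zero]) _ p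

lemma coeffN_le_of (hb : ∀ k ∉ coeffBox M, b k = 0) {A : ℝ} (hA0 : 0 ≤ A) (m : ℕ) (s : ℝ)
    (hs : 0 ≤ s)
    (ih : ∀ i ≤ m, coeffA D b M i s ≤ catalan i * A ^ (i + 1) * (4 * M) ^ i * s ^ i) :
    ∑ k ∈ coeffBox ((m + 2) * M), ‖coeffN D b M m k s‖ ≤
      2 * (((m + 2) * M : ℕ) : ℝ) * (A ^ (m + 2) * (4 * M) ^ m * catalan (m + 1) * s ^ m) := by
  refine (coeffN_sum hb m s).trans (mul_le_mul_of_nonneg_left ?_ (by positivity))
  have e1 : A ^ (m + 2) * (4 * M) ^ m * catalan (m + 1) * s ^ m = ∑ i ∈ Finset.range (m + 1),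
      (catalan i * A ^ (i + 1) * (4 * M) ^ i * s ^ i) *
      (catalan (m - i) * A ^ (m - i + 1) * (4 * M) ^ (m - i) * s ^ (m - i)) := by
    rw [catalan_succ, ← Finset.sum_range (fun i => catalan i * catalan (m - i))]
    push_cast
    rw [Finset.mul_sum, Finset.sum_mul]
    refine Finset.sum_congr rfl fun i hi => ?_
    rw [Finset.mem_range] at hi
    obtain ⟨j, rfl⟩ : ∃ j, m = i + j := ⟨m - i, by omega⟩
    rw [Nat.add_sub_cancel_left]
    ring
  rw [e1]
  refine Finset.sum_le_sum fun i hi => ?_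
  rw [Finset.mem_range] at hi
  exact mul_le_mul (ih i (by omega)) (ih (m - i) (by omega)) (coeffA_nonneg _ _) (by positivity)

lemma coeffA_le (hD : ∀ k, 0 ≤ D k) (hb : ∀ k ∉ coeffBox M, b k = 0) {A : ℝ}
    (hA : ∑ k ∈ coeffBox M, ‖b k‖ ≤ A) (m : ℕ) : ∀ t : ℝ, 0 ≤ t →
    coeffA D b M m t ≤ catalan m * A ^ (m + 1) * (4 * M) ^ m * t ^ m := by
  have hA0 : 0 ≤ A := (Finset.sum_nonneg fun _ _ => norm_nonneg _).trans hA
  induction m using Nat.strong_induction_on with
  | _ m ih =>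
    intro t ht
    cases m with
    | zero =>
      simp only [catalan_zero, Nat.cast_one, zero_add, pow_one, pow_zero, mul_one, one_mul]
      refine le_trans ?_ hA
      unfold coeffA
      rw [zero_add, one_mul]
      refine Finset.sum_le_sum fun k _ => ?_
      rw [coeffT_zero, norm_smul, Real.norm_of_nonneg (Real.exp_pos _).le]
      have h1 : Real.exp (-(D k * t)) ≤ 1 := by
        rw [Real.exp_le_one_iff]
        have : 0 ≤ D k * t := mul_nonneg (hD k) ht
        linarith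
      calc _ ≤ 1 * ‖b k‖ := mul_le_mul_of_nonneg_right h1 (norm_nonneg _)
        _ = _ := one_mul _
    | succ m =>
      set Q : ℝ := A ^ (m + 2) * (4 * M) ^ m * catalan (m + 1) with hQ
      have h1 : ∀ s ∈ Icc 0 t, ∑ k ∈ coeffBox ((m + 2) * M), ‖coeffN D b M m k s‖ ≤
          2 * (((m + 2) * M : ℕ) : ℝ) * (Q * s ^ m) := fun s hs =>
        coeffN_le_of hb hA0 m s hs.1 fun i hi => ih i (by omega) s hs.1
      have h2 : coeffA D b M (m + 1) t ≤
          ∫ s in (0 : ℝ)..t, ∑ k ∈ coeffBox ((m + 2) * M), ‖coeffN D b M m k s‖ := by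
        rw [intervalIntegral.integral_finsetSum
          (fun k _ => (coeffN_cont m k).norm.intervalIntegrable _ _)]
        unfold coeffA
        refine Finset.sum_le_sum fun k _ => ?_
        rw [coeffT_succ, norm_neg]
        exact coeffDu_norm (hD k) (coeffN_cont m k) ht
      have h3 : ∫ s in (0 : ℝ)..t, ∑ k ∈ coeffBox ((m + 2) * M), ‖coeffN D b M m k s‖ ≤
          ∫ s in (0 : ℝ)..t, 2 * (((m + 2) * M : ℕ) : ℝ) * (Q * s ^ m) := by
        apply intervalIntegral.integral_mono_on ht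
        · refine Continuous.intervalIntegrable ?_ _ _
          exact continuous_finsetSum _ fun k _ => (coeffN_cont m k).norm
        · exact Continuous.intervalIntegrable (by fun_prop) _ _
        · exact h1
      have h4 : ∫ s in (0 : ℝ)..t, 2 * (((m + 2) * M : ℕ) : ℝ) * (Q * s ^ m) =
          2 * (((m + 2) * M : ℕ) : ℝ) * Q * (t ^ (m + 1) / (m + 1)) := by
        rw [intervalIntegral.integral_const_mul, intervalIntegral.integral_const_mul, integral_pow]
        simp
        ring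
      rw [h4] at h3
      refine (h2.trans h3).trans ?_
      have hQ0 : 0 ≤ Q := by positivity
      have e2 : (catalan (m + 1) : ℝ) * A ^ (m + 1 + 1) * (4 * M) ^ (m + 1) * t ^ (m + 1) =
          4 * M * Q * t ^ (m + 1) := by rw [hQ]; ring
      rw [e2]
      have h5 : (((m + 2) * M : ℕ) : ℝ) ≤ 2 * M * (m + 1) := by
        push_cast
        have : (0 : ℝ) ≤ M * m := by positivity
        nlinarith
      calc 2 * (((m + 2) * M : ℕ) : ℝ) * Q * (t ^ (m + 1) / (m + 1))
          ≤ 2 * (2 * M * (m + 1)) * Q * (t ^ (m + 1) / (m + 1)) := by gcongr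
        _ = 4 * M * Q * t ^ (m + 1) := by field_simp; ring

end expansion

/-! ### Bounds on a short time interval -/

/-- Hypotheses on the data. -/
structure CoeffH (D : (Fin 3 → ℤ) → ℝ) (b : (Fin 3 → ℤ) → E3) (M : ℕ) (A : ℝ) : Prop where
  hD : ∀ k, 0 ≤ D k
  hb : ∀ k ∉ coeffBox M, b k = 0
  hA : ∑ k ∈ coeffBox M, ‖b k‖ ≤ A
  hA0 : 0 < A
  hM : 1 ≤ M

/-- The time of existence. -/
noncomputable def coeffTime (M : ℕ) (A : ℝ) : ℝ := Real.exp (-(4 * M)) / (64 * M * A)

/-- Restriction of the time to `[0, T]`. -/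
noncomputable def coeffCl (T s : ℝ) : ℝ := max 0 (min s T)

lemma coeffCl_mem {T : ℝ} (hT : 0 ≤ T) (s : ℝ) : coeffCl T s ∈ Icc 0 T :=
  ⟨le_max_left _ _, max_le hT (min_le_right _ _)⟩

lemma coeffCl_eq {T s : ℝ} (hs : s ∈ Icc 0 T) : coeffCl T s = s := by
  unfold coeffCl
  rw [min_eq_left hs.2, max_eq_right hs.1]

lemma coeffCl_cont (T : ℝ) : Continuous (coeffCl T) := by
  unfold coeffCl
  fun_prop

lemma coeff_catalan_le (m : ℕ) : (catalan m : ℝ) ≤ 4 ^ m := by
  have h1 : catalan m ≤ 4 ^ m := by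
    rw [catalan_eq_centralBinom_div]
    exact (Nat.div_le_self _ _).trans (Nat.centralBinom_le_four_pow m)
  exact_mod_cast h1

section bounds

variable {D : (Fin 3 → ℤ) → ℝ} {b : (Fin 3 → ℤ) → E3} {M : ℕ} {A : ℝ}

lemma coeffTime_pos (h : CoeffH D b M A) : 0 < coeffTime M A := by
  have h1 := h.hA0
  have h2 : (0 : ℝ) < M := by exact_mod_cast h.hM
  unfold coeffTime
  positivity

lemma coeffTime_pow (h : CoeffH D b M A) {t : ℝ} (ht : t ∈ Icc 0 (coeffTime M A)) (m : ℕ) :
    4 ^ m * (A ^ m * (4 * M) ^ m * t ^ m) ≤ (Real.exp (-(4 * M)) / 4) ^ m := by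
  have h1 := h.hA0
  have h2 : (0 : ℝ) < M := by exact_mod_cast h.hM
  rw [← mul_pow, ← mul_pow, ← mul_pow]
  have ht0 := ht.1
  apply pow_le_pow_left₀ (by positivity)
  calc 4 * (A * (4 * M) * t) ≤ 4 * (A * (4 * M) * coeffTime M A) := by
        have := ht.2
        gcongr
    _ = Real.exp (-(4 * M)) / 4 := by
        unfold coeffTime
        field_simp
        ring

lemma coeffA_le' (h : CoeffH D b M A) {t : ℝ} (ht : t ∈ Icc 0 (coeffTime M A)) (m : ℕ) :
    coeffA D b M m t ≤ A * (Real.exp (-(4 * M)) / 4) ^ m := by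
  have h1 := h.hA0
  have ht0 := ht.1
  have h3 := coeffTime_pow h ht m
  calc coeffA D b M m t ≤ catalan m * A ^ (m + 1) * (4 * M) ^ m * t ^ m :=
        coeffA_le h.hD h.hb h.hA m t ht.1
    _ ≤ 4 ^ m * A ^ (m + 1) * (4 * M) ^ m * t ^ m := by
        have := coeff_catalan_le m
        gcongr
    _ = A * (4 ^ m * (A ^ m * (4 * M) ^ m * t ^ m)) := by ring
    _ ≤ _ := by gcongr

lemma coeff_exp_aux {M m r : ℕ} {k : Fin 3 → ℤ} (hk : k ∈ coeffBox ((m + r) * M)) :
    Real.exp (-(4 * M)) ^ m ≤ Real.exp (4 * M * r) * Real.exp (-(2 * ‖vec k‖)) := by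
  rw [← Real.exp_nat_mul, ← Real.exp_add, Real.exp_le_exp]
  have h1 := coeff_norm_le hk
  push_cast at h1
  nlinarith

lemma coeffT_bd (h : CoeffH D b M A) {t : ℝ} (ht : t ∈ Icc 0 (coeffTime M A)) (m : ℕ)
    (k : Fin 3 → ℤ) : ‖coeffT D b M m k t‖ ≤
      A * Real.exp (4 * M) * (1 / 2) ^ m * Real.exp (-(2 * ‖vec k‖)) := by
  have h0 := h.hA0
  by_cases hk : k ∈ coeffBox ((m + 1) * M)
  · have h1 : ‖coeffT D b M m k t‖ ≤ coeffA D b M m t :=
      Finset.single_le_sum (f := fun k => ‖coeffT D b M m k t‖) (fun _ _ => norm_nonneg _) hk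
    have h2 := coeff_exp_aux hk
    rw [Nat.cast_one, mul_one] at h2
    have h3 : ((1 : ℝ) / 4) ^ m ≤ (1 / 2) ^ m := pow_le_pow_left₀ (by norm_num) (by norm_num) m
    calc ‖coeffT D b M m k t‖ ≤ A * (Real.exp (-(4 * M)) / 4) ^ m := h1.trans (coeffA_le' h ht m)
      _ = A * (Real.exp (-(4 * M)) ^ m * (1 / 4) ^ m) := by rw [← mul_pow]; ring
      _ ≤ A * ((Real.exp (4 * M) * Real.exp (-(2 * ‖vec k‖))) * (1 / 2) ^ m) := by gcongr
      _ = _ := by ring
  · rw [coeffT_supp h.hb m k hk t, norm_zero]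
    positivity

lemma coeffN_bd (h : CoeffH D b M A) {t : ℝ} (ht : t ∈ Icc 0 (coeffTime M A)) (m : ℕ)
    (k : Fin 3 → ℤ) : ‖coeffN D b M m k t‖ ≤
      16 * M * A ^ 2 * Real.exp (8 * M) * (1 / 2) ^ m * Real.exp (-(2 * ‖vec k‖)) := by
  have h0 := h.hA0
  by_cases hk : k ∈ coeffBox ((m + 2) * M)
  · have h1 : ‖coeffN D b M m k t‖ ≤ ∑ k ∈ coeffBox ((m + 2) * M), ‖coeffN D b M m k t‖ :=
      Finset.single_le_sum (f := fun k => ‖coeffN D b M m k t‖) (fun _ _ => norm_nonneg _) hk
    have h2 := coeff_exp_aux hk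
    have e2 : (4 * M * (2 : ℕ) : ℝ) = 8 * M := by push_cast; ring
    rw [e2] at h2
    have h3 : ((m : ℝ) + 2) * (1 / 4) ^ m ≤ 2 * (1 / 2) ^ m := by
      have e3 : ((1 : ℝ) / 4) ^ m = (1 / 2) ^ m * (1 / 2) ^ m := by rw [← mul_pow]; norm_num
      have e4 : (m : ℝ) + 2 ≤ 2 * 2 ^ m := by
        have : m + 1 ≤ 2 ^ m := Nat.lt_two_pow_self
        have h4 : ((m : ℝ) + 1) ≤ 2 ^ m := by exact_mod_cast this
        have h5 : (0 : ℝ) ≤ m := Nat.cast_nonneg m
        linarith
      have e5 : (2 : ℝ) ^ m * (1 / 2) ^ m = 1 := by rw [← mul_pow]; norm_num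
      rw [e3]
      calc ((m : ℝ) + 2) * ((1 / 2) ^ m * (1 / 2) ^ m) ≤
            2 * 2 ^ m * ((1 / 2) ^ m * (1 / 2) ^ m) := by gcongr
        _ = 2 * (2 ^ m * (1 / 2) ^ m) * (1 / 2) ^ m := by ring
        _ = 2 * (1 / 2) ^ m := by rw [e5, mul_one]
    have h4 := coeffN_le_of h.hb h0.le m t ht.1
      fun i _ => coeffA_le h.hD h.hb h.hA i t ht.1
    have h5 := coeffTime_pow h ht m
    have h6 := coeff_catalan_le (m + 1)
    have ht0 := ht.1
    calc ‖coeffN D b M m k t‖
        ≤ 2 * (((m + 2) * M : ℕ) : ℝ) * (A ^ (m + 2) * (4 * M) ^ m * catalan (m + 1) * t ^ m) :=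
          h1.trans h4
      _ ≤ 2 * (((m + 2) * M : ℕ) : ℝ) * (A ^ (m + 2) * (4 * M) ^ m * 4 ^ (m + 1) * t ^ m) := by
          gcongr
      _ = 8 * M * A ^ 2 * (m + 2) * (4 ^ m * (A ^ m * (4 * M) ^ m * t ^ m)) := by
          push_cast; ring
      _ ≤ 8 * M * A ^ 2 * (m + 2) * (Real.exp (-(4 * M)) / 4) ^ m := by gcongr
      _ = 8 * M * A ^ 2 * ((m + 2) * (1 / 4) ^ m) * Real.exp (-(4 * M)) ^ m := by
          rw [div_pow, one_div, inv_pow]; ring
      _ ≤ 8 * M * A ^ 2 * (2 * (1 / 2) ^ m) *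
          (Real.exp (8 * M) * Real.exp (-(2 * ‖vec k‖))) := by gcongr
      _ = _ := by ring
  · rw [coeffN_supp h.hb m k hk t, norm_zero]
    positivity

/-! ### The solution -/

/-- The nonlinearity. -/
noncomputable def coeffNb (D : (Fin 3 → ℤ) → ℝ) (b : (Fin 3 → ℤ) → E3) (M : ℕ) (A : ℝ)
    (k : Fin 3 → ℤ) (s : ℝ) : E3 := ∑' m, coeffN D b M m k (coeffCl (coeffTime M A) s)

/-- The solution. -/
noncomputable def coeffS (D : (Fin 3 → ℤ) → ℝ) (b : (Fin 3 → ℤ) → E3) (M : ℕ) (A : ℝ)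
    (k : Fin 3 → ℤ) (t : ℝ) : E3 :=
  Real.exp (-(D k * t)) • b k - coeffDu (D k) (coeffNb D b M A k) t

/-- Its derivative. -/
noncomputable def coeffS' (D : (Fin 3 → ℤ) → ℝ) (b : (Fin 3 → ℤ) → E3) (M : ℕ) (A : ℝ)
    (k : Fin 3 → ℤ) (t : ℝ) : E3 := -(D k • coeffS D b M A k t) - coeffNb D b M A k t

lemma coeff_geom (C : ℝ) : HasSum (fun m : ℕ => C * (1 / 2 : ℝ) ^ m) (C * 2) :=
  hasSum_geometric_two.mul_left C

lemma coeff_summ (C E : ℝ) : Summable (fun m : ℕ => C * (1 / 2 : ℝ) ^ m * E) :=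
  (coeff_geom C).summable.mul_right E

lemma coeffNb_cont (h : CoeffH D b M A) (k : Fin 3 → ℤ) : Continuous (coeffNb D b M A k) := by
  unfold coeffNb
  exact continuous_tsum (fun m => (coeffN_cont m k).comp (coeffCl_cont _))
    (coeff_summ (16 * M * A ^ 2 * Real.exp (8 * M)) (Real.exp (-(2 * ‖vec k‖))))
    (fun m s => coeffN_bd h (coeffCl_mem (coeffTime_pos h).le s) m k)

lemma coeffNb_hasSum (h : CoeffH D b M A) (k : Fin 3 → ℤ) {t : ℝ}
    (ht : t ∈ Icc 0 (coeffTime M A)) :
    HasSum (fun m => coeffN D b M m k t) (coeffNb D b M A k t) := by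
  unfold coeffNb
  rw [coeffCl_eq ht]
  exact (Summable.of_norm_bounded
    (coeff_summ (16 * M * A ^ 2 * Real.exp (8 * M)) (Real.exp (-(2 * ‖vec k‖))))
    (fun m => coeffN_bd h ht m k)).hasSum

lemma coeffNb_bd (h : CoeffH D b M A) (k : Fin 3 → ℤ) {t : ℝ} (ht : t ∈ Icc 0 (coeffTime M A)) :
    ‖coeffNb D b M A k t‖ ≤
      16 * M * A ^ 2 * Real.exp (8 * M) * 2 * Real.exp (-(2 * ‖vec k‖)) :=
  (coeffNb_hasSum h k ht).norm_le_of_bounded
    ((coeff_geom (16 * M * A ^ 2 * Real.exp (8 * M))).mul_right (Real.exp (-(2 * ‖vec k‖))))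
    (fun m => coeffN_bd h ht m k)

lemma coeffDu_hasSum {d : ℝ} (hd : 0 ≤ d) {g : ℕ → ℝ → E3} {G : ℝ → E3} {u : ℕ → ℝ} {t : ℝ}
    (ht : 0 ≤ t) (hg : ∀ m, Continuous (g m)) (hu : Summable u)
    (hb : ∀ m, ∀ s ∈ Icc 0 t, ‖g m s‖ ≤ u m) (hG : ∀ s ∈ Icc 0 t, HasSum (fun m => g m s) (G s)) :
    HasSum (fun m => coeffDu d (g m) t) (coeffDu d G t) := by
  have hsub : ∀ s ∈ uIoc 0 t, s ∈ Icc 0 t := by
    intro s hs
    rw [uIoc_of_le ht] at hs
    exact ⟨hs.1.le, hs.2⟩
  have hmeas : ∀ m, AEStronglyMeasurable (fun s => Real.exp (-(d * (t - s))) • g m s)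
      (volume.restrict (uIoc 0 t)) := by
    intro m
    have hc := hg m
    exact Continuous.aestronglyMeasurable (by fun_prop)
  have hbd : ∀ m, ∀ᵐ s ∂volume, s ∈ uIoc 0 t → ‖Real.exp (-(d * (t - s))) • g m s‖ ≤ u m := by
    intro m
    refine Filter.Eventually.of_forall fun s hs => ?_
    rw [norm_smul, Real.norm_of_nonneg (Real.exp_pos _).le]
    have h2 : Real.exp (-(d * (t - s))) ≤ 1 := by
      rw [Real.exp_le_one_iff]
      have : 0 ≤ d * (t - s) := mul_nonneg hd (by linarith [(hsub s hs).2])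
      linarith
    calc _ ≤ 1 * u m := mul_le_mul h2 (hb m s (hsub s hs)) (norm_nonneg _) zero_le_one
      _ = u m := one_mul _
  exact intervalIntegral.hasSum_integral_of_dominated_convergence (fun m _ => u m) hmeas hbd
    (Filter.Eventually.of_forall fun s _ => hu) intervalIntegrable_const
    (Filter.Eventually.of_forall fun s hs => (hG s (hsub s hs)).const_smul _)

lemma coeffS_hasSum (h : CoeffH D b M A) (k : Fin 3 → ℤ) {t : ℝ}
    (ht : t ∈ Icc 0 (coeffTime M A)) :
    HasSum (fun m => coeffT D b M m k t) (coeffS D b M A k t) := by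
  have h1 : HasSum (fun m => coeffDu (D k) (coeffN D b M m k) t)
      (coeffDu (D k) (coeffNb D b M A k) t) :=
    coeffDu_hasSum (h.hD k) ht.1 (fun m => coeffN_cont m k)
      (coeff_summ (16 * M * A ^ 2 * Real.exp (8 * M)) (Real.exp (-(2 * ‖vec k‖))))
      (fun m s hs => coeffN_bd h ⟨hs.1, hs.2.trans ht.2⟩ m k)
      (fun s hs => coeffNb_hasSum h k ⟨hs.1, hs.2.trans ht.2⟩)
  have e : (fun m => coeffT D b M (m + 1) k t) = fun m => -coeffDu (D k) (coeffN D b M m k) t :=
    funext fun m => coeffT_succ m k t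
  have h2 : HasSum (fun m => coeffT D b M (m + 1) k t)
      (-coeffDu (D k) (coeffNb D b M A k) t) := by
    rw [e]
    exact h1.neg
  have h3 := HasSum.zero_add (f := fun m => coeffT D b M m k t) h2
  have e2 : coeffT D b M 0 k t + -coeffDu (D k) (coeffNb D b M A k) t = coeffS D b M A k t := by
    rw [coeffT_zero, coeffS, sub_eq_add_neg]
  rw [← e2]
  exact h3

lemma coeffS_bd (h : CoeffH D b M A) (k : Fin 3 → ℤ) {t : ℝ} (ht : t ∈ Icc 0 (coeffTime M A)) :
    ‖coeffS D b M A k t‖ ≤ A * Real.exp (4 * M) * 2 * Real.exp (-(2 * ‖vec k‖)) :=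
  (coeffS_hasSum h k ht).norm_le_of_bounded
    ((coeff_geom (A * Real.exp (4 * M))).mul_right (Real.exp (-(2 * ‖vec k‖))))
    (fun m => coeffT_bd h ht m k)

lemma coeffS_deriv (h : CoeffH D b M A) (k : Fin 3 → ℤ) (t : ℝ) :
    HasDerivAt (coeffS D b M A k) (coeffS' D b M A k t) t := by
  have h1 : HasDerivAt (fun t => Real.exp (-(D k * t))) (Real.exp (-(D k * t)) * (-D k)) t := by
    have h3 : HasDerivAt (fun t : ℝ => -(D k * t)) (-(D k * 1)) t :=
      ((hasDerivAt_id t).const_mul (D k)).neg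
    rw [mul_one] at h3
    exact h3.exp
  have h2 := (h1.smul_const (b k)).sub (coeffDu_deriv (D k) (coeffNb_cont h k) t)
  refine HasDerivAt.congr_deriv h2 ?_
  unfold coeffS' coeffS
  module

lemma coeffS_cont (h : CoeffH D b M A) (k : Fin 3 → ℤ) : Continuous (coeffS D b M A k) :=
  continuous_iff_continuousAt.2 fun t => (coeffS_deriv h k t).continuousAt

lemma coeffS'_cont (h : CoeffH D b M A) (k : Fin 3 → ℤ) : Continuous (coeffS' D b M A k) := by
  have h1 := coeffS_cont h k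
  have h2 := coeffNb_cont h k
  unfold coeffS'
  fun_prop

/-- The product formula. -/
lemma coeffNb_eqn (h : CoeffH D b M A) (k : Fin 3 → ℤ) {t : ℝ} (ht : t ∈ Icc 0 (coeffTime M A))
    (c : E3) (hc : ⟪vec k, c⟫ = 0) : ⟪coeffNb D b M A k t, c⟫ =
      ∑' p, ⟪coeffS D b M A p t, vec k⟫ * ⟪coeffS D b M A (k - p) t, c⟫ := by
  have hA0 := h.hA0
  set f : (Fin 3 → ℤ) → ℕ → ℝ := fun p i => ⟪coeffT D b M i p t, vec k⟫ with hf
  set g : (Fin 3 → ℤ) → ℕ → ℝ := fun p i => ⟪coeffT D b M i (k - p) t, c⟫ with hg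
  have hinner : ∀ (v : E3) (F : ℕ → E3) (a : E3), HasSum F a →
      HasSum (fun m => ⟪F m, v⟫) ⟪a, v⟫ := by
    intro v F a hF
    have h1 := hF.mapL (innerSL ℝ v)
    simpa only [innerSL_apply_apply, real_inner_comm] using h1
  have hfs : ∀ p, HasSum (f p) ⟪coeffS D b M A p t, vec k⟫ := fun p =>
    hinner (vec k) _ _ (coeffS_hasSum h p ht)
  have hgs : ∀ p, HasSum (g p) ⟪coeffS D b M A (k - p) t, c⟫ := fun p =>
    hinner c _ _ (coeffS_hasSum h (k - p) ht)
  have hfn : ∀ p, Summable fun i => ‖f p i‖ := by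
    intro p
    refine Summable.of_nonneg_of_le (fun _ => norm_nonneg _) (fun i => ?_)
      ((coeff_summ (A * Real.exp (4 * M)) (Real.exp (-(2 * ‖vec p‖)))).mul_right ‖vec k‖)
    exact (norm_inner_le_norm _ _).trans
      (mul_le_mul_of_nonneg_right (coeffT_bd h ht i p) (norm_nonneg _))
  have hgn : ∀ p, Summable fun i => ‖g p i‖ := by
    intro p
    refine Summable.of_nonneg_of_le (fun _ => norm_nonneg _) (fun i => ?_)
      ((coeff_summ (A * Real.exp (4 * M)) (Real.exp (-(2 * ‖vec (k - p)‖)))).mul_right ‖c‖)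
    exact (norm_inner_le_norm _ _).trans
      (mul_le_mul_of_nonneg_right (coeffT_bd h ht i (k - p)) (norm_nonneg _))
  -- the double family
  set H : ℕ → (Fin 3 → ℤ) → ℝ := fun m p => ∑ i ∈ Finset.range (m + 1), f p i * g p (m - i) with hH
  have hprod : ∀ p, ⟪coeffS D b M A p t, vec k⟫ * ⟪coeffS D b M A (k - p) t, c⟫ =
      ∑' m, H m p := by
    intro p
    rw [← (hfs p).tsum_eq, ← (hgs p).tsum_eq]
    exact tsum_mul_tsum_eq_tsum_sum_range_of_summable_norm (hfn p) (hgn p)
  -- each row has finite support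
  have hf0 : ∀ i, ∀ p ∉ coeffBox ((i + 1) * M), f p i = 0 := fun i p hp => by
    simp only [hf]
    rw [coeffT_supp h.hb i p hp t, inner_zero_left]
  have hrow : ∀ m, ⟪coeffN D b M m k t, c⟫ = ∑' p, H m p := by
    intro m
    have e1 : ∑' p, H m p = ∑ i ∈ Finset.range (m + 1), ∑' p, f p i * g p (m - i) := by
      refine Summable.tsum_finsetSum fun i _ => ?_
      refine (hasSum_sum_of_ne_finset_zero (s := coeffBox ((i + 1) * M)) fun p hp => ?_).summable
      rw [hf0 i p hp, zero_mul]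
    have e2 : ∀ i, ∑' p, f p i * g p (m - i) = ∑ p ∈ coeffBox ((i + 1) * M), f p i * g p (m - i) :=
      fun i => tsum_eq_sum fun p hp => by rw [hf0 i p hp, zero_mul]
    rw [e1]
    simp only [e2]
    unfold coeffN
    rw [coeffPj_test k _ c hc, sum_inner]
    refine Finset.sum_congr rfl fun i _ => ?_
    rw [sum_inner]
    refine Finset.sum_congr rfl fun p _ => ?_
    rw [real_inner_smul_left]
  -- summability of the double family
  have hsummable : Summable (Function.uncurry H) := by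
    set W : ℕ × (Fin 3 → ℤ) → ℝ := fun q => ∑ i ∈ Finset.range (q.1 + 1),
      ‖coeffT D b M i q.2 t‖ * ‖coeffT D b M (q.1 - i) (k - q.2) t‖ with hW
    have hW0 : 0 ≤ W := fun q =>
      Finset.sum_nonneg fun i _ => mul_nonneg (norm_nonneg _) (norm_nonneg _)
    have hWsupp : ∀ m, ∀ p ∉ coeffBox ((m + 1) * M), W (m, p) = 0 := by
      intro m p hp
      refine Finset.sum_eq_zero fun i hi => ?_
      rw [Finset.mem_range] at hi
      have : p ∉ coeffBox ((i + 1) * M) := by
        intro hp'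
        apply hp
        rw [coeffBox_mem] at hp' ⊢
        intro j
        have h1 := hp' j
        have h2 : (i + 1) * M ≤ (m + 1) * M := Nat.mul_le_mul_right M (by omega)
        have h3 : (((i + 1) * M : ℕ) : ℤ) ≤ (((m + 1) * M : ℕ) : ℤ) := by exact_mod_cast h2
        constructor <;> omega
      rw [coeffT_supp h.hb i p this t, norm_zero, zero_mul]
    have hWs : Summable W := by
      rw [summable_prod_of_nonneg hW0]
      refine ⟨fun m => (hasSum_sum_of_ne_finset_zero (hWsupp m)).summable, ?_⟩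
      refine Summable.of_nonneg_of_le (fun m => tsum_nonneg fun p => hW0 (m, p)) (fun m => ?_)
        (coeff_geom (A ^ 2)).summable
      rw [tsum_eq_sum (hWsupp m)]
      simp only [hW]
      rw [Finset.sum_comm]
      have e1 : ∀ i ∈ Finset.range (m + 1), ∑ p ∈ coeffBox ((m + 1) * M),
          ‖coeffT D b M i p t‖ * ‖coeffT D b M (m - i) (k - p) t‖ ≤
          A ^ 2 * (Real.exp (-(4 * M)) / 4) ^ m := by
        intro i hi
        rw [Finset.mem_range] at hi
        have e2 : ∀ q, ‖coeffT D b M (m - i) q t‖ ≤ coeffA D b M (m - i) t := by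
          intro q
          by_cases hq : q ∈ coeffBox ((m - i + 1) * M)
          · exact Finset.single_le_sum (f := fun k => ‖coeffT D b M (m - i) k t‖)
              (fun _ _ => norm_nonneg _) hq
          · rw [coeffT_supp h.hb (m - i) q hq t, norm_zero]
            exact coeffA_nonneg _ _
        have e3 : ∑ p ∈ coeffBox ((m + 1) * M), ‖coeffT D b M i p t‖ ≤ coeffA D b M i t := by
          have := coeff_shift (f := fun q => ‖coeffT D b M i q t‖) (r := (i + 1) * M)
            (fun q => norm_nonneg _)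
            (fun q hq => by rw [coeffT_supp h.hb i q hq t, norm_zero]) (coeffBox ((m + 1) * M)) 0
          unfold coeffA
          simpa using this
        calc _ ≤ ∑ p ∈ coeffBox ((m + 1) * M),
              ‖coeffT D b M i p t‖ * coeffA D b M (m - i) t :=
              Finset.sum_le_sum fun p _ => mul_le_mul_of_nonneg_left (e2 _) (norm_nonneg _)
          _ = (∑ p ∈ coeffBox ((m + 1) * M), ‖coeffT D b M i p t‖) * coeffA D b M (m - i) t := by
              rw [Finset.sum_mul]
          _ ≤ (A * (Real.exp (-(4 * M)) / 4) ^ i) * (A * (Real.exp (-(4 * M)) / 4) ^ (m - i)) := by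
              apply mul_le_mul (e3.trans (coeffA_le' h ht i)) (coeffA_le' h ht (m - i))
                (coeffA_nonneg _ _) (by positivity)
          _ = _ := by
              obtain ⟨j, rfl⟩ : ∃ j, m = i + j := ⟨m - i, by omega⟩
              rw [Nat.add_sub_cancel_left, pow_add]
              ring
      refine (Finset.sum_le_sum e1).trans ?_
      rw [Finset.sum_const, Finset.card_range, nsmul_eq_mul]
      have e4 : (Real.exp (-(4 * M)) / 4) ^ m ≤ (1 / 2) ^ m * (1 / 2) ^ m := by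
        rw [← mul_pow]
        apply pow_le_pow_left₀ (by positivity)
        have : Real.exp (-(4 * M)) ≤ 1 := by
          rw [Real.exp_le_one_iff]
          have : (0 : ℝ) ≤ M := Nat.cast_nonneg M
          linarith
        linarith
      have e5 : ((m + 1 : ℕ) : ℝ) * (1 / 2) ^ m ≤ 1 := by
        have h4 : ((m + 1 : ℕ) : ℝ) ≤ 2 ^ m := by
          exact_mod_cast (Nat.lt_two_pow_self : m < 2 ^ m)
        have e6 : (2 : ℝ) ^ m * (1 / 2) ^ m = 1 := by rw [← mul_pow]; norm_num
        calc ((m + 1 : ℕ) : ℝ) * (1 / 2) ^ m ≤ 2 ^ m * (1 / 2) ^ m := by gcongr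
          _ = 1 := e6
      calc ((m + 1 : ℕ) : ℝ) * (A ^ 2 * (Real.exp (-(4 * M)) / 4) ^ m)
          ≤ ((m + 1 : ℕ) : ℝ) * (A ^ 2 * ((1 / 2) ^ m * (1 / 2) ^ m)) := by gcongr
        _ = A ^ 2 * (1 / 2) ^ m * (((m + 1 : ℕ) : ℝ) * (1 / 2) ^ m) := by ring
        _ ≤ A ^ 2 * (1 / 2) ^ m * 1 := by gcongr
        _ = _ := mul_one _
    refine Summable.of_norm_bounded (hWs.mul_right (‖vec k‖ * ‖c‖)) fun q => ?_
    obtain ⟨m, p⟩ := q
    simp only [Function.uncurry, hH, hW]
    rw [Finset.sum_mul]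
    refine (norm_sum_le _ _).trans (Finset.sum_le_sum fun i _ => ?_)
    rw [norm_mul]
    calc ‖f p i‖ * ‖g p (m - i)‖ ≤ (‖coeffT D b M i p t‖ * ‖vec k‖) *
          (‖coeffT D b M (m - i) (k - p) t‖ * ‖c‖) :=
          mul_le_mul (norm_inner_le_norm _ _) (norm_inner_le_norm _ _) (norm_nonneg _)
            (by positivity)
      _ = _ := by ring
  rw [← (hinner c _ _ (coeffNb_hasSum h k ht)).tsum_eq]
  simp only [hrow, hprod]
  exact (Summable.tsum_comm hsummable).symm

end bounds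

theorem claimCoeff : ClaimCoeff := by
  intro D F b hD hDn hbF hbn hbd
  obtain ⟨M, hM, hFM⟩ := coeffBox_exists F
  set A : ℝ := ∑ k ∈ coeffBox M, ‖b k‖ + 1 with hA
  have hA1 : 0 ≤ ∑ k ∈ coeffBox M, ‖b k‖ := Finset.sum_nonneg fun _ _ => norm_nonneg _
  have h : CoeffH D b M A :=
    { hD := hD
      hb := fun k hk => hbF k fun hk' => hk (hFM hk')
      hA := by linarith
      hA0 := by linarith
      hM := hM }
  have hT := coeffTime_pos h
  set T := coeffTime M A with hTdef
  have hA0 := h.hA0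
  set K2 : ℝ := ∑ k ∈ coeffBox M, D k * ‖b k‖ * Real.exp ‖vec k‖ with hK2
  have hK2' : ∀ k, D k * ‖b k‖ ≤ K2 * Real.exp (-‖vec k‖) := by
    intro k
    have hK20 : 0 ≤ K2 := Finset.sum_nonneg fun k _ =>
      mul_nonneg (mul_nonneg (hD k) (norm_nonneg _)) (Real.exp_pos _).le
    by_cases hk : k ∈ coeffBox M
    · have h1 : D k * ‖b k‖ * Real.exp ‖vec k‖ ≤ K2 :=
        Finset.single_le_sum (f := fun k => D k * ‖b k‖ * Real.exp ‖vec k‖)
          (fun k _ => mul_nonneg (mul_nonneg (hD k) (norm_nonneg _)) (Real.exp_pos _).le) hk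
      calc D k * ‖b k‖ = D k * ‖b k‖ * Real.exp ‖vec k‖ * Real.exp (-‖vec k‖) := by
            rw [mul_assoc, ← Real.exp_add, add_neg_cancel, Real.exp_zero, mul_one]
        _ ≤ K2 * Real.exp (-‖vec k‖) := by gcongr
    · rw [h.hb k hk, norm_zero, mul_zero]
      positivity
  set K1 : ℝ := 16 * M * A ^ 2 * Real.exp (8 * M) * 2 with hK1
  set K0 : ℝ := A * Real.exp (4 * M) * 2 with hK0
  have hK20 : 0 ≤ K2 := Finset.sum_nonneg fun k _ =>
    mul_nonneg (mul_nonneg (hD k) (norm_nonneg _)) (Real.exp_pos _).le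
  have hK10 : 0 ≤ K1 := by positivity
  have hK00 : 0 ≤ K0 := by positivity
  have hexp : ∀ k : Fin 3 → ℤ, Real.exp (-(2 * ‖vec k‖)) ≤ Real.exp (-‖vec k‖) := fun k =>
    Real.exp_le_exp.2 (by linarith [norm_nonneg (vec k)])
  refine ⟨T, K0 + K2 + 2 * K1, coeffS D b M A, coeffS' D b M A, hT, ?_, ?_⟩
  · intro k
    unfold coeffS
    rw [coeffDu_zero, mul_zero, neg_zero, Real.exp_zero, one_smul, sub_zero]
  refine ⟨?_, ?_, ?_, ?_, ?_, ?_, ?_⟩
  · exact fun k t _ => (coeffS_deriv h k t).hasDerivWithinAt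
  · exact fun k => (coeffS'_cont h k).continuousOn
  · intro k t ht
    have h1 := coeffS_hasSum h (-k) ht
    have h2 := (coeffS_hasSum h k ht).neg
    simp only [coeffT_odd hDn hbn] at h1
    exact h1.unique h2
  · intro k t ht
    have h1 := (coeffS_hasSum h k ht).mapL (innerSL ℝ (vec k))
    simp only [innerSL_apply_apply] at h1
    have h2 : (fun m => ⟪vec k, coeffT D b M m k t⟫) = fun _ => (0 : ℝ) := by
      funext m
      cases m with
      | zero => rw [coeffT_zero, real_inner_smul_right, hbd, mul_zero]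
      | succ m =>
        rw [coeffT_succ, inner_neg_right]
        unfold coeffDu
        have h3 : ⟪vec k, ∫ s in (0 : ℝ)..t, Real.exp (-(D k * (t - s))) •
            coeffN D b M m k s⟫ = ∫ s in (0 : ℝ)..t, ⟪vec k, Real.exp (-(D k * (t - s))) •
            coeffN D b M m k s⟫ := by
          have h4 := (innerSL ℝ (vec k)).intervalIntegral_comp_comm (a := 0) (b := t)
            (μ := volume) (f := fun s => Real.exp (-(D k * (t - s))) • coeffN D b M m k s)
            (by
              have hc := coeffN_cont (D := D) (b := b) (M := M) m k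
              exact Continuous.intervalIntegrable (by fun_prop) _ _)
          simpa only [innerSL_apply_apply] using h4.symm
        rw [h3]
        simp [real_inner_smul_right, coeffN_div]
    rw [h2] at h1
    exact h1.unique hasSum_zero
  · intro k t ht
    refine (coeffS_bd h k ht).trans ?_
    calc K0 * Real.exp (-(2 * ‖vec k‖)) ≤ K0 * Real.exp (-‖vec k‖) :=
          mul_le_mul_of_nonneg_left (hexp k) hK00
      _ ≤ _ := mul_le_mul_of_nonneg_right (by linarith) (Real.exp_pos _).le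
  · intro k t ht
    have h1 : ‖D k • coeffS D b M A k t‖ ≤ K2 * Real.exp (-‖vec k‖) +
        K1 * Real.exp (-(2 * ‖vec k‖)) := by
      have h2 : D k • coeffS D b M A k t = D k • (Real.exp (-(D k * t)) • b k) -
          D k • coeffDu (D k) (coeffNb D b M A k) t := by
        unfold coeffS
        rw [smul_sub]
      rw [h2]
      refine (norm_sub_le _ _).trans (add_le_add ?_ ?_)
      · rw [norm_smul, norm_smul, Real.norm_of_nonneg (hD k), Real.norm_of_nonneg (Real.exp_pos _).le]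
        have h3 : Real.exp (-(D k * t)) ≤ 1 := by
          rw [Real.exp_le_one_iff]
          have : 0 ≤ D k * t := mul_nonneg (hD k) ht.1
          linarith
        calc D k * (Real.exp (-(D k * t)) * ‖b k‖) ≤ D k * (1 * ‖b k‖) := by
              have := hD k
              gcongr
          _ ≤ _ := by rw [one_mul]; exact hK2' k
      · rw [norm_smul, Real.norm_of_nonneg (hD k)]
        exact coeffDu_damp (hD k) (coeffNb_cont h k) ht.1
          fun s hs => coeffNb_bd h k ⟨hs.1, hs.2.trans ht.2⟩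
    unfold coeffS'
    refine (norm_sub_le _ _).trans ?_
    rw [norm_neg]
    have h4 := coeffNb_bd h k ht
    have h5 : K1 * Real.exp (-(2 * ‖vec k‖)) ≤ K1 * Real.exp (-‖vec k‖) :=
      mul_le_mul_of_nonneg_left (hexp k) hK10
    have h6 : 0 ≤ K0 * Real.exp (-‖vec k‖) := by positivity
    have h7 : (K0 + K2 + 2 * K1) * Real.exp (-‖vec k‖) = K0 * Real.exp (-‖vec k‖) +
        K2 * Real.exp (-‖vec k‖) + 2 * (K1 * Real.exp (-‖vec k‖)) := by ring
    rw [h7]
    linarith
  · intro k t ht c hc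
    unfold coeffS'
    rw [inner_sub_left, inner_neg_left, real_inner_smul_left, coeffNb_eqn h k ht c hc]
    ring

end Pool.Agent.Work.MP_b0497c_an.Damp
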