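import Mathlib
import Pool.Agent.Work.MP_b0497c_an.Damp.Stmts

set_option autoImplicit false

/-!
The sine coefficients of the nonlinearity of an odd divergence free field.
-/

namespace Pool.Agent.Work.MP_b0497c_an.Damp

open Set MeasureTheory RealInnerProductSpace Pool.Agent.Work.MP_b0497c_an
open Pool.Agent.Work.MP_b0497c_an.Dec Filter

theorem conv_int {E : Type*} [NormedAddCommGroup E] {f : E3 → E} (hf : Continuous f) :
    IntegrableOn f cube :=
  hf.continuousOn.integrableOn_compact cube_compact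

theorem conv_trace (l : E3 →L[ℝ] ℝ) (v : E3) :
    LinearMap.trace ℝ E3 (l.smulRight v : E3 →L[ℝ] E3) = l v := by
  rw [trace_eq]
  have hv : v = v 0 • e 0 + v 1 • e 1 + v 2 • e 2 := by
    ext i
    fin_cases i <;> simp [e]
  conv_rhs => rw [hv]
  simp only [ContinuousLinearMap.smulRight_apply, PiLp.smul_apply, smul_eq_mul, map_add, map_smul]
  ring

theorem conv_per_inner {u : E3 → E3} (hp : Periodic3 u) (c : E3) :
    Periodic3 (fun x => ⟪u x, c⟫) := by
  intro i x
  have := hp i x
  simp only [this]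

theorem conv_cd_cos (k : Fin 3 → ℤ) : ContDiff ℝ 1 fun x : E3 => Real.cos (phase k x) :=
  Real.contDiff_cos.comp ((contDiff_phase k).of_le (by exact_mod_cast le_top))

theorem conv_cd_sin (k : Fin 3 → ℤ) : ContDiff ℝ 1 fun x : E3 => Real.sin (phase k x) :=
  Real.contDiff_sin.comp ((contDiff_phase k).of_le (by exact_mod_cast le_top))

theorem conv_cos (k : Fin 3 → ℤ) : Continuous fun x : E3 => Real.cos (phase k x) :=
  (conv_cd_cos k).continuous

theorem conv_sin (k : Fin 3 → ℤ) : Continuous fun x : E3 => Real.sin (phase k x) :=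
  (conv_cd_sin k).continuous

/-- Integration by parts. -/
theorem conv_parts {u : E3 → E3} (hu : ContDiff ℝ 1 u) (hp : Periodic3 u)
    (hd : ∀ x, LinearMap.trace ℝ E3 (fderiv ℝ u x) = 0) (k : Fin 3 → ℤ) (c : E3) :
    ∫ x in cube, Real.sin (phase k x) * ⟪fderiv ℝ u x (u x), c⟫ =
      -∫ x in cube, ⟪u x, vec k⟫ * (Real.cos (phase k x) * ⟪u x, c⟫) := by
  have hin : ContDiff ℝ 1 fun x => ⟪u x, c⟫ := hu.inner ℝ contDiff_const
  have hsc : ContDiff ℝ 1 fun x => Real.sin (phase k x) * ⟪u x, c⟫ := (conv_cd_sin k).mul hin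
  have h0 := per_div_cube (G := fun x => (Real.sin (phase k x) * ⟪u x, c⟫) • u x)
    (hsc.smul hu) (fun i x => by
      have h1 := sin_phase_periodic k i x
      simp only at h1
      simp only [h1, hp i x])
  have h1 : ∀ x, LinearMap.trace ℝ E3
      (fderiv ℝ (fun x => (Real.sin (phase k x) * ⟪u x, c⟫) • u x) x) =
      ⟪u x, vec k⟫ * (Real.cos (phase k x) * ⟪u x, c⟫) +
        Real.sin (phase k x) * ⟪fderiv ℝ u x (u x), c⟫ := by
    intro x
    have hux := (hu.differentiable (by norm_num) x).hasFDerivAt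
    have a1 : HasFDerivAt (fun x => ⟪u x, c⟫) ((innerSL ℝ c).comp (fderiv ℝ u x)) x := by
      have h2 : (fun x => ⟪u x, c⟫) = fun x => innerSL ℝ c (u x) := by
        funext y
        rw [innerSL_apply_apply, real_inner_comm]
      rw [h2]
      exact (innerSL ℝ c).hasFDerivAt.comp x hux
    have a2 := ((hasFDerivAt_phase k x).sin).mul a1
    have a3 : HasFDerivAt (fun x => (Real.sin (phase k x) * ⟪u x, c⟫) • u x)
        ((Real.sin (phase k x) * ⟪u x, c⟫) • fderiv ℝ u x +
          (Real.sin (phase k x) • (innerSL ℝ c).comp (fderiv ℝ u x) +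
            ⟪u x, c⟫ • Real.cos (phase k x) • innerSL ℝ (vec k)).smulRight (u x)) x :=
      a2.smul hux
    rw [a3.fderiv]
    have e1 : ∀ (A B : E3 →L[ℝ] E3), LinearMap.trace ℝ E3 ((A + B : E3 →L[ℝ] E3) : E3 →ₗ[ℝ] E3) =
        LinearMap.trace ℝ E3 (A : E3 →ₗ[ℝ] E3) + LinearMap.trace ℝ E3 (B : E3 →ₗ[ℝ] E3) := by
      intro A B
      rw [ContinuousLinearMap.toLinearMap_add, map_add]
    have e2 : ∀ (r : ℝ) (A : E3 →L[ℝ] E3), LinearMap.trace ℝ E3 ((r • A : E3 →L[ℝ] E3) :
        E3 →ₗ[ℝ] E3) = r * LinearMap.trace ℝ E3 (A : E3 →ₗ[ℝ] E3) := by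
      intro r A
      rw [ContinuousLinearMap.toLinearMap_smul, map_smul, smul_eq_mul]
    rw [e1, e2, hd, conv_trace]
    simp only [ContinuousLinearMap.add_apply, ContinuousLinearMap.smul_apply, smul_eq_mul,
      ContinuousLinearMap.comp_apply, innerSL_apply_apply, mul_zero, zero_add]
    rw [real_inner_comm (fderiv ℝ u x (u x)) c, real_inner_comm (u x) (vec k)]
    ring
  simp only [h1] at h0
  have c1 : Continuous fun x => ⟪u x, vec k⟫ * (Real.cos (phase k x) * ⟪u x, c⟫) :=
    (hu.continuous.inner continuous_const).mul ((conv_cos k).mul hin.continuous)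
  have c2 : Continuous fun x => Real.sin (phase k x) * ⟪fderiv ℝ u x (u x), c⟫ :=
    (conv_sin k).mul (((hu.continuous_fderiv (by norm_num)).clm_apply hu.continuous).inner
      continuous_const)
  rw [integral_add (conv_int c1) (conv_int c2)] at h0
  linarith

theorem conv_odd (hC : ClaimCubeInv) {f : E3 → ℝ} (hf : Continuous f) (hp : Periodic3 f)
    (ho : ∀ x, f (-x) = -f x) : ∫ x in cube, f x = 0 := by
  have h1 := hC f hf hp (1, fun _ => -1)
  have h2 : ∀ x : E3, actR (1, fun _ => -1) x = -x := by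
    intro x
    ext i
    simp [actR]
  simp only [h2, ho] at h1
  rw [integral_neg] at h1
  linarith

theorem conv_e0 : ⟪(e 0 : E3), e 0⟫ = (1 : ℝ) := by
  rw [inner_eq]
  simp [e]

theorem conv_sc_smul (g : E3 → ℝ) (p : Fin 3 → ℤ) :
    sc (fun x => g x • e 0) p = (∫ x in cube, Real.sin (phase p x) * g x) • e 0 := by
  unfold sc
  simp only [smul_smul]
  rw [integral_smul_const]

theorem conv_cc_smul (g : E3 → ℝ) (p : Fin 3 → ℤ) :
    cc (fun x => g x • e 0) p = (∫ x in cube, Real.cos (phase p x) * g x) • e 0 := by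
  unfold cc
  simp only [smul_smul]
  rw [integral_smul_const]

theorem conv_per_smul {g : E3 → ℝ} (hp : Periodic3 g) : Periodic3 fun x => g x • (e 0 : E3) := by
  intro i x
  have := hp i x
  simp only [this]

/-- Parseval for odd scalar functions. -/
theorem conv_pars (hP : ClaimParseval) (hC : ClaimCubeInv) {f g : E3 → ℝ} (hf : Continuous f)
    (hg : Continuous g) (pf : Periodic3 f) (pg : Periodic3 g) (of : ∀ x, f (-x) = -f x) :
    HasSum (fun p : Fin 3 → ℤ => (∫ x in cube, Real.sin (phase p x) * f x) *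
      (∫ x in cube, Real.sin (phase p x) * g x)) ((2 * Real.pi) ^ 3 * ∫ x in cube, f x * g x) := by
  have h := hP (fun x => f x • e 0) (fun x => g x • e 0) (hf.smul continuous_const)
    (hg.smul continuous_const) (conv_per_smul pf) (conv_per_smul pg)
  have h1 : ∀ p : Fin 3 → ℤ, ∫ x in cube, Real.cos (phase p x) * f x = 0 := by
    intro p
    refine conv_odd hC ((conv_cos p).mul hf) ?_ ?_
    · intro i x
      have h2 := cos_phase_periodic p i x
      simp only at h2
      simp only [h2, pf i x]
    · intro x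
      have h3 : phase p (-x) = -phase p x := by
        simp only [phase, PiLp.neg_apply]
        ring
      rw [h3, Real.cos_neg, of]
      ring
  simp only [conv_sc_smul, conv_cc_smul, h1, zero_smul, inner_zero_left, zero_add,
    real_inner_smul_left, real_inner_smul_right, conv_e0, mul_one] at h
  have e1 : (∫ x in cube, f x * g x) = ∫ x in cube, g x * f x := by
    congr 1
    funext x
    exact mul_comm _ _
  rw [e1]
  exact h.congr_fun fun p => mul_comm _ _

theorem conv_sc_inner {u : E3 → E3} (hu : Continuous u) (p : Fin 3 → ℤ) (c : E3) :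
    ∫ x in cube, Real.sin (phase p x) * ⟪u x, c⟫ = ⟪sc u p, c⟫ := by
  unfold sc
  have hI : IntegrableOn (fun x => Real.sin (phase p x) • u x) cube :=
    conv_int ((conv_sin p).smul hu)
  rw [real_inner_comm, ← integral_inner hI]
  refine integral_congr_ae (Eventually.of_forall fun x => ?_)
  simp only [real_inner_smul_right]
  rw [real_inner_comm]

theorem claimConv (hP : ClaimParseval) (hC : ClaimCubeInv) : ClaimConv := by
  intro u hu hp hd ho k c _
  have huc := hu.continuous
  set a : (Fin 3 → ℤ) → ℝ := fun p => ⟪sc u p, vec k⟫ with ha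
  set b : (Fin 3 → ℤ) → ℝ := fun p => ⟪sc u p, c⟫ with hb
  have cf : ∀ v : E3, Continuous fun x => ⟪u x, v⟫ := fun v => huc.inner continuous_const
  have of : ∀ (v : E3) (x : E3), ⟪u (-x), v⟫ = -⟪u x, v⟫ := by
    intro v x
    rw [ho, inner_neg_left]
  have pcos : Periodic3 fun x => Real.cos (phase k x) * ⟪u x, c⟫ := by
    intro i x
    have h2 := cos_phase_periodic k i x
    simp only at h2
    simp only [h2, hp i x]
  -- oddness of the coefficients
  have scneg : ∀ p, sc u (-p) = -sc u p := by
    intro p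
    unfold sc
    rw [← integral_neg]
    refine integral_congr_ae (Eventually.of_forall fun x => ?_)
    simp only [phase_neg_left, Real.sin_neg, neg_smul]
  have aneg : ∀ p, a (-p) = -a p := by
    intro p
    simp only [ha, scneg, inner_neg_left]
  have bneg : ∀ p, b (-p) = -b p := by
    intro p
    simp only [hb, scneg, inner_neg_left]
  -- square summability
  have sqa : Summable fun p => a p ^ 2 := by
    have h := (conv_pars hP hC (cf (vec k)) (cf (vec k)) (conv_per_inner hp _)
      (conv_per_inner hp _) (of _)).summable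
    simp only [conv_sc_inner huc] at h
    refine h.congr fun p => ?_
    simp only [ha]
    ring
  have sqb : Summable fun p => b p ^ 2 := by
    have h := (conv_pars hP hC (cf c) (cf c) (conv_per_inner hp _)
      (conv_per_inner hp _) (of _)).summable
    simp only [conv_sc_inner huc] at h
    refine h.congr fun p => ?_
    simp only [hb]
    ring
  have shift : ∀ l : Fin 3 → ℤ, Summable fun p => a p * b (p + l) := by
    intro l
    have h1 : Summable fun p => b (p + l) ^ 2 := (Equiv.addRight l).summable_iff.2 sqb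
    refine Summable.of_norm_bounded ((sqa.add h1)) fun p => ?_
    rw [Real.norm_eq_abs, abs_mul]
    nlinarith [sq_nonneg (|a p| - |b (p + l)|), sq_abs (a p), sq_abs (b (p + l)),
      abs_nonneg (a p), abs_nonneg (b (p + l)), mul_nonneg (abs_nonneg (a p))
        (abs_nonneg (b (p + l)))]
  -- the sine coefficients of the product
  have hprod : ∀ p, ∫ x in cube, Real.sin (phase p x) * (Real.cos (phase k x) * ⟪u x, c⟫) =
      (b (p + k) + b (p - k)) / 2 := by
    intro p
    have h1 : ∀ x, Real.sin (phase p x) * (Real.cos (phase k x) * ⟪u x, c⟫) =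
        (Real.sin (phase (p + k) x) * ⟪u x, c⟫ + Real.sin (phase (p - k) x) * ⟪u x, c⟫) / 2 := by
      intro x
      rw [phase_add_left, phase_sub_left, Real.sin_add, Real.sin_sub]
      ring
    simp only [h1]
    have hI : ∀ q : Fin 3 → ℤ, IntegrableOn (fun x => Real.sin (phase q x) * ⟪u x, c⟫) cube :=
      fun q => conv_int ((conv_sin q).mul (cf c))
    rw [integral_div, integral_add (hI _) (hI _), conv_sc_inner huc, conv_sc_inner huc]
  have ccos : Continuous fun x => Real.cos (phase k x) * ⟪u x, c⟫ := (conv_cos k).mul (cf c)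
  have hmain := conv_pars hP hC (cf (vec k)) ccos (conv_per_inner hp _) pcos (of _)
  simp only [conv_sc_inner huc, hprod] at hmain
  have hmain' : HasSum (fun p => (a p * b (p + k)) / 2 + (a p * b (p - k)) / 2)
      ((2 * Real.pi) ^ 3 * ∫ x in cube, ⟪u x, vec k⟫ * (Real.cos (phase k x) * ⟪u x, c⟫)) := by
    refine hmain.congr_fun fun p => ?_
    simp only [ha]
    ring
  have s1 : Summable fun p => a p * b (p - k) := by
    have h := shift (-k)
    simpa only [← sub_eq_add_neg] using h
  have e1 : ∑' p, a p * b (p + k) = ∑' p, a p * b (p - k) := by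
    rw [← (Equiv.neg (Fin 3 → ℤ)).tsum_eq]
    refine tsum_congr fun p => ?_
    simp only [Equiv.neg_apply]
    rw [show -p + k = -(p - k) by abel, aneg, bneg]
    ring
  have h2 := ((shift k).hasSum.div_const 2).add (s1.hasSum.div_const 2)
  rw [e1] at h2
  have h3 := h2.unique hmain'
  have h4 := s1.hasSum
  rw [show ∑' p, a p * b (p - k) =
    (2 * Real.pi) ^ 3 * ∫ x in cube, ⟪u x, vec k⟫ * (Real.cos (phase k x) * ⟪u x, c⟫) by
      rw [← h3]; ring] at h4
  rw [conv_parts hu hp hd]
  have hpi : (2 * Real.pi) ^ 3 ≠ 0 := by positivity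
  have h5 := h4.mul_left (-(((2 * Real.pi) ^ 3)⁻¹ * ((2 * Real.pi) ^ 3)⁻¹))
  have e2 : -(((2 * Real.pi) ^ 3)⁻¹ * ((2 * Real.pi) ^ 3)⁻¹) *
      ((2 * Real.pi) ^ 3 * ∫ x in cube, ⟪u x, vec k⟫ * (Real.cos (phase k x) * ⟪u x, c⟫)) =
      ((2 * Real.pi) ^ 3)⁻¹ *
        -∫ x in cube, ⟪u x, vec k⟫ * (Real.cos (phase k x) * ⟪u x, c⟫) := by
    field_simp
  rw [e2] at h5
  refine h5.congr_fun fun p => ?_
  have e3 : b (p - k) = -b (k - p) := by
    rw [← bneg]
    congr 1
    abel
  rw [e3]
  simp only [sa, ha, hb, real_inner_smul_left]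
  ring

end Pool.Agent.Work.MP_b0497c_an.Damp
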