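import Mathlib
import Pool.Agent.Work.MP_b0497c_an.Bd.B21
import Pool.Agent.Work.MP_b0497c_an.Damp.Stmts

set_option autoImplicit false

/-!
Damped Euler equations: assembly of the main theorem from the claims.
-/

namespace Pool.Agent.Work.MP_b0497c_an.Damp

open Set MeasureTheory RealInnerProductSpace Pool.Agent.Work.MP_b0497c_an
open Pool.Agent.Work.MP_b0497c_an.Dec

namespace DCore

variable {D : (Fin 3 → ℤ) → ℝ} {T : ℝ} {u : ℝ → E3 → E3}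

theorem contDiff_slice (h : IsDampedSolution D T u) {t : ℝ} (ht : t ∈ Ico 0 T) :
    ContDiff ℝ 1 (u t) := by
  have h1 : ContDiff ℝ 1 (fun x : E3 => (t, x)) := by fun_prop
  have h2 : ContDiffOn ℝ 1 ((fun z : ℝ × E3 => u z.1 z.2) ∘ (fun x : E3 => (t, x))) univ :=
    h.contDiff_u.comp h1.contDiffOn (fun x _ => ⟨ht, mem_univ _⟩)
  exact contDiffOn_univ.mp h2

theorem bound_grad (h : IsDampedSolution D T u) {t : ℝ} (ht : t < T) :
    ∃ C : ℝ, 0 ≤ C ∧ ∀ s ∈ Icc 0 t, ∀ x, ‖fderiv ℝ (u s) x‖ ≤ C := by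
  have hsub : Icc 0 t ⊆ Ico 0 T := fun s hs => ⟨hs.1, hs.2.trans_lt ht⟩
  exact exists_bound (G := fun t x => fderiv ℝ (u t) x)
    ((continuousOn_fderiv h.contDiff_u).mono (prod_mono hsub (Subset.refl _)))
    fun s hs => (h.periodic s (hsub hs)).fderiv

theorem actR_neg (x : E3) : actR ((1 : Equiv.Perm (Fin 3)), fun _ => -1) x = -x := by
  ext i
  simp [actR]

theorem actR_smul (g : Sgn) (a : ℝ) (x : E3) : actR g (a • x) = a • actR g x := by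
  ext i
  simp [actR]
  ring

theorem sa_smul (A : ℝ) (v : E3 → E3) (k : Fin 3 → ℤ) :
    sa (fun x => A • v x) k = A • sa v k := by
  unfold sa sc
  have : (fun x => Real.sin (phase k x) • A • v x) = fun x => A • (Real.sin (phase k x) • v x) := by
    funext x
    rw [smul_comm]
  rw [this, integral_smul, smul_comm]

/-- The norm bound for the convolution sum. -/
theorem tsum_conv_le {S : (Fin 3 → ℤ) → E3} (hS : Summable fun k => ‖S k‖ ^ 2) (k : Fin 3 → ℤ)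
    (a c : E3) : |∑' p, ⟪S p, a⟫ * ⟪S (k - p), c⟫| ≤ ‖a‖ * ‖c‖ * ∑' p, ‖S p‖ ^ 2 := by
  have hS' : Summable fun p => ‖S (k - p)‖ ^ 2 :=
    (Equiv.subLeft k).summable_iff.mpr hS
  have e1 : ∑' p, ‖S (k - p)‖ ^ 2 = ∑' p, ‖S p‖ ^ 2 :=
    (Equiv.subLeft k).tsum_eq (fun p => ‖S p‖ ^ 2)
  have hb : ∀ p, ‖⟪S p, a⟫ * ⟪S (k - p), c⟫‖ ≤
      ‖a‖ * ‖c‖ * ((1 / 2) * ‖S p‖ ^ 2 + (1 / 2) * ‖S (k - p)‖ ^ 2) := by
    intro p
    rw [norm_mul, Real.norm_eq_abs, Real.norm_eq_abs]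
    have h1 := abs_real_inner_le_norm (S p) a
    have h2 := abs_real_inner_le_norm (S (k - p)) c
    have h3 : |⟪S p, a⟫| * |⟪S (k - p), c⟫| ≤ (‖S p‖ * ‖a‖) * (‖S (k - p)‖ * ‖c‖) :=
      mul_le_mul h1 h2 (abs_nonneg _) (by positivity)
    have h4 : ‖S p‖ * ‖S (k - p)‖ ≤ (1 / 2) * ‖S p‖ ^ 2 + (1 / 2) * ‖S (k - p)‖ ^ 2 := by
      nlinarith [sq_nonneg (‖S p‖ - ‖S (k - p)‖)]
    calc _ ≤ (‖S p‖ * ‖a‖) * (‖S (k - p)‖ * ‖c‖) := h3
      _ = ‖a‖ * ‖c‖ * (‖S p‖ * ‖S (k - p)‖) := by ring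
      _ ≤ _ := mul_le_mul_of_nonneg_left h4 (by positivity)
  have hsum : HasSum (fun p => ‖a‖ * ‖c‖ * ((1 / 2) * ‖S p‖ ^ 2 + (1 / 2) * ‖S (k - p)‖ ^ 2))
      (‖a‖ * ‖c‖ * ∑' p, ‖S p‖ ^ 2) := by
    have h1 := (hS.hasSum.mul_left (1 / 2)).add (hS'.hasSum.mul_left (1 / 2))
    have h2 := h1.mul_left (‖a‖ * ‖c‖)
    rw [e1] at h2
    have e2 : ‖a‖ * ‖c‖ * (1 / 2 * ∑' p, ‖S p‖ ^ 2 + 1 / 2 * ∑' p, ‖S p‖ ^ 2) =
      ‖a‖ * ‖c‖ * ∑' p, ‖S p‖ ^ 2 := by ring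
    rw [← e2]
    exact h2
  rw [← Real.norm_eq_abs]
  exact tsum_of_norm_bounded hsum hb

theorem eps_bd (n : ℕ) : 61 ≤ eps n ∧ eps n ≤ 678 := by
  have h : n % 6 = 0 ∨ n % 6 = 1 ∨ n % 6 = 2 ∨ n % 6 = 3 ∨ n % 6 = 4 ∨ n % 6 = 5 := by omega
  unfold eps
  rcases h with h | h | h | h | h | h <;> rw [h] <;> norm_num

theorem ev_le (hSize : ClaimSize) (n : ℕ) : ‖vec (ev n)‖ ≤ 27 := by
  have h1 := (hSize n).2.2.2.1
  have h2 := (eps_bd n).2
  nlinarith [norm_nonneg (vec (ev n))]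

/-- The chain amplitudes of the datum. -/
theorem data_chain (hBasic : ClaimBasic) (hDatum : ClaimDatum) (hSaSym : ClaimSaSym)
    (hAmp : ClaimAmp) (hSize : ClaimSize) (K : ℝ) (v : E3 → E3) (hv : IsDatum v)
    (hX : ∃ k ∈ X, 2200 * K ≤ ‖vec k‖ ∧ ∫ x in cube, Real.sin (phase k x) • v x ≠ 0) :
    ∃ N : ℕ, ⟪sa v (kk N), vec (ev N)⟫ / eps N ≠ 0 ∧
      (∀ n, N < n → ⟪sa v (kk n), vec (ev n)⟫ / eps n = 0) ∧
      ∀ n, N < n → 2200 * K ≤ ‖vec (kk n)‖ := by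
  obtain ⟨hvC, hvP, hvO, F, hF0, hFs⟩ := hDatum v hv
  obtain ⟨k₀, ⟨n₀, g₀, rfl⟩, hk₀, hk₀'⟩ := hX
  have hπ : (0 : ℝ) < (2 * Real.pi) ^ 3 := by positivity
  have hvS : ∀ g k, sa v (act g k) = actR g (sa v k) := hSaSym v hvC.continuous hvP hv.symm
  have hvB := hBasic v hvC hvP hv.div_free
  have hvA := hAmp (sa v) hvS (fun k => (hvB k).2.2.1)
  have hn₀ : ⟪sa v (kk n₀), vec (ev n₀)⟫ / eps n₀ ≠ 0 := by
    intro h
    have h1 := hvA n₀ g₀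
    rw [h, zero_smul] at h1
    unfold sa sc at h1
    rcases smul_eq_zero.mp h1 with h2 | h2
    · exact absurd h2 (inv_ne_zero hπ.ne')
    · exact hk₀' h2
  have hbd : ∃ B : ℕ, ∀ n, ⟪sa v (kk n), vec (ev n)⟫ / eps n ≠ 0 → n ≤ B := by
    obtain ⟨R, hR⟩ : ∃ R : ℝ, ∀ k ∈ F, ‖vec k‖ ≤ R := by
      obtain ⟨R, hR⟩ := (F.image fun k => ‖vec k‖).bddAbove
      exact ⟨R, fun k hk => hR (Finset.mem_coe.mpr (Finset.mem_image_of_mem _ hk))⟩
    obtain ⟨m, hm⟩ := pow_unbounded_of_one_lt R (by norm_num : (1 : ℝ) < 16)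
    refine ⟨6 * m, fun n hn => ?_⟩
    by_contra hcon
    rw [not_le] at hcon
    have h1 : kk n ∈ F := by
      by_contra h2
      apply hn
      rw [hF0 _ h2, inner_zero_left, zero_div]
    have h2 := (hSize n).1
    have h3 := hR _ h1
    have h4 : m ≤ n / 6 := by omega
    have h5 : (16 : ℝ) ^ m ≤ 16 ^ (n / 6) := pow_le_pow_right₀ (by norm_num) h4
    have h6 : (0 : ℝ) < 16 ^ (n / 6) := by positivity
    linarith
  obtain ⟨B₀, hB₀⟩ := hbd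
  classical
  have hN1 := Nat.findGreatest_spec (P := fun n => ⟪sa v (kk n), vec (ev n)⟫ / eps n ≠ 0)
    (hB₀ n₀ hn₀) hn₀
  have hN2 := Nat.le_findGreatest (P := fun n => ⟪sa v (kk n), vec (ev n)⟫ / eps n ≠ 0)
    (hB₀ n₀ hn₀) hn₀
  have hN3 : ∀ n, Nat.findGreatest (fun n => ⟪sa v (kk n), vec (ev n)⟫ / eps n ≠ 0) B₀ < n →
      ⟪sa v (kk n), vec (ev n)⟫ / eps n = 0 := by
    intro n hn
    by_contra h
    exact Nat.findGreatest_is_greatest hn (hB₀ n h) h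
  generalize Nat.findGreatest (fun n => ⟪sa v (kk n), vec (ev n)⟫ / eps n ≠ 0) B₀ = N at hN1 hN2 hN3
  refine ⟨N, hN1, hN3, ?_⟩
  intro n hn
  have hmono : Monotone fun n => ‖vec (kk n)‖ := monotone_nat_of_le_succ fun n => (hSize n).2.2.1
  have h1 := (hSize n₀).2.2.2.2.2.2.1 g₀
  rw [h1] at hk₀
  exact hk₀.trans (hmono (hN2.trans hn.le))

/-- Consequences of the energy identity. -/
theorem energy_facts (hBasic : ClaimBasic) (hEnergy : ClaimEnergy) (hD : ∀ k, 0 ≤ D k)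
    (hu : IsDampedSolution D T u) (ν K H : ℝ) (hν : 0 < ν)
    (hH : ∫ x in cube, ‖u 0 x‖ ^ 2 = H)
    (hDoff : ∀ k, k ∉ Lam → K ≤ ‖vec k‖ → ν * ‖vec k‖ ^ (3 / 2 : ℝ) ≤ D k) :
    ∃ g : ℝ → ℝ, ContinuousOn g (Ico 0 T) ∧ (∀ t ∈ Ico 0 T, 0 ≤ g t) ∧
      (∀ t ∈ Ico 0 T, ∫ s in (0 : ℝ)..t, g s ^ 2 ≤ H / (2 * (2 * Real.pi) ^ 3) / ν) ∧
      (∀ t ∈ Ico 0 T, ∀ F : Finset (Fin 3 → ℤ), (∀ q ∈ F, q ∉ Lam ∧ K ≤ ‖vec q‖) →
        ∑ q ∈ F, ‖vec q‖ ^ (3 / 2 : ℝ) * ‖sa (u t) q‖ ^ 2 ≤ g t ^ 2) ∧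
      (∀ t ∈ Ico 0 T, (Summable fun k => ‖sa (u t) k‖ ^ 2) ∧
        ∑' k, ‖sa (u t) k‖ ^ 2 ≤ ((2 * Real.pi) ^ 3)⁻¹ * H) := by
  obtain ⟨hI0, hI1, hI2⟩ := hEnergy D T u hu
  have hπ : (0 : ℝ) < (2 * Real.pi) ^ 3 := by positivity
  obtain ⟨I, hI⟩ : ∃ I : ℝ → ℝ, I = fun t => ∫ x in cube, ⟪acc T u t x, u t x⟫ := ⟨_, rfl⟩
  rw [← hI] at hI0
  have hIt : ∀ t, ∫ x in cube, ⟪acc T u t x, u t x⟫ = I t := fun t => by rw [hI]
  simp only [hIt] at hI1 hI2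
  have hIneg : ∀ t ∈ Ico 0 T, 0 ≤ -I t := by
    intro t ht
    have h1 := (hI1 t ht).nonneg fun k => mul_nonneg (hD k) (by positivity)
    by_contra hcon
    rw [not_le] at hcon
    nlinarith
  have hIint : ∀ t ∈ Ico 0 T, IntervalIntegrable I volume 0 t := by
    intro t ht
    apply ContinuousOn.intervalIntegrable
    rw [uIcc_of_le ht.1]
    exact hI0.mono fun s hs => ⟨hs.1, hs.2.trans_lt ht.2⟩
  have hsplit : ∀ t, ∫ s in (0 : ℝ)..t, 2 * I s = 2 * ∫ s in (0 : ℝ)..t, I s := fun t =>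
    intervalIntegral.integral_const_mul _ _
  have hIpos : ∀ t ∈ Ico 0 T, ∫ s in (0 : ℝ)..t, I s ≤ 0 := by
    intro t ht
    have h3 : 0 ≤ ∫ s in (0 : ℝ)..t, -(I s) := by
      apply intervalIntegral.integral_nonneg ht.1
      intro s hs
      exact hIneg s ⟨hs.1, hs.2.trans_lt ht.2⟩
    rw [intervalIntegral.integral_neg] at h3
    linarith
  have hEn : ∀ t ∈ Ico 0 T, (∫ x in cube, ‖u t x‖ ^ 2) ≤ H := by
    intro t ht
    have h1 := hI2 t ht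
    rw [hH, hsplit] at h1
    have := hIpos t ht
    linarith
  refine ⟨fun t => Real.sqrt (-I t / (ν * (2 * Real.pi) ^ 3)), ?_, fun t _ => Real.sqrt_nonneg _,
    ?_, ?_, ?_⟩
  · exact (hI0.neg.div_const _).sqrt
  · intro t ht
    have h1 : ∫ s in (0 : ℝ)..t, Real.sqrt (-I s / (ν * (2 * Real.pi) ^ 3)) ^ 2 =
        ∫ s in (0 : ℝ)..t, (-(ν * (2 * Real.pi) ^ 3)⁻¹) * I s := by
      apply intervalIntegral.integral_congr
      intro s hs
      rw [uIcc_of_le ht.1] at hs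
      have := hIneg s ⟨hs.1, hs.2.trans_lt ht.2⟩
      simp only
      rw [Real.sq_sqrt (by positivity)]
      field_simp
    rw [h1, intervalIntegral.integral_const_mul]
    have h2 := hI2 t ht
    rw [hH, hsplit] at h2
    have h3 : 0 ≤ ∫ x in cube, ‖u t x‖ ^ 2 := integral_nonneg fun x => by positivity
    have h4 : -(∫ s in (0 : ℝ)..t, I s) ≤ H / 2 := by linarith
    calc -(ν * (2 * Real.pi) ^ 3)⁻¹ * ∫ s in (0 : ℝ)..t, I s
        = (ν * (2 * Real.pi) ^ 3)⁻¹ * -(∫ s in (0 : ℝ)..t, I s) := by ring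
      _ ≤ (ν * (2 * Real.pi) ^ 3)⁻¹ * (H / 2) :=
        mul_le_mul_of_nonneg_left h4 (by positivity)
      _ = _ := by field_simp
  · intro t ht F hF
    simp only
    rw [Real.sq_sqrt (div_nonneg (hIneg t ht) (by positivity))]
    have h1 := hI1 t ht
    have h2 : ∑ q ∈ F, D q * (‖cc (u t) q‖ ^ 2 + ‖sc (u t) q‖ ^ 2) ≤ -((2 * Real.pi) ^ 3 * I t) :=
      sum_le_hasSum F (fun q _ => mul_nonneg (hD q) (by positivity)) h1
    have h3 : ∑ q ∈ F, ν * ((2 * Real.pi) ^ 3) ^ 2 * (‖vec q‖ ^ (3 / 2 : ℝ) * ‖sa (u t) q‖ ^ 2) ≤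
        ∑ q ∈ F, D q * (‖cc (u t) q‖ ^ 2 + ‖sc (u t) q‖ ^ 2) := by
      apply Finset.sum_le_sum
      intro q hq
      have e1 : sc (u t) q = (2 * Real.pi) ^ 3 • sa (u t) q := by
        unfold sa
        rw [smul_smul, mul_inv_cancel₀ hπ.ne', one_smul]
      have e2 : ‖sc (u t) q‖ ^ 2 = ((2 * Real.pi) ^ 3) ^ 2 * ‖sa (u t) q‖ ^ 2 := by
        rw [e1, norm_smul, Real.norm_eq_abs, abs_of_pos hπ, mul_pow]
      have h4 := hDoff q (hF q hq).1 (hF q hq).2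
      have h5 : 0 ≤ ‖cc (u t) q‖ ^ 2 := by positivity
      have h6 : 0 ≤ ‖sc (u t) q‖ ^ 2 := by positivity
      calc ν * ((2 * Real.pi) ^ 3) ^ 2 * (‖vec q‖ ^ (3 / 2 : ℝ) * ‖sa (u t) q‖ ^ 2)
          = (ν * ‖vec q‖ ^ (3 / 2 : ℝ)) * ‖sc (u t) q‖ ^ 2 := by rw [e2]; ring
        _ ≤ D q * ‖sc (u t) q‖ ^ 2 := mul_le_mul_of_nonneg_right h4 h6
        _ ≤ D q * (‖cc (u t) q‖ ^ 2 + ‖sc (u t) q‖ ^ 2) :=
          mul_le_mul_of_nonneg_left (by linarith) (hD q)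
    rw [← Finset.mul_sum] at h3
    have h7 := h3.trans h2
    rw [le_div_iff₀ (by positivity)]
    have h8 : 0 < (2 * Real.pi) ^ 3 := hπ
    have h9 : (2 * Real.pi) ^ 3 * ((∑ q ∈ F, ‖vec q‖ ^ (3 / 2 : ℝ) * ‖sa (u t) q‖ ^ 2) *
        (ν * (2 * Real.pi) ^ 3)) ≤ (2 * Real.pi) ^ 3 * (-I t) := by
      calc _ = ν * ((2 * Real.pi) ^ 3) ^ 2 * ∑ q ∈ F, ‖vec q‖ ^ (3 / 2 : ℝ) * ‖sa (u t) q‖ ^ 2 := by
            ring
        _ ≤ _ := h7
        _ = _ := by ring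
    exact le_of_mul_le_mul_left h9 h8
  · intro t ht
    have hB := hBasic (u t) (contDiff_slice hu ht) (hu.periodic t ht) (hu.div_free t ht) 0
    refine ⟨hB.2.2.2.2.2.1, hB.2.2.2.2.2.2.1.trans ?_⟩
    exact mul_le_mul_of_nonneg_left (hEn t ht) (by positivity)

end DCore

open DCore in
/-- Upper bound for the life span. -/
theorem life (hBasic : ClaimBasic) (hDatum : ClaimDatum) (hEnergy : ClaimEnergy)
    (hSaSym : ClaimSaSym) (hSymm : ClaimSymm) (hOde : ClaimOde) (hChain : ClaimChain)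
    (hAmp : ClaimAmp) (hSize : ClaimSize) (hRem : ClaimRem) (hBlow : ClaimBlow)
    (K : ℝ) (v : E3 → E3) (hv : IsDatum v)
    (hX : ∃ k ∈ X, 2200 * K ≤ ‖vec k‖ ∧ ∫ x in cube, Real.sin (phase k x) • v x ≠ 0) :
    ∃ c : ℝ, 0 < c ∧ ∀ (ν μ A : ℝ) (D : (Fin 3 → ℤ) → ℝ), 0 < ν → 0 < A → μ ≤ c * A →
      A ≤ c * ν → (∀ k, 0 ≤ D k) → (∀ g k, D (act g k) = D k) →
      (∀ k, k ∉ Lam → K ≤ ‖vec k‖ → ν * ‖vec k‖ ^ (3 / 2 : ℝ) ≤ D k) →
      (∀ k ∈ X, D k ≤ μ * ‖vec k‖ ^ (1 / 2 : ℝ)) →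
      ∀ T, 0 < T → ∀ u, IsDampedSolution D T u → (∀ x, u 0 x = A • v x) → c * A * T ≤ 1 := by
  obtain ⟨N, hN1, hN3, hbig⟩ := data_chain hBasic hDatum hSaSym hAmp hSize K v hv hX
  have hπ : (0 : ℝ) < (2 * Real.pi) ^ 3 := by positivity
  -- constants
  obtain ⟨H₀, hH₀⟩ : ∃ H₀ : ℝ, H₀ = ∫ x in cube, ‖v x‖ ^ 2 := ⟨_, rfl⟩
  have hH₀0 : 0 ≤ H₀ := by rw [hH₀]; exact integral_nonneg fun x => by positivity
  obtain ⟨Ev, hEv⟩ : ∃ Ev : ℝ, Ev = Real.sqrt (((2 * Real.pi) ^ 3)⁻¹ * H₀) := ⟨_, rfl⟩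
  have hEv0 : 0 ≤ Ev := by rw [hEv]; exact Real.sqrt_nonneg _
  have hEv2 : Ev ^ 2 = ((2 * Real.pi) ^ 3)⁻¹ * H₀ := by rw [hEv]; exact Real.sq_sqrt (by positivity)
  have hevn := ev_le hSize
  obtain ⟨kN, hkN⟩ : ∃ kN : ℝ, kN = ‖vec (kk N)‖ := ⟨_, rfl⟩
  have hkN0 : 0 ≤ kN := by rw [hkN]; exact norm_nonneg _
  have hkNr : 0 ≤ kN ^ (1 / 2 : ℝ) := Real.rpow_nonneg hkN0 _
  obtain ⟨C, hC0, hC1, hC2, hC3, hC4⟩ : ∃ C : ℝ, 0 < C ∧ Ev ≤ C ∧ 27000 * Ev ≤ C ∧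
      H₀ / (2 * (2 * Real.pi) ^ 3) ≤ C ∧
      kN * 27 * Ev ^ 2 + kN ^ (1 / 2 : ℝ) * (Ev * 27) ≤ C := by
    have hq1 : 0 ≤ H₀ / (2 * (2 * Real.pi) ^ 3) := by positivity
    have hq2 : 0 ≤ kN * 27 * Ev ^ 2 := by positivity
    have hq3 : 0 ≤ kN ^ (1 / 2 : ℝ) * (Ev * 27) := by positivity
    refine ⟨1 + Ev + 27000 * Ev + H₀ / (2 * (2 * Real.pi) ^ 3) +
      (kN * 27 * Ev ^ 2 + kN ^ (1 / 2 : ℝ) * (Ev * 27)), ?_, ?_, ?_, ?_, ?_⟩ <;> linarith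
  obtain ⟨c, hc0, hcB⟩ := hBlow N (⟪sa v (kk N), vec (ev N)⟫ / eps N) C hN1 hC0
  refine ⟨min c 1, lt_min hc0 one_pos, ?_⟩
  intro ν μ A D hν hA hμ hAν hD hDs hDoff hDX T hT u hu hu0
  have hc1 : min c 1 ≤ c := min_le_left _ _
  have hc2 : min c 1 ≤ 1 := min_le_right _ _
  have hμA : μ ≤ A := hμ.trans (by nlinarith)
  have h0T : (0 : ℝ) ∈ Ico 0 T := ⟨le_rfl, hT⟩
  -- symmetry of the solution
  have hu0s : ∀ g x, u 0 (actR g x) = actR g (u 0 x) := by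
    intro g x
    rw [hu0, hu0, hv.symm, actR_smul]
  have hus := hSymm D T u hD hDs hu hT hu0s
  have huo : ∀ t ∈ Ico 0 T, ∀ x, u t (-x) = -u t x := by
    intro t ht x
    have := hus t ht ((1 : Equiv.Perm (Fin 3)), fun _ => -1) x
    rw [actR_neg, actR_neg] at this
    exact this
  have huC : ∀ t ∈ Ico 0 T, ContDiff ℝ 1 (u t) := fun t ht => contDiff_slice hu ht
  have huB : ∀ t ∈ Ico 0 T, (∀ k, ⟪vec k, sa (u t) k⟫ = 0) ∧ sa (u t) 0 = 0 ∧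
      ∀ K : ℝ, (∀ x, ‖fderiv ℝ (u t) x‖ ≤ K) → ∀ k, ‖vec k‖ * ‖sa (u t) k‖ ≤ 3 * K := by
    intro t ht
    have h := hBasic (u t) (huC t ht) (hu.periodic t ht) (hu.div_free t ht)
    exact ⟨fun k => (h k).2.2.1, (h 0).2.2.2.2.1, fun K hK k => (h k).2.2.2.2.2.2.2 K hK⟩
  have huS : ∀ t ∈ Ico 0 T, ∀ g k, sa (u t) (act g k) = actR g (sa (u t) k) := fun t ht =>
    hSaSym (u t) (huC t ht).continuous (hu.periodic t ht) (hus t ht)
  have huA : ∀ t ∈ Ico 0 T, ∀ n g, sa (u t) (act g (kk n)) =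
      (⟪sa (u t) (kk n), vec (ev n)⟫ / eps n) • vec (act g (ev n)) := fun t ht =>
    hAmp (sa (u t)) (huS t ht) (huB t ht).1
  have hE0 : ∫ x in cube, ‖u 0 x‖ ^ 2 = A ^ 2 * H₀ := by
    rw [hH₀, ← integral_const_mul]
    refine integral_congr_ae (Filter.Eventually.of_forall fun x => ?_)
    simp only [hu0, norm_smul, Real.norm_eq_abs, abs_of_pos hA, mul_pow]
  obtain ⟨g, hgc, hg0, hg2, hgF, hS2⟩ := energy_facts hBasic hEnergy hD hu ν K (A ^ 2 * H₀) hν hE0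
    hDoff
  have hS2' : ∀ t ∈ Ico 0 T, ∑' k, ‖sa (u t) k‖ ^ 2 ≤ (A * Ev) ^ 2 := by
    intro t ht
    refine ((hS2 t ht).2).trans (le_of_eq ?_)
    rw [mul_pow A Ev, hEv2]
    ring
  have hSk : ∀ t ∈ Ico 0 T, ∀ k, ‖sa (u t) k‖ ≤ A * Ev := by
    intro t ht k
    have h1 := ((hS2 t ht).1).le_tsum k (fun j _ => by positivity)
    have h2 := h1.trans (hS2' t ht)
    exact le_of_sq_le_sq h2 (by positivity)
  have hperp : ∀ n, ⟪vec (kk n), vec (ev n)⟫ = 0 := fun n => (hSize n).2.2.2.2.1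
  have hode := fun n => hOde D T u hu huo (kk n) (vec (ev n)) (hperp n)
  have heps0 : ∀ n, eps n ≠ 0 := fun n => by have := (eps_bd n).1; linarith
  have hT1 : c * A * T ≤ 1 := by
    refine hcB A ν μ T (fun n t => ⟪sa (u t) (kk n), vec (ev n)⟫ / eps n)
      (fun n t => (-(∑' p, ⟪sa (u t) p, vec (kk n)⟫ * ⟪sa (u t) (kk n - p), vec (ev n)⟫) -
        D (kk n) * ⟪sa (u t) (kk n), vec (ev n)⟫) / eps n)
      (fun n t => -(∑' p, ⟪sa (u t) p, vec (kk n)⟫ * ⟪sa (u t) (kk n - p), vec (ev n)⟫ -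
        ∑ p ∈ cp n, ⟪sa (u t) p, vec (kk n)⟫ * ⟪sa (u t) (kk n - p), vec (ev n)⟫))
      (fun n => D (kk n)) g hA hν hT (hμ.trans (by nlinarith)) (hAν.trans (by nlinarith))
      ?_ ?_ ?_ ?_ ?_ hgc hg0 ?_ ?_ ?_ ?_ ?_ ?_
    · intro n t ht
      exact ((hode n).2 t ht).2.div_const _
    · intro n
      have h1 : ContinuousOn (fun t => ⟪sa (u t) (kk n), vec (ev n)⟫) (Ico 0 T) := fun t ht =>
        (((hode n).2 t ht).2).continuousWithinAt
      exact (((hode n).1.neg).sub (continuousOn_const.mul h1)).div_const _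
    · intro n t ht
      have h1 := hChain (sa (u t)) (fun n => ⟪sa (u t) (kk n), vec (ev n)⟫ / eps n) (huA t ht) n
      rw [h1]
      have := heps0 n
      field_simp
      ring
    · intro n
      exact ⟨hD _, hDX _ (hSize n).2.2.2.2.2.1⟩
    · intro n hn t ht
      have h1 := hRem (sa (u t)) K (A * Ev) (g t) n (vec (ev n)) (by positivity) (hg0 t ht)
        (huB t ht).2.1 (huB t ht).1 (hS2 t ht).1 (hS2' t ht) (hgF t ht) (hbig n hn)
      rw [abs_neg]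
      refine h1.trans ?_
      have h2 : 0 ≤ ‖vec (kk n)‖ ^ (1 / 4 : ℝ) * A * g t :=
        mul_nonneg (mul_nonneg (Real.rpow_nonneg (norm_nonneg _) _) hA.le) (hg0 t ht)
      calc 1000 * ‖vec (kk n)‖ ^ (1 / 4 : ℝ) * (A * Ev) * g t * ‖vec (ev n)‖
          = (1000 * Ev * ‖vec (ev n)‖) * (‖vec (kk n)‖ ^ (1 / 4 : ℝ) * A * g t) := by ring
        _ ≤ C * (‖vec (kk n)‖ ^ (1 / 4 : ℝ) * A * g t) := by
          apply mul_le_mul_of_nonneg_right _ h2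
          have := mul_le_mul_of_nonneg_left (hevn n) (by positivity : (0 : ℝ) ≤ 1000 * Ev)
          linarith
        _ = _ := by ring
    · intro t ht
      refine (hg2 t ht).trans ?_
      rw [div_le_div_iff_of_pos_right hν]
      calc A ^ 2 * H₀ / (2 * (2 * Real.pi) ^ 3) = (H₀ / (2 * (2 * Real.pi) ^ 3)) * A ^ 2 := by ring
        _ ≤ C * A ^ 2 := mul_le_mul_of_nonneg_right hC3 (by positivity)
    · intro n t ht
      have h1 := abs_real_inner_le_norm (sa (u t) (kk n)) (vec (ev n))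
      have h2 := hSk t ht (kk n)
      have h3 := (eps_bd n).1
      rw [abs_div, abs_of_pos (by linarith : 0 < eps n), div_le_iff₀ (by linarith)]
      have h4 : ‖sa (u t) (kk n)‖ * ‖vec (ev n)‖ ≤ A * Ev * 27 :=
        mul_le_mul h2 (hevn n) (norm_nonneg _) (by positivity)
      have h5 : A * Ev * 27 ≤ C * A * eps n := by
        have : A * Ev ≤ C * A := by nlinarith
        have h6 : 0 ≤ C * A := by positivity
        nlinarith [mul_nonneg hA.le hEv0]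
      linarith
    · intro t ht
      obtain ⟨K', hK'0, hK'⟩ := bound_grad hu ht.2
      refine ⟨3 * K', ?_⟩
      intro n s hs
      have hsT : s ∈ Ico 0 T := ⟨hs.1, hs.2.trans_lt ht.2⟩
      have h0 := (huB s hsT).2.2 K' (hK' s hs) (kk n)
      have h1 := abs_real_inner_le_norm (sa (u s) (kk n)) (vec (ev n))
      have h3 := (eps_bd n).1
      rw [abs_div, abs_of_pos (by linarith : 0 < eps n)]
      have h4 : |⟪sa (u s) (kk n), vec (ev n)⟫| / eps n ≤ ‖sa (u s) (kk n)‖ := by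
        rw [div_le_iff₀ (by linarith)]
        refine h1.trans (mul_le_mul_of_nonneg_left ?_ (norm_nonneg _))
        linarith [hevn n]
      exact (mul_le_mul_of_nonneg_left h4 (norm_nonneg _)).trans h0
    · intro t ht
      have h3 := (eps_bd N).1
      rw [abs_div, abs_of_pos (by linarith : 0 < eps N), div_le_iff₀ (by linarith)]
      have h4 := tsum_conv_le (hS2 t ht).1 (kk N) (vec (kk N)) (vec (ev N))
      have h5 : ‖vec (kk N)‖ * ‖vec (ev N)‖ * ∑' p, ‖sa (u t) p‖ ^ 2 ≤ kN * 27 * (A * Ev) ^ 2 := by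
        rw [← hkN]
        refine mul_le_mul (mul_le_mul_of_nonneg_left (hevn N) hkN0) (hS2' t ht)
          (tsum_nonneg fun p => by positivity) (by positivity)
      have h6 : |D (kk N) * ⟪sa (u t) (kk N), vec (ev N)⟫| ≤
          A * kN ^ (1 / 2 : ℝ) * (A * Ev * 27) := by
        rw [abs_mul, abs_of_nonneg (hD _)]
        refine mul_le_mul ?_ ?_ (abs_nonneg _) (by positivity)
        · have h7 := hDX _ (hSize N).2.2.2.2.2.1
          rw [← hkN] at h7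
          exact h7.trans (mul_le_mul_of_nonneg_right hμA hkNr)
        · exact (abs_real_inner_le_norm _ _).trans
            (mul_le_mul (hSk t ht _) (hevn N) (norm_nonneg _) (by positivity))
      have h8 : |-(∑' p, ⟪sa (u t) p, vec (kk N)⟫ * ⟪sa (u t) (kk N - p), vec (ev N)⟫) -
          D (kk N) * ⟪sa (u t) (kk N), vec (ev N)⟫| ≤ kN * 27 * (A * Ev) ^ 2 +
          A * kN ^ (1 / 2 : ℝ) * (A * Ev * 27) := by
        refine (abs_sub _ _).trans ?_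
        rw [abs_neg]
        exact add_le_add (h4.trans h5) h6
      refine h8.trans ?_
      calc kN * 27 * (A * Ev) ^ 2 + A * kN ^ (1 / 2 : ℝ) * (A * Ev * 27)
          = (kN * 27 * Ev ^ 2 + kN ^ (1 / 2 : ℝ) * (Ev * 27)) * A ^ 2 := by ring
        _ ≤ C * A ^ 2 := mul_le_mul_of_nonneg_right hC4 (by positivity)
        _ ≤ C * A ^ 2 * eps N := le_mul_of_one_le_right (by positivity) (by linarith)
    · have e1 : u 0 = fun x => A • v x := funext hu0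
      have e2 : sa (u 0) (kk N) = A • sa v (kk N) := by
        rw [e1]
        exact sa_smul A v _
      rw [e2, real_inner_smul_left, mul_div_assoc]
    · intro n hn
      have e1 : u 0 = fun x => A • v x := funext hu0
      have e2 : sa (u 0) (kk n) = A • sa v (kk n) := by
        rw [e1]
        exact sa_smul A v _
      rw [e2, real_inner_smul_left, mul_div_assoc, hN3 n hn, mul_zero]
  refine le_trans ?_ hT1
  have : 0 ≤ A * T := by positivity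
  nlinarith

open DCore in
/-- Existence of a solution for a short time. -/
theorem exists_short (hBasic : ClaimBasic) (hDatum : ClaimDatum) (hCoeff : ClaimCoeff)
    (hBuild : ClaimBuild) (v : E3 → E3) (hv : IsDatum v) (A : ℝ) (D : (Fin 3 → ℤ) → ℝ)
    (hD : ∀ k, 0 ≤ D k) (hDs : ∀ g k, D (act g k) = D k) :
    ∃ T, 0 < T ∧ ∃ u, IsDampedSolution D T u ∧ ∀ x, u 0 x = A • v x := by
  obtain ⟨hvC, hvP, hvO, F, hF0, hFs⟩ := hDatum v hv
  have hvB := hBasic v hvC hvP hv.div_free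
  have hDn : ∀ k, D (-k) = D k := by
    intro k
    have h := hDs ((1 : Equiv.Perm (Fin 3)), fun _ => -1) k
    have e : act ((1 : Equiv.Perm (Fin 3)), fun _ => -1) k = -k := by
      ext i
      simp [act]
    rwa [e] at h
  obtain ⟨T, K, S, S', hT, h0, hS⟩ := hCoeff D F (fun k => A • sa v k) hD hDn
    (fun k hk => by rw [hF0 k hk, smul_zero]) (fun k => by rw [(hvB k).2.2.2.1, smul_neg])
    (fun k => by rw [real_inner_smul_right, (hvB k).2.2.1, mul_zero])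
  refine ⟨T, hT, _, hBuild D T K S S' hT hS, ?_⟩
  intro x
  simp only [h0]
  rw [tsum_eq_sum (s := F) (fun k hk => by rw [hF0 k hk, smul_zero, smul_zero]), hFs x,
    Finset.smul_sum]
  exact Finset.sum_congr rfl fun k _ => by rw [smul_comm]

/-- The main theorem from the claims. -/
theorem main_of (hBasic : ClaimBasic) (hDatum : ClaimDatum) (hEnergy : ClaimEnergy)
    (hUnique : ClaimUnique)
    (hSaSym : ClaimSaSym) (hSymm : ClaimSymm) (hOde : ClaimOde) (hChain : ClaimChain)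
    (hAmp : ClaimAmp) (hSize : ClaimSize) (hRem : ClaimRem) (hBlow : ClaimBlow)
    (hCoeff : ClaimCoeff) (hBuild : ClaimBuild) (hMax : ClaimMax) : ClaimMain := by
  intro K v hv hX
  obtain ⟨c, hc, hlife⟩ := life hBasic hDatum hEnergy hSaSym hSymm hOde hChain hAmp hSize hRem
    hBlow K v hv hX
  refine ⟨c, hc, ?_⟩
  intro ν μ A D hν hA hμ hAν hD hDs hDoff hDX
  refine ⟨?_, ?_⟩
  · intro T u u' hu hu' h0 h0' t ht
    have h := hUnique D T T u u' hD hu hu' (fun x => by rw [h0, h0'])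
    rw [min_self] at h
    exact funext fun x => h t ht x
  · have hcA : 0 < c * A := mul_pos hc hA
    obtain ⟨Ts, h1, h2, h3⟩ := hMax D (fun x => A • v x) (1 / (c * A)) hD
      (exists_short hBasic hDatum hCoeff hBuild v hv A D hD hDs)
      (fun T hT u hu hu0 => by
        rw [le_div_iff₀ hcA, mul_comm]
        exact hlife ν μ A D hν hA hμ hAν hD hDs hDoff hDX T hT u hu hu0)
    refine ⟨Ts, h1, ?_, h3⟩
    rwa [le_div_iff₀ hcA, mul_comm] at h2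

end Pool.Agent.Work.MP_b0497c_an.Damp
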