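import Pool.Agent.Work.MP_b0497c_an.Damp.Stmts

set_option autoImplicit false

/-!
Signed permutations preserve integrals over the torus.
-/

namespace Pool.Agent.Work.MP_b0497c_an.Damp

open Set MeasureTheory RealInnerProductSpace Pool.Agent.Work.MP_b0497c_an
open Pool.Agent.Work.MP_b0497c_an.Dec

theorem cubeInv_actR_apply (g : Sgn) (x : E3) (i : Fin 3) :
    actR g x i = ((g.2 i : ℤ) : ℝ) * x (g.1 i) := rfl

theorem cubeInv_sgn_sq (g : Sgn) (i : Fin 3) :
    (((g.2 i : ℤˣ) : ℤ) : ℝ) * (((g.2 i : ℤˣ) : ℤ) : ℝ) = 1 := by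
  have h1 : ((g.2 i : ℤˣ) : ℤ) * ((g.2 i : ℤˣ) : ℤ) = 1 := by
    rw [← Units.val_mul, Int.units_mul_self, Units.val_one]
  exact_mod_cast h1

/-- `actR g` as a linear isometry. -/
noncomputable def actRI (g : Sgn) : E3 →ₗᵢ[ℝ] E3 where
  toFun := actR g
  map_add' := by
    intro x y
    ext i
    simp only [cubeInv_actR_apply, PiLp.add_apply]
    ring
  map_smul' := by
    intro c x
    ext i
    simp only [cubeInv_actR_apply, PiLp.smul_apply, smul_eq_mul, RingHom.id_apply]
    ring
  norm_map' := by
    intro x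
    change ‖actR g x‖ = ‖x‖
    rw [EuclideanSpace.norm_eq, EuclideanSpace.norm_eq]
    congr 1
    rw [← Equiv.sum_comp g.1 (fun i => ‖x i‖ ^ 2)]
    refine Finset.sum_congr rfl fun i _ => ?_
    rw [cubeInv_actR_apply, Real.norm_eq_abs, sq_abs, Real.norm_eq_abs, sq_abs]
    linear_combination (x (g.1 i)) ^ 2 * cubeInv_sgn_sq g i

theorem actRI_apply (g : Sgn) (x : E3) : actRI g x = actR g x := rfl

/-- The shift of the coordinate `i`. -/
noncomputable def cubeInv_s (g : Sgn) (i : Fin 3) : ℝ := if g.2 i = 1 then 0 else 2 * Real.pi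

/-- The total shift. -/
noncomputable def cubeInv_S (g : Sgn) : E3 :=
  cubeInv_s g 0 • e 0 + cubeInv_s g 1 • e 1 + cubeInv_s g 2 • e 2

theorem cubeInv_S_apply (g : Sgn) (i : Fin 3) : cubeInv_S g i = cubeInv_s g i := by
  unfold cubeInv_S
  fin_cases i <;> simp [e]

theorem cubeInv_shift {F : Type} (f : E3 → F) (hf : Periodic3 f) (g : Sgn) (x : E3) :
    f (x + cubeInv_S g) = f x := by
  have h1 : ∀ (i : Fin 3) (y : E3), f (y + cubeInv_s g i • e i) = f y := by
    intro i y
    unfold cubeInv_s
    split_ifs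
    · rw [zero_smul, add_zero]
    · exact hf i y
  unfold cubeInv_S
  rw [← add_assoc, ← add_assoc, h1, h1, h1]

theorem cubeInv_gen {F : Type} [NormedAddCommGroup F] [NormedSpace ℝ F] (f : E3 → F)
    (hf : Periodic3 f) (g : Sgn) : ∫ x in cube, f (actR g x) = ∫ x in cube, f x := by
  set A : E3 ≃ₗᵢ[ℝ] E3 := (actRI g).toLinearIsometryEquiv rfl with hA
  have hAx : ∀ x, A x = actR g x := fun x => rfl
  have hmp : MeasurePreserving (fun x : E3 => A x + cubeInv_S g) volume volume :=
    (measurePreserving_add_right volume (cubeInv_S g)).comp A.measurePreserving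
  have hme : MeasurableEmbedding (fun x : E3 => A x + cubeInv_S g) :=
    (MeasurableEquiv.addRight (cubeInv_S g)).measurableEmbedding.comp
      A.toHomeomorph.measurableEmbedding
  have h1 := hmp.setIntegral_preimage_emb hme f cube
  have h2 : (fun x : E3 => A x + cubeInv_S g) ⁻¹' cube = cube := by
    have hi : ∀ (x : E3) (i : Fin 3), (A x + cubeInv_S g) i ∈ Icc 0 (2 * Real.pi) ↔
        x (g.1 i) ∈ Icc 0 (2 * Real.pi) := by
      intro x i
      rw [PiLp.add_apply, hAx, cubeInv_actR_apply, cubeInv_S_apply]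
      unfold cubeInv_s
      rcases Int.units_eq_one_or (g.2 i) with h | h
      · rw [h, if_pos rfl]
        simp
      · rw [h, if_neg (by decide)]
        simp only [Units.val_neg, Units.val_one, Int.cast_neg, Int.cast_one, mem_Icc]
        constructor <;> rintro ⟨h1, h2⟩ <;> constructor <;> linarith
    ext x
    constructor
    · intro h i
      have := (hi x (g.1.symm i)).1 (h (g.1.symm i))
      rwa [Equiv.apply_symm_apply] at this
    · intro h i
      exact (hi x i).2 (h (g.1 i))
  rw [h2] at h1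
  rw [← h1]
  congr 1
  funext x
  rw [cubeInv_shift f hf, hAx]

theorem claimCubeInv : ClaimCubeInv := by
  intro f _ hp g
  exact cubeInv_gen f hp g

theorem cubeInv_phase (g : Sgn) (k : Fin 3 → ℤ) (x : E3) :
    phase (act g k) (actR g x) = phase k x := by
  have h : ∀ (a : Fin 3 → ℤ) (y : E3), phase a y = ∑ i, (a i : ℝ) * y i := by
    intro a y
    rw [Fin.sum_univ_three]
    rfl
  rw [h, h, ← Equiv.sum_comp g.1 (fun i => (k i : ℝ) * x i)]
  refine Finset.sum_congr rfl fun i _ => ?_
  rw [cubeInv_actR_apply, act]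
  push_cast
  linear_combination ((k (g.1 i) : ℝ) * x (g.1 i)) * cubeInv_sgn_sq g i

theorem cubeInv_smul (g : Sgn) (c : ℝ) (x : E3) : actR g (c • x) = c • actR g x := by
  rw [← actRI_apply, map_smul, actRI_apply]

theorem claimSaSym : ClaimSaSym := by
  intro f hc hp hs g k
  unfold sa sc
  rw [cubeInv_smul]
  congr 1
  have hper : Periodic3 (fun x => Real.sin (phase (act g k) x) • f x) := by
    intro i x
    have h1 := sin_phase_periodic (act g k) i x
    simp only at h1
    simp only [h1, hp i x]
  rw [← cubeInv_gen (fun x => Real.sin (phase (act g k) x) • f x) hper g]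
  have hint : IntegrableOn (fun x => Real.sin (phase k x) • f x) cube :=
    (((Real.continuous_sin.comp (continuous_phase k)).smul hc).continuousOn).integrableOn_compact
      cube_compact
  have h2 := (actRI g).toContinuousLinearMap.integral_comp_comm hint
  have h3 : actR g (∫ x in cube, Real.sin (phase k x) • f x) =
      (actRI g).toContinuousLinearMap (∫ x in cube, Real.sin (phase k x) • f x) := rfl
  rw [h3, ← h2]
  congr 1
  funext x
  rw [cubeInv_phase, hs]
  change _ = actR g (Real.sin (phase k x) • f x)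
  rw [cubeInv_smul]

end Pool.Agent.Work.MP_b0497c_an.Damp
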