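import Pool.Agent.Work.MP_b0497c_an.Dec.Fields
import Pool.Agent.Work.MP_b0497c_an.Damp.Stmts

set_option autoImplicit false

/-!
Data are finite sine sums.
-/

namespace Pool.Agent.Work.MP_b0497c_an.Damp

open Set MeasureTheory RealInnerProductSpace Pool.Agent.Work.MP_b0497c_an
open Pool.Agent.Work.MP_b0497c_an.Dec

theorem datum_actR_neg (x : E3) : actR ((1, fun _ => -1) : Sgn) x = -x := by
  ext i
  change (((-1 : ℤˣ) : ℤ) : ℝ) * x ((1 : Equiv.Perm (Fin 3)) i) = -(x i)
  simp

theorem datum_phase_neg (k : Fin 3 → ℤ) (x : E3) : phase k (-x) = -phase k x := by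
  simp only [phase, PiLp.neg_apply]
  ring

theorem claimDatum : ClaimDatum := by
  classical
  intro v hv
  obtain ⟨F, b, c, htrig⟩ := hv.trig
  have hodd : ∀ x, v (-x) = -v x := by
    intro x
    have := hv.symm (1, fun _ => -1) x
    rwa [datum_actR_neg, datum_actR_neg] at this
  have hsin : ∀ x, v x = ∑ k ∈ F, Real.sin (phase k x) • c k := by
    intro x
    have h1 := htrig x
    have h2 := htrig (-x)
    rw [hodd] at h2
    have h3 : ∑ k ∈ F, (Real.cos (phase k (-x)) • b k + Real.sin (phase k (-x)) • c k) =
        ∑ k ∈ F, (Real.cos (phase k x) • b k - Real.sin (phase k x) • c k) := by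
      refine Finset.sum_congr rfl fun k _ => ?_
      rw [datum_phase_neg, Real.cos_neg, Real.sin_neg, neg_smul, ← sub_eq_add_neg]
    rw [h3] at h2
    rw [Finset.sum_add_distrib] at h1
    rw [Finset.sum_sub_distrib] at h2
    have h4 : (2 : ℝ) • v x = (2 : ℝ) • ∑ k ∈ F, Real.sin (phase k x) • c k := by
      have h5 : v x = -(∑ k ∈ F, Real.cos (phase k x) • b k -
          ∑ k ∈ F, Real.sin (phase k x) • c k) := by
        rw [← h2, neg_neg]
      calc (2 : ℝ) • v x = v x + v x := two_smul ℝ _
        _ = (∑ k ∈ F, Real.cos (phase k x) • b k + ∑ k ∈ F, Real.sin (phase k x) • c k) +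
            -(∑ k ∈ F, Real.cos (phase k x) • b k - ∑ k ∈ F, Real.sin (phase k x) • c k) := by
            rw [← h5, ← h1]
        _ = (2 : ℝ) • ∑ k ∈ F, Real.sin (phase k x) • c k := by
            rw [two_smul]
            abel
    exact smul_right_injective E3 (two_ne_zero) h4
  have hsa : ∀ l, sa v l = ∑ k ∈ F, ((1 / 2 : ℝ) * ((if l - k = 0 then 1 else 0) -
      (if l + k = 0 then 1 else 0))) • c k := by
    intro l
    unfold sa sc
    have e1 : ∀ x, Real.sin (phase l x) • v x =
        ∑ k ∈ F, (Real.sin (phase l x) * Real.sin (phase k x)) • c k := by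
      intro x
      rw [hsin, Finset.smul_sum]
      exact Finset.sum_congr rfl fun k _ => by rw [smul_smul]
    simp_rw [e1]
    rw [integral_finsetSum]
    · rw [Finset.smul_sum]
      refine Finset.sum_congr rfl fun k _ => ?_
      rw [integral_smul_const, integral_sin_sin, smul_smul]
      congr 1
      have hpi : (2 * Real.pi) ^ 3 ≠ 0 := by positivity
      split_ifs <;> field_simp <;> ring
    · intro k _
      exact integrable_cube (((Real.continuous_sin.comp (continuous_phase l)).mul
        (Real.continuous_sin.comp (continuous_phase k))).smul continuous_const)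
  refine ⟨?_, ?_, hodd, F ∪ F.image (fun k => -k), ?_, ?_⟩
  · have e : v = fun x => ∑ k ∈ F, Real.sin (phase k x) • c k := funext hsin
    rw [e]
    refine ContDiff.sum fun k _ => ?_
    exact (Real.contDiff_sin.comp ((contDiff_phase k).of_le (by exact_mod_cast le_top))).smul
      contDiff_const
  · intro i x
    rw [hsin, hsin]
    refine Finset.sum_congr rfl fun k _ => ?_
    have := sin_phase_periodic k i x
    simp only at this
    rw [this]
  · intro l hl
    rw [Finset.mem_union, not_or, Finset.mem_image] at hl
    rw [hsa]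
    refine Finset.sum_eq_zero fun k hk => ?_
    rw [if_neg, if_neg]
    · simp
    · intro h
      exact hl.2 ⟨k, hk, by rw [← eq_neg_iff_add_eq_zero.2 h]⟩
    · intro h
      rw [sub_eq_zero] at h
      exact hl.1 (h ▸ hk)
  · intro x
    rw [hsin]
    have e1 : ∀ l ∈ F ∪ F.image (fun k => -k), Real.sin (phase l x) • sa v l =
        ∑ k ∈ F, ((1 / 2 : ℝ) * ((if l = k then Real.sin (phase l x) else 0) -
          (if l = -k then Real.sin (phase l x) else 0))) • c k := by
      intro l _
      rw [hsa, Finset.smul_sum]
      refine Finset.sum_congr rfl fun k _ => ?_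
      rw [smul_smul]
      congr 1
      have h1 : (l - k = 0) = (l = k) := propext sub_eq_zero
      have h2 : (l + k = 0) = (l = -k) := propext eq_neg_iff_add_eq_zero.symm
      simp only [h1, h2]
      split_ifs <;> ring
    rw [Finset.sum_congr rfl e1, Finset.sum_comm]
    refine Finset.sum_congr rfl fun k hk => ?_
    rw [← Finset.sum_smul]
    congr 1
    rw [← Finset.mul_sum, Finset.sum_sub_distrib, Finset.sum_ite_eq', Finset.sum_ite_eq',
      if_pos (Finset.mem_union_left _ hk),
      if_pos (Finset.mem_union_right _ (Finset.mem_image_of_mem _ hk)), phase_neg_left,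
      Real.sin_neg]
    ring

end Pool.Agent.Work.MP_b0497c_an.Damp
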