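import Mathlib
import Pool.Agent.Work.MP_b0497c_an.Bd.B21
import Pool.Agent.Work.MP_b0497c_an.Damp.Stmts

set_option autoImplicit false

/-!
E1. The energy identity for the damped Euler equations.
-/

namespace Pool.Agent.Work.MP_b0497c_an.Damp

open Set MeasureTheory RealInnerProductSpace Pool.Agent.Work.MP_b0497c_an
open Pool.Agent.Work.MP_b0497c_an.Dec

theorem Energy_contDiff {T : ℝ} {u : ℝ → E3 → E3}
    (h : ContDiffOn ℝ 1 (fun z : ℝ × E3 => u z.1 z.2) (Ico 0 T ×ˢ univ)) {t : ℝ}
    (ht : t ∈ Ico 0 T) : ContDiff ℝ 1 (u t) := by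
  rw [← contDiffOn_univ]
  have h1 : ContDiffOn ℝ 1 (fun x : E3 => (t, x)) univ := by
    rw [contDiffOn_univ]; fun_prop
  exact h.comp h1 (fun x _ => ⟨ht, mem_univ _⟩)

theorem Energy_slice {F : Type} [TopologicalSpace F] {T : ℝ} {G : ℝ → E3 → F}
    (h : ContinuousOn (fun z : ℝ × E3 => G z.1 z.2) (Ico 0 T ×ˢ univ)) {t : ℝ}
    (ht : t ∈ Ico 0 T) : Continuous (G t) := by
  have c3 : Continuous (fun x : E3 => (t, x)) := by fun_prop
  have c4 : ContinuousOn ((fun z : ℝ × E3 => G z.1 z.2) ∘ (fun x : E3 => (t, x))) univ :=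
    ContinuousOn.comp h c3.continuousOn (fun x _ => ⟨ht, mem_univ _⟩)
  exact continuousOn_univ.mp c4

theorem Energy_acc {T : ℝ} {u : ℝ → E3 → E3}
    (h : ContDiffOn ℝ 1 (fun z : ℝ × E3 => u z.1 z.2) (Ico 0 T ×ˢ univ)) :
    ContinuousOn (fun z : ℝ × E3 => acc T u z.1 z.2) (Ico 0 T ×ˢ univ) := by
  unfold acc
  exact (continuousOn_derivWithin h).add ((continuousOn_fderiv h).clm_apply h.continuousOn)

theorem Energy_acc_per {T : ℝ} {u : ℝ → E3 → E3} (hp : ∀ t ∈ Ico 0 T, Periodic3 (u t)) {t : ℝ}
    (ht : t ∈ Ico 0 T) : Periodic3 (acc T u t) := by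
  intro i x
  have h1 : derivWithin (fun s => u s (x + (2 * Real.pi) • e i)) (Ico 0 T) t =
      derivWithin (fun s => u s x) (Ico 0 T) t := by
    apply derivWithin_congr
    · intro s hs
      exact hp s hs i x
    · exact hp t ht i x
  have h2 : fderiv ℝ (u t) (x + (2 * Real.pi) • e i) = fderiv ℝ (u t) x := (hp t ht).fderiv i x
  show derivWithin (fun s => u s (x + (2 * Real.pi) • e i)) (Ico 0 T) t +
    fderiv ℝ (u t) (x + (2 * Real.pi) • e i) (u t (x + (2 * Real.pi) • e i)) = _
  rw [h1, h2, hp t ht i x]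
  rfl

theorem Energy_int {w : E3 → ℝ} {f : E3 → E3} (hw : Continuous w) (hf : Continuous f) (c : E3) :
    ∫ x in cube, w x * ⟪f x, c⟫ = ⟪∫ x in cube, w x • f x, c⟫ := by
  have hi : IntegrableOn (fun x => w x • f x) cube :=
    (hw.smul hf).continuousOn.integrableOn_compact cube_compact
  rw [real_inner_comm, ← integral_inner hi c]
  congr 1
  funext x
  rw [inner_smul_right, real_inner_comm]

theorem claimEnergy (h1 : ClaimParseval) (h2 : ClaimBasic) (h3 : ClaimIntCont)
    (h4 : ClaimIntDeriv) : ClaimEnergy := by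
  intro D T u hu
  have hacc := Energy_acc hu.contDiff_u
  have hI : ContinuousOn (fun t => ∫ x in cube, ⟪acc T u t x, u t x⟫) (Ico 0 T) :=
    h3 T (fun t x => ⟪acc T u t x, u t x⟫) (hacc.inner hu.contDiff_u.continuousOn)
  refine ⟨hI, fun t ht => ?_, fun t ht => ?_⟩
  · have hcu := Energy_contDiff hu.contDiff_u ht
    have hca : Continuous (acc T u t) := Energy_slice hacc ht
    have hb := h2 (u t) hcu (hu.periodic t ht) (hu.div_free t ht)
    have hP := h1 (acc T u t) (u t) hca hcu.continuous (Energy_acc_per hu.periodic ht)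
      (hu.periodic t ht)
    have hk : ∀ k : Fin 3 → ℤ, ⟪cc (acc T u t) k, cc (u t) k⟫ + ⟪sc (acc T u t) k, sc (u t) k⟫ =
        -(D k * (‖cc (u t) k‖ ^ 2 + ‖sc (u t) k‖ ^ 2)) := by
      intro k
      have wc : Continuous (fun x => Real.cos (phase k x)) :=
        Real.continuous_cos.comp (continuous_phase k)
      have ws : Continuous (fun x => Real.sin (phase k x)) :=
        Real.continuous_sin.comp (continuous_phase k)
      have e1 := hu.cos_eq t ht k (cc (u t) k) (hb k).1
      have e2 := hu.sin_eq t ht k (sc (u t) k) (hb k).2.1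
      have f1 := Energy_int wc hca (cc (u t) k)
      have f2 := Energy_int ws hca (sc (u t) k)
      have f3 := Energy_int wc hcu.continuous (cc (u t) k)
      have f4 := Energy_int ws hcu.continuous (sc (u t) k)
      rw [f3] at e1
      rw [f4] at e2
      have g1 : ⟪cc (acc T u t) k, cc (u t) k⟫ + D k * ⟪cc (u t) k, cc (u t) k⟫ = 0 := by
        rw [← e1]
        congr 1
        exact f1.symm
      have g2 : ⟪sc (acc T u t) k, sc (u t) k⟫ + D k * ⟪sc (u t) k, sc (u t) k⟫ = 0 := by
        rw [← e2]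
        congr 1
        exact f2.symm
      rw [real_inner_self_eq_norm_sq] at g1 g2
      linarith
    simp only [hk] at hP
    have := hP.neg
    simpa only [neg_neg] using this
  · -- the energy
    have hG : ContDiffOn ℝ 1 (fun z : ℝ × E3 => ‖u z.1 z.2‖ ^ 2) (Ico 0 T ×ˢ univ) :=
      hu.contDiff_u.norm_sq ℝ
    have hD := h4 T (fun s x => ‖u s x‖ ^ 2) hG
    have hval : ∀ s ∈ Ico 0 T, ∫ x in cube, derivWithin (fun s => ‖u s x‖ ^ 2) (Ico 0 T) s =
        2 * ∫ x in cube, ⟪acc T u s x, u s x⟫ := by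
      intro s hs
      have hcu := Energy_contDiff hu.contDiff_u hs
      have hca : Continuous (acc T u s) := Energy_slice hacc hs
      have hcf : Continuous (fun x => fderiv ℝ (u s) x (u s x)) :=
        (hcu.continuous_fderiv (by norm_num)).clm_apply hcu.continuous
      have e1 : ∀ x, derivWithin (fun s => ‖u s x‖ ^ 2) (Ico 0 T) s =
          2 * ⟪acc T u s x, u s x⟫ - 2 * ⟪fderiv ℝ (u s) x (u s x), u s x⟫ := by
        intro x
        have hd := hasDerivWithinAt_along hu.contDiff_u (I := Ico 0 T) (Subset.refl _)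
          (t := s) hs (X := fun _ => x) (X' := 0) (hasDerivWithinAt_const _ _ _)
        simp only [map_zero, add_zero] at hd
        have hd2 := (hd.norm_sq).derivWithin (uniqueDiffOn_Ico 0 T s hs)
        rw [hd2]
        unfold acc
        rw [inner_add_left, real_inner_comm]
        ring
      simp only [e1]
      have i1 : IntegrableOn (fun x => 2 * ⟪acc T u s x, u s x⟫) cube :=
        (continuous_const.mul (hca.inner hcu.continuous)).continuousOn.integrableOn_compact
          cube_compact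
      have i2 : IntegrableOn (fun x => 2 * ⟪fderiv ℝ (u s) x (u s x), u s x⟫) cube :=
        (continuous_const.mul (hcf.inner hcu.continuous)).continuousOn.integrableOn_compact
          cube_compact
      rw [integral_sub i1 i2, integral_const_mul, integral_const_mul,
        Uniq.transport_zero hcu (hu.periodic s hs) (hu.div_free s hs) hcu (hu.periodic s hs),
        mul_zero, sub_zero]
    have hsub : Icc 0 t ⊆ Ico 0 T := fun s hs => ⟨hs.1, hs.2.trans_lt ht.2⟩
    have hcont : ContinuousOn (fun s => ∫ x in cube, ‖u s x‖ ^ 2) (Icc 0 t) :=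
      fun s hs => ((hD s (hsub hs)).continuousWithinAt).mono hsub
    have hder : ∀ s ∈ Ioo 0 t, HasDerivWithinAt (fun s => ∫ x in cube, ‖u s x‖ ^ 2)
        (2 * ∫ x in cube, ⟪acc T u s x, u s x⟫) (Ioi s) s := by
      intro s hs
      have hs' : s ∈ Ico 0 T := ⟨hs.1.le, hs.2.trans ht.2⟩
      have := (hD s hs').hasDerivAt (Ico_mem_nhds hs.1 hs'.2)
      rw [hval s hs'] at this
      exact this.hasDerivWithinAt
    have hint : IntervalIntegrable (fun s => 2 * ∫ x in cube, ⟪acc T u s x, u s x⟫) volume 0 t := by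
      apply ContinuousOn.intervalIntegrable
      rw [uIcc_of_le ht.1]
      exact (continuousOn_const.mul hI).mono hsub
    exact (intervalIntegral.integral_eq_sub_of_hasDeriv_right_of_le ht.1 hcont hder hint).symm

end Pool.Agent.Work.MP_b0497c_an.Damp
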