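import Pool.Agent.Work.MP_b0497c_an.Damp.Stmts

set_option autoImplicit false

/-!
If not both members of a triad through a mode of the chain lie on the lines, then one of them is
off the lines and large.
-/

namespace Pool.Agent.Work.MP_b0497c_an.Damp

open Set MeasureTheory RealInnerProductSpace Pool.Agent.Work.MP_b0497c_an
open Pool.Agent.Work.MP_b0497c_an.Dec

theorem far_dot_act (g : Sgn) (v w : Fin 3 → ℤ) : dot (act g v) (act g w) = dot v w := by
  have h : ∀ v w : Fin 3 → ℤ, dot v w = ∑ i, v i * w i := by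
    intro v w
    rw [Fin.sum_univ_three]
    rfl
  rw [h, h, ← Equiv.sum_comp g.1 fun i => v i * w i]
  refine Finset.sum_congr rfl fun i _ => ?_
  have h1 : ((g.2 i : ℤ)) * (g.2 i : ℤ) = 1 := by
    rw [← Units.val_mul, Int.units_mul_self, Units.val_one]
  calc (g.2 i : ℤ) * v (g.1 i) * ((g.2 i : ℤ) * w (g.1 i))
      = ((g.2 i : ℤ) * (g.2 i : ℤ)) * (v (g.1 i) * w (g.1 i)) := by ring
    _ = v (g.1 i) * w (g.1 i) := by rw [h1, one_mul]

theorem far_norm_sq (k : Fin 3 → ℤ) : ‖vec k‖ ^ 2 = ((dot k k : ℤ) : ℝ) := by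
  rw [EuclideanSpace.norm_sq_eq, Fin.sum_univ_three]
  simp only [vec, dot, Real.norm_eq_abs, sq_abs, PiLp.toLp_apply, Matrix.cons_val_zero,
    Matrix.cons_val_one, Matrix.cons_val, Int.cast_add, Int.cast_mul]
  ring

/-- Bezout coefficients. -/
def far_u (n : ℕ) : Fin 3 → ℤ :=
  match n % 6 with
  | 0 => ![0, -1, 1]
  | 1 => ![5, 0, -2]
  | 2 => ![12, -7, 0]
  | 3 => ![0, -5, 3]
  | 4 => ![7, 0, -2]
  | _ => ![-1, 1, 0]

theorem far_bezout (n : ℕ) : dot (far_u n) (dir n) = 1 := by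
  have h : n % 6 < 6 := Nat.mod_lt _ (by norm_num)
  unfold far_u dir
  generalize n % 6 = m at h
  interval_cases m <;> rfl

theorem far_dir_le (n : ℕ) : dot (dir n) (dir n) ≤ 678 := by
  have h : n % 6 < 6 := Nat.mod_lt _ (by norm_num)
  unfold dir
  generalize n % 6 = m at h
  interval_cases m <;> decide

theorem far_mult_pos (n : ℕ) : 1 ≤ mult n := by
  have h : n % 6 < 6 := Nat.mod_lt _ (by norm_num)
  unfold mult
  generalize n % 6 = m at h
  interval_cases m <;> decide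

/-- The main case: one member on the lines, the other one not. -/
theorem far_main (n : ℕ) (x y : Fin 3 → ℤ) (hxy : kk n = x + y) (hx : x ∈ Lam) (hy : y ∉ Lam) :
    dot (kk n) (kk n) ≤ 678 * (678 * dot y y) := by
  obtain ⟨a, g, r, hr⟩ := hx
  set d : Fin 3 → ℤ := act g (dir a) with hd
  set e : Fin 3 → ℤ := dir n with he
  set M : ℤ := 16 ^ (n / 6) * mult n with hM
  have hM1 : 1 ≤ M := by
    have h1 : (1 : ℤ) ≤ 16 ^ (n / 6) := one_le_pow₀ (by norm_num)
    have h2 := far_mult_pos n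
    rw [hM]
    nlinarith
  have hk : ∀ i, kk n i = M * e i := fun i => by
    simp only [kk, Pi.smul_apply, smul_eq_mul, hM, he]
  have hy' : ∀ i, y i = M * e i - r * d i := fun i => by
    have h1 := congrFun hxy i
    have h2 := congrFun hr i
    rw [hk, Pi.add_apply] at h1
    rw [Pi.smul_apply, smul_eq_mul] at h2
    linarith
  have hdd : dot d d ≤ 678 := by
    rw [hd, far_dot_act]
    exact far_dir_le a
  have hee : dot e e ≤ 678 := far_dir_le n
  -- the cross product of `d` and `e`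
  have hc : 1 ≤ (d 1 * e 2 - d 2 * e 1) ^ 2 + (d 2 * e 0 - d 0 * e 2) ^ 2
      + (d 0 * e 1 - d 1 * e 0) ^ 2 := by
    by_contra hlt
    have h0 : (d 1 * e 2 - d 2 * e 1) ^ 2 + (d 2 * e 0 - d 0 * e 2) ^ 2
      + (d 0 * e 1 - d 1 * e 0) ^ 2 ≤ 0 := by omega
    have h1 : d 1 * e 2 - d 2 * e 1 = 0 := by
      have := sq_nonneg (d 1 * e 2 - d 2 * e 1)
      have := sq_nonneg (d 2 * e 0 - d 0 * e 2)
      have := sq_nonneg (d 0 * e 1 - d 1 * e 0)
      have h : (d 1 * e 2 - d 2 * e 1) ^ 2 = 0 := by linarith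
      exact pow_eq_zero_iff (two_ne_zero) |>.mp h
    have h2 : d 2 * e 0 - d 0 * e 2 = 0 := by
      have := sq_nonneg (d 1 * e 2 - d 2 * e 1)
      have := sq_nonneg (d 2 * e 0 - d 0 * e 2)
      have := sq_nonneg (d 0 * e 1 - d 1 * e 0)
      have h : (d 2 * e 0 - d 0 * e 2) ^ 2 = 0 := by linarith
      exact pow_eq_zero_iff (two_ne_zero) |>.mp h
    have h3 : d 0 * e 1 - d 1 * e 0 = 0 := by
      have := sq_nonneg (d 1 * e 2 - d 2 * e 1)
      have := sq_nonneg (d 2 * e 0 - d 0 * e 2)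
      have := sq_nonneg (d 0 * e 1 - d 1 * e 0)
      have h : (d 0 * e 1 - d 1 * e 0) ^ 2 = 0 := by linarith
      exact pow_eq_zero_iff (two_ne_zero) |>.mp h
    have hb : dot (act g (far_u a)) d = 1 := by
      rw [hd, far_dot_act, far_bezout]
    set u : Fin 3 → ℤ := act g (far_u a) with hu
    have hes : ∀ i, e i = dot u e * d i := by
      have hb' : u 0 * d 0 + u 1 * d 1 + u 2 * d 2 = 1 := hb
      intro i
      have hdot : dot u e = u 0 * e 0 + u 1 * e 1 + u 2 * e 2 := rfl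
      rw [hdot]
      fin_cases i
      · change e 0 = (u 0 * e 0 + u 1 * e 1 + u 2 * e 2) * d 0
        linear_combination (-e 0) * hb' + (-u 1) * h3 + u 2 * h2
      · change e 1 = (u 0 * e 0 + u 1 * e 1 + u 2 * e 2) * d 1
        linear_combination (-e 1) * hb' + (u 0) * h3 + (-u 2) * h1
      · change e 2 = (u 0 * e 0 + u 1 * e 1 + u 2 * e 2) * d 2
        linear_combination (-e 2) * hb' + (-u 0) * h2 + (u 1) * h1
    apply hy
    refine ⟨a, g, M * dot u e - r, ?_⟩
    funext i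
    rw [hy' i, Pi.smul_apply, smul_eq_mul, ← hd]
    linear_combination M * hes i
  have hlag : M ^ 2 * ((d 1 * e 2 - d 2 * e 1) ^ 2 + (d 2 * e 0 - d 0 * e 2) ^ 2
      + (d 0 * e 1 - d 1 * e 0) ^ 2) ≤ dot d d * dot y y := by
    have h0 := hy' 0
    have h1 := hy' 1
    have h2 := hy' 2
    have key : dot d d * dot y y = (dot d y) ^ 2 +
        M ^ 2 * ((d 1 * e 2 - d 2 * e 1) ^ 2 + (d 2 * e 0 - d 0 * e 2) ^ 2
      + (d 0 * e 1 - d 1 * e 0) ^ 2) := by
      simp only [dot, h0, h1, h2]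
      ring
    rw [key]
    have := sq_nonneg (dot d y)
    linarith
  have hyy : 0 ≤ dot y y := by
    simp only [dot]
    nlinarith [mul_self_nonneg (y 0), mul_self_nonneg (y 1), mul_self_nonneg (y 2)]
  have hkk : dot (kk n) (kk n) = M ^ 2 * dot e e := by
    simp only [dot, hk]
    ring
  have hM2 : M ^ 2 ≤ 678 * dot y y := by
    have h1 : M ^ 2 * 1 ≤ M ^ 2 * ((d 1 * e 2 - d 2 * e 1) ^ 2 + (d 2 * e 0 - d 0 * e 2) ^ 2
      + (d 0 * e 1 - d 1 * e 0) ^ 2) := mul_le_mul_of_nonneg_left hc (sq_nonneg M)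
    have h2 : dot d d * dot y y ≤ 678 * dot y y := mul_le_mul_of_nonneg_right hdd hyy
    linarith
  rw [hkk]
  have h3 : M ^ 2 * dot e e ≤ M ^ 2 * 678 := mul_le_mul_of_nonneg_left hee (sq_nonneg M)
  linarith

theorem far_main_norm (n : ℕ) (x y : Fin 3 → ℤ) (hxy : kk n = x + y) (hx : x ∈ Lam)
    (hy : y ∉ Lam) : ‖vec (kk n)‖ ≤ 2200 * ‖vec y‖ := by
  have h := far_main n x y hxy hx hy
  have h' : ‖vec (kk n)‖ ^ 2 ≤ (2200 * ‖vec y‖) ^ 2 := by
    rw [mul_pow, far_norm_sq, far_norm_sq]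
    have h1 : ((dot (kk n) (kk n) : ℤ) : ℝ) ≤ 678 * (678 * ((dot y y : ℤ) : ℝ)) := by
      exact_mod_cast h
    have h2 : (0 : ℝ) ≤ ((dot y y : ℤ) : ℝ) := by
      rw [← far_norm_sq]
      positivity
    nlinarith
  exact le_of_sq_le_sq h' (by positivity)

theorem claimFar : ClaimFar := by
  intro n p hn
  have hsum : kk n = p + (kk n - p) := by abel
  by_cases hp : p ∈ Lam
  · right
    have hq : kk n - p ∉ Lam := fun hq => hn ⟨hp, hq⟩
    exact ⟨hq, far_main_norm n p (kk n - p) hsum hp hq⟩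
  · by_cases hq : kk n - p ∈ Lam
    · left
      exact ⟨hp, far_main_norm n (kk n - p) p (by rw [add_comm]; exact hsum) hq hp⟩
    · have hv : vec (kk n) = vec p + vec (kk n - p) := by
        ext i
        fin_cases i <;> simp [vec]
      have hle : ‖vec (kk n)‖ ≤ ‖vec p‖ + ‖vec (kk n - p)‖ := by
        rw [hv]
        exact norm_add_le _ _
      have h1 := norm_nonneg (vec p)
      have h2 := norm_nonneg (vec (kk n - p))
      rcases le_total ‖vec p‖ ‖vec (kk n - p)‖ with h | h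
      · right
        exact ⟨hq, by linarith⟩
      · left
        exact ⟨hp, by linarith⟩

end Pool.Agent.Work.MP_b0497c_an.Damp
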