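import Mathlib
import Pool.Agent.Work.MP_b0497c_an.Bd.B21
import Pool.Agent.Work.MP_b0497c_an.Damp.Stmts

set_option autoImplicit false

/-!
Damped Euler equations: the equations for the sine amplitudes (item O1).
-/

namespace Pool.Agent.Work.MP_b0497c_an.Damp

open Set MeasureTheory RealInnerProductSpace Pool.Agent.Work.MP_b0497c_an
open Pool.Agent.Work.MP_b0497c_an.Dec

theorem Ode_contDiff {T : ℝ} {u : ℝ → E3 → E3}
    (h : ContDiffOn ℝ 1 (fun z : ℝ × E3 => u z.1 z.2) (Ico 0 T ×ˢ univ)) {t : ℝ}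
    (ht : t ∈ Ico 0 T) : ContDiff ℝ 1 (u t) := by
  rw [← contDiffOn_univ]
  exact h.comp (contDiff_prodMk_right t).contDiffOn (fun y _ => ⟨ht, mem_univ _⟩)

theorem Ode_slice {T : ℝ} {F : Type} [TopologicalSpace F] {G : ℝ → E3 → F}
    (h : ContinuousOn (fun z : ℝ × E3 => G z.1 z.2) (Ico 0 T ×ˢ univ)) {t : ℝ}
    (ht : t ∈ Ico 0 T) : Continuous (G t) := by
  rw [← continuousOn_univ]
  exact h.comp (Continuous.prodMk_right t).continuousOn (fun y _ => ⟨ht, mem_univ _⟩)

theorem Ode_int {F : Type} [NormedAddCommGroup F] {f : E3 → F}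
    (hf : Continuous f) : IntegrableOn f cube :=
  hf.continuousOn.integrableOn_compact cube_compact

theorem Ode_sa {f : E3 → E3} (hf : Continuous f) (k : Fin 3 → ℤ) (c : E3) :
    ⟪sa f k, c⟫ = ((2 * Real.pi) ^ 3)⁻¹ * ∫ x in cube, Real.sin (phase k x) * ⟪f x, c⟫ := by
  unfold sa sc
  rw [real_inner_smul_left]
  congr 1
  rw [real_inner_comm]
  have h1 : Integrable (fun x => Real.sin (phase k x) • f x) (volume.restrict cube) :=
    Ode_int ((Real.continuous_sin.comp (continuous_phase k)).smul hf)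
  rw [← integral_inner h1 c]
  apply integral_congr_ae
  filter_upwards with x
  rw [real_inner_smul_right, real_inner_comm]

theorem claimOde (hConv : ClaimConv) (hIC : ClaimIntCont) (hID : ClaimIntDeriv) : ClaimOde := by
  intro D T u hu hodd k c hkc
  have hcu : ContinuousOn (fun z : ℝ × E3 => u z.1 z.2) (Ico 0 T ×ˢ univ) :=
    hu.contDiff_u.continuousOn
  have hsin : Continuous fun z : ℝ × E3 => Real.sin (phase k z.2) :=
    Real.continuous_sin.comp ((continuous_phase k).comp continuous_snd)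
  have hfd := continuousOn_fderiv hu.contDiff_u
  have hdw := continuousOn_derivWithin hu.contDiff_u
  have hconv : ContinuousOn (fun z : ℝ × E3 => Real.sin (phase k z.2) *
      ⟪fderiv ℝ (u z.1) z.2 (u z.1 z.2), c⟫) (Ico 0 T ×ˢ univ) :=
    hsin.continuousOn.mul ((hfd.clm_apply hcu).inner continuousOn_const)
  have hdt : ContinuousOn (fun z : ℝ × E3 => Real.sin (phase k z.2) *
      ⟪derivWithin (fun s => u s z.2) (Ico 0 T) z.1, c⟫) (Ico 0 T ×ˢ univ) :=
    hsin.continuousOn.mul (hdw.inner continuousOn_const)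
  have hsum : ∀ t ∈ Ico 0 T, HasSum (fun p => ⟪sa (u t) p, vec k⟫ * ⟪sa (u t) (k - p), c⟫)
      (((2 * Real.pi) ^ 3)⁻¹ * ∫ x in cube, Real.sin (phase k x) *
        ⟪fderiv ℝ (u t) x (u t x), c⟫) := fun t ht =>
    hConv (u t) (Ode_contDiff hu.contDiff_u ht) (hu.periodic t ht) (hu.div_free t ht)
      (hodd t ht) k c hkc
  refine ⟨?_, fun t ht => ⟨(hsum t ht).summable, ?_⟩⟩
  · have h1 : ContinuousOn (fun t => ((2 * Real.pi) ^ 3)⁻¹ * ∫ x in cube,
        Real.sin (phase k x) * ⟪fderiv ℝ (u t) x (u t x), c⟫) (Ico 0 T) :=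
      continuousOn_const.mul (hIC T (fun t x => Real.sin (phase k x) *
        ⟪fderiv ℝ (u t) x (u t x), c⟫) hconv)
    exact h1.congr fun t ht => (hsum t ht).tsum_eq
  · rw [(hsum t ht).tsum_eq]
    have hG : ContDiffOn ℝ 1 (fun z : ℝ × E3 => Real.sin (phase k z.2) * ⟪u z.1 z.2, c⟫)
        (Ico 0 T ×ˢ univ) := by
      have h1 : ContDiff ℝ 1 fun z : ℝ × E3 => Real.sin (phase k z.2) :=
        Real.contDiff_sin.comp (((contDiff_phase k).of_le (by simp)).comp contDiff_snd)
      exact h1.contDiffOn.mul (hu.contDiff_u.inner ℝ contDiffOn_const)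
    have h1 := hID T (fun t x => Real.sin (phase k x) * ⟪u t x, c⟫) hG t ht
    have h2 : ∀ x, derivWithin (fun s => Real.sin (phase k x) * ⟪u s x, c⟫) (Ico 0 T) t =
        Real.sin (phase k x) * ⟪derivWithin (fun s => u s x) (Ico 0 T) t, c⟫ := by
      intro x
      have h3 : HasDerivWithinAt (fun s => u s x)
          (derivWithin (fun s => u s x) (Ico 0 T) t) (Ico 0 T) t := by
        have h4 := hasFDerivWithinAt_S hu.contDiff_u ht x
        have h5 : HasDerivWithinAt (fun s : ℝ => (s, x)) ((1 : ℝ), (0 : E3)) (Ico 0 T) t :=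
          (hasDerivWithinAt_id t _).prodMk (hasDerivWithinAt_const t _ x)
        have hm : MapsTo (fun s : ℝ => (s, x)) (Ico 0 T) (Ico 0 T ×ˢ (univ : Set E3)) :=
          fun s hs => ⟨hs, mem_univ _⟩
        exact (HasFDerivWithinAt.comp_hasDerivWithinAt t h4 h5
          hm).differentiableWithinAt.hasDerivWithinAt
      have h4 : HasDerivWithinAt (fun s => ⟪u s x, c⟫)
          ⟪derivWithin (fun s => u s x) (Ico 0 T) t, c⟫ (Ico 0 T) t := by
        have h5 := h3.inner ℝ (hasDerivWithinAt_const t (Ico 0 T) c)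
        simpa using h5
      exact (h4.const_mul _).derivWithin (uniqueDiffOn_Ico 0 T t ht)
    simp only [h2] at h1
    have h3 : HasDerivWithinAt (fun s => ⟪sa (u s) k, c⟫)
        (((2 * Real.pi) ^ 3)⁻¹ * ∫ x in cube, Real.sin (phase k x) *
          ⟪derivWithin (fun s => u s x) (Ico 0 T) t, c⟫) (Ico 0 T) t :=
      (h1.const_mul _).congr (fun s hs => Ode_sa (Ode_slice hcu hs) k c)
        (Ode_sa (Ode_slice hcu ht) k c)
    refine h3.congr_deriv ?_
    have h4 := hu.sin_eq t ht k c hkc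
    have h5 : ∫ x in cube, Real.sin (phase k x) *
        ⟪derivWithin (fun s => u s x) (Ico 0 T) t + fderiv ℝ (u t) x (u t x), c⟫ =
        (∫ x in cube, Real.sin (phase k x) * ⟪derivWithin (fun s => u s x) (Ico 0 T) t, c⟫) +
        ∫ x in cube, Real.sin (phase k x) * ⟪fderiv ℝ (u t) x (u t x), c⟫ := by
      rw [← integral_add]
      · apply integral_congr_ae
        filter_upwards with x
        rw [inner_add_left, mul_add]
      · exact Ode_int (Ode_slice (G := fun t x => Real.sin (phase k x) *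
          ⟪derivWithin (fun s => u s x) (Ico 0 T) t, c⟫) hdt ht)
      · exact Ode_int (Ode_slice (G := fun t x => Real.sin (phase k x) *
          ⟪fderiv ℝ (u t) x (u t x), c⟫) hconv ht)
    rw [h5] at h4
    rw [Ode_sa (Ode_slice hcu ht) k c]
    linear_combination ((2 * Real.pi) ^ 3)⁻¹ * h4

end Pool.Agent.Work.MP_b0497c_an.Damp
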