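import Mathlib
import Pool.Agent.Work.MP_b0497c_an.Damp.Stmts
import Pool.Agent.Work.MP_b0497c_an.Tri.Bessel
import Pool.Agent.Work.MP_b0497c_an.Bd.B25

set_option autoImplicit false

/-!
P1: Parseval on the torus.
-/

namespace Pool.Agent.Work.MP_b0497c_an.Damp

open Set MeasureTheory RealInnerProductSpace Pool.Agent.Work.MP_b0497c_an Filter Topology
open Pool.Agent.Work.MP_b0497c_an.Dec
open Pool.Agent.Work.MP_b0497c_an.Tri.Bes

namespace Parseval

/-- Parseval for vectors in the closed span of an orthonormal family. -/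
theorem abstract {ι E : Type*} [NormedAddCommGroup E] [InnerProductSpace ℂ E] [CompleteSpace E]
    {v : ι → E} (hv : Orthonormal ℂ v) {x y : E}
    (hx : x ∈ (Submodule.span ℂ (Set.range v)).topologicalClosure)
    (hy : y ∈ (Submodule.span ℂ (Set.range v)).topologicalClosure) :
    HasSum (fun i => inner ℂ x (v i) * inner ℂ (v i) y) (inner ℂ x y) := by
  set K := (Submodule.span ℂ (Set.range v)).topologicalClosure with hK
  have hvK : ∀ i, v i ∈ K := fun i =>
    (Submodule.le_topologicalClosure _) (Submodule.subset_span (Set.mem_range_self i))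
  let v' : ι → K := fun i => ⟨v i, hvK i⟩
  have hv' : Orthonormal ℂ v' := hv.codRestrict K hvK
  have hsp : ⊤ ≤ (Submodule.span ℂ (Set.range v')).topologicalClosure := by
    rintro z -
    have h1 : z ∈ closure ((Submodule.span ℂ (Set.range v') : Submodule ℂ K) : Set K) := by
      have h2 : (z : E) ∈ closure ((Submodule.span ℂ (Set.range v) : Submodule ℂ E) : Set E) :=
        z.2
      have h3 : ((Submodule.span ℂ (Set.range v) : Submodule ℂ E) : Set E) =
          (Subtype.val : K → E) '' ((Submodule.span ℂ (Set.range v') : Submodule ℂ K) : Set K) := by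
        have h4 : (Submodule.span ℂ (Set.range v')).map K.subtype =
            Submodule.span ℂ (Set.range v) := by
          rw [Submodule.map_span, ← Set.range_comp]
          rfl
        rw [← h4]
        rfl
      rw [h3] at h2
      exact closure_subtype.mpr h2
    exact h1
  have h := (HilbertBasis.mk hv' hsp).hasSum_inner_mul_inner (⟨x, hx⟩ : K) (⟨y, hy⟩ : K)
  rw [HilbertBasis.coe_mk hv' hsp] at h
  exact h

/-- The normalisation constant. -/
noncomputable def cst : ℝ := (Real.sqrt ((2 * Real.pi) ^ 3))⁻¹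

theorem cst_pos : 0 < cst := by
  unfold cst
  positivity

theorem cst_sq : cst ^ 2 * (2 * Real.pi) ^ 3 = 1 := by
  have hpos : 0 < (2 * Real.pi) ^ 3 := by positivity
  unfold cst
  rw [inv_pow, Real.sq_sqrt hpos.le]
  exact inv_mul_cancel₀ hpos.ne'

theorem cont_conj (k : Fin 3 → ℤ) : Continuous fun x => (starRingEnd ℂ) (ch k x) :=
  Complex.continuous_conj.comp (continuous_ch k)

theorem cont_v (k : Fin 3 → ℤ) : Continuous fun x => (cst : ℂ) * (starRingEnd ℂ) (ch k x) :=
  continuous_const.mul (cont_conj k)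

/-- The orthonormal family. -/
noncomputable def vv (k : Fin 3 → ℤ) : Lp ℂ 2 (volume.restrict cube) :=
  (memLp_two (cont_v k)).toLp _

theorem orthonormal_vv : Orthonormal ℂ vv := by
  rw [orthonormal_iff_ite]
  intro k l
  unfold vv
  rw [inner_toLp (cont_v k) (cont_v l)]
  have h1 : ∀ x, (starRingEnd ℂ) ((cst : ℂ) * (starRingEnd ℂ) (ch k x)) *
      ((cst : ℂ) * (starRingEnd ℂ) (ch l x)) = ((cst ^ 2 : ℝ) : ℂ) * ch (k - l) x := by
    intro x
    rw [← conj_ch_mul l k x, map_mul, Complex.conj_conj, Complex.conj_ofReal]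
    push_cast
    ring
  simp only [h1]
  rw [integral_const_mul, integral_ch]
  by_cases hkl : k = l
  · subst hkl
    simp only [sub_self, if_true]
    rw [← Complex.ofReal_pow, ← Complex.ofReal_mul, cst_sq, Complex.ofReal_one]
  · rw [if_neg (sub_ne_zero.2 hkl), if_neg hkl, mul_zero]

theorem inner_vv {g : E3 → ℝ} (hg : Continuous fun x => ((g x : ℝ) : ℂ)) (k : Fin 3 → ℤ) :
    inner ℂ (vv k) ((memLp_two hg).toLp _) = (cst : ℂ) * gh g k := by
  unfold vv
  rw [inner_toLp (cont_v k) hg]
  unfold gh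
  rw [← integral_const_mul]
  refine integral_congr_ae (Eventually.of_forall fun x => ?_)
  simp only [map_mul, Complex.conj_conj, Complex.conj_ofReal]
  ring

/-- `F` is a continuous function in the span of the characters. -/
def InSpan (F : E3 → ℂ) : Prop :=
  ∃ hF : Continuous F, (memLp_two hF).toLp F ∈ Submodule.span ℂ (Set.range vv)

theorem InSpan.add {F G : E3 → ℂ} (hF : InSpan F) (hG : InSpan G) :
    InSpan (fun x => F x + G x) := by
  obtain ⟨cF, hF⟩ := hF
  obtain ⟨cG, hG⟩ := hG
  refine ⟨cF.add cG, ?_⟩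
  have h : (memLp_two (cF.add cG)).toLp (fun x => F x + G x) =
      (memLp_two cF).toLp F + (memLp_two cG).toLp G :=
    MemLp.toLp_add (memLp_two cF) (memLp_two cG)
  rw [h]
  exact Submodule.add_mem _ hF hG

theorem InSpan.smul {F : E3 → ℂ} (hF : InSpan F) (z : ℂ) : InSpan (fun x => z * F x) := by
  obtain ⟨cF, hF⟩ := hF
  refine ⟨continuous_const.mul cF, ?_⟩
  have h : (memLp_two (continuous_const.mul cF)).toLp (fun x => z * F x) =
      z • (memLp_two cF).toLp F :=
    MemLp.toLp_const_smul z (memLp_two cF)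
  rw [h]
  exact Submodule.smul_mem _ _ hF

theorem InSpan.zero : InSpan (fun _ => 0) := by
  refine ⟨continuous_const, ?_⟩
  have h : (memLp_two (continuous_const : Continuous fun _ : E3 => (0 : ℂ))).toLp
      (fun _ => (0 : ℂ)) = 0 := MemLp.toLp_zero _
  rw [h]
  exact Submodule.zero_mem _

theorem InSpan.sum {ι : Type*} (S : Finset ι) {F : ι → E3 → ℂ} (h : ∀ i ∈ S, InSpan (F i)) :
    InSpan (fun x => ∑ i ∈ S, F i x) := by
  classical
  induction S using Finset.induction_on with
  | empty => simpa using InSpan.zero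
  | insert i S hi ih =>
    have h1 := (h i (Finset.mem_insert_self _ _)).add
      (ih fun j hj => h j (Finset.mem_insert_of_mem hj))
    have h2 : (fun x => ∑ i ∈ insert i S, F i x) = fun x => F i x + ∑ i ∈ S, F i x := by
      funext x
      rw [Finset.sum_insert hi]
    rw [h2]
    exact h1

theorem InSpan.ch (k : Fin 3 → ℤ) : InSpan (fun x => (starRingEnd ℂ) (ch k x)) := by
  have hc : (cst : ℂ) ≠ 0 := by
    exact_mod_cast cst_pos.ne'
  have h1 : InSpan (fun x => (cst : ℂ) * (starRingEnd ℂ) (Tri.Bes.ch k x)) :=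
    ⟨cont_v k, Submodule.subset_span (Set.mem_range_self k)⟩
  have h2 := h1.smul (cst : ℂ)⁻¹
  have h3 : (fun x => (cst : ℂ)⁻¹ * ((cst : ℂ) * (starRingEnd ℂ) (Tri.Bes.ch k x))) =
      fun x => (starRingEnd ℂ) (Tri.Bes.ch k x) := by
    funext x
    rw [← mul_assoc, inv_mul_cancel₀ hc, one_mul]
  rw [h3] at h2
  exact h2

theorem conj_ch_eq (k : Fin 3 → ℤ) (x : E3) : (starRingEnd ℂ) (ch k x) =
    (Real.cos (phase k x) : ℂ) + Complex.I * (Real.sin (phase k x) : ℂ) := by
  rw [ch_eq, map_sub, map_mul, Complex.conj_I, Complex.conj_ofReal, Complex.conj_ofReal]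
  ring

theorem InSpan.cos (k : Fin 3 → ℤ) : InSpan (fun x => (Real.cos (phase k x) : ℂ)) := by
  have h := ((InSpan.ch k).add (InSpan.ch (-k))).smul (1 / 2)
  have h2 : (fun x => (1 / 2 : ℂ) * ((starRingEnd ℂ) (Tri.Bes.ch k x) +
      (starRingEnd ℂ) (Tri.Bes.ch (-k) x))) = fun x => (Real.cos (phase k x) : ℂ) := by
    funext x
    rw [conj_ch_eq, conj_ch_eq, phase_neg_left, Real.cos_neg, Real.sin_neg, Complex.ofReal_neg]
    ring
  rw [h2] at h
  exact h

theorem InSpan.sin (k : Fin 3 → ℤ) : InSpan (fun x => (Real.sin (phase k x) : ℂ)) := by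
  have h := ((InSpan.ch k).add ((InSpan.ch (-k)).smul (-1))).smul (-Complex.I / 2)
  have h2 : (fun x => (-Complex.I / 2 : ℂ) * ((starRingEnd ℂ) (Tri.Bes.ch k x) +
      -1 * (starRingEnd ℂ) (Tri.Bes.ch (-k) x))) = fun x => (Real.sin (phase k x) : ℂ) := by
    funext x
    rw [conj_ch_eq, conj_ch_eq, phase_neg_left, Real.cos_neg, Real.sin_neg, Complex.ofReal_neg]
    have hI : Complex.I * Complex.I = -1 := Complex.I_mul_I
    linear_combination (-(Real.sin (phase k x) : ℂ)) * hI
  rw [h2] at h
  exact h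

theorem iv_phase (k : Fin 3 → ℤ) (x : E3) : ⟪Weak.iv k, x⟫ = phase k x := by
  rw [inner_eq, Weak.iv_zero, Weak.iv_one, Weak.iv_two]
  rfl

instance : IsFiniteMeasure (volume.restrict cube) :=
  ⟨by rw [Measure.restrict_apply_univ]; exact cube_compact.measure_lt_top⟩

theorem mem_closure {h : E3 → ℝ} (hh : Continuous h) (hp : Periodic3 h)
    (hc : Continuous fun x => ((h x : ℝ) : ℂ)) :
    (memLp_two hc).toLp (fun x => ((h x : ℝ) : ℂ)) ∈
      (Submodule.span ℂ (Set.range vv)).topologicalClosure := by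
  set M : ℝ := (measureUnivNNReal (volume.restrict cube) : ℝ) ^ ((2 : ENNReal).toReal)⁻¹ with hM
  have hM0 : 0 ≤ M := by positivity
  have key : (memLp_two hc).toLp (fun x => ((h x : ℝ) : ℂ)) ∈
      closure ((Submodule.span ℂ (Set.range vv) :
        Submodule ℂ (Lp ℂ 2 (volume.restrict cube))) : Set (Lp ℂ 2 (volume.restrict cube))) := by
    rw [Metric.mem_closure_iff]
    intro ε hε
    obtain ⟨S, a, b, hab⟩ := Weak.trig_approx hh hp (ε := ε / (M + 1)) (by positivity)
    have hP : InSpan (fun x => ∑ k ∈ S, ((a k : ℂ) * (Real.cos (phase k x) : ℂ) +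
        (b k : ℂ) * (Real.sin (phase k x) : ℂ))) :=
      InSpan.sum S fun k _ => ((InSpan.cos k).smul _).add ((InSpan.sin k).smul _)
    obtain ⟨cP, hP⟩ := hP
    refine ⟨_, hP, ?_⟩
    rw [dist_eq_norm, ← MemLp.toLp_sub]
    refine lt_of_le_of_lt (Lp.norm_le_of_ae_bound (C := ε / (M + 1)) (by positivity) ?_) ?_
    · filter_upwards [((memLp_two hc).sub (memLp_two cP)).coeFn_toLp] with x hx
      rw [hx, Pi.sub_apply]
      have h1 := hab x
      simp only [iv_phase] at h1
      have h2 : ((h x : ℝ) : ℂ) - ∑ k ∈ S, ((a k : ℂ) * (Real.cos (phase k x) : ℂ) +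
          (b k : ℂ) * (Real.sin (phase k x) : ℂ)) =
          ((h x - ∑ k ∈ S, (a k * Real.cos (phase k x) + b k * Real.sin (phase k x)) : ℝ) : ℂ) := by
        push_cast
        rfl
      rw [h2, Complex.norm_real]
      exact h1.le
    · rw [← hM]
      calc M * (ε / (M + 1)) = (M / (M + 1)) * ε := by ring
        _ < 1 * ε := by
          refine mul_lt_mul_of_pos_right ?_ hε
          rw [div_lt_one (by linarith)]
          linarith
        _ = ε := one_mul ε
  exact key

/-- Parseval for scalar functions. -/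
theorem scalar {f g : E3 → ℝ} (hf : Continuous f) (hg : Continuous g) (pf : Periodic3 f)
    (pg : Periodic3 g) : HasSum (fun k : Fin 3 → ℤ =>
      (∫ x in cube, Real.cos (phase k x) * f x) * (∫ x in cube, Real.cos (phase k x) * g x) +
      (∫ x in cube, Real.sin (phase k x) * f x) * (∫ x in cube, Real.sin (phase k x) * g x))
    ((2 * Real.pi) ^ 3 * ∫ x in cube, f x * g x) := by
  have cf : Continuous fun x => ((f x : ℝ) : ℂ) := Complex.continuous_ofReal.comp hf
  have cg : Continuous fun x => ((g x : ℝ) : ℂ) := Complex.continuous_ofReal.comp hg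
  have h := abstract orthonormal_vv (mem_closure hf pf cf) (mem_closure hg pg cg)
  have h1 : ∀ k, inner ℂ ((memLp_two cf).toLp (fun x => ((f x : ℝ) : ℂ))) (vv k) *
      inner ℂ (vv k) ((memLp_two cg).toLp (fun x => ((g x : ℝ) : ℂ))) =
      ((cst ^ 2 : ℝ) : ℂ) * ((starRingEnd ℂ) (gh f k) * gh g k) := by
    intro k
    rw [← inner_conj_symm, inner_vv cf, inner_vv cg, map_mul, Complex.conj_ofReal]
    push_cast
    ring
  simp only [h1] at h
  rw [inner_toLp cf cg] at h
  have h2 := (h.mul_left (((2 * Real.pi) ^ 3 : ℝ) : ℂ)).mapL Complex.reCLM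
  have h3 : ∀ k, Complex.reCLM ((((2 * Real.pi) ^ 3 : ℝ) : ℂ) *
      (((cst ^ 2 : ℝ) : ℂ) * ((starRingEnd ℂ) (gh f k) * gh g k))) =
      (∫ x in cube, Real.cos (phase k x) * f x) * (∫ x in cube, Real.cos (phase k x) * g x) +
      (∫ x in cube, Real.sin (phase k x) * f x) * (∫ x in cube, Real.sin (phase k x) * g x) := by
    intro k
    rw [← mul_assoc, ← Complex.ofReal_mul, mul_comm ((2 * Real.pi) ^ 3), cst_sq,
      Complex.ofReal_one, one_mul, gh_eq hf, gh_eq hg, Complex.reCLM_apply]
    simp [Complex.mul_re, Complex.mul_im]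
  have h4 : Complex.reCLM ((((2 * Real.pi) ^ 3 : ℝ) : ℂ) *
      ∫ x in cube, (starRingEnd ℂ) ((f x : ℝ) : ℂ) * ((g x : ℝ) : ℂ)) =
      (2 * Real.pi) ^ 3 * ∫ x in cube, f x * g x := by
    have h5 : ∫ x in cube, (starRingEnd ℂ) ((f x : ℝ) : ℂ) * ((g x : ℝ) : ℂ) =
        ((∫ x in cube, f x * g x : ℝ) : ℂ) := by
      rw [← integral_complex_ofReal]
      refine integral_congr_ae (Eventually.of_forall fun x => ?_)
      simp only [Complex.conj_ofReal, Complex.ofReal_mul]
    rw [h5, ← Complex.ofReal_mul, Complex.reCLM_apply, Complex.ofReal_re]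
  rw [h4] at h2
  simp only [h3] at h2
  exact h2

theorem apply_int {F : E3 → E3} (hF : Continuous F) (i : Fin 3) :
    (∫ x in cube, F x) i = ∫ x in cube, F x i := by
  have h := (EuclideanSpace.proj i : EuclideanSpace ℝ (Fin 3) →L[ℝ] ℝ).integral_comp_comm
    (int_cube hF)
  exact h.symm

theorem cc_apply {f : E3 → E3} (hf : Continuous f) (k : Fin 3 → ℤ) (i : Fin 3) :
    cc f k i = ∫ x in cube, Real.cos (phase k x) * f x i := by
  have hc : Continuous fun x => Real.cos (phase k x) • f x :=
    (Real.continuous_cos.comp (continuous_phase k)).smul hf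
  unfold cc
  rw [apply_int hc]
  rfl

theorem sc_apply {f : E3 → E3} (hf : Continuous f) (k : Fin 3 → ℤ) (i : Fin 3) :
    sc f k i = ∫ x in cube, Real.sin (phase k x) * f x i := by
  have hc : Continuous fun x => Real.sin (phase k x) • f x :=
    (Real.continuous_sin.comp (continuous_phase k)).smul hf
  unfold sc
  rw [apply_int hc]
  rfl

end Parseval

open Parseval

theorem claimParseval : ClaimParseval := by
  intro f g hf hg pf pg
  have hfi : ∀ i : Fin 3, Continuous fun x => f x i := fun i =>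
    (EuclideanSpace.proj i : EuclideanSpace ℝ (Fin 3) →L[ℝ] ℝ).continuous.comp hf
  have hgi : ∀ i : Fin 3, Continuous fun x => g x i := fun i =>
    (EuclideanSpace.proj i : EuclideanSpace ℝ (Fin 3) →L[ℝ] ℝ).continuous.comp hg
  have pfi : ∀ i : Fin 3, Periodic3 fun x => f x i := fun i l x => by
    have := pf l x
    simp only [this]
  have pgi : ∀ i : Fin 3, Periodic3 fun x => g x i := fun i l x => by
    have := pg l x
    simp only [this]
  have h := hasSum_sum (s := (Finset.univ : Finset (Fin 3)))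
    (fun i _ => scalar (hfi i) (hgi i) (pfi i) (pgi i))
  have h1 : ∀ k, ⟪cc f k, cc g k⟫ + ⟪sc f k, sc g k⟫ = ∑ i : Fin 3,
      ((∫ x in cube, Real.cos (phase k x) * f x i) * (∫ x in cube, Real.cos (phase k x) * g x i) +
      (∫ x in cube, Real.sin (phase k x) * f x i) *
        (∫ x in cube, Real.sin (phase k x) * g x i)) := by
    intro k
    rw [inner_eq, inner_eq, Fin.sum_univ_three]
    simp only [cc_apply hf, cc_apply hg, sc_apply hf, sc_apply hg]
    ring
  have h2 : ∑ i : Fin 3, (2 * Real.pi) ^ 3 * ∫ x in cube, f x i * g x i =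
      (2 * Real.pi) ^ 3 * ∫ x in cube, ⟪f x, g x⟫ := by
    have hfg : ∀ i : Fin 3, Continuous fun x => f x i * g x i := fun i => (hfi i).mul (hgi i)
    rw [← Finset.mul_sum, ← integral_finsetSum _ fun i _ => int_cube (hfg i)]
    congr 1
    refine integral_congr_ae (Eventually.of_forall fun x => ?_)
    simp only [inner_eq, Fin.sum_univ_three]
  rw [h2] at h
  simp only [h1]
  exact h

end Pool.Agent.Work.MP_b0497c_an.Damp
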