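import Pool.Agent.Work.MP_b0497c_an.Damp.Stmts

set_option autoImplicit false

/-!
R1. The remainder.
-/

namespace Pool.Agent.Work.MP_b0497c_an.Damp

open Set MeasureTheory RealInnerProductSpace Pool.Agent.Work.MP_b0497c_an
open Pool.Agent.Work.MP_b0497c_an.Dec

theorem rem_inner (v : E3) (k : Fin 3 → ℤ) :
    ⟪v, vec k⟫ = v 0 * k 0 + v 1 * k 1 + v 2 * k 2 := by
  rw [PiLp.inner_apply, Fin.sum_univ_three]
  simp [vec]
  ring

theorem rem_par {v : E3} {p k : Fin 3 → ℤ} (hp : p ≠ 0) (h : par p k) (hv : ⟪vec p, v⟫ = 0) :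
    ⟪v, vec k⟫ = 0 := by
  rw [real_inner_comm, rem_inner] at hv
  rw [rem_inner]
  obtain ⟨h1, h2, h3⟩ := h
  have h1' : (p 0 : ℝ) * k 1 = p 1 * k 0 := by exact_mod_cast h1
  have h2' : (p 1 : ℝ) * k 2 = p 2 * k 1 := by exact_mod_cast h2
  have h3' : (p 0 : ℝ) * k 2 = p 2 * k 0 := by exact_mod_cast h3
  have hpp : (0 : ℝ) < (p 0 : ℝ) ^ 2 + (p 1 : ℝ) ^ 2 + (p 2 : ℝ) ^ 2 := by
    by_contra hcon
    have e0 := sq_nonneg (p 0 : ℝ)
    have e1 := sq_nonneg (p 1 : ℝ)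
    have e2 := sq_nonneg (p 2 : ℝ)
    have g0 : (p 0 : ℝ) = 0 := by
      rw [← sq_eq_zero_iff]
      linarith
    have g1 : (p 1 : ℝ) = 0 := by
      rw [← sq_eq_zero_iff]
      linarith
    have g2 : (p 2 : ℝ) = 0 := by
      rw [← sq_eq_zero_iff]
      linarith
    apply hp
    funext i
    fin_cases i
    · exact_mod_cast g0
    · exact_mod_cast g1
    · exact_mod_cast g2
  have key : ((p 0 : ℝ) ^ 2 + (p 1 : ℝ) ^ 2 + (p 2 : ℝ) ^ 2) *
      (v 0 * k 0 + v 1 * k 1 + v 2 * k 2) =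
      ((p 0 : ℝ) * k 0 + p 1 * k 1 + p 2 * k 2) * (v 0 * p 0 + v 1 * p 1 + v 2 * p 2) := by
    linear_combination (v 1 * p 0 - v 0 * p 1) * h1' + (v 2 * p 1 - v 1 * p 2) * h2' +
      (v 2 * p 0 - v 0 * p 2) * h3'
  rw [hv, mul_zero] at key
  exact (mul_eq_zero.1 key).resolve_left hpp.ne'

/-- the modulus of the modes off the lines which are not much shorter than `k` -/
noncomputable def remB (S : (Fin 3 → ℤ) → E3) (κ : ℝ) (q : Fin 3 → ℤ) : ℝ :=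
  open Classical in if q ∉ Lam ∧ κ ≤ 2200 * ‖vec q‖ then ‖S q‖ else 0

theorem remB_nonneg (S : (Fin 3 → ℤ) → E3) (κ : ℝ) (q : Fin 3 → ℤ) : 0 ≤ remB S κ q := by
  unfold remB
  split_ifs
  · exact norm_nonneg _
  · exact le_refl _

theorem remB_eq {S : (Fin 3 → ℤ) → E3} {κ : ℝ} {q : Fin 3 → ℤ}
    (h : q ∉ Lam ∧ κ ≤ 2200 * ‖vec q‖) : remB S κ q = ‖S q‖ := by
  unfold remB
  exact if_pos h

theorem rem_rpow {κ y : ℝ} (hκ : 0 < κ) (h : κ ≤ 2200 * y) :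
    κ ^ (3 / 2 : ℝ) ≤ 105625 * y ^ (3 / 2 : ℝ) := by
  have hy : 0 < y := by linarith
  calc κ ^ (3 / 2 : ℝ) ≤ (2200 * y) ^ (3 / 2 : ℝ) :=
        Real.rpow_le_rpow hκ.le h (by norm_num)
    _ = (2200 : ℝ) ^ (3 / 2 : ℝ) * y ^ (3 / 2 : ℝ) := Real.mul_rpow (by norm_num) hy.le
    _ ≤ 105625 * y ^ (3 / 2 : ℝ) := by
      have h1 : (2200 : ℝ) ^ (3 / 2 : ℝ) ≤ 105625 := by
        have h2 : ((2200 : ℝ) ^ (3 / 2 : ℝ)) ^ 2 = 2200 ^ 3 := by
          rw [← Real.rpow_natCast, ← Real.rpow_mul (by norm_num)]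
          norm_num
        have h3 : (0 : ℝ) ≤ (2200 : ℝ) ^ (3 / 2 : ℝ) := by positivity
        nlinarith
      gcongr

theorem remB_sum {S : (Fin 3 → ℤ) → E3} {κ K G : ℝ} (hκ : 0 < κ) (hK : 2200 * K ≤ κ)
    (hG : ∀ F : Finset (Fin 3 → ℤ), (∀ q ∈ F, q ∉ Lam ∧ K ≤ ‖vec q‖) →
    ∑ q ∈ F, ‖vec q‖ ^ (3 / 2 : ℝ) * ‖S q‖ ^ 2 ≤ G ^ 2) (F : Finset (Fin 3 → ℤ)) :
    κ ^ (3 / 2 : ℝ) * ∑ q ∈ F, remB S κ q ^ 2 ≤ 105625 * G ^ 2 := by
  classical
  have h1 : ∑ q ∈ F, remB S κ q ^ 2 =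
      ∑ q ∈ F.filter (fun q => q ∉ Lam ∧ κ ≤ 2200 * ‖vec q‖), ‖S q‖ ^ 2 := by
    rw [Finset.sum_filter]
    refine Finset.sum_congr rfl fun q _ => ?_
    unfold remB
    split_ifs <;> simp
  have h2 := hG (F.filter (fun q => q ∉ Lam ∧ κ ≤ 2200 * ‖vec q‖)) (fun q hq => by
    rw [Finset.mem_filter] at hq
    exact ⟨hq.2.1, by linarith [hq.2.2]⟩)
  rw [h1, Finset.mul_sum]
  refine le_trans ?_ (mul_le_mul_of_nonneg_left h2 (by norm_num))
  rw [Finset.mul_sum]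
  refine Finset.sum_le_sum fun q hq => ?_
  rw [Finset.mem_filter] at hq
  have h3 := rem_rpow hκ hq.2.2
  have h4 : 0 ≤ ‖S q‖ ^ 2 := by positivity
  calc κ ^ (3 / 2 : ℝ) * ‖S q‖ ^ 2 ≤ 105625 * ‖vec q‖ ^ (3 / 2 : ℝ) * ‖S q‖ ^ 2 :=
        mul_le_mul_of_nonneg_right h3 h4
    _ = _ := by ring

theorem rem_finset {S : (Fin 3 → ℤ) → E3} {κ K E G : ℝ} (hE : 0 ≤ E) (hG0 : 0 ≤ G)
    (hκ : 0 < κ) (hK : 2200 * K ≤ κ)
    (hS : Summable fun k => ‖S k‖ ^ 2) (hSE : ∑' k, ‖S k‖ ^ 2 ≤ E ^ 2)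
    (hG : ∀ F : Finset (Fin 3 → ℤ), (∀ q ∈ F, q ∉ Lam ∧ K ≤ ‖vec q‖) →
    ∑ q ∈ F, ‖vec q‖ ^ (3 / 2 : ℝ) * ‖S q‖ ^ 2 ≤ G ^ 2) (F : Finset (Fin 3 → ℤ))
    (k : Fin 3 → ℤ) :
    κ * ∑ q ∈ F, remB S κ q * ‖S (k - q)‖ ≤ 325 * κ ^ (1 / 4 : ℝ) * E * G := by
  classical
  have h1 := Real.sum_mul_le_sqrt_mul_sqrt F (fun q => remB S κ q) (fun q => ‖S (k - q)‖)
  have h2 : ∑ q ∈ F, ‖S (k - q)‖ ^ 2 ≤ E ^ 2 := by
    have h := Finset.sum_image (s := F) (g := fun q => k - q) (f := fun q => ‖S q‖ ^ 2)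
      (fun a _ b _ hab => sub_right_injective hab)
    rw [← h]
    exact (hS.sum_le_tsum _ fun _ _ => sq_nonneg _).trans hSE
  have h3 : √(∑ q ∈ F, ‖S (k - q)‖ ^ 2) ≤ E := by
    rw [Real.sqrt_le_left hE]
    exact h2
  have h4 := remB_sum hκ hK hG F
  set Z : ℝ := ∑ q ∈ F, remB S κ q ^ 2 with hZ
  have hZ0 : 0 ≤ Z := Finset.sum_nonneg fun _ _ => sq_nonneg _
  set x : ℝ := κ ^ (1 / 4 : ℝ) with hx
  have hx0 : 0 < x := by positivity
  have hx4 : x ^ 4 = κ := by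
    rw [hx, ← Real.rpow_natCast, ← Real.rpow_mul hκ.le]
    norm_num
  have hx6 : κ ^ (3 / 2 : ℝ) = (x ^ 3) ^ 2 := by
    rw [hx, ← pow_mul, ← Real.rpow_natCast, ← Real.rpow_mul hκ.le]
    norm_num
  have h5 : x ^ 3 * √Z ≤ 325 * G := by
    refine (pow_le_pow_iff_left₀ (by positivity) (by positivity) two_ne_zero).1 ?_
    rw [mul_pow, Real.sq_sqrt hZ0, mul_pow, ← hx6]
    linarith
  calc κ * ∑ q ∈ F, remB S κ q * ‖S (k - q)‖ ≤ κ * (√Z * E) := by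
        refine mul_le_mul_of_nonneg_left (h1.trans ?_) hκ.le
        exact mul_le_mul_of_nonneg_left h3 (Real.sqrt_nonneg _)
    _ = x * E * (x ^ 3 * √Z) := by
      rw [← hx4]
      ring
    _ ≤ x * E * (325 * G) := mul_le_mul_of_nonneg_left h5 (by positivity)
    _ = _ := by ring

theorem claimRem (hC : ClaimClosed) (hF : ClaimFar) (hSz : ClaimSize) : ClaimRem := by
  intro S K E G n c hE hG0 hS0 hdiv hS hSE hG hK
  classical
  set κ : ℝ := ‖vec (kk n)‖ with hκdef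
  have hκ : 0 < κ := lt_of_lt_of_le (by positivity) (hSz n).1
  set t : (Fin 3 → ℤ) → ℝ := fun p => ⟪S p, vec (kk n)⟫ * ⟪S (kk n - p), c⟫ with ht
  have htb : ∀ p, |t p| ≤ κ * ‖c‖ * (‖S p‖ * ‖S (kk n - p)‖) := fun p => by
    rw [ht]
    simp only
    rw [abs_mul]
    calc |⟪S p, vec (kk n)⟫| * |⟪S (kk n - p), c⟫| ≤
        (‖S p‖ * ‖vec (kk n)‖) * (‖S (kk n - p)‖ * ‖c‖) :=
          mul_le_mul (abs_real_inner_le_norm _ _) (abs_real_inner_le_norm _ _) (abs_nonneg _)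
            (by positivity)
      _ = _ := by
        rw [← hκdef]
        ring
  have hS' : Summable fun p => ‖S (kk n - p)‖ ^ 2 :=
    (Equiv.subLeft (kk n)).summable_iff.2 hS
  have hts : Summable t := by
    refine Summable.of_norm_bounded (g := fun p => κ * ‖c‖ * (‖S p‖ ^ 2 + ‖S (kk n - p)‖ ^ 2))
      ((hS.add hS').mul_left _) fun p => ?_
    rw [Real.norm_eq_abs]
    refine (htb p).trans (mul_le_mul_of_nonneg_left ?_ (by positivity))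
    nlinarith [sq_nonneg (‖S p‖ - ‖S (kk n - p)‖), sq_nonneg (‖S p‖), sq_nonneg ‖S (kk n - p)‖]
  have hsub : HasSum (fun p => t p - if p ∈ cp n then t p else 0)
      (∑' p, t p - ∑ p ∈ cp n, t p) := by
    refine hts.hasSum.sub ?_
    have h : HasSum (fun p => if p ∈ cp n then t p else 0)
        (∑ p ∈ cp n, if p ∈ cp n then t p else 0) :=
      hasSum_sum_of_ne_finset_zero (fun p hp => if_neg hp)
    rwa [Finset.sum_congr rfl (fun p hp => if_pos hp)] at h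
  have hpt : ∀ p, |t p - if p ∈ cp n then t p else 0| ≤
      κ * ‖c‖ * (remB S κ p * ‖S (kk n - p)‖ + remB S κ (kk n - p) * ‖S p‖) := by
    intro p
    have hnn : 0 ≤ κ * ‖c‖ * (remB S κ p * ‖S (kk n - p)‖ + remB S κ (kk n - p) * ‖S p‖) := by
      have := remB_nonneg S κ p
      have := remB_nonneg S κ (kk n - p)
      positivity
    by_cases hp : p ∈ cp n
    · rw [if_pos hp, sub_self, abs_zero]
      exact hnn
    rw [if_neg hp, sub_zero]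
    by_cases hL : p ∈ Lam ∧ kk n - p ∈ Lam
    · have hpar := (hC n p hL.1 hL.2).resolve_left hp
      have h0 : t p = 0 := by
        rw [ht]
        simp only
        by_cases hp0 : p = 0
        · rw [hp0, hS0, inner_zero_left, zero_mul]
        · rw [rem_par hp0 hpar (hdiv p), zero_mul]
      rw [h0, abs_zero]
      exact hnn
    · refine (htb p).trans (mul_le_mul_of_nonneg_left ?_ (by positivity))
      rcases hF n p hL with h | h
      · rw [remB_eq (S := S) h]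
        have := remB_nonneg S κ (kk n - p)
        have h3 : 0 ≤ remB S κ (kk n - p) * ‖S p‖ := by positivity
        linarith
      · rw [remB_eq (S := S) h]
        have := remB_nonneg S κ p
        have h3 : 0 ≤ remB S κ p * ‖S (kk n - p)‖ := by positivity
        linarith
  have hfin : ∀ F : Finset (Fin 3 → ℤ), |∑ p ∈ F, (t p - if p ∈ cp n then t p else 0)| ≤
      1000 * κ ^ (1 / 4 : ℝ) * E * G * ‖c‖ := by
    intro F
    refine (Finset.abs_sum_le_sum_abs _ _).trans ((Finset.sum_le_sum fun p _ => hpt p).trans ?_)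
    rw [← Finset.mul_sum, Finset.sum_add_distrib]
    have h1 := rem_finset hE hG0 hκ hK hS hSE hG F (kk n)
    have h2 := rem_finset hE hG0 hκ hK hS hSE hG (F.image fun p => kk n - p) (kk n)
    rw [Finset.sum_image (fun a _ b _ hab => sub_right_injective hab)] at h2
    simp only [sub_sub_cancel] at h2
    have h3 : 0 ≤ κ ^ (1 / 4 : ℝ) * E * G * ‖c‖ := by positivity
    calc κ * ‖c‖ * (∑ p ∈ F, remB S κ p * ‖S (kk n - p)‖ +
        ∑ p ∈ F, remB S κ (kk n - p) * ‖S p‖) =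
        ‖c‖ * (κ * ∑ p ∈ F, remB S κ p * ‖S (kk n - p)‖ +
          κ * ∑ p ∈ F, remB S κ (kk n - p) * ‖S p‖) := by ring
      _ ≤ ‖c‖ * (325 * κ ^ (1 / 4 : ℝ) * E * G + 325 * κ ^ (1 / 4 : ℝ) * E * G) :=
        mul_le_mul_of_nonneg_left (add_le_add h1 h2) (norm_nonneg _)
      _ ≤ 1000 * κ ^ (1 / 4 : ℝ) * E * G * ‖c‖ := by linarith
  have hlim : Filter.Tendsto (fun F : Finset (Fin 3 → ℤ) =>
      |∑ p ∈ F, (t p - if p ∈ cp n then t p else 0)|) Filter.atTop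
      (nhds |∑' p, t p - ∑ p ∈ cp n, t p|) := Filter.Tendsto.abs hsub
  exact le_of_tendsto hlim (Filter.Eventually.of_forall hfin)

end Pool.Agent.Work.MP_b0497c_an.Damp
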