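import Mathlib
import Pool.Agent.Work.MP_b0497c_an.Damp.Stmts

set_option autoImplicit false

/-!
B2. A Riccati inequality.
-/

namespace Pool.Agent.Work.MP_b0497c_an.Damp

open Set MeasureTheory

theorem Ric_lt {t₁ T α β : ℝ} {J : ℝ → ℝ} (hα : 0 < α) (hβ : 0 < β)
    (hJ : ContinuousOn J (Ico t₁ T))
    (h : ∀ t ∈ Ico t₁ T, α + β * ∫ s in t₁..t, J s ^ 2 ≤ J t) {t : ℝ} (ht : t ∈ Ico t₁ T) :
    β * (t - t₁) < 1 / α := by
  set F : ℝ → ℝ := fun s => α + β * ∫ r in t₁..s, J r ^ 2 with hF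
  have hsub : Icc t₁ t ⊆ Ico t₁ T := fun s hs => ⟨hs.1, hs.2.trans_lt ht.2⟩
  have hJ2 : ContinuousOn (fun s => J s ^ 2) (Icc t₁ t) := (hJ.mono hsub).pow 2
  have hpos : ∀ s ∈ Icc t₁ t, α ≤ F s := by
    intro s hs
    have : 0 ≤ ∫ r in t₁..s, J r ^ 2 :=
      intervalIntegral.integral_nonneg hs.1 fun r _ => sq_nonneg _
    have := mul_nonneg hβ.le this
    simp only [hF]
    linarith
  have hFc : ContinuousOn F (Icc t₁ t) := by
    have hi : IntegrableOn (fun s => J s ^ 2) (uIcc t₁ t) := by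
      rw [uIcc_of_le ht.1]
      exact hJ2.integrableOn_compact isCompact_Icc
    have := intervalIntegral.continuousOn_primitive_interval hi
    rw [uIcc_of_le ht.1] at this
    exact continuousOn_const.add (continuousOn_const.mul this)
  have hFd : ∀ s ∈ Ioo t₁ t, HasDerivAt F (β * J s ^ 2) s := by
    intro s hs
    have hcs : ContinuousOn (fun s => J s ^ 2) (Ioo t₁ t) := hJ2.mono Ioo_subset_Icc_self
    have h1 : IntervalIntegrable (fun s => J s ^ 2) volume t₁ s := by
      apply ContinuousOn.intervalIntegrable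
      rw [uIcc_of_le hs.1.le]
      exact hJ2.mono (Icc_subset_Icc_right hs.2.le)
    have h2 := intervalIntegral.integral_hasDerivAt_right h1
      (hcs.stronglyMeasurableAtFilter isOpen_Ioo s hs)
      (hcs.continuousAt (isOpen_Ioo.mem_nhds hs))
    exact (h2.const_mul β).const_add α
  have hG : MonotoneOn (fun s => -(F s)⁻¹ - β * s) (Icc t₁ t) := by
    have hne : ∀ s ∈ Icc t₁ t, F s ≠ 0 := fun s hs => (hα.trans_le (hpos s hs)).ne'
    have hd : ∀ s ∈ Ioo t₁ t, HasDerivAt (fun s => -(F s)⁻¹ - β * s)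
        (β * J s ^ 2 / F s ^ 2 - β) s := by
      intro s hs
      have h1 := ((hFd s hs).inv (hne s (Ioo_subset_Icc_self hs))).neg
      have h2 := (hasDerivAt_id s).const_mul β
      have h3 := h1.sub h2
      refine h3.congr_deriv ?_
      ring
    apply monotoneOn_of_deriv_nonneg (convex_Icc t₁ t)
    · exact ((hFc.inv₀ hne).neg).sub (continuousOn_const.mul continuousOn_id)
    · rw [interior_Icc]
      exact fun s hs => (hd s hs).differentiableAt.differentiableWithinAt
    · rw [interior_Icc]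
      intro s hs
      rw [(hd s hs).deriv]
      have hs' := Ioo_subset_Icc_self hs
      have h1 : F s ≤ J s := h s (hsub hs')
      have h2 := hα.trans_le (hpos s hs')
      have h3 : F s ^ 2 ≤ J s ^ 2 := by nlinarith
      have h4 : 1 ≤ J s ^ 2 / F s ^ 2 := by
        rw [le_div_iff₀ (by positivity)]
        linarith
      have h5 : β * J s ^ 2 / F s ^ 2 = β * (J s ^ 2 / F s ^ 2) := by ring
      rw [h5]
      nlinarith
  have h1 := hG (left_mem_Icc.2 ht.1) (right_mem_Icc.2 ht.1) ht.1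
  have h2 : F t₁ = α := by simp [hF]
  have h3 : 0 < (F t)⁻¹ := inv_pos.2 (hα.trans_le (hpos t (right_mem_Icc.2 ht.1)))
  simp only [h2] at h1
  rw [one_div]
  linarith

theorem claimRic : ClaimRic := by
  intro t₁ T α β J hα hβ ht hJ h
  by_contra hc
  have hc' : t₁ + 1 / (α * β) < T := not_le.1 hc
  have hpos : 0 < 1 / (α * β) := by positivity
  have h1 := Ric_lt hα hβ hJ h (t := t₁ + 1 / (α * β)) ⟨by linarith, hc'⟩
  have h2 : β * (t₁ + 1 / (α * β) - t₁) = 1 / α := by field_simp; ring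
  linarith

end Pool.Agent.Work.MP_b0497c_an.Damp
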