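import Mathlib
import Pool.Agent.Work.MP_b0497c_an.Bd.B21
import Pool.Agent.Work.MP_b0497c_an.Damp.Stmts

set_option autoImplicit false

/-!
Damped Euler equations: integrals over the cube depending on time.
-/

namespace Pool.Agent.Work.MP_b0497c_an.Damp

open Set MeasureTheory RealInnerProductSpace Filter Topology Pool.Agent.Work.MP_b0497c_an
open Pool.Agent.Work.MP_b0497c_an.Dec

theorem Time_fin : IsFiniteMeasure (volume.restrict cube) :=
  ⟨by rw [Measure.restrict_apply_univ]; exact cube_compact.measure_lt_top⟩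

/-- Slices of a continuous function are continuous. -/
theorem Time_slice {T : ℝ} {G : ℝ → E3 → ℝ}
    (hG : ContinuousOn (fun z : ℝ × E3 => G z.1 z.2) (Ico 0 T ×ˢ univ)) {t : ℝ}
    (ht : t ∈ Ico 0 T) : Continuous (G t) := by
  have c3 : Continuous (fun x : E3 => (t, x)) := by fun_prop
  have c4 : ContinuousOn ((fun z : ℝ × E3 => G z.1 z.2) ∘ (fun x : E3 => (t, x))) univ :=
    ContinuousOn.comp hG c3.continuousOn (fun x _ => ⟨ht, mem_univ _⟩)
  exact continuousOn_univ.mp c4

theorem Time_slice' {T : ℝ} {G : ℝ → E3 → ℝ}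
    (hG : ContinuousOn (fun z : ℝ × E3 => G z.1 z.2) (Ico 0 T ×ˢ univ)) (x : E3) :
    ContinuousOn (fun t => G t x) (Ico 0 T) := by
  have c3 : Continuous (fun t : ℝ => (t, x)) := by fun_prop
  exact ContinuousOn.comp hG c3.continuousOn (fun t ht => ⟨ht, mem_univ _⟩)

/-- Local bounds on the cube. -/
theorem Time_bound {T : ℝ} {G : ℝ → E3 → ℝ}
    (hG : ContinuousOn (fun z : ℝ × E3 => G z.1 z.2) (Ico 0 T ×ˢ univ)) {b : ℝ} (hb : b < T) :
    ∃ C : ℝ, ∀ t ∈ Icc 0 b, ∀ x ∈ cube, ‖G t x‖ ≤ C := by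
  have hcomp : IsCompact (Icc 0 b ×ˢ cube) := isCompact_Icc.prod cube_compact
  have hsub : Icc 0 b ×ˢ cube ⊆ Ico 0 T ×ˢ (univ : Set E3) :=
    prod_mono (fun t ht => ⟨ht.1, ht.2.trans_lt hb⟩) (subset_univ _)
  obtain ⟨C, hC⟩ := hcomp.exists_bound_of_continuousOn (hG.mono hsub)
  exact ⟨C, fun t ht x hx => hC (t, x) ⟨ht, hx⟩⟩

theorem claimIntCont : ClaimIntCont := by
  intro T G hG t ht
  have := Time_fin
  obtain ⟨b, hb1, hb2⟩ := exists_between ht.2
  obtain ⟨C, hC⟩ := Time_bound hG hb2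
  have hev : ∀ᶠ s in 𝓝[Ico 0 T] t, s ∈ Ico 0 T ∧ s ∈ Icc 0 b := by
    filter_upwards [self_mem_nhdsWithin, mem_nhdsWithin_of_mem_nhds (Iio_mem_nhds hb1)]
      with s hs hs'
    exact ⟨hs, hs.1, le_of_lt hs'⟩
  apply continuousWithinAt_of_dominated (bound := fun _ => C)
  · filter_upwards [hev] with s hs
    exact (Time_slice hG hs.1).aestronglyMeasurable
  · filter_upwards [hev] with s hs
    filter_upwards [ae_restrict_mem cube_compact.measurableSet] with x hx
    exact hC s hs.2 x hx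
  · exact integrable_const _
  · exact ae_of_all _ fun x => Time_slice' hG x t ht

theorem Time_deriv_int {T : ℝ} {G : ℝ → E3 → ℝ}
    (hG : ContDiffOn ℝ 1 (fun z : ℝ × E3 => G z.1 z.2) (Ico 0 T ×ˢ univ)) {t : ℝ}
    (ht : t ∈ Ioo 0 T) (x : E3) :
    HasDerivAt (fun s => G s x) (derivWithin (fun s => G s x) (Ico 0 T) t) t := by
  have h1 := hasDerivWithinAt_along hG (I := Ico 0 T) (Subset.refl _)
    (t := t) ⟨ht.1.le, ht.2⟩ (X := fun _ => x) (X' := 0) (hasDerivWithinAt_const _ _ _)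
  simp only [map_zero, add_zero] at h1
  exact h1.hasDerivAt (Ico_mem_nhds ht.1 ht.2)

/-- The derivative at interior times. -/
theorem Time_hasDerivAt {T : ℝ} {G : ℝ → E3 → ℝ}
    (hG : ContDiffOn ℝ 1 (fun z : ℝ × E3 => G z.1 z.2) (Ico 0 T ×ˢ univ)) {t : ℝ}
    (ht : t ∈ Ioo 0 T) : HasDerivAt (fun s => ∫ x in cube, G s x)
      (∫ x in cube, derivWithin (fun s => G s x) (Ico 0 T) t) t := by
  have := Time_fin
  have hD := continuousOn_derivWithin hG
  obtain ⟨b, hb1, hb2⟩ := exists_between ht.2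
  obtain ⟨C, hC⟩ := Time_bound (G := fun t x => derivWithin (fun s => G s x) (Ico 0 T) t) hD hb2
  have hsub : ∀ s ∈ Ioo 0 b, s ∈ Ico 0 T := fun s hs => ⟨hs.1.le, hs.2.trans hb2⟩
  have key := hasDerivAt_integral_of_dominated_loc_of_deriv_le (μ := volume.restrict cube)
    (F := fun s x => G s x) (x₀ := t) (s := Ioo 0 b)
    (bound := fun _ => C)
    (F' := fun s x => derivWithin (fun s => G s x) (Ico 0 T) s)
    (Ioo_mem_nhds ht.1 hb1)
    (by filter_upwards [Ioo_mem_nhds ht.1 hb1] with s hs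
        exact (Time_slice hG.continuousOn (hsub s hs)).aestronglyMeasurable)
    ((Time_slice hG.continuousOn ⟨ht.1.le, ht.2⟩).continuousOn.integrableOn_compact cube_compact)
    ((Time_slice (G := fun t x => derivWithin (fun s => G s x) (Ico 0 T) t) hD
      ⟨ht.1.le, ht.2⟩).aestronglyMeasurable)
    (by filter_upwards [ae_restrict_mem cube_compact.measurableSet] with x hx
        intro s hs
        exact hC s ⟨hs.1.le, hs.2.le⟩ x hx)
    (integrable_const _)
    (ae_of_all _ fun x s hs => Time_deriv_int hG ⟨hs.1, hs.2.trans hb2⟩ x)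
  exact key.2

theorem claimIntDeriv : ClaimIntDeriv := by
  intro T G hG t ht
  rcases ht.1.eq_or_lt with h0 | hpos
  · subst h0
    have hT : 0 < T := ht.2
    have hc := claimIntCont T G hG.continuousOn
    have hd := claimIntCont T (fun t x => derivWithin (fun s => G s x) (Ico 0 T) t)
      (continuousOn_derivWithin hG)
    have key := hasDerivWithinAt_Ici_of_tendsto_deriv (s := Ioo 0 T) (a := 0)
      (f := fun s => ∫ x in cube, G s x)
      (e := ∫ x in cube, derivWithin (fun s => G s x) (Ico 0 T) 0)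
      (fun s hs => (Time_hasDerivAt hG hs).differentiableAt.differentiableWithinAt)
      ((hc 0 ht).mono Ioo_subset_Ico_self)
      (Ioo_mem_nhdsGT hT)
      (by
        have h1 : Tendsto (fun t => ∫ x in cube, derivWithin (fun s => G s x) (Ico 0 T) t)
            (𝓝[>] 0) (𝓝 (∫ x in cube, derivWithin (fun s => G s x) (Ico 0 T) 0)) := by
          have h2 := (hd 0 ht).mono (Ioo_subset_Ico_self (a := (0 : ℝ)) (b := T))
          have h3 : 𝓝[>] (0 : ℝ) = 𝓝[Ioo 0 T] 0 := (nhdsWithin_Ioo_eq_nhdsGT hT).symm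
          rw [h3]
          exact h2
        refine h1.congr' ?_
        filter_upwards [Ioo_mem_nhdsGT hT] with s hs
        exact (Time_hasDerivAt hG hs).deriv.symm)
    exact key.mono (fun s hs => hs.1)
  · exact (Time_hasDerivAt hG ⟨hpos, ht.2⟩).hasDerivWithinAt

end Pool.Agent.Work.MP_b0497c_an.Damp
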