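import Mathlib
import Pool.Agent.Work.MP_b0497c_an.Bd.B21
import Pool.Agent.Work.MP_b0497c_an.Damp.Stmts

set_option autoImplicit false

/-! Uniqueness of `C¹` solutions of the damped Euler equations (adapted from `Tri/Unique.lean`). -/

namespace Pool.Agent.Work.MP_b0497c_an.Damp

open Set MeasureTheory RealInnerProductSpace Pool.Agent.Work.MP_b0497c_an Filter Topology
open Pool.Agent.Work.MP_b0497c_an.Dec
open scoped ContDiff

namespace UniqueAux

/-! ### Slices -/

variable {D : (Fin 3 → ℤ) → ℝ} {T : ℝ} {u : ℝ → E3 → E3}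

theorem slice (h : IsDampedSolution D T u) {t : ℝ} (ht : t ∈ Ico 0 T) : ContDiff ℝ 1 (u t) := by
  have c3 : ContDiff ℝ 1 (fun x : E3 => (t, x)) := contDiff_const.prodMk contDiff_id
  have h2 := h.contDiff_u.comp (c3.contDiffOn (s := univ)) (fun x _ => ⟨ht, mem_univ _⟩)
  exact contDiffOn_univ.1 h2

theorem trace_sub {f g : E3 → E3} (hf : ContDiff ℝ 1 f) (hg : ContDiff ℝ 1 g)
    (df : ∀ x, LinearMap.trace ℝ E3 (fderiv ℝ f x) = 0)
    (dg : ∀ x, LinearMap.trace ℝ E3 (fderiv ℝ g x) = 0) (x : E3) :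
    LinearMap.trace ℝ E3 (fderiv ℝ (fun x => f x - g x) x) = 0 := by
  have h1 : fderiv ℝ (fun x => f x - g x) x = fderiv ℝ f x - fderiv ℝ g x :=
    fderiv_fun_sub (hf.differentiable (by norm_num) x) (hg.differentiable (by norm_num) x)
  rw [h1]
  have h2 : LinearMap.trace ℝ E3 ((fderiv ℝ f x - fderiv ℝ g x : E3 →L[ℝ] E3) : E3 →ₗ[ℝ] E3)
      = LinearMap.trace ℝ E3 (fderiv ℝ f x : E3 →ₗ[ℝ] E3)
        - LinearMap.trace ℝ E3 (fderiv ℝ g x : E3 →ₗ[ℝ] E3) := by
    rw [← map_sub]; rfl
  rw [h2, df x, dg x, sub_zero]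

theorem per_sub {f g : E3 → E3} (hf : Periodic3 f) (hg : Periodic3 g) :
    Periodic3 (fun x => f x - g x) := by
  intro i x
  show f _ - g _ = _
  rw [hf i x, hg i x]

theorem int3 {f1 f2 f3 : E3 → ℝ} (c1 : Continuous f1) (c2 : Continuous f2)
    (c3 : Continuous f3) : ∫ x in cube, (f1 x - f2 x - f3 x) =
      (∫ x in cube, f1 x) - (∫ x in cube, f2 x) - ∫ x in cube, f3 x := by
  have i1 := c1.continuousOn.integrableOn_compact (μ := volume) cube_compact
  have i2 := c2.continuousOn.integrableOn_compact (μ := volume) cube_compact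
  have i3 := c3.continuousOn.integrableOn_compact (μ := volume) cube_compact
  have i12 := (c1.sub c2).continuousOn.integrableOn_compact (μ := volume) cube_compact
  have h1 : ∫ x in cube, (f1 x - f2 x - f3 x) =
      (∫ x in cube, (f1 x - f2 x)) - ∫ x in cube, f3 x := integral_sub i12 i3
  rw [h1, integral_sub i1 i2]

theorem inner_int {φ : E3 → ℝ} {f : E3 → E3} (hφ : Continuous φ) (hf : Continuous f) (c : E3) :
    ⟪∫ x in cube, φ x • f x, c⟫ = ∫ x in cube, φ x * ⟪f x, c⟫ := by
  have hi : Integrable (fun x => φ x • f x) (volume.restrict cube) :=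
    (hφ.smul hf).continuousOn.integrableOn_compact cube_compact
  have h1 := integral_inner (𝕜 := ℝ) hi c
  rw [real_inner_comm, ← h1]
  refine integral_congr_ae (ae_of_all _ fun x => ?_)
  show ⟪c, φ x • f x⟫ = φ x * ⟪f x, c⟫
  rw [real_inner_smul_right, real_inner_comm]

theorem int_smul_sub {φ : E3 → ℝ} {f g : E3 → E3} (hφ : Continuous φ) (hf : Continuous f)
    (hg : Continuous g) :
    ∫ x in cube, φ x • (f x - g x) = (∫ x in cube, φ x • f x) - ∫ x in cube, φ x • g x := by
  have hi : Integrable (fun x => φ x • f x) (volume.restrict cube) :=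
    (hφ.smul hf).continuousOn.integrableOn_compact cube_compact
  have hj : Integrable (fun x => φ x • g x) (volume.restrict cube) :=
    (hφ.smul hg).continuousOn.integrableOn_compact cube_compact
  rw [← integral_sub hi hj]
  refine integral_congr_ae (ae_of_all _ fun x => ?_)
  exact smul_sub _ _ _

/-! ### Bounds for a solution -/

theorem cont_u (h : IsDampedSolution D T u) {β : ℝ} (hβ : β < T) :
    ContinuousOn (fun z : ℝ × E3 => u z.1 z.2) (Icc 0 β ×ˢ univ) :=
  h.contDiff_u.continuousOn.mono (prod_mono (Uniq.sub_Ico hβ) (Subset.refl _))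

theorem bound_u (h : IsDampedSolution D T u) {β : ℝ} (hβ : β < T) :
    ∃ C : ℝ, 0 ≤ C ∧ ∀ t ∈ Icc 0 β, ∀ x, ‖u t x‖ ≤ C :=
  exists_bound (cont_u h hβ) fun _ ht => (h.periodic _ (Uniq.sub_Ico hβ ht))

theorem bound_M (h : IsDampedSolution D T u) {β : ℝ} (hβ : β < T) :
    ∃ C : ℝ, 0 ≤ C ∧ ∀ t ∈ Icc 0 β, ∀ x, ‖fderiv ℝ (u t) x‖ ≤ C :=
  exists_bound (G := fun t x => fderiv ℝ (u t) x)
    ((continuousOn_fderiv h.contDiff_u).mono (prod_mono (Uniq.sub_Ico hβ) (Subset.refl _)))
    fun t ht => (h.periodic t (Uniq.sub_Ico hβ ht)).fderiv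

theorem per_dt (h : IsDampedSolution D T u) {t : ℝ} (ht : t ∈ Ico 0 T) :
    Periodic3 (fun x => derivWithin (fun s => u s x) (Ico 0 T) t) := by
  intro i x
  apply derivWithin_congr
  · intro s hs
    exact (h.periodic s hs) i x
  · exact (h.periodic t ht) i x

theorem cont_dt (h : IsDampedSolution D T u) {t : ℝ} (ht : t ∈ Ico 0 T) :
    Continuous (fun x => derivWithin (fun s => u s x) (Ico 0 T) t) := by
  have c3 : Continuous (fun x : E3 => (t, x)) := by fun_prop
  have c4 : ContinuousOn ((fun z : ℝ × E3 => derivWithin (fun s => u s z.2) (Ico 0 T) z.1)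
      ∘ (fun x : E3 => (t, x))) univ :=
    ContinuousOn.comp (continuousOn_derivWithin h.contDiff_u) c3.continuousOn
      (fun x _ => ⟨ht, mem_univ _⟩)
  exact continuousOn_univ.mp c4

theorem bound_dt (h : IsDampedSolution D T u) {β : ℝ} (hβ : β < T) :
    ∃ C : ℝ, 0 ≤ C ∧ ∀ t ∈ Icc 0 β, ∀ x, ‖derivWithin (fun s => u s x) (Ico 0 T) t‖ ≤ C :=
  exists_bound (G := fun t x => derivWithin (fun s => u s x) (Ico 0 T) t)
    ((continuousOn_derivWithin h.contDiff_u).mono (prod_mono (Uniq.sub_Ico hβ) (Subset.refl _)))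
    fun t ht => per_dt h (Uniq.sub_Ico hβ ht)

theorem hasDerivAt_time (h : IsDampedSolution D T u) {t : ℝ} (ht : t ∈ Ioo 0 T) (x : E3) :
    HasDerivAt (fun s => u s x) (derivWithin (fun s => u s x) (Ico 0 T) t) t := by
  have h1 := hasDerivWithinAt_along h.contDiff_u (I := Ico 0 T) (Subset.refl _)
    (t := t) ⟨ht.1.le, ht.2⟩ (X := fun _ => x) (X' := 0) (hasDerivWithinAt_const _ _ _)
  simp only [map_zero, add_zero] at h1
  exact h1.hasDerivAt (Ico_mem_nhds ht.1 ht.2)

variable {T₁ T₂ : ℝ} {v : ℝ → E3 → E3}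

/-- The derivative of the energy of the difference. -/
theorem energy_deriv (hu : IsDampedSolution D T₁ u) (hv : IsDampedSolution D T₂ v)
    {t : ℝ} (h0 : 0 < t) (h1 : t < T₁) (h2 : t < T₂) :
    HasDerivAt (fun s => ∫ x in cube, ‖u s x - v s x‖ ^ 2)
      (2 * (∫ x in cube, ⟪acc T₁ u t x - acc T₂ v t x, u t x - v t x⟫)
        - 2 * ∫ x in cube, ⟪fderiv ℝ (v t) x (u t x - v t x), u t x - v t x⟫) t := by
  obtain ⟨β, hβt, hβ⟩ : ∃ β, t < β ∧ β < min T₁ T₂ := exists_between (lt_min h1 h2)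
  have hβ1 : β < T₁ := hβ.trans_le (min_le_left _ _)
  have hβ2 : β < T₂ := hβ.trans_le (min_le_right _ _)
  obtain ⟨U, hU0, hU⟩ := bound_u hu hβ1
  obtain ⟨U', hU'0, hU'⟩ := bound_u hv hβ2
  obtain ⟨D1, hD0, hD⟩ := bound_dt hu hβ1
  obtain ⟨D2, hD'0, hD'⟩ := bound_dt hv hβ2
  have hfin : IsFiniteMeasure (volume.restrict cube) :=
    ⟨by rw [Measure.restrict_apply_univ]; exact cube_compact.measure_lt_top⟩
  have cu : ∀ s ∈ Icc 0 β, Continuous (u s) := fun s hs =>
    (slice hu (Uniq.sub_Ico hβ1 hs)).continuous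
  have cv : ∀ s ∈ Icc 0 β, Continuous (v s) := fun s hs =>
    (slice hv (Uniq.sub_Ico hβ2 hs)).continuous
  have htI : t ∈ Ioo 0 β := ⟨h0, hβt⟩
  have htc : t ∈ Icc 0 β := Ioo_subset_Icc_self htI
  have ht1 : t ∈ Ico 0 T₁ := ⟨h0.le, h1⟩
  have ht2 : t ∈ Ico 0 T₂ := ⟨h0.le, h2⟩
  have key := hasDerivAt_integral_of_dominated_loc_of_deriv_le (μ := volume.restrict cube)
    (F := fun s x => ‖u s x - v s x‖ ^ 2) (x₀ := t) (s := Ioo 0 β)
    (bound := fun _ => 2 * ((U + U') * (D1 + D2)))
    (F' := fun s x => 2 * ⟪u s x - v s x, derivWithin (fun r => u r x) (Ico 0 T₁) s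
      - derivWithin (fun r => v r x) (Ico 0 T₂) s⟫)
    (Ioo_mem_nhds htI.1 htI.2)
    (by filter_upwards [Ioo_mem_nhds htI.1 htI.2] with s hs
        have hs' := Ioo_subset_Icc_self hs
        exact (((cu s hs').sub (cv s hs')).norm.pow 2).aestronglyMeasurable)
    ((((cu t htc).sub (cv t htc)).norm.pow 2).continuousOn.integrableOn_compact cube_compact)
    ((continuous_const.mul (((cu t htc).sub (cv t htc)).inner
      ((cont_dt hu ht1).sub (cont_dt hv ht2)))).aestronglyMeasurable)
    (ae_of_all _ fun x s hs => by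
      rw [norm_mul, Real.norm_eq_abs, Real.norm_eq_abs, abs_of_pos (show (0:ℝ) < 2 by norm_num)]
      have hs' := Ioo_subset_Icc_self hs
      gcongr
      refine (abs_real_inner_le_norm _ _).trans (mul_le_mul ?_ ?_ (norm_nonneg _) (by positivity))
      · exact (norm_sub_le _ _).trans (add_le_add (hU s hs' x) (hU' s hs' x))
      · exact (norm_sub_le _ _).trans (add_le_add (hD s hs' x) (hD' s hs' x)))
    (integrable_const _)
    (ae_of_all _ fun x s hs => ((hasDerivAt_time hu ⟨hs.1, hs.2.trans hβ1⟩ x).sub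
      (hasDerivAt_time hv ⟨hs.1, hs.2.trans hβ2⟩ x)).norm_sq)
  have hk := key.2
  refine hk.congr_deriv ?_
  have mu := slice hu ht1
  have mv := slice hv ht2
  have mw : ContDiff ℝ 1 (fun x => u t x - v t x) := mu.sub mv
  have pw : Periodic3 (fun x => u t x - v t x) := per_sub (hu.periodic t ht1) (hv.periodic t ht2)
  have e3 := Uniq.transport_zero mu (hu.periodic t ht1) (hu.div_free t ht1) mw pw
  have cdu := cont_dt hu ht1
  have cdv := cont_dt hv ht2
  have cMu : Continuous (fun x => fderiv ℝ (u t) x (u t x)) :=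
    (mu.continuous_fderiv (by norm_num)).clm_apply mu.continuous
  have cMv : Continuous (fun x => fderiv ℝ (v t) x (v t x)) :=
    (mv.continuous_fderiv (by norm_num)).clm_apply mv.continuous
  have cMw : Continuous (fun x => fderiv ℝ (fun x => u t x - v t x) x (u t x)) :=
    (mw.continuous_fderiv (by norm_num)).clm_apply mu.continuous
  have cMvw : Continuous (fun x => fderiv ℝ (v t) x (u t x - v t x)) :=
    (mv.continuous_fderiv (by norm_num)).clm_apply mw.continuous
  have cw : Continuous (fun x => u t x - v t x) := mw.continuous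
  have e4 : ∀ x, 2 * ⟪u t x - v t x, derivWithin (fun r => u r x) (Ico 0 T₁) t
      - derivWithin (fun r => v r x) (Ico 0 T₂) t⟫
      = 2 * (⟪acc T₁ u t x - acc T₂ v t x, u t x - v t x⟫
          - ⟪fderiv ℝ (fun x => u t x - v t x) x (u t x), u t x - v t x⟫
          - ⟪fderiv ℝ (v t) x (u t x - v t x), u t x - v t x⟫) := by
    intro x
    have hfd : fderiv ℝ (fun x => u t x - v t x) x = fderiv ℝ (u t) x - fderiv ℝ (v t) x :=
      fderiv_fun_sub (mu.differentiable (by norm_num) x) (mv.differentiable (by norm_num) x)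
    rw [hfd]
    unfold acc
    simp only [inner_add_left, inner_sub_right, inner_sub_left, map_sub,
      sub_apply]
    rw [real_inner_comm (u t x) (derivWithin (fun r => u r x) (Ico 0 T₁) t),
      real_inner_comm (v t x) (derivWithin (fun r => u r x) (Ico 0 T₁) t),
      real_inner_comm (u t x) (derivWithin (fun r => v r x) (Ico 0 T₂) t),
      real_inner_comm (v t x) (derivWithin (fun r => v r x) (Ico 0 T₂) t)]
    ring
  simp only [e4]
  have cA : Continuous (fun x => acc T₁ u t x - acc T₂ v t x) := (cdu.add cMu).sub (cdv.add cMv)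
  have c1 : Continuous (fun x => ⟪acc T₁ u t x - acc T₂ v t x, u t x - v t x⟫) := cA.inner cw
  have c3 : Continuous (fun x => ⟪fderiv ℝ (fun x => u t x - v t x) x (u t x),
      u t x - v t x⟫) := cMw.inner cw
  have c4 : Continuous (fun x => ⟪fderiv ℝ (v t) x (u t x - v t x), u t x - v t x⟫) :=
    cMvw.inner cw
  rw [integral_const_mul, int3 c1 c3 c4, e3]
  ring

/-- Coefficients of the acceleration. -/
theorem cos_coeff (h : IsDampedSolution D T u) {t : ℝ} (ht : t ∈ Ico 0 T) (k : Fin 3 → ℤ) (c : E3)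
    (hc : ⟪vec k, c⟫ = 0) : ⟪cc (acc T u t) k, c⟫ = - D k * ⟪cc (u t) k, c⟫ := by
  have h1 := h.cos_eq t ht k c hc
  have mu := slice h ht
  have ca : Continuous (acc T u t) :=
    (cont_dt h ht).add ((mu.continuous_fderiv (by norm_num)).clm_apply mu.continuous)
  have cph : Continuous (fun x => Real.cos (phase k x)) :=
    Real.continuous_cos.comp (continuous_phase k)
  have g1 : ⟪cc (acc T u t) k, c⟫ = ∫ x in cube, Real.cos (phase k x) * ⟪acc T u t x, c⟫ := by
    exact inner_int cph ca c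
  have g2 : ⟪cc (u t) k, c⟫ = ∫ x in cube, Real.cos (phase k x) * ⟪u t x, c⟫ := by
    exact inner_int cph mu.continuous c
  rw [g1, g2]
  have g3 : (∫ x in cube, Real.cos (phase k x) * ⟪acc T u t x, c⟫)
      = ∫ x in cube, Real.cos (phase k x) *
      ⟪derivWithin (fun s => u s x) (Ico 0 T) t + fderiv ℝ (u t) x (u t x), c⟫ := rfl
  rw [g3]
  linarith

theorem sin_coeff (h : IsDampedSolution D T u) {t : ℝ} (ht : t ∈ Ico 0 T) (k : Fin 3 → ℤ) (c : E3)
    (hc : ⟪vec k, c⟫ = 0) : ⟪sc (acc T u t) k, c⟫ = - D k * ⟪sc (u t) k, c⟫ := by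
  have h1 := h.sin_eq t ht k c hc
  have mu := slice h ht
  have ca : Continuous (acc T u t) :=
    (cont_dt h ht).add ((mu.continuous_fderiv (by norm_num)).clm_apply mu.continuous)
  have cph : Continuous (fun x => Real.sin (phase k x)) :=
    Real.continuous_sin.comp (continuous_phase k)
  have g1 : ⟪sc (acc T u t) k, c⟫ = ∫ x in cube, Real.sin (phase k x) * ⟪acc T u t x, c⟫ := by
    exact inner_int cph ca c
  have g2 : ⟪sc (u t) k, c⟫ = ∫ x in cube, Real.sin (phase k x) * ⟪u t x, c⟫ := by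
    exact inner_int cph mu.continuous c
  rw [g1, g2]
  have g3 : (∫ x in cube, Real.sin (phase k x) * ⟪acc T u t x, c⟫)
      = ∫ x in cube, Real.sin (phase k x) *
      ⟪derivWithin (fun s => u s x) (Ico 0 T) t + fderiv ℝ (u t) x (u t x), c⟫ := rfl
  rw [g3]
  linarith

theorem cc_sub {f g : E3 → E3} (hf : Continuous f) (hg : Continuous g) (k : Fin 3 → ℤ) :
    cc (fun x => f x - g x) k = cc f k - cc g k := by
  have cph : Continuous (fun x => Real.cos (phase k x)) :=
    Real.continuous_cos.comp (continuous_phase k)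
  exact int_smul_sub cph hf hg

theorem sc_sub {f g : E3 → E3} (hf : Continuous f) (hg : Continuous g) (k : Fin 3 → ℤ) :
    sc (fun x => f x - g x) k = sc f k - sc g k := by
  have cph : Continuous (fun x => Real.sin (phase k x)) :=
    Real.continuous_sin.comp (continuous_phase k)
  exact int_smul_sub cph hf hg

/-- The dissipation has the right sign. -/
theorem dissip (hP : ClaimParseval) (hB : ClaimBasic) (hD : ∀ k, 0 ≤ D k)
    (hu : IsDampedSolution D T₁ u) (hv : IsDampedSolution D T₂ v)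
    {t : ℝ} (ht1 : t ∈ Ico 0 T₁) (ht2 : t ∈ Ico 0 T₂) :
    ∫ x in cube, ⟪acc T₁ u t x - acc T₂ v t x, u t x - v t x⟫ ≤ 0 := by
  have mu := slice hu ht1
  have mv := slice hv ht2
  have mw : ContDiff ℝ 1 (fun x => u t x - v t x) := mu.sub mv
  have pw : Periodic3 (fun x => u t x - v t x) := per_sub (hu.periodic t ht1) (hv.periodic t ht2)
  have dw := trace_sub mu mv (hu.div_free t ht1) (hv.div_free t ht2)
  have cau : Continuous (acc T₁ u t) :=
    (cont_dt hu ht1).add ((mu.continuous_fderiv (by norm_num)).clm_apply mu.continuous)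
  have cav : Continuous (acc T₂ v t) :=
    (cont_dt hv ht2).add ((mv.continuous_fderiv (by norm_num)).clm_apply mv.continuous)
  have pau : Periodic3 (acc T₁ u t) := by
    intro i x
    have a1 := per_dt hu ht1 i x
    have a2 := (hu.periodic t ht1).fderiv i x
    have a3 := hu.periodic t ht1 i x
    simp only at a1
    unfold acc
    rw [a1, a2, a3]
  have pav : Periodic3 (acc T₂ v t) := by
    intro i x
    have a1 := per_dt hv ht2 i x
    have a2 := (hv.periodic t ht2).fderiv i x
    have a3 := hv.periodic t ht2 i x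
    simp only at a1
    unfold acc
    rw [a1, a2, a3]
  have hs := hP (fun x => acc T₁ u t x - acc T₂ v t x) (fun x => u t x - v t x)
    (cau.sub cav) mw.continuous (per_sub pau pav) pw
  have hle : (2 * Real.pi) ^ 3 *
      ∫ x in cube, ⟪acc T₁ u t x - acc T₂ v t x, u t x - v t x⟫ ≤ 0 := by
    refine hasSum_le (fun k => ?_) hs hasSum_zero
    obtain ⟨b1, b2, -⟩ := hB (fun x => u t x - v t x) mw pw dw k
    have e1 : ⟪cc (fun x => acc T₁ u t x - acc T₂ v t x) k, cc (fun x => u t x - v t x) k⟫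
        = - D k * ⟪cc (fun x => u t x - v t x) k, cc (fun x => u t x - v t x) k⟫ := by
      rw [cc_sub cau cav, inner_sub_left, cos_coeff hu ht1 k _ b1, cos_coeff hv ht2 k _ b1,
        ← mul_sub, ← inner_sub_left, ← cc_sub mu.continuous mv.continuous]
    have e2 : ⟪sc (fun x => acc T₁ u t x - acc T₂ v t x) k, sc (fun x => u t x - v t x) k⟫
        = - D k * ⟪sc (fun x => u t x - v t x) k, sc (fun x => u t x - v t x) k⟫ := by
      rw [sc_sub cau cav, inner_sub_left, sin_coeff hu ht1 k _ b2, sin_coeff hv ht2 k _ b2,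
        ← mul_sub, ← inner_sub_left, ← sc_sub mu.continuous mv.continuous]
    rw [e1, e2]
    have h1 := mul_nonneg (hD k) (real_inner_self_nonneg (x := cc (fun x => u t x - v t x) k))
    have h2 := mul_nonneg (hD k) (real_inner_self_nonneg (x := sc (fun x => u t x - v t x) k))
    linarith
  have hpos : 0 < (2 * Real.pi) ^ 3 := by positivity
  by_contra hc
  push Not at hc
  exact absurd hle (not_le.2 (mul_pos hpos hc))

end UniqueAux

open UniqueAux in
theorem claimUnique (hP : ClaimParseval) (hB : ClaimBasic) : ClaimUnique := by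
  intro D T₁ T₂ u v hD hu hv h0 t htm
  have ht : 0 ≤ t := htm.1
  have h1 : t < T₁ := htm.2.trans_le (min_le_left _ _)
  have h2 : t < T₂ := htm.2.trans_le (min_le_right _ _)
  rcases ht.eq_or_lt with rfl | hpos
  · exact h0
  have htc : t ∈ Icc 0 t := ⟨ht, le_rfl⟩
  have ht1 : t ∈ Ico 0 T₁ := ⟨ht, h1⟩
  have ht2 : t ∈ Ico 0 T₂ := ⟨ht, h2⟩
  obtain ⟨K, hK0, hK⟩ := bound_M hv h2
  obtain ⟨U, hU0, hU⟩ := bound_u hu h1
  obtain ⟨U', hU'0, hU'⟩ := bound_u hv h2
  have hfin : IsFiniteMeasure (volume.restrict cube) :=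
    ⟨by rw [Measure.restrict_apply_univ]; exact cube_compact.measure_lt_top⟩
  set E : ℝ → ℝ := fun s => ∫ x in cube, ‖u s x - v s x‖ ^ 2 with hE
  have cu : ∀ s ∈ Icc 0 t, Continuous (u s) := fun s hs =>
    (slice hu (Uniq.sub_Ico h1 hs)).continuous
  have cv : ∀ s ∈ Icc 0 t, Continuous (v s) := fun s hs =>
    (slice hv (Uniq.sub_Ico h2 hs)).continuous
  have hcont : ContinuousOn E (Icc 0 t) := by
    apply continuousOn_of_dominated (bound := fun _ => (U + U') ^ 2)
    · intro s hs
      exact (((cu s hs).sub (cv s hs)).norm.pow 2).aestronglyMeasurable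
    · intro s hs
      refine ae_of_all _ fun x => ?_
      rw [norm_pow, norm_norm]
      exact pow_le_pow_left₀ (norm_nonneg _)
        ((norm_sub_le _ _).trans (add_le_add (hU s hs x) (hU' s hs x))) 2
    · exact integrable_const _
    · refine ae_of_all _ fun x => ?_
      have c3 : ContinuousOn (fun s : ℝ => (s, x)) (Icc 0 t) := by fun_prop
      have c4 : ContinuousOn ((fun z : ℝ × E3 => u z.1 z.2) ∘ (fun s : ℝ => (s, x))) (Icc 0 t) :=
        ContinuousOn.comp (cont_u hu h1) c3 (fun s hs => ⟨hs, mem_univ _⟩)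
      have c5 : ContinuousOn ((fun z : ℝ × E3 => v z.1 z.2) ∘ (fun s : ℝ => (s, x))) (Icc 0 t) :=
        ContinuousOn.comp (cont_u hv h2) c3 (fun s hs => ⟨hs, mem_univ _⟩)
      exact ((c4.sub c5).norm).pow 2
  have hder : ∀ s ∈ Ioo 0 t, ∃ d, HasDerivAt E d s ∧ d ≤ 2 * K * E s := by
    intro s hs
    have hs1 : s < T₁ := hs.2.trans h1
    have hs2 : s < T₂ := hs.2.trans h2
    refine ⟨_, energy_deriv hu hv hs.1 hs1 hs2, ?_⟩
    have hsc : s ∈ Icc 0 t := Ioo_subset_Icc_self hs
    have mu := slice hu (Uniq.sub_Ico h1 hsc)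
    have mv := slice hv (Uniq.sub_Ico h2 hsc)
    have cw : Continuous (fun x => u s x - v s x) := mu.continuous.sub mv.continuous
    have cMvw : Continuous (fun x => fderiv ℝ (v s) x (u s x - v s x)) :=
      (mv.continuous_fderiv (by norm_num)).clm_apply cw
    have hneg : -(∫ x in cube, ⟪fderiv ℝ (v s) x (u s x - v s x), u s x - v s x⟫) ≤ K * E s := by
      rw [← integral_neg, hE]
      simp only
      rw [← integral_const_mul]
      have c1 : Continuous (fun x => -⟪fderiv ℝ (v s) x (u s x - v s x), u s x - v s x⟫) :=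
        (cMvw.inner cw).neg
      have c2 : Continuous (fun x => K * ‖u s x - v s x‖ ^ 2) :=
        continuous_const.mul (cw.norm.pow 2)
      apply integral_mono (c1.continuousOn.integrableOn_compact cube_compact)
        (c2.continuousOn.integrableOn_compact cube_compact)
      intro x
      show -⟪fderiv ℝ (v s) x (u s x - v s x), u s x - v s x⟫ ≤ K * ‖u s x - v s x‖ ^ 2
      have h5 := abs_real_inner_le_norm (fderiv ℝ (v s) x (u s x - v s x)) (u s x - v s x)
      have h6 := (fderiv ℝ (v s) x).le_of_opNorm_le (hK s hsc x) (u s x - v s x)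
      have h7 := mul_le_mul_of_nonneg_right h6 (norm_nonneg (u s x - v s x))
      have h8 := neg_abs_le ⟪fderiv ℝ (v s) x (u s x - v s x), u s x - v s x⟫
      have e5 : K * ‖u s x - v s x‖ ^ 2 = K * ‖u s x - v s x‖ * ‖u s x - v s x‖ := by ring
      rw [e5]
      linarith
    have hdis := dissip hP hB hD hu hv (Uniq.sub_Ico h1 hsc) (Uniq.sub_Ico h2 hsc)
    linarith
  set g : ℝ → ℝ := fun s => E s * Real.exp (-(2 * K * s)) with hg
  have hanti : AntitoneOn g (Icc 0 t) := by
    apply antitoneOn_of_deriv_nonpos (convex_Icc 0 t)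
    · exact hcont.mul (by fun_prop)
    · rw [interior_Icc]
      intro s hs
      obtain ⟨d, hd, -⟩ := hder s hs
      exact (hd.differentiableAt.mul (by fun_prop)).differentiableWithinAt
    · rw [interior_Icc]
      intro s hs
      obtain ⟨d, hd, hle⟩ := hder s hs
      have h5 : HasDerivAt (fun s : ℝ => Real.exp (-(2 * K * s)))
          (Real.exp (-(2 * K * s)) * (-(2 * K * 1))) s :=
        (((hasDerivAt_id s).const_mul (2 * K)).neg).exp
      have h8 : HasDerivAt g (d * Real.exp (-(2 * K * s))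
          + E s * (Real.exp (-(2 * K * s)) * (-(2 * K * 1)))) s := hd.mul h5
      rw [h8.deriv]
      have h6 := Real.exp_pos (-(2 * K * s))
      nlinarith
  have h7 := hanti ⟨le_rfl, ht⟩ htc ht
  have hE0 : E 0 = 0 := by simp [hE, h0]
  simp only [hg, hE0, zero_mul] at h7
  have h8 : E t ≤ 0 := by
    by_contra hc
    push Not at hc
    exact absurd h7 (not_le.mpr (mul_pos hc (Real.exp_pos _)))
  intro x
  have h9 := Uniq.eq_zero_of_integral (f := fun x => u t x - v t x) ((cu t htc).sub (cv t htc))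
    (per_sub (hu.periodic t ht1) (hv.periodic t ht2)) h8 x
  exact sub_eq_zero.mp h9

end Pool.Agent.Work.MP_b0497c_an.Damp
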