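import Pool.Agent.Work.MP_b0497c_an.Damp.Stmts

set_option autoImplicit false

/-!
W1: the weights and the quadratic form.
-/

namespace Pool.Agent.Work.MP_b0497c_an.Damp

open Set MeasureTheory RealInnerProductSpace Pool.Agent.Work.MP_b0497c_an
open Pool.Agent.Work.MP_b0497c_an.Dec

theorem Weights_qb (j r : ℕ) : Q (6 * j + r) = 16 ^ (j + r / 6) * qb r := by
  have h1 : (6 * j + r) / 6 = j + r / 6 := by omega
  have h2 : (6 * j + r) % 6 = r % 6 := by omega
  unfold Q qb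
  rw [h1, h2]

theorem Weights_wb (j r : ℕ) : ww (6 * j + r) = (49 / 100) ^ (j + r / 6) * wb r := by
  have h1 : (6 * j + r) / 6 = j + r / 6 := by omega
  have h2 : (6 * j + r) % 6 = r % 6 := by omega
  unfold ww wb
  rw [h1, h2]

theorem Weights_amgm {a b c x y : ℝ} (ha : 0 ≤ a) (hb : 0 ≤ b)
    (h : c ^ 2 ≤ 4 * (39 / 80) ^ 2 * (a * b)) :
    c * (|x| * |y|) ≤ 39 / 80 * (a * x ^ 2 + b * y ^ 2) := by
  rw [← abs_mul]
  apply le_of_sq_le_sq _ (by positivity)
  rw [mul_pow, sq_abs, mul_pow]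
  have h1 : c ^ 2 * (x * y) ^ 2 ≤ 4 * (39 / 80) ^ 2 * (a * b) * (x * y) ^ 2 :=
    mul_le_mul_of_nonneg_right h (sq_nonneg _)
  nlinarith [sq_nonneg (a * x ^ 2 - b * y ^ 2)]

theorem claimW : ClaimW := by
  intro n x y
  obtain ⟨j, r, hr, rfl⟩ : ∃ j r, r < 6 ∧ n = 6 * j + r :=
    ⟨n / 6, n % 6, Nat.mod_lt _ (by norm_num), by omega⟩
  have hP : (0 : ℝ) < 16 ^ j := by positivity
  have hW : (0 : ℝ) < (49 / 100) ^ j := by positivity
  rw [show 6 * j + r + 1 = 6 * j + (r + 1) by ring, show 6 * j + r + 2 = 6 * j + (r + 2) by ring]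
  rw [Weights_qb, Weights_qb, Weights_wb, Weights_wb, Weights_wb]
  set p : ℝ := 16 ^ j with hp
  set w : ℝ := (49 / 100) ^ j with hw
  have hpw : 0 ≤ (p * w) ^ 2 := sq_nonneg _
  interval_cases r
  all_goals
    norm_num [qb, wb, pow_add, ← hp, ← hw]
    apply Weights_amgm (by positivity) (by positivity)
    nlinarith

theorem Weights_pos (n : ℕ) : 0 < Q n ∧ 0 < ww n := by
  obtain ⟨j, r, hr, rfl⟩ : ∃ j r, r < 6 ∧ n = 6 * j + r :=
    ⟨n / 6, n % 6, Nat.mod_lt _ (by norm_num), by omega⟩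
  rw [Weights_qb, Weights_wb]
  have h1 : 0 < qb r := by
    interval_cases r <;> norm_num [qb]
  have h2 : 0 < wb r := by
    interval_cases r <;> norm_num [wb]
  constructor <;> positivity

theorem claimQuad : ClaimQuad := by
  intro N M x hNM
  have key : ∀ M, N ≤ M → ww (N + 1) * Q N * x N ^ 2 +
      1 / 40 * ∑ n ∈ Finset.Ioc N M, Q n * ww (n + 1) * x n ^ 2
      - Q M * ww (M + 1) * x M ^ 2 - 39 / 80 * (Q (M + 1) * ww (M + 2) * x (M + 1) ^ 2) ≤
      ∑ n ∈ Finset.Ioc N M, ww n * (Q (n - 1) * x (n - 1) ^ 2 - Q n * (x n * x (n + 1))) := by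
    intro M hM
    induction M, hM using Nat.le_induction with
    | base =>
      simp only [Finset.Ioc_self, Finset.sum_empty, mul_zero, add_zero]
      have h1 := (Weights_pos (N + 1)).1
      have h2 := (Weights_pos (N + 2)).2
      have : 0 ≤ Q (N + 1) * ww (N + 2) * x (N + 1) ^ 2 := by positivity
      linarith
    | succ M hM ih =>
      rw [Finset.sum_Ioc_succ_top hM, Finset.sum_Ioc_succ_top hM]
      have h1 := claimW (M + 1) (x (M + 1)) (x (M + 1 + 1))
      have h2 : ww (M + 1) * Q (M + 1) * (x (M + 1) * x (M + 1 + 1)) ≤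
          ww (M + 1) * Q (M + 1) * |x (M + 1) * x (M + 1 + 1)| := by
        apply mul_le_mul_of_nonneg_left (le_abs_self _)
        exact mul_nonneg (Weights_pos _).2.le (Weights_pos _).1.le
      have e1 : M + 1 - 1 = M := rfl
      rw [e1]
      have e2 : M + 1 + 2 = M + 1 + 1 + 1 := rfl
      have e3 : M + 2 = M + 1 + 1 := rfl
      rw [e2] at h1 ⊢
      rw [e3] at ih
      linarith
  have h := key M hNM.le
  have h1 := (Weights_pos (M + 1)).1
  have h2 := (Weights_pos (M + 2)).2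
  have h3 : 0 ≤ Q (M + 1) * ww (M + 2) * x (M + 1) ^ 2 := by positivity
  linarith

end Pool.Agent.Work.MP_b0497c_an.Damp
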