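import Mathlib
import Pool.Agent.Work.MP_b0497c_an.Damp.Stmts
import Pool.Agent.Work.MP_b0497c_an.Dec.Sums

set_option autoImplicit false

/-! The invariant polynomial (item Y1). -/

namespace Pool.Agent.Work.MP_b0497c_an.Damp

open Set MeasureTheory RealInnerProductSpace Pool.Agent.Work.MP_b0497c_an
open Pool.Agent.Work.MP_b0497c_an.Dec

/-- The squared norm of the cross product, as a polynomial. -/
noncomputable def polyQ (d : Fin 3 → ℤ) : MvPolynomial (Fin 3) ℝ :=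
  (∑ i, MvPolynomial.X i ^ 2) * MvPolynomial.C (∑ i, ((d i : ℤ) : ℝ) ^ 2)
    - (∑ i, MvPolynomial.X i * MvPolynomial.C ((d i : ℤ) : ℝ)) ^ 2

/-- The squared norm of the cross product. -/
def polyq {R : Type} [CommRing R] (y d : Fin 3 → R) : R :=
  (∑ i, y i ^ 2) * (∑ i, d i ^ 2) - (∑ i, y i * d i) ^ 2

theorem poly_eval (d : Fin 3 → ℤ) (y : Fin 3 → ℝ) :
    MvPolynomial.eval y (polyQ d) = polyq y (fun i => (d i : ℝ)) := by
  simp [polyQ, polyq]

theorem poly_hom (d : Fin 3 → ℤ) : (polyQ d).IsHomogeneous 2 := by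
  unfold polyQ
  have h1 : (∑ i : Fin 3, (MvPolynomial.X i : MvPolynomial (Fin 3) ℝ) ^ 2).IsHomogeneous 2 := by
    refine MvPolynomial.IsHomogeneous.sum _ _ _ fun i _ => ?_
    simpa using (MvPolynomial.isHomogeneous_X ℝ i).pow 2
  have h2 : (∑ i : Fin 3, (MvPolynomial.X i : MvPolynomial (Fin 3) ℝ)
      * MvPolynomial.C ((d i : ℤ) : ℝ)).IsHomogeneous 1 := by
    refine MvPolynomial.IsHomogeneous.sum _ _ _ fun i _ => ?_
    simpa using (MvPolynomial.isHomogeneous_X ℝ i).mul (MvPolynomial.isHomogeneous_C (Fin 3) ((d i : ℤ) : ℝ))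
  have h3 := h1.mul (MvPolynomial.isHomogeneous_C (Fin 3) (∑ i, ((d i : ℤ) : ℝ) ^ 2))
  have h4 := h2.pow 2
  simp only [add_zero, one_mul] at h3 h4
  exact h3.sub h4

theorem polyq_cross {R : Type} [CommRing R] (y d : Fin 3 → R) :
    polyq y d = (y 1 * d 2 - y 2 * d 1) ^ 2 + (y 2 * d 0 - y 0 * d 2) ^ 2
      + (y 0 * d 1 - y 1 * d 0) ^ 2 := by
  simp only [polyq, Fin.sum_univ_three]; ring

theorem polyq_nonneg (y d : Fin 3 → ℝ) : 0 ≤ polyq y d := by
  rw [polyq_cross]; positivity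

theorem polyq_cast (y d : Fin 3 → ℤ) :
    polyq (fun i => (y i : ℝ)) (fun i => (d i : ℝ)) = ((polyq y d : ℤ) : ℝ) := by
  simp [polyq]

theorem poly_unit_sq (u : ℤˣ) : ((u : ℤ) : ℝ) * ((u : ℤ) : ℝ) = 1 := by
  have : ((u * u : ℤˣ) : ℤ) = 1 := by rw [Int.units_mul_self]; rfl
  have h := congrArg (fun z : ℤ => (z : ℝ)) this
  push_cast at h
  exact h

theorem polyq_act (g : Sgn) (y d : Fin 3 → ℝ) :
    polyq (fun i => ((g.2 i : ℤ) : ℝ) * y (g.1 i)) (fun i => ((g.2 i : ℤ) : ℝ) * d (g.1 i))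
      = polyq y d := by
  have h : ∀ a b : Fin 3 → ℝ, ∑ i, (((g.2 i : ℤ) : ℝ) * a (g.1 i)) * (((g.2 i : ℤ) : ℝ) * b (g.1 i))
      = ∑ i, a i * b i := by
    intro a b
    rw [← Equiv.sum_comp g.1 (fun i => a i * b i)]
    refine Finset.sum_congr rfl fun i _ => ?_
    calc (((g.2 i : ℤ) : ℝ) * a (g.1 i)) * (((g.2 i : ℤ) : ℝ) * b (g.1 i))
        = (((g.2 i : ℤ) : ℝ) * ((g.2 i : ℤ) : ℝ)) * (a (g.1 i) * b (g.1 i)) := by ring
      _ = _ := by rw [poly_unit_sq, one_mul]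
  simp only [polyq, pow_two]
  rw [h, h, h]

theorem polyq_act_int (g : Sgn) (y d : Fin 3 → ℤ) :
    polyq (act g y) (act g d) = polyq y d := by
  have h := polyq_act g (fun i => (y i : ℝ)) (fun i => (d i : ℝ))
  have h2 : ((polyq (act g y) (act g d) : ℤ) : ℝ) = ((polyq y d : ℤ) : ℝ) := by
    rw [← polyq_cast, ← polyq_cast, ← h]
    simp [act]
  exact_mod_cast h2

/-- The product. -/
noncomputable def polyP : MvPolynomial (Fin 3) ℝ :=
  ∏ z : Fin 6 × Sgn, polyQ (act z.2 (dir z.1))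

theorem polyP_eval (y : Fin 3 → ℝ) : MvPolynomial.eval y polyP
    = ∏ z : Fin 6 × Sgn, polyq y (fun i => ((act z.2 (dir z.1) i : ℤ) : ℝ)) := by
  simp only [polyP, map_prod, poly_eval]

theorem polyP_eval_int (k : Fin 3 → ℤ) : MvPolynomial.eval (fun i => (k i : ℝ)) polyP
    = ∏ z : Fin 6 × Sgn, ((polyq k (act z.2 (dir z.1)) : ℤ) : ℝ) := by
  rw [polyP_eval]
  refine Finset.prod_congr rfl fun z _ => ?_
  rw [← polyq_cast]

theorem polyq_zero (k : Fin 3 → ℤ) (n : Fin 6) (h : polyq k (dir n) = 0) :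
    ∃ r : ℤ, k = r • dir n := by
  rw [polyq_cross] at h
  have a := sq_nonneg (k 1 * dir n 2 - k 2 * dir n 1)
  have b := sq_nonneg (k 2 * dir n 0 - k 0 * dir n 2)
  have c := sq_nonneg (k 0 * dir n 1 - k 1 * dir n 0)
  have a0 : k 1 * dir n 2 - k 2 * dir n 1 = 0 := by
    have : (k 1 * dir n 2 - k 2 * dir n 1) ^ 2 = 0 := by linarith
    exact pow_eq_zero_iff (two_ne_zero) |>.1 this
  have b0 : k 2 * dir n 0 - k 0 * dir n 2 = 0 := by
    have : (k 2 * dir n 0 - k 0 * dir n 2) ^ 2 = 0 := by linarith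
    exact pow_eq_zero_iff (two_ne_zero) |>.1 this
  have c0 : k 0 * dir n 1 - k 1 * dir n 0 = 0 := by
    have : (k 0 * dir n 1 - k 1 * dir n 0) ^ 2 = 0 := by linarith
    exact pow_eq_zero_iff (two_ne_zero) |>.1 this
  suffices hs : ∃ r : ℤ, k 0 = r * dir n 0 ∧ k 1 = r * dir n 1 ∧ k 2 = r * dir n 2 by
    obtain ⟨r, h0, h1, h2⟩ := hs
    refine ⟨r, ?_⟩
    funext i; fin_cases i
    · simpa using h0
    · simpa using h1
    · simpa using h2
  fin_cases n <;> simp [dir] at a0 b0 c0 ⊢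
  · exact ⟨by omega, k 2 - k 1, by omega, by omega⟩
  · exact ⟨5 * k 1 - 2 * k 2, by omega, by omega, by omega⟩
  · exact ⟨12 * k 0 - 7 * k 1, by omega, by omega, by omega⟩
  · exact ⟨by omega, 12 * k 1 - 7 * k 2, by omega, by omega⟩
  · exact ⟨7 * k 0 - 2 * k 2, by omega, by omega, by omega⟩
  · exact ⟨k 1 - k 0, by omega, by omega, by omega⟩

theorem polyq_pos (k : Fin 3 → ℤ) (hk : k ∉ Lam) (z : Fin 6 × Sgn) :
    1 ≤ polyq k (act z.2 (dir z.1)) := by
  have h0 : 0 ≤ polyq k (act z.2 (dir z.1)) := by rw [polyq_cross]; positivity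
  rcases h0.lt_or_eq with h | h
  · omega
  · exfalso
    apply hk
    have h1 : polyq (act (Sums.inv z.2) k) (dir z.1) = 0 := by
      rw [← polyq_act_int z.2, Sums.act_inv]; exact h.symm
    obtain ⟨r, hr⟩ := polyq_zero _ _ h1
    refine ⟨z.1, z.2, r, ?_⟩
    rw [← Sums.act_smul, ← hr, Sums.act_inv]

theorem poly_big (k : Fin 3 → ℤ) : ∃ z : Fin 6 × Sgn,
    k 0 ^ 2 + k 1 ^ 2 + k 2 ^ 2 ≤ polyq k (act z.2 (dir z.1)) := by
  by_contra hcon
  push Not at hcon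
  have h1 := hcon (0, (1, fun _ => 1))
  have h2 := hcon (0, (1, ![1, -1, 1]))
  have h3 := hcon (0, (Equiv.swap 0 1, fun _ => 1))
  rw [polyq_cross] at h1 h2 h3
  have e : (Equiv.swap (0 : Fin 3) 1) 2 = 2 := by decide
  simp [act, dir, e] at h1 h2 h3
  nlinarith [sq_nonneg (k 0), sq_nonneg (k 1), sq_nonneg (k 2)]

theorem claimPoly : ClaimPoly := by
  refine ⟨∑ z : Fin 6 × Sgn, 2, polyP, ?_, ?_, ?_, ?_, ?_⟩
  · exact MvPolynomial.IsHomogeneous.prod _ _ _ fun z _ => poly_hom _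
  · intro y
    rw [polyP_eval]
    exact Finset.prod_nonneg fun z _ => polyq_nonneg _ _
  · intro g y
    rw [polyP_eval, polyP_eval]
    have hz : ∀ z : Fin 6 × Sgn, polyq y (fun i => ((act z.2 (dir z.1) i : ℤ) : ℝ))
        = polyq (fun i => ((g.2 i : ℤ) : ℝ) * y (g.1 i))
          (fun i => ((act (Sums.cmp g z.2) (dir z.1) i : ℤ) : ℝ)) := by
      intro z
      rw [← polyq_act g]
      congr 1
      funext i
      rw [Sums.act_cmp]
      simp only [act]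
      push_cast
      ring
    rw [Finset.prod_congr rfl fun z _ => hz z]
    rw [Fintype.prod_prod_type, Fintype.prod_prod_type]
    refine Finset.prod_congr rfl fun n _ => ?_
    exact ((Sums.lmul g).prod_comp (fun h => polyq (fun i => ((g.2 i : ℤ) : ℝ) * y (g.1 i))
      (fun i => ((act h (dir n) i : ℤ) : ℝ)))).symm
  · rintro k ⟨n, g, r, rfl⟩
    rw [polyP_eval_int]
    have hn : dir n = dir ((⟨n % 6, Nat.mod_lt _ (by norm_num)⟩ : Fin 6) : ℕ) := by
      simp [dir]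
    refine Finset.prod_eq_zero (Finset.mem_univ
      ((⟨n % 6, Nat.mod_lt _ (by norm_num)⟩ : Fin 6), g)) ?_
    simp only [← hn]
    rw [polyq_cross]
    simp only [Pi.smul_apply, smul_eq_mul]
    push_cast
    ring
  · intro k hk
    rw [polyP_eval_int]
    obtain ⟨z0, hz0⟩ := poly_big k
    have h1 : ((polyq k (act z0.2 (dir z0.1)) : ℤ) : ℝ)
        ≤ ∏ z : Fin 6 × Sgn, ((polyq k (act z.2 (dir z.1)) : ℤ) : ℝ) := by
      have h2 : (∏ z : Fin 6 × Sgn, if z = z0 then ((polyq k (act z0.2 (dir z0.1)) : ℤ) : ℝ)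
          else 1) = ((polyq k (act z0.2 (dir z0.1)) : ℤ) : ℝ) := by
        rw [Finset.prod_ite_eq' Finset.univ z0]; simp
      rw [← h2]
      have h01 : ∀ z : Fin 6 × Sgn, (1 : ℝ) ≤ ((polyq k (act z.2 (dir z.1)) : ℤ) : ℝ) :=
        fun z => by exact_mod_cast polyq_pos k hk z
      refine Finset.prod_le_prod (fun z _ => ?_) (fun z _ => ?_)
      · split_ifs
        · linarith [h01 z0]
        · norm_num
      · split_ifs with h
        · rw [h]
        · exact h01 z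
    refine le_trans ?_ h1
    have hn : ‖vec k‖ ^ 2 = (k 0 : ℝ) ^ 2 + (k 1 : ℝ) ^ 2 + (k 2 : ℝ) ^ 2 := by
      rw [EuclideanSpace.norm_sq_eq]
      simp [vec, Fin.sum_univ_three]
    have hz1 : ‖vec k‖ ^ 2 ≤ ((polyq k (act z0.2 (dir z0.1)) : ℤ) : ℝ) := by
      rw [hn]; exact_mod_cast hz0
    refine le_trans ?_ hz1
    have hne : k 0 ^ 2 + k 1 ^ 2 + k 2 ^ 2 ≠ 0 := by
      intro h
      apply hk
      have h0 : k 0 = 0 := by nlinarith [sq_nonneg (k 0), sq_nonneg (k 1), sq_nonneg (k 2)]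
      have h1 : k 1 = 0 := by nlinarith [sq_nonneg (k 0), sq_nonneg (k 1), sq_nonneg (k 2)]
      have h2 : k 2 = 0 := by nlinarith [sq_nonneg (k 0), sq_nonneg (k 1), sq_nonneg (k 2)]
      refine ⟨0, (1, fun _ => 1), 0, ?_⟩
      funext i
      fin_cases i <;> simp [h0, h1, h2]
    have hge : 1 ≤ k 0 ^ 2 + k 1 ^ 2 + k 2 ^ 2 := by
      have : 0 ≤ k 0 ^ 2 + k 1 ^ 2 + k 2 ^ 2 := by positivity
      omega
    have hge2 : 1 ≤ ‖vec k‖ ^ 2 := by rw [hn]; exact_mod_cast hge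
    have hge3 : 1 ≤ ‖vec k‖ := by
      by_contra hlt
      push Not at hlt
      nlinarith [norm_nonneg (vec k)]
    calc ‖vec k‖ ^ (3 / 2 : ℝ) ≤ ‖vec k‖ ^ (2 : ℝ) :=
          Real.rpow_le_rpow_of_exponent_le hge3 (by norm_num)
      _ = ‖vec k‖ ^ 2 := by norm_cast

end Pool.Agent.Work.MP_b0497c_an.Damp
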