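import Mathlib
import Pool.Agent.Work.MP_b0497c_an.Bd.B21
import Pool.Agent.Work.MP_b0497c_an.Bd.B25
import Pool.Agent.Work.MP_b0497c_an.Dec.CubeInt
import Pool.Agent.Work.MP_b0497c_an.Damp.Stmts

set_option autoImplicit false

/-!
Signed permutations map solutions of the damped Euler equations to solutions; hence, by
uniqueness, the symmetry of the datum propagates.
-/

namespace Pool.Agent.Work.MP_b0497c_an.Damp

open Set MeasureTheory RealInnerProductSpace Pool.Agent.Work.MP_b0497c_an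
open Pool.Agent.Work.MP_b0497c_an.Dec

theorem symm_sq (u : ℤˣ) : ((u : ℤ) : ℝ) * ((u : ℤ) : ℝ) = 1 := by
  exact_mod_cast unit_mul_self u

theorem symm_left (g : Sgn) (x : E3) : actR g (actRi g x) = x := by
  ext i
  show ((g.2 i : ℤ) : ℝ) * (((g.2 (g.1.symm (g.1 i)) : ℤ) : ℝ) * x (g.1.symm (g.1 i))) = x i
  rw [Equiv.symm_apply_apply, ← mul_assoc, symm_sq, one_mul]

theorem symm_right (g : Sgn) (x : E3) : actRi g (actR g x) = x := by
  ext i
  show ((g.2 (g.1.symm i) : ℤ) : ℝ) * (((g.2 (g.1.symm i) : ℤ) : ℝ) * x (g.1 (g.1.symm i))) = x i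
  rw [Equiv.apply_symm_apply, ← mul_assoc, symm_sq, one_mul]

theorem symm_norm (g : Sgn) (x : E3) : ‖actR g x‖ = ‖x‖ := by
  rw [EuclideanSpace.norm_eq, EuclideanSpace.norm_eq]
  congr 1
  rw [← Equiv.sum_comp g.1 (fun i => ‖x i‖ ^ 2)]
  refine Finset.sum_congr rfl fun i _ => ?_
  show ‖((g.2 i : ℤ) : ℝ) * x (g.1 i)‖ ^ 2 = ‖x (g.1 i)‖ ^ 2
  rw [norm_mul, mul_pow, Real.norm_eq_abs ((g.2 i : ℤ) : ℝ), sq_abs, sq, symm_sq, one_mul]

/-- A signed permutation as a linear isometry. -/
noncomputable def symm_A (g : Sgn) : E3 ≃ₗᵢ[ℝ] E3 where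
  toFun := actR g
  invFun := actRi g
  map_add' x y := by
    ext i
    show ((g.2 i : ℤ) : ℝ) * (x (g.1 i) + y (g.1 i)) =
      ((g.2 i : ℤ) : ℝ) * x (g.1 i) + ((g.2 i : ℤ) : ℝ) * y (g.1 i)
    ring
  map_smul' r x := by
    ext i
    show ((g.2 i : ℤ) : ℝ) * (r * x (g.1 i)) = r * (((g.2 i : ℤ) : ℝ) * x (g.1 i))
    ring
  left_inv := symm_right g
  right_inv := symm_left g
  norm_map' := symm_norm g

theorem symm_A_apply (g : Sgn) (x : E3) : symm_A g x = actR g x := rfl

theorem symm_A_symm_apply (g : Sgn) (x : E3) : (symm_A g).symm x = actR (inv' g) x := rfl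

theorem symm_e (g : Sgn) (i : Fin 3) :
    actR g (e i) = ((g.2 (g.1.symm i) : ℤ) : ℝ) • e (g.1.symm i) := by
  ext j
  show ((g.2 j : ℤ) : ℝ) * (e i) (g.1 j) = ((g.2 (g.1.symm i) : ℤ) : ℝ) * (e (g.1.symm i)) j
  by_cases h : g.1 j = i
  · subst h
    rw [Equiv.symm_apply_apply]
    simp [e]
  · have h' : j ≠ g.1.symm i := by
      intro hj
      apply h
      rw [hj, Equiv.apply_symm_apply]
    simp [e, h, h']

theorem symm_per {F : Type} {f : E3 → F} (hf : Periodic3 f) (g : Sgn) :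
    Periodic3 (fun x => f (actR g x)) := by
  intro i x
  show f (actR g (x + (2 * Real.pi) • e i)) = f (actR g x)
  have h1 : actR g (x + (2 * Real.pi) • e i) = actR g x + (2 * Real.pi) • actR g (e i) := by
    rw [← symm_A_apply, map_add, map_smul]
    rfl
  rw [h1, symm_e]
  rcases Int.units_eq_one_or (g.2 (g.1.symm i)) with h | h
  · rw [h]
    simp only [Units.val_one, Int.cast_one, one_smul]
    exact hf _ _
  · rw [h]
    have h2 := hf (g.1.symm i) (actR g x - (2 * Real.pi) • e (g.1.symm i))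
    rw [sub_add_cancel] at h2
    rw [h2]
    congr 1
    simp [sub_eq_add_neg]

theorem symm_vec (g : Sgn) (k : Fin 3 → ℤ) : actR g (vec k) = vec (act g k) := by
  ext i
  show ((g.2 i : ℤ) : ℝ) * (vec k) (g.1 i) = (vec (act g k)) i
  have h : ∀ (l : Fin 3 → ℤ) (j : Fin 3), (vec l) j = (l j : ℝ) := by
    intro l j
    fin_cases j <;> simp [vec]
  rw [h, h]
  simp [act]

theorem symm_phase (g : Sgn) (k : Fin 3 → ℤ) (x : E3) :
    phase k x = phase (act (inv' g) k) (actR (inv' g) x) := by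
  rw [phase_eq_inner, phase_eq_inner, ← symm_vec, ← symm_A_symm_apply, ← symm_A_symm_apply,
    LinearIsometryEquiv.inner_map_map]

variable {D : (Fin 3 → ℤ) → ℝ} {T : ℝ} {u : ℝ → E3 → E3}

theorem symm_diff (h : IsDampedSolution D T u) {t : ℝ} (ht : t ∈ Ico 0 T) (x : E3) :
    DifferentiableAt ℝ (u t) x := by
  have h1 : DifferentiableWithinAt ℝ (fun z : ℝ × E3 => u z.1 z.2) (Ico 0 T ×ˢ univ) (t, x) :=
    h.contDiff_u.differentiableOn (by norm_num) (t, x) ⟨ht, mem_univ _⟩
  have h2 : DifferentiableWithinAt ℝ (fun y : E3 => (t, y)) univ x :=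
    ((differentiableAt_const t).prodMk differentiableAt_id).differentiableWithinAt
  have h3 := DifferentiableWithinAt.comp x h1 h2 (fun y _ => ⟨ht, mem_univ _⟩)
  rw [differentiableWithinAt_univ] at h3
  exact h3

theorem symm_fderiv (h : IsDampedSolution D T u) {t : ℝ} (ht : t ∈ Ico 0 T)
    (A : E3 ≃ₗᵢ[ℝ] E3) (x : E3) :
    fderiv ℝ (fun x => A (u t (A.symm x))) x =
      (A.toContinuousLinearEquiv : E3 →L[ℝ] E3).comp ((fderiv ℝ (u t) (A.symm x)).comp
        (A.symm.toContinuousLinearEquiv : E3 →L[ℝ] E3)) := by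
  have h1 : HasFDerivAt (u t) (fderiv ℝ (u t) (A.symm x)) (A.symm x) :=
    (symm_diff h ht (A.symm x)).hasFDerivAt
  have h2 : HasFDerivAt (fun x => A.symm x) (A.symm.toContinuousLinearEquiv : E3 →L[ℝ] E3) x :=
    (A.symm.toContinuousLinearEquiv : E3 →L[ℝ] E3).hasFDerivAt
  have h3 := HasFDerivAt.comp x h1 h2
  have h4 : HasFDerivAt (fun x => A x) (A.toContinuousLinearEquiv : E3 →L[ℝ] E3)
      ((u t ∘ fun x => A.symm x) x) :=
    (A.toContinuousLinearEquiv : E3 →L[ℝ] E3).hasFDerivAt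
  exact (HasFDerivAt.comp x h4 h3).fderiv

theorem symm_deriv (h : IsDampedSolution D T u) {t : ℝ} (ht : t ∈ Ico 0 T)
    (A : E3 ≃ₗᵢ[ℝ] E3) (x : E3) :
    derivWithin (fun s => A (u s (A.symm x))) (Ico 0 T) t =
      A (derivWithin (fun s => u s (A.symm x)) (Ico 0 T) t) := by
  have h1 := hasDerivWithinAt_along h.contDiff_u (I := Ico 0 T) (Subset.refl _)
    (t := t) ht (X := fun _ => A.symm x) (X' := 0) (hasDerivWithinAt_const _ _ _)
  simp only [map_zero, add_zero] at h1
  have h2 := (A.toContinuousLinearEquiv : E3 →L[ℝ] E3).hasFDerivAt.comp_hasDerivWithinAt t h1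
  exact h2.derivWithin (uniqueDiffOn_Ico 0 T t ht)

theorem symm_acc (h : IsDampedSolution D T u) {t : ℝ} (ht : t ∈ Ico 0 T)
    (A : E3 ≃ₗᵢ[ℝ] E3) (x : E3) :
    acc T (fun t x => A (u t (A.symm x))) t x = A (acc T u t (A.symm x)) := by
  unfold acc
  rw [symm_deriv h ht A x, symm_fderiv h ht A x, map_add]
  congr 1
  show A (fderiv ℝ (u t) (A.symm x) (A.symm (A (u t (A.symm x))))) = _
  rw [LinearIsometryEquiv.symm_apply_apply]

theorem symm_cont_u (h : IsDampedSolution D T u) {t : ℝ} (ht : t ∈ Ico 0 T) :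
    Continuous (u t) := by
  rw [continuous_iff_continuousAt]
  exact fun x => (symm_diff h ht x).continuousAt

theorem symm_cont_acc (h : IsDampedSolution D T u) {t : ℝ} (ht : t ∈ Ico 0 T) :
    Continuous (acc T u t) := by
  have c3 : Continuous (fun x : E3 => (t, x)) := by fun_prop
  have c4 : ContinuousOn ((fun z : ℝ × E3 => derivWithin (fun s => u s z.2) (Ico 0 T) z.1)
      ∘ (fun x : E3 => (t, x))) univ :=
    ContinuousOn.comp (continuousOn_derivWithin h.contDiff_u) c3.continuousOn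
      (fun x _ => ⟨ht, mem_univ _⟩)
  have c5 : ContinuousOn ((fun z : ℝ × E3 => fderiv ℝ (u z.1) z.2)
      ∘ (fun x : E3 => (t, x))) univ :=
    ContinuousOn.comp (continuousOn_fderiv h.contDiff_u) c3.continuousOn
      (fun x _ => ⟨ht, mem_univ _⟩)
  exact (continuousOn_univ.mp c4).add
    ((continuousOn_univ.mp c5).clm_apply (symm_cont_u h ht))

theorem symm_per_acc (h : IsDampedSolution D T u) {t : ℝ} (ht : t ∈ Ico 0 T) :
    Periodic3 (acc T u t) := by
  intro i x
  unfold acc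
  rw [(h.periodic t ht).fderiv i x, h.periodic t ht i x]
  congr 1
  apply derivWithin_congr
  · intro s hs
    exact h.periodic s hs i x
  · exact h.periodic t ht i x

theorem symm_int (hC : ClaimCubeInv) (g : Sgn) {φ : ℝ → ℝ} (hφ : Continuous φ)
    (hper : ∀ k, Periodic3 (fun x => φ (phase k x))) {f : E3 → E3} (hf : Continuous f)
    (hfp : Periodic3 f) (k : Fin 3 → ℤ) (c : E3) :
    ∫ x in cube, φ (phase k x) * ⟪symm_A g (f ((symm_A g).symm x)), c⟫ =
      ∫ x in cube, φ (phase (act (inv' g) k) x) * ⟪f x, (symm_A g).symm c⟫ := by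
  have h1 := hC (fun x => φ (phase (act (inv' g) k) x) * ⟪f x, (symm_A g).symm c⟫)
    ((hφ.comp (continuous_phase _)).mul (hf.inner continuous_const))
    (fun i x => by
      have a1 := hper (act (inv' g) k) i x
      have a2 := hfp i x
      simp only at a1 ⊢
      rw [a1, a2]) (inv' g)
  rw [← h1]
  congr 1
  funext x
  have h2 : ⟪symm_A g (f ((symm_A g).symm x)), c⟫ =
      ⟪f (actR (inv' g) x), (symm_A g).symm c⟫ := by
    rw [← LinearIsometryEquiv.inner_map_map (symm_A g) (f (actR (inv' g) x)),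
      LinearIsometryEquiv.apply_symm_apply]
    rfl
  rw [h2, symm_phase g k x]

theorem symm_sol (hC : ClaimCubeInv) (hD : ∀ g k, D (act g k) = D k)
    (h : IsDampedSolution D T u) (g : Sgn) :
    IsDampedSolution D T (fun t x => symm_A g (u t ((symm_A g).symm x))) := by
  have hck : ∀ (k : Fin 3 → ℤ) (c : E3), ⟪vec k, c⟫ = 0 →
      ⟪vec (act (inv' g) k), (symm_A g).symm c⟫ = 0 := by
    intro k c hkc
    rw [← symm_vec, ← symm_A_symm_apply, LinearIsometryEquiv.inner_map_map]
    exact hkc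
  refine ⟨?_, ?_, ?_, ?_, ?_⟩
  · have h1 : ContDiff ℝ 1 (fun z : ℝ × E3 => (z.1, (symm_A g).symm z.2)) :=
      contDiff_fst.prodMk ((symm_A g).symm.contDiff.comp contDiff_snd)
    have h2 : ContDiffOn ℝ 1 ((fun z : ℝ × E3 => u z.1 z.2) ∘
        (fun z : ℝ × E3 => (z.1, (symm_A g).symm z.2))) (Ico 0 T ×ˢ univ) :=
      h.contDiff_u.comp h1.contDiffOn (fun z hz => ⟨hz.1, mem_univ _⟩)
    exact (symm_A g).contDiff.comp_contDiffOn h2
  · intro t ht i x
    have h1 := symm_per (h.periodic t ht) (inv' g) i x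
    exact congrArg (symm_A g) h1
  · intro t ht x
    have h1 := symm_fderiv h ht (symm_A g) x
    rw [h1]
    have h2 := LinearMap.trace_conj' (R := ℝ) ((fderiv ℝ (u t) ((symm_A g).symm x)) : E3 →ₗ[ℝ] E3)
      (symm_A g).toLinearEquiv
    rw [h.div_free t ht] at h2
    rw [← h2]
    rfl
  · intro t ht k c hkc
    have e1 : ∀ x : E3, ⟪derivWithin (fun s => symm_A g (u s ((symm_A g).symm x))) (Ico 0 T) t +
        fderiv ℝ (fun x => symm_A g (u t ((symm_A g).symm x))) x
          (symm_A g (u t ((symm_A g).symm x))), c⟫ =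
        ⟪symm_A g (acc T u t ((symm_A g).symm x)), c⟫ := by
      intro x
      rw [← symm_acc h ht (symm_A g) x]
      rfl
    simp only [e1]
    rw [symm_int hC g Real.continuous_cos cos_phase_periodic (symm_cont_acc h ht)
      (symm_per_acc h ht), symm_int hC g Real.continuous_cos cos_phase_periodic
      (symm_cont_u h ht) (h.periodic t ht), ← hD (inv' g) k]
    exact h.cos_eq t ht _ _ (hck k c hkc)
  · intro t ht k c hkc
    have e1 : ∀ x : E3, ⟪derivWithin (fun s => symm_A g (u s ((symm_A g).symm x))) (Ico 0 T) t +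
        fderiv ℝ (fun x => symm_A g (u t ((symm_A g).symm x))) x
          (symm_A g (u t ((symm_A g).symm x))), c⟫ =
        ⟪symm_A g (acc T u t ((symm_A g).symm x)), c⟫ := by
      intro x
      rw [← symm_acc h ht (symm_A g) x]
      rfl
    simp only [e1]
    rw [symm_int hC g Real.continuous_sin sin_phase_periodic (symm_cont_acc h ht)
      (symm_per_acc h ht), symm_int hC g Real.continuous_sin sin_phase_periodic
      (symm_cont_u h ht) (h.periodic t ht), ← hD (inv' g) k]
    exact h.sin_eq t ht _ _ (hck k c hkc)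

/-- S2. -/
theorem claimSymm (hU : ClaimUnique) (hC : ClaimCubeInv) : ClaimSymm := by
  intro D T u hD0 hD hu _ h0 t ht g x
  have hw := symm_sol hC hD hu g
  have h1 := hU D T T _ _ hD0 hw hu (fun y => by
    show symm_A g (u 0 ((symm_A g).symm y)) = u 0 y
    have h2 := h0 g ((symm_A g).symm y)
    rw [← symm_A_apply, ← symm_A_apply, LinearIsometryEquiv.apply_symm_apply] at h2
    exact h2.symm) t (by rwa [min_self]) (actR g x)
  rw [← h1]
  show symm_A g (u t ((symm_A g).symm (symm_A g x))) = actR g (u t x)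
  rw [LinearIsometryEquiv.symm_apply_apply]
  rfl

end Pool.Agent.Work.MP_b0497c_an.Damp
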